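import Pool.Agent.Work.MP_bb6995_co.Defs

/-! Bundle of small proof modules (one section per former module). -/

section

namespace Pool.Agent.BagR

open Finset

namespace BagAux

variable {p k : ℕ}

lemma adj_ll {i j : Fin p} : (bag p k).Adj (.inl i) (.inl j) ↔
    i ≠ j ∧ (k = 2 ∨ ¬ ((i.val = 0 ∧ j.val = 1) ∨ (i.val = 1 ∧ j.val = 0))) := by
  unfold bag
  rw [SimpleGraph.fromRel_adj]
  simp only [ne_eq, Sum.inl.injEq]
  constructor
  · rintro ⟨h1, h2⟩
    refine ⟨h1, ?_⟩
    rcases h2 with h2 | h2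
    · exact h2
    · tauto
  · rintro ⟨h1, h2⟩
    exact ⟨h1, Or.inl h2⟩

lemma adj_lr {i : Fin p} {j : Fin (k - 2)} : (bag p k).Adj (.inl i) (.inr j) ↔
    (i.val = 0 ∧ j.val = 0) ∨ (i.val = 1 ∧ j.val = k - 3) := by
  unfold bag
  rw [SimpleGraph.fromRel_adj]
  simp

lemma adj_rr {i j : Fin (k - 2)} : (bag p k).Adj (.inr i) (.inr j) ↔
    j.val = i.val + 1 ∨ i.val = j.val + 1 := by
  unfold bag
  rw [SimpleGraph.fromRel_adj]
  simp only [ne_eq, Sum.inr.injEq]
  constructor
  · rintro ⟨h1, h2⟩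
    exact h2
  · intro h
    refine ⟨?_, h⟩
    rintro rfl
    omega

lemma reach_inr (hp : 2 ≤ p) (t : ℕ) : ∀ (ht : t < k - 2),
    (bag p k).Reachable (.inl ⟨0, by omega⟩) (.inr ⟨t, ht⟩) := by
  induction t with
  | zero =>
    intro ht
    apply SimpleGraph.Adj.reachable
    rw [adj_lr]
    left
    exact ⟨rfl, rfl⟩
  | succ t ih =>
    intro ht
    refine (ih (by omega)).trans ?_
    apply SimpleGraph.Adj.reachable
    rw [adj_rr]
    left
    rfl

lemma reach (hp : 2 ≤ p) (hk : 2 ≤ k) (x : Fin p ⊕ Fin (k - 2)) :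
    (bag p k).Reachable (.inl ⟨0, by omega⟩) x := by
  rcases x with i | j
  · rcases Nat.lt_or_ge i.val 1 with h0 | h0
    · have : i = ⟨0, by omega⟩ := Fin.ext (by simp; omega)
      rw [this]
    · rcases Nat.lt_or_ge i.val 2 with h1 | h1
      · have hi : i.val = 1 := by omega
        rcases Nat.lt_or_ge k 3 with h2 | h2
        · apply SimpleGraph.Adj.reachable
          rw [adj_ll]
          refine ⟨?_, Or.inl (by omega)⟩
          intro h
          rw [← h] at hi
          simp at hi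
        · refine (reach_inr hp (k - 3) (by omega)).trans ?_
          apply SimpleGraph.Adj.reachable
          apply SimpleGraph.Adj.symm
          rw [adj_lr]
          right
          exact ⟨hi, rfl⟩
      · apply SimpleGraph.Adj.reachable
        rw [adj_ll]
        refine ⟨?_, Or.inr ?_⟩
        · intro h
          rw [← h] at h1
          simp at h1
        · rintro (⟨_, h⟩ | ⟨h, _⟩)
          · omega
          · simp at h
  · exact reach_inr hp j.val j.isLt

end BagAux

open BagAux

/-- I10 -/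
theorem bag_conn {p k : ℕ} (hp : 2 ≤ p) (hk : 2 ≤ k) : (bag p k).Connected := by
  have : Nonempty (Fin p ⊕ Fin (k - 2)) := ⟨.inl ⟨0, by omega⟩⟩
  refine ⟨?_⟩
  intro x y
  exact (reach hp hk x).symm.trans (reach hp hk y)

namespace BagAux

/-- the position on the cycle -/
def pos (p k : ℕ) : Fin p ⊕ Fin (k - 2) → ℕ
  | .inl i => if i.val = 0 then 1 else if i.val = 1 then k else 0
  | .inr j => 2 + j.val

variable {p k : ℕ}

lemma pos_le (hk : 3 ≤ k) (x : Fin p ⊕ Fin (k - 2)) : pos p k x ≤ k := by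
  rcases x with i | j
  · simp only [pos]
    split_ifs <;> omega
  · simp only [pos]
    have := j.isLt
    omega

lemma exists_pos (hp : 3 ≤ p) (hk : 3 ≤ k) {t : ℕ} (ht : t ≤ k) : ∃ x, pos p k x = t := by
  rcases Nat.eq_zero_or_pos t with h0 | h0
  · exact ⟨.inl ⟨2, by omega⟩, by simp [pos, h0]⟩
  · rcases Nat.lt_or_ge t 2 with h1 | h1
    · exact ⟨.inl ⟨0, by omega⟩, by simp [pos]; omega⟩
    · rcases Nat.lt_or_ge t k with h2 | h2
      · exact ⟨.inr ⟨t - 2, by omega⟩, by simp [pos]; omega⟩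
      · exact ⟨.inl ⟨1, by omega⟩, by simp [pos]; omega⟩

lemma adj_succ (hk : 3 ≤ k) {x y : Fin p ⊕ Fin (k - 2)} (h : pos p k y = pos p k x + 1) :
    (bag p k).Adj x y := by
  rcases x with i | i <;> rcases y with j | j
  · rw [adj_ll]
    simp only [pos] at h
    constructor
    · rintro rfl
      omega
    · right
      rintro (⟨h1, h2⟩ | ⟨h1, h2⟩)
      · rw [if_neg (by omega), if_pos h2, if_pos h1] at h
        omega
      · rw [if_pos h2, if_neg (by omega), if_pos h1] at h
        omega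
  · rw [adj_lr]
    simp only [pos] at h
    have := j.isLt
    split_ifs at h with h1 h2
    · left
      omega
    · right
      omega
    · omega
  · apply SimpleGraph.Adj.symm
    rw [adj_lr]
    simp only [pos] at h
    have := i.isLt
    split_ifs at h with h1 h2
    · omega
    · right
      omega
  · rw [adj_rr]
    simp only [pos] at h
    left
    omega

lemma adj_wrap (hk : 3 ≤ k) {x y : Fin p ⊕ Fin (k - 2)} (hx : pos p k x = k)
    (hy : pos p k y = 0) : (bag p k).Adj x y := by
  rcases x with i | i <;> rcases y with j | j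
  · rw [adj_ll]
    simp only [pos] at hx hy
    split_ifs at hx hy with h1 h2 h3 h4
    all_goals omega
  · simp only [pos] at hy
    omega
  · simp only [pos] at hx
    have := i.isLt
    omega
  · simp only [pos] at hy
    omega

lemma dist_same (hk : 3 ≤ k) {x y : Fin p ⊕ Fin (k - 2)} (h : pos p k x = pos p k y) :
    (bag p k).dist x y ≤ 1 := by
  by_cases hxy : x = y
  · rw [hxy, SimpleGraph.dist_self]
    omega
  have hadj : (bag p k).Adj x y := by
    rcases x with i | i <;> rcases y with j | j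
    · rw [adj_ll]
      have hij : i ≠ j := fun h' => hxy (by rw [h'])
      have hij' : i.val ≠ j.val := fun h' => hij (Fin.ext h')
      refine ⟨hij, Or.inr ?_⟩
      simp only [pos] at h
      rintro (⟨h1, h2⟩ | ⟨h1, h2⟩)
      · rw [if_pos h1, if_neg (by omega), if_pos h2] at h
        omega
      · rw [if_neg (by omega), if_pos h1, if_pos h2] at h
        omega
    · simp only [pos] at h
      have := j.isLt
      split_ifs at h <;> omega
    · simp only [pos] at h
      have := i.isLt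
      split_ifs at h <;> omega
    · exfalso
      apply hxy
      simp only [pos] at h
      congr 1
      exact Fin.ext (by omega)
  exact (SimpleGraph.dist_eq_one_iff_adj.2 hadj).le

lemma dist_up (hp : 3 ≤ p) (hk : 3 ≤ k) (d : ℕ) : ∀ x y : Fin p ⊕ Fin (k - 2),
    pos p k y = pos p k x + d + 1 → (bag p k).dist x y ≤ d + 1 := by
  induction d with
  | zero =>
    intro x y h
    exact (SimpleGraph.dist_eq_one_iff_adj.2 (adj_succ hk (by omega))).le
  | succ d ih =>
    intro x y h
    obtain ⟨y', hy'⟩ := exists_pos hp hk (t := pos p k x + d + 1)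
      (by have := pos_le hk y; omega)
    have h1 := ih x y' hy'
    have h2 : (bag p k).dist y' y = 1 :=
      SimpleGraph.dist_eq_one_iff_adj.2 (adj_succ hk (by omega))
    have h3 := (bag_conn (p := p) (k := k) (by omega) (by omega)).dist_triangle
      (u := x) (v := y') (w := y)
    omega

lemma dist_up' (hp : 3 ≤ p) (hk : 3 ≤ k) {x y : Fin p ⊕ Fin (k - 2)}
    (h : pos p k x < pos p k y) : (bag p k).dist x y ≤ pos p k y - pos p k x := by
  have := dist_up hp hk (pos p k y - pos p k x - 1) x y (by omega)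
  omega

lemma dist_wrap (hp : 3 ≤ p) (hk : 3 ≤ k) {x y : Fin p ⊕ Fin (k - 2)}
    (h : pos p k x < pos p k y) :
    (bag p k).dist x y ≤ k + 1 - (pos p k y - pos p k x) := by
  have hC := bag_conn (p := p) (k := k) (by omega) (by omega)
  have hyk := pos_le hk y
  obtain ⟨z, hz1, hz2⟩ : ∃ z, pos p k z = k ∧ (bag p k).dist y z ≤ k - pos p k y := by
    rcases Nat.lt_or_ge (pos p k y) k with h1 | h1
    · obtain ⟨z, hz⟩ := exists_pos hp hk (le_refl k)
      refine ⟨z, hz, ?_⟩
      have := dist_up' hp hk (x := y) (y := z) (by omega)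
      omega
    · exact ⟨y, by omega, by rw [SimpleGraph.dist_self]; omega⟩
  obtain ⟨w, hw1, hw2⟩ : ∃ w, pos p k w = 0 ∧ (bag p k).dist w x ≤ pos p k x := by
    rcases Nat.eq_zero_or_pos (pos p k x) with h1 | h1
    · exact ⟨x, h1, by rw [SimpleGraph.dist_self]; omega⟩
    · obtain ⟨w, hw⟩ := exists_pos hp hk (Nat.zero_le k)
      refine ⟨w, hw, ?_⟩
      have := dist_up' hp hk (x := w) (y := x) (by omega)
      omega
  have h1 : (bag p k).dist z w = 1 := SimpleGraph.dist_eq_one_iff_adj.2 (adj_wrap hk hz1 hw1)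
  have h2 := hC.dist_triangle (u := y) (v := z) (w := x)
  have h3 := hC.dist_triangle (u := z) (v := w) (w := x)
  have h4 : (bag p k).dist x y = (bag p k).dist y x := SimpleGraph.dist_comm
  omega

/-- the position modulo `k + 1` -/
def phi (p k : ℕ) (x : Fin p ⊕ Fin (k - 2)) : ZMod (k + 1) := (pos p k x : ZMod (k + 1))

/-- cyclic distance minus one -/
def cyc (k : ℕ) (z : ZMod (k + 1)) : ℕ := min z.val (k + 1 - z.val) - 1

lemma dist_le_cyc (hp : 3 ≤ p) (hk : 3 ≤ k) (x y : Fin p ⊕ Fin (k - 2)) :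
    (bag p k).dist x y - 1 ≤ cyc k (phi p k y - phi p k x) := by
  have hx := pos_le hk x
  have hy := pos_le hk y
  rcases lt_trichotomy (pos p k x) (pos p k y) with h | h | h
  · have h1 : (phi p k y - phi p k x).val = pos p k y - pos p k x := by
      unfold phi
      rw [← Nat.cast_sub h.le, ZMod.val_cast_of_lt (by omega)]
    have h2 := dist_up' hp hk h
    have h3 := dist_wrap hp hk h
    unfold cyc
    rw [h1]
    omega
  · have := dist_same (p := p) hk h
    omega
  · have h1 : (phi p k y - phi p k x).val = k + 1 - (pos p k x - pos p k y) := by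
      have e1 : phi p k y - phi p k x = ((k + 1 - (pos p k x - pos p k y) : ℕ) : ZMod (k + 1)) := by
        unfold phi
        rw [Nat.cast_sub (by omega), Nat.cast_sub h.le, ZMod.natCast_self]
        ring
      rw [e1, ZMod.val_cast_of_lt (by omega)]
    have h2 := dist_up' hp hk h
    have h3 := dist_wrap hp hk h
    have h4 : (bag p k).dist x y = (bag p k).dist y x := SimpleGraph.dist_comm
    unfold cyc
    rw [h1, h4]
    omega

lemma cyc_zero (k : ℕ) : cyc k 0 = 0 := by
  unfold cyc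
  simp

lemma sum_zmod (k : ℕ) (f : ZMod (k + 1) → ℕ) :
    ∑ z, f z = ∑ t ∈ range (k + 1), f (t : ZMod (k + 1)) := by
  rw [← Fin.sum_univ_eq_sum_range (fun t => f (t : ZMod (k + 1))) (k + 1)]
  apply Finset.sum_congr rfl
  intro z _
  congr 1
  exact (ZMod.natCast_zmod_val z).symm

lemma range_split (q : ℕ) (g : ℕ → ℕ) : ∑ t ∈ range (2 * q + 3 + 1), g t
    = g 0 + g 1 + ∑ t ∈ range (2 * q + 1), g (2 + t) + g (2 + (2 * q + 1)) := by
  have h2 : 2 * q + 3 + 1 = 2 + (2 * q + 1) + 1 := by ring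
  rw [h2, Finset.sum_range_succ, Finset.sum_range_add g 2 (2 * q + 1)]
  congr 2

lemma sum_pos (m q : ℕ) (f : ZMod (2 * q + 3 + 1) → ℕ) :
    ∑ x, f (phi (m + 3) (2 * q + 3) x) = ∑ z, f z + m * f 0 := by
  rw [Fintype.sum_sum_type, Fin.sum_univ_succ, Fin.sum_univ_succ, sum_zmod,
    range_split q (fun t => f (t : ZMod (2 * q + 3 + 1)))]
  have h1 : ∑ j : Fin (2 * q + 3 - 2), f (phi (m + 3) (2 * q + 3) (.inr j))
      = ∑ t ∈ range (2 * q + 1), f ((2 + t : ℕ) : ZMod (2 * q + 3 + 1)) := by
    have := Fin.sum_univ_eq_sum_range (fun t => f ((2 + t : ℕ) : ZMod (2 * q + 3 + 1)))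
      (2 * q + 3 - 2)
    exact this
  rw [h1]
  have h3 : phi (m + 3) (2 * q + 3) (.inl 0) = ((1 : ℕ) : ZMod (2 * q + 3 + 1)) := by
    simp [phi, pos]
  have h4 : phi (m + 3) (2 * q + 3) (.inl (Fin.succ 0)) =
      ((2 + (2 * q + 1) : ℕ) : ZMod (2 * q + 3 + 1)) := by
    unfold phi
    congr 1
    simp [pos]
    ring
  have h5 : ∀ i : Fin (m + 1), phi (m + 3) (2 * q + 3) (.inl i.succ.succ) = 0 := by
    intro i
    simp [phi, pos]
  rw [h3, h4]
  simp only [h5, Finset.sum_const, Finset.card_univ, Fintype.card_fin, smul_eq_mul, Nat.cast_zero]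
  ring

lemma sum_sq (q : ℕ) : ∑ t ∈ range (2 * q + 3 + 1), (min t (2 * q + 3 + 1 - t) - 1)
    = (q + 1) ^ 2 := by
  have h0 : 2 * q + 3 + 1 = (q + 2) + (q + 2) := by ring
  rw [h0, Finset.sum_range_add]
  have h1 : ∑ t ∈ range (q + 2), (min t (q + 2 + (q + 2) - t) - 1)
      = ∑ t ∈ range (q + 2), (t - 1) := by
    apply Finset.sum_congr rfl
    intro t ht
    have := Finset.mem_range.1 ht
    rw [min_eq_left (by omega)]
  have h2 : ∑ t ∈ range (q + 2), (min (q + 2 + t) (q + 2 + (q + 2) - (q + 2 + t)) - 1)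
      = ∑ t ∈ range (q + 2), (q + 2 - 1 - t) := by
    apply Finset.sum_congr rfl
    intro t ht
    have := Finset.mem_range.1 ht
    rw [min_eq_right (by omega)]
    omega
  rw [h1, h2, Finset.sum_range_reflect (fun t => t) (q + 2)]
  have h3 : ∀ q : ℕ, (∑ t ∈ range (q + 2), (t - 1)) * 2 = (q + 1) * q := by
    intro q
    induction q with
    | zero => decide
    | succ q ih =>
      rw [Finset.sum_range_succ, add_mul, ih]
      have : q + 2 - 1 = q + 1 := by omega
      rw [this]
      ring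
  have h4 := Finset.sum_range_id_mul_two (q + 2)
  have h5 := h3 q
  have h6 : q + 2 - 1 = q + 1 := by omega
  rw [h6] at h4
  nlinarith

lemma sum_cyc (q : ℕ) : ∑ z, cyc (2 * q + 3) z = (q + 1) ^ 2 := by
  rw [sum_zmod, ← sum_sq q]
  apply Finset.sum_congr rfl
  intro t ht
  have := Finset.mem_range.1 ht
  unfold cyc
  rw [ZMod.val_cast_of_lt this]

lemma exo_le (m q : ℕ) : exo (bag (m + 3) (2 * q + 3)) ≤
    (2 * q + 4 + m + m) * (q + 1) ^ 2 := by
  have h1 : exo (bag (m + 3) (2 * q + 3)) ≤ ∑ x, ∑ y,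
      cyc (2 * q + 3) (phi (m + 3) (2 * q + 3) y - phi (m + 3) (2 * q + 3) x) := by
    unfold exo
    apply Finset.sum_le_sum
    intro x _
    apply Finset.sum_le_sum
    intro y _
    exact dist_le_cyc (by omega) (by omega) x y
  refine h1.trans (le_of_eq ?_)
  have h2 : ∀ x, ∑ y, cyc (2 * q + 3) (phi (m + 3) (2 * q + 3) y - phi (m + 3) (2 * q + 3) x)
      = (q + 1) ^ 2 + m * cyc (2 * q + 3) (-phi (m + 3) (2 * q + 3) x) := by
    intro x
    have h3 : ∑ z, cyc (2 * q + 3) (z - phi (m + 3) (2 * q + 3) x)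
        = ∑ z, cyc (2 * q + 3) z :=
      Equiv.sum_comp (Equiv.subRight (phi (m + 3) (2 * q + 3) x)) (cyc (2 * q + 3))
    rw [sum_pos m q (fun z => cyc (2 * q + 3) (z - phi (m + 3) (2 * q + 3) x)), zero_sub,
      h3, sum_cyc]
  have h4 : ∑ z, cyc (2 * q + 3) (-z) = ∑ z, cyc (2 * q + 3) z :=
    Equiv.sum_comp (Equiv.neg (ZMod (2 * q + 3 + 1))) (cyc (2 * q + 3))
  simp only [h2]
  rw [Finset.sum_add_distrib, ← Finset.mul_sum,
    sum_pos m q (fun z => cyc (2 * q + 3) (-z)), neg_zero, cyc_zero, h4, sum_cyc,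
    Finset.sum_const, Finset.card_univ, Fintype.card_sum, Fintype.card_fin, Fintype.card_fin]
  have : 2 * q + 3 - 2 = 2 * q + 1 := by omega
  rw [this, smul_eq_mul]
  ring

lemma step (hk : 3 ≤ k) {x y : Fin p ⊕ Fin (k - 2)} (h : (bag p k).Adj x y) :
    ∃ t : ℤ, |t| ≤ 1 ∧ phi p k y = phi p k x + (t : ZMod (k + 1)) := by
  have key : pos p k y = pos p k x ∨ pos p k y = pos p k x + 1 ∨ pos p k x = pos p k y + 1 ∨
      (pos p k x = k ∧ pos p k y = 0) ∨ (pos p k x = 0 ∧ pos p k y = k) := by
    rcases x with i | i <;> rcases y with j | j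
    · rw [adj_ll] at h
      obtain ⟨h1, h2⟩ := h
      have h3 : i.val ≠ j.val := fun h' => h1 (Fin.ext h')
      simp only [pos]
      split_ifs <;> omega
    · rw [adj_lr] at h
      simp only [pos]
      rcases h with ⟨h1, h2⟩ | ⟨h1, h2⟩
      · rw [if_pos h1]
        omega
      · rw [if_neg (by omega), if_pos h1]
        omega
    · rw [SimpleGraph.adj_comm, adj_lr] at h
      simp only [pos]
      rcases h with ⟨h1, h2⟩ | ⟨h1, h2⟩
      · rw [if_pos h1]
        omega
      · rw [if_neg (by omega), if_pos h1]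
        omega
    · rw [adj_rr] at h
      simp only [pos]
      omega
  unfold phi
  rcases key with h1 | h1 | h1 | ⟨h1, h2⟩ | ⟨h1, h2⟩
  · exact ⟨0, by simp, by rw [h1]; simp⟩
  · exact ⟨1, by simp, by rw [h1]; push_cast; ring⟩
  · exact ⟨-1, by simp, by rw [h1]; push_cast; ring⟩
  · refine ⟨1, by simp, ?_⟩
    rw [h1, h2]
    have : ((k + 1 : ℕ) : ZMod (k + 1)) = 0 := ZMod.natCast_self _
    push_cast at this ⊢
    rw [this]
  · refine ⟨-1, by simp, ?_⟩
    rw [h1, h2]
    have : ((k + 1 : ℕ) : ZMod (k + 1)) = 0 := ZMod.natCast_self _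
    push_cast at this ⊢
    linear_combination this

lemma walk_change (hk : 3 ≤ k) {x y : Fin p ⊕ Fin (k - 2)} (w : (bag p k).Walk x y) :
    ∃ t : ℤ, |t| ≤ w.length ∧ phi p k y = phi p k x + (t : ZMod (k + 1)) := by
  induction w with
  | nil => exact ⟨0, by simp, by simp⟩
  | cons h w ih =>
    obtain ⟨t, h1, h2⟩ := ih
    obtain ⟨s, h3, h4⟩ := step hk h
    refine ⟨s + t, ?_, ?_⟩
    · rw [SimpleGraph.Walk.length_cons]
      push_cast
      calc |s + t| ≤ |s| + |t| := abs_add_le s t
        _ ≤ _ := by linarith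
    · rw [h2, h4]
      push_cast
      ring

lemma far (m q : ℕ) (v : Fin (m + 3) ⊕ Fin (2 * q + 3 - 2)) :
    ∃ u, q + 2 ≤ (bag (m + 3) (2 * q + 3)).dist v u := by
  have hv := pos_le (k := 2 * q + 3) (by omega) v
  obtain ⟨u, hu⟩ := exists_pos (p := m + 3) (k := 2 * q + 3) (by omega) (by omega)
    (t := if pos (m + 3) (2 * q + 3) v < q + 2 then pos (m + 3) (2 * q + 3) v + (q + 2)
      else pos (m + 3) (2 * q + 3) v - (q + 2)) (by split_ifs <;> omega)
  refine ⟨u, ?_⟩
  obtain ⟨w, hw⟩ := (bag_conn (p := m + 3) (k := 2 * q + 3) (by omega)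
    (by omega)).exists_walk_length_eq_dist v u
  obtain ⟨t, h1, h2⟩ := walk_change (by omega) w
  rw [hw] at h1
  have h3 : (((2 * q + 3 + 1 : ℕ) : ℤ)) ∣ t - (q + 2) := by
    rw [← ZMod.intCast_zmod_eq_zero_iff_dvd]
    have h4 : phi (m + 3) (2 * q + 3) u = phi (m + 3) (2 * q + 3) v + ((q + 2 : ℕ) : ZMod _) := by
      unfold phi
      rw [hu]
      split_ifs with h5
      · push_cast
        ring
      · rw [Nat.cast_sub (by omega)]
        have : ((2 * q + 3 + 1 : ℕ) : ZMod (2 * q + 3 + 1)) = 0 := ZMod.natCast_self _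
        push_cast at this ⊢
        linear_combination -this
    rw [h4] at h2
    have h5 := add_left_cancel h2
    push_cast at h5 ⊢
    rw [← h5]
    ring
  obtain ⟨s, hs⟩ := h3
  push_cast at hs
  have h6 : t = (q + 2) * (2 * s + 1) := by linarith
  have h7 : (1 : ℤ) ≤ |2 * s + 1| := by
    rcases le_or_gt 0 s with h | h
    · rw [abs_of_pos (by omega)]
      omega
    · rw [abs_of_neg (by omega)]
      omega
  have h8 : |t| = (q + 2) * |2 * s + 1| := by
    rw [h6, abs_mul, abs_of_nonneg (by positivity)]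
  have h9 : ((q : ℤ) + 2) ≤ |t| := by
    rw [h8]
    nlinarith
  have h10 := h9.trans h1
  omega

end BagAux

theorem bag_exo {n r : ℕ} (hr : 2 ≤ r) (hn : 2 * r ≤ n) :
    exo (bag (n + 3 - 2 * r) (2 * r - 1)) ≤ 2 * ((n - r) * (r - 1) ^ 2) := by
  obtain ⟨q, rfl⟩ : ∃ q, r = q + 2 := ⟨r - 2, by omega⟩
  obtain ⟨m, rfl⟩ : ∃ m, n = 2 * (q + 2) + m := ⟨n - 2 * (q + 2), by omega⟩
  have h1 : 2 * (q + 2) + m + 3 - 2 * (q + 2) = m + 3 := by omega
  have h2 : 2 * (q + 2) - 1 = 2 * q + 3 := by omega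
  rw [h1, h2]
  refine (exo_le m q).trans (le_of_eq ?_)
  have h3 : q + 2 - 1 = q + 1 := by omega
  have h4 : 2 * (q + 2) + m - (q + 2) = q + 2 + m := by omega
  rw [h3, h4]
  ring

theorem bag_far {n r : ℕ} (hr : 2 ≤ r) (hn : 2 * r ≤ n)
    (v : Fin (n + 3 - 2 * r) ⊕ Fin (2 * r - 1 - 2)) :
    ∃ u, r ≤ (bag (n + 3 - 2 * r) (2 * r - 1)).dist v u := by
  obtain ⟨q, rfl⟩ : ∃ q, r = q + 2 := ⟨r - 2, by omega⟩
  obtain ⟨m, rfl⟩ : ∃ m, n = 2 * (q + 2) + m := ⟨n - 2 * (q + 2), by omega⟩
  have h1 : 2 * (q + 2) + m + 3 - 2 * (q + 2) = m + 3 := by omega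
  have h2 : 2 * (q + 2) - 1 = 2 * q + 3 := by omega
  revert v
  rw [h1, h2]
  intro v
  exact far m q v

end Pool.Agent.BagR

end

section

/-!
A vertex with small outer distance sum.
-/

namespace Pool.Agent.BagR

open Finset

variable {V : Type*} [Fintype V] [DecidableEq V] {G : SimpleGraph V}

private theorem core_arith {r τ : ℕ} (hr0 : 10 ^ 13 ≤ r) (h : 199999 * τ < 200000 * r ^ 2) :
    2 * τ ≤ 2 * (r - 25600001) ^ 2 + (r / 200) ^ 2 := by
  obtain ⟨m, rfl⟩ : ∃ m, r = m + 25600001 := ⟨r - 25600001, by omega⟩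
  set r : ℕ := m + 25600001 with hr
  have hm : r - 25600001 = m := by omega
  rw [hm]
  set q : ℕ := r / 200 with hq
  have h1 : r ≤ 201 * q := by omega
  have h2 : r ^ 2 ≤ 40401 * q ^ 2 := by
    calc r ^ 2 ≤ (201 * q) ^ 2 := Nat.pow_le_pow_left h1 2
      _ = 40401 * q ^ 2 := by ring
  zify at h h1 h2 hr0 ⊢
  have hr' : (r : ℤ) = m + 25600001 := by rw [hr]; push_cast; ring
  have h3 : (0 : ℤ) ≤ r := by positivity
  have hmr : (m : ℤ) = r - 25600001 := by linarith
  rw [hmr]
  have h4 : (10 : ℤ) ^ 13 * r ≤ r * r := mul_le_mul_of_nonneg_right hr0 h3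
  nlinarith

theorem core (hG : G.Connected) {r n : ℕ} (hn : Fintype.card V = n) (hrn : r ^ 2 ≤ 8 * n)
    (hr0 : 10 ^ 13 ≤ r) (hX : exo G < 2 * ((n - r) * (r - 1) ^ 2)) :
    ∃ z : V, 2 * ∑ v, (G.dist z v - 25600001) ≤ 2 * (r - 25600001) ^ 2 + (r / 200) ^ 2 := by
  classical
  have hX' : exo G < 2 * (n * r ^ 2) := by
    refine hX.trans_le ?_
    refine Nat.mul_le_mul_left 2 (Nat.mul_le_mul (Nat.sub_le _ _) ?_)
    exact Nat.pow_le_pow_left (Nat.sub_le _ _) 2
  have hrpos : 0 < r := by omega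
  have hr2 : 0 < r ^ 2 := by positivity
  have hn0 : 0 < n := by
    rcases Nat.eq_zero_or_pos n with h | h
    · rw [h] at hX'
      simp at hX'
    · exact h
  set σ : V → ℕ := fun z => ∑ u, (G.dist z u - 1) with hσ
  have hexo : exo G = ∑ z, σ z := rfl
  set C : Finset V := univ.filter fun z => σ z ≤ 400000 * r ^ 2 with hC
  have hCmem : ∀ z, z ∈ C ↔ σ z ≤ 400000 * r ^ 2 := by
    intro z
    rw [hC, mem_filter]
    exact ⟨fun h => h.2, fun h => ⟨mem_univ _, h⟩⟩
  -- few vertices outside C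
  have hN : Cᶜ.card * 200000 < n := by
    have h1 : Cᶜ.card * (400000 * r ^ 2) ≤ exo G := by
      rw [hexo, ← smul_eq_mul]
      refine (Finset.card_nsmul_le_sum Cᶜ σ _ fun z hz => ?_).trans
        (Finset.sum_le_sum_of_subset (subset_univ _))
      rw [mem_compl, hCmem] at hz
      exact (not_le.1 hz).le
    have h2 : Cᶜ.card * (400000 * r ^ 2) < 2 * (n * r ^ 2) := h1.trans_lt hX'
    have h3 : (Cᶜ.card * 200000) * (2 * r ^ 2) < n * (2 * r ^ 2) := by
      calc (Cᶜ.card * 200000) * (2 * r ^ 2) = Cᶜ.card * (400000 * r ^ 2) := by ring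
        _ < 2 * (n * r ^ 2) := h2
        _ = n * (2 * r ^ 2) := by ring
    exact Nat.lt_of_mul_lt_mul_right h3
  have hcard : C.card + Cᶜ.card = n := by
    rw [← hn]
    exact Finset.card_add_card_compl C
  have hCpos : 0 < C.card := by omega
  -- far vertices are few
  have hfar : ∀ z ∈ C, (univ.filter fun u => 12800000 < G.dist z u).card * 4 ≤ n := by
    intro z hz
    have h1 : (univ.filter fun u => 12800000 < G.dist z u).card * 12800000 ≤ σ z := by
      rw [← smul_eq_mul]
      refine (Finset.card_nsmul_le_sum _ (fun u => G.dist z u - 1) _ fun u hu => ?_).trans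
        (Finset.sum_le_sum_of_subset (subset_univ _))
      have := (mem_filter.1 hu).2
      omega
    have h2 := (hCmem z).1 hz
    omega
  have hclose : ∀ z ∈ C, ∀ z' ∈ C, G.dist z z' ≤ 25600000 := by
    intro z hz z' hz'
    have h1 := hfar z hz
    have h2 := hfar z' hz'
    set A := univ.filter fun u => 12800000 < G.dist z u with hA
    set A' := univ.filter fun u => 12800000 < G.dist z' u with hA'
    have h3 : (A ∪ A').card < (univ : Finset V).card := by
      have := Finset.card_union_le A A'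
      rw [Finset.card_univ, hn]
      omega
    obtain ⟨u, _, hu⟩ := Finset.exists_mem_notMem_of_card_lt_card h3
    rw [mem_union, not_or] at hu
    have h4 : G.dist z u ≤ 12800000 := by
      by_contra hcon
      exact hu.1 (mem_filter.2 ⟨mem_univ _, not_le.1 hcon⟩)
    have h5 : G.dist z' u ≤ 12800000 := by
      by_contra hcon
      exact hu.2 (mem_filter.2 ⟨mem_univ _, not_le.1 hcon⟩)
    have h6 := hG.dist_triangle (u := z) (v := u) (w := z')
    rw [SimpleGraph.dist_comm (u := u) (v := z')] at h6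
    omega
  obtain ⟨z0, hz0⟩ := Finset.card_pos.1 hCpos
  refine ⟨z0, ?_⟩
  set τ : ℕ := ∑ v, (G.dist z0 v - 25600001) with hτ
  have hτ' : τ = ∑ v ∈ Cᶜ, (G.dist z0 v - 25600001) := by
    rw [hτ]
    symm
    apply Finset.sum_subset (subset_univ _)
    intro v _ hv
    rw [mem_compl, not_not] at hv
    have := hclose z0 hz0 v hv
    omega
  have hone : ∀ z ∈ C, τ ≤ ∑ u ∈ Cᶜ, (G.dist z u - 1) := by
    intro z hz
    rw [hτ']
    refine Finset.sum_le_sum fun u _ => ?_
    have h1 := hclose z0 hz0 z hz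
    have h2 := hG.dist_triangle (u := z0) (v := z) (w := u)
    omega
  have hcross : C.card * τ ≤ ∑ z ∈ C, ∑ u ∈ Cᶜ, (G.dist z u - 1) := by
    rw [← smul_eq_mul]
    exact Finset.card_nsmul_le_sum _ _ _ hone
  have hcross2 : ∑ z ∈ Cᶜ, ∑ u ∈ C, (G.dist z u - 1) =
      ∑ z ∈ C, ∑ u ∈ Cᶜ, (G.dist z u - 1) := by
    rw [Finset.sum_comm]
    refine Finset.sum_congr rfl fun z _ => Finset.sum_congr rfl fun u _ => ?_
    rw [SimpleGraph.dist_comm]
  have hlow : 2 * (C.card * τ) ≤ exo G := by
    have h1 : exo G = ∑ z ∈ C, σ z + ∑ z ∈ Cᶜ, σ z := by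
      rw [hexo, Finset.sum_add_sum_compl]
    have h2 : ∑ z ∈ C, ∑ u ∈ Cᶜ, (G.dist z u - 1) ≤ ∑ z ∈ C, σ z :=
      Finset.sum_le_sum fun z _ => Finset.sum_le_sum_of_subset (subset_univ _)
    have h3 : ∑ z ∈ Cᶜ, ∑ u ∈ C, (G.dist z u - 1) ≤ ∑ z ∈ Cᶜ, σ z :=
      Finset.sum_le_sum fun z _ => Finset.sum_le_sum_of_subset (subset_univ _)
    rw [hcross2] at h3
    omega
  apply core_arith hr0
  have h5 : 199999 * n ≤ 200000 * C.card := by omega
  have h6 : (2 * n) * (199999 * τ) < (2 * n) * (200000 * r ^ 2) := by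
    calc (2 * n) * (199999 * τ) = 2 * ((199999 * n) * τ) := by ring
      _ ≤ 2 * ((200000 * C.card) * τ) := by
          exact Nat.mul_le_mul_left 2 (Nat.mul_le_mul_right τ h5)
      _ = 200000 * (2 * (C.card * τ)) := by ring
      _ ≤ 200000 * exo G := Nat.mul_le_mul_left _ hlow
      _ < 200000 * (2 * (n * r ^ 2)) := Nat.mul_lt_mul_of_pos_left hX' (by norm_num)
      _ = (2 * n) * (200000 * r ^ 2) := by ring
  exact Nat.lt_of_mul_lt_mul_left h6

end Pool.Agent.BagR

end

section

/-!
`r` disjoint far pairs give the distance bound.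
-/

namespace Pool.Agent.BagR

open Finset

variable {V : Type*} [Fintype V] [DecidableEq V] {G : SimpleGraph V}

theorem far_bound (hG : G.Connected) {r : ℕ} (hr3 : 3 ≤ r) (hr : ∀ v, ∃ u, r ≤ G.dist v u)
    (hF : Far G r) : 2 * ((Fintype.card V - r) * (r - 1) ^ 2) ≤ exo G := by
  obtain ⟨x, y, hinj, hxy⟩ := hF
  obtain ⟨k, rfl⟩ : ∃ k, r = k + 3 := ⟨r - 3, by omega⟩
  set M : Finset V := univ.image (Sum.elim x y) with hM
  have hcard : M.card = 2 * (k + 3) := by
    rw [hM, card_image_of_injective _ hinj, card_univ, Fintype.card_sum, Fintype.card_fin]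
    ring
  have hmem : ∀ z, z ∈ M ↔ (∃ i, x i = z) ∨ ∃ i, y i = z := by
    intro z
    rw [hM, mem_image]
    constructor
    · rintro ⟨s, -, hs⟩
      rcases s with i | i
      · exact Or.inl ⟨i, hs⟩
      · exact Or.inr ⟨i, hs⟩
    · rintro (⟨i, hi⟩ | ⟨i, hi⟩)
      · exact ⟨Sum.inl i, mem_univ _, hi⟩
      · exact ⟨Sum.inr i, mem_univ _, hi⟩
  have hpos : ∀ u v, u ≠ v → 1 ≤ G.dist u v := fun u v h => hG.pos_dist_of_ne h
  -- the part of the sum over the pairs
  have hS : ∀ z, ∑ u ∈ M, (G.dist z u - 1) =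
      ∑ i, ((G.dist z (x i) - 1) + (G.dist z (y i) - 1)) := by
    intro z
    rw [hM, sum_image (fun a _ b _ h => hinj h), Fintype.sum_sum_type, sum_add_distrib]
    rfl
  have htri : ∀ z i, k + 3 ≤ G.dist z (x i) + G.dist z (y i) := by
    intro z i
    have h1 := hG.dist_triangle (u := x i) (v := z) (w := y i)
    have h2 := hxy i
    rw [G.dist_comm (u := x i) (v := z)] at h1
    omega
  have hne : ∀ i j, i ≠ j → x i ≠ x j ∧ y i ≠ y j := by
    intro i j hij
    constructor
    · intro h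
      exact hij (Sum.inl_injective (hinj (a₁ := Sum.inl i) (a₂ := Sum.inl j) h))
    · intro h
      exact hij (Sum.inr_injective (hinj (a₁ := Sum.inr i) (a₂ := Sum.inr j) h))
  have hne2 : ∀ i j, x i ≠ y j := by
    intro i j h
    have := hinj (a₁ := Sum.inl i) (a₂ := Sum.inr j) h
    exact Sum.inl_ne_inr this
  -- one more at a distinguished pair
  have hsum : ∀ z (i0 : Fin (k + 3)),
      (∀ i, k + 1 + (if i = i0 then 1 else 0) ≤
        (G.dist z (x i) - 1) + (G.dist z (y i) - 1)) →
      (k + 2) ^ 2 ≤ ∑ u ∈ M, (G.dist z u - 1) := by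
    intro z i0 h
    rw [hS]
    calc (k + 2) ^ 2 = ∑ i : Fin (k + 3), (k + 1 + (if i = i0 then 1 else 0)) := by
          rw [sum_add_distrib, sum_const, card_univ, Fintype.card_fin, sum_ite_eq']
          simp
          ring
      _ ≤ _ := sum_le_sum fun i _ => h i
  -- (a)
  have ha : ∀ z ∈ M, (k + 2) ^ 2 ≤ ∑ u ∈ M, (G.dist z u - 1) := by
    intro z hz
    rcases (hmem z).1 hz with ⟨i0, hi0⟩ | ⟨i0, hi0⟩
    · refine hsum z i0 fun i => ?_
      by_cases hi : i = i0
      · rw [if_pos hi]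
        subst hi
        have h1 := hxy i
        rw [hi0] at h1
        omega
      · rw [if_neg hi]
        have h1 := htri z i
        have h2 := hpos z (x i) (by rw [← hi0]; exact (hne _ _ (Ne.symm hi)).1)
        have h3 := hpos z (y i) (by rw [← hi0]; exact hne2 _ _)
        omega
    · refine hsum z i0 fun i => ?_
      by_cases hi : i = i0
      · rw [if_pos hi]
        subst hi
        have h1 := hxy i
        rw [hi0, G.dist_comm] at h1
        omega
      · rw [if_neg hi]
        have h1 := htri z i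
        have h2 := hpos z (x i) (by rw [← hi0]; exact (hne2 _ _).symm)
        have h3 := hpos z (y i) (by rw [← hi0]; exact (hne _ _ (Ne.symm hi)).2)
        omega
  -- (b)
  have hb : ∀ z ∈ Mᶜ, 2 * (k + 2) ^ 2 ≤
      2 * ∑ u ∈ M, (G.dist z u - 1) + ∑ u ∈ Mᶜ, (G.dist z u - 1) := by
    intro z hz
    rw [mem_compl] at hz
    have hzx : ∀ i, 1 ≤ G.dist z (x i) := fun i => hpos _ _ fun h =>
      hz ((hmem z).2 (Or.inl ⟨i, h.symm⟩))
    have hzy : ∀ i, 1 ≤ G.dist z (y i) := fun i => hpos _ _ fun h =>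
      hz ((hmem z).2 (Or.inr ⟨i, h.symm⟩))
    obtain ⟨u, hu⟩ := hr z
    by_cases huM : u ∈ M
    · have h1 : (k + 2) ^ 2 ≤ ∑ u ∈ M, (G.dist z u - 1) := by
        rcases (hmem u).1 huM with ⟨i0, hi0⟩ | ⟨i0, hi0⟩
        · refine hsum z i0 fun i => ?_
          have h1 := htri z i
          have h2 := hzx i
          have h3 := hzy i
          by_cases hi : i = i0
          · rw [if_pos hi]
            subst hi
            rw [← hi0] at hu
            omega
          · rw [if_neg hi]
            omega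
        · refine hsum z i0 fun i => ?_
          have h1 := htri z i
          have h2 := hzx i
          have h3 := hzy i
          by_cases hi : i = i0
          · rw [if_pos hi]
            subst hi
            rw [← hi0] at hu
            omega
          · rw [if_neg hi]
            omega
      omega
    · have h1 : (k + 3) * (k + 1) ≤ ∑ u ∈ M, (G.dist z u - 1) := by
        rw [hS]
        calc (k + 3) * (k + 1) = ∑ _i : Fin (k + 3), (k + 1) := by
              rw [sum_const, card_univ, Fintype.card_fin, smul_eq_mul]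
          _ ≤ _ := sum_le_sum fun i _ => by
              have h1 := htri z i
              have h2 := hzx i
              have h3 := hzy i
              omega
      have h2 : G.dist z u - 1 ≤ ∑ u ∈ Mᶜ, (G.dist z u - 1) :=
        single_le_sum (f := fun u => G.dist z u - 1) (fun _ _ => Nat.zero_le _)
          (mem_compl.2 huM)
      have h3 : 2 * (k + 2) ^ 2 = 2 * ((k + 3) * (k + 1)) + 2 := by ring
      omega
  -- (c)
  have hexo : exo G = ∑ z ∈ M, ∑ u ∈ M, (G.dist z u - 1) +
      ∑ z ∈ Mᶜ, (2 * ∑ u ∈ M, (G.dist z u - 1) + ∑ u ∈ Mᶜ, (G.dist z u - 1)) := by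
    have h1 : ∀ z, ∑ v, (G.dist z v - 1) =
        ∑ u ∈ M, (G.dist z u - 1) + ∑ u ∈ Mᶜ, (G.dist z u - 1) := fun z =>
      (sum_add_sum_compl M _).symm
    have h2 : exo G = ∑ z ∈ M, ∑ v, (G.dist z v - 1) + ∑ z ∈ Mᶜ, ∑ v, (G.dist z v - 1) :=
      (sum_add_sum_compl M _).symm
    have h3 : ∑ z ∈ M, ∑ u ∈ Mᶜ, (G.dist z u - 1) = ∑ z ∈ Mᶜ, ∑ u ∈ M, (G.dist z u - 1) := by
      rw [sum_comm]
      refine sum_congr rfl fun z _ => sum_congr rfl fun u _ => ?_
      rw [G.dist_comm]
    rw [h2, sum_congr rfl fun z _ => h1 z, sum_congr (s₁ := Mᶜ) rfl fun z _ => h1 z,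
      sum_add_distrib, sum_add_distrib, sum_add_distrib, h3, ← mul_sum]
    ring
  have hc1 : M.card * (k + 2) ^ 2 ≤ ∑ z ∈ M, ∑ u ∈ M, (G.dist z u - 1) := by
    rw [← smul_eq_mul, ← sum_const]
    exact sum_le_sum ha
  have hc2 : Mᶜ.card * (2 * (k + 2) ^ 2) ≤
      ∑ z ∈ Mᶜ, (2 * ∑ u ∈ M, (G.dist z u - 1) + ∑ u ∈ Mᶜ, (G.dist z u - 1)) := by
    rw [← smul_eq_mul, ← sum_const]
    exact sum_le_sum hb
  have hle : M.card ≤ Fintype.card V := card_le_univ M
  rw [hexo]
  refine le_trans (le_of_eq ?_) (add_le_add hc1 hc2)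
  rw [card_compl, hcard]
  rw [hcard] at hle
  obtain ⟨n, hn⟩ : ∃ n, Fintype.card V = n + 2 * (k + 3) := ⟨Fintype.card V - 2 * (k + 3), by omega⟩
  rw [hn]
  have e1 : n + 2 * (k + 3) - (k + 3) = n + (k + 3) := by omega
  have e2 : n + 2 * (k + 3) - 2 * (k + 3) = n := by omega
  have e3 : k + 3 - 1 = k + 2 := by omega
  rw [e1, e2, e3]
  ring

end Pool.Agent.BagR

end

section

/-!
MP_bb6995_co, item I8: if the outer part of a ring structure does not join the two
outer vertices, then the diameter is at least `2r - 1` and there are `r` disjoint far pairs.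
-/

namespace Pool.Agent.BagR

open Finset

variable {V : Type*} [Fintype V] [DecidableEq V] {G : SimpleGraph V}

omit [Fintype V] [DecidableEq V] in
theorem fc_far_of_diam (hG : G.Connected) {r : ℕ} (hr1 : 1 ≤ r) (x y : V)
    (h : 2 * r - 1 ≤ G.dist x y) : Far G r := by
  obtain ⟨w, hw⟩ := hG.exists_walk_length_eq_dist x y
  have key : ∀ a b, a ≤ b → b ≤ G.dist x y → b - a ≤ G.dist (w.getVert a) (w.getVert b) := by
    intro a b hab hb
    have h1 : G.dist x (w.getVert a) ≤ a := by
      refine (G.dist_le (w.take a)).trans ?_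
      rw [SimpleGraph.Walk.take_length]
      exact min_le_left _ _
    have h2 : G.dist (w.getVert b) y ≤ G.dist x y - b := by
      refine (G.dist_le (w.drop b)).trans ?_
      rw [SimpleGraph.Walk.drop_length, hw]
    have h3 : G.dist x y ≤ G.dist x (w.getVert a) + G.dist (w.getVert a) y :=
      hG.dist_triangle
    have h4 : G.dist (w.getVert a) y ≤ G.dist (w.getVert a) (w.getVert b) +
        G.dist (w.getVert b) y := hG.dist_triangle
    omega
  have hne : ∀ a b, a ≤ G.dist x y → b ≤ G.dist x y → w.getVert a = w.getVert b → a = b := by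
    intro a b ha hb hab
    rcases lt_trichotomy a b with hlt | heq | hgt
    · have := key a b hlt.le hb
      rw [hab, SimpleGraph.dist_self] at this
      omega
    · exact heq
    · have := key b a hgt.le ha
      rw [hab, SimpleGraph.dist_self] at this
      omega
  refine ⟨fun i => w.getVert i, fun i => w.getVert (i + r), ?_, ?_⟩
  · intro a b hab
    rcases a with a | a <;> rcases b with b | b
    · have h1 := hne a b (by omega) (by omega) hab
      exact congrArg Sum.inl (Fin.ext h1)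
    · have h1 := hne a (b + r) (by omega) (by omega) hab
      omega
    · have h1 := hne (a + r) b (by omega) (by omega) hab
      omega
    · have h1 := hne (a + r) (b + r) (by omega) (by omega) hab
      exact congrArg Sum.inr (Fin.ext (by omega))
  · intro i
    have h1 := key i (i + r) (by omega) (by omega)
    have h2 : (i : ℕ) + r - i = r := by omega
    rw [h2] at h1
    exact h1

omit [Fintype V] [DecidableEq V] in
theorem fc_lip (hG : G.Connected) (z : V) {u v : V} (h : G.Adj u v) :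
    G.dist z v ≤ G.dist z u + 1 := by
  have h1 : G.dist z v ≤ G.dist z u + G.dist u v := hG.dist_triangle
  rw [SimpleGraph.dist_eq_one_iff_adj.2 h] at h1
  exact h1

omit [Fintype V] [DecidableEq V] in
theorem fc_closer (hG : G.Connected) (z v : V) {n : ℕ} (h : G.dist z v = n + 1) :
    ∃ u, G.Adj v u ∧ G.dist z u = n := by
  obtain ⟨w, hw⟩ := hG.exists_walk_length_eq_dist v z
  rw [SimpleGraph.dist_comm, h] at hw
  cases w with
  | nil => simp at hw
  | @cons _ u _ huv q =>
    refine ⟨u, huv, ?_⟩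
    rw [SimpleGraph.Walk.length_cons] at hw
    have h1 : G.dist z u ≤ n := by
      rw [SimpleGraph.dist_comm]
      exact (G.dist_le q).trans (by omega)
    have h2 := fc_lip hG z huv.symm
    omega

/-- joined inside the levels at least `i` -/
def FcConn (G : SimpleGraph V) (z : V) (i : ℕ) (u v : V) : Prop :=
  ∃ w : G.Walk u v, ∀ x ∈ w.support, i ≤ G.dist z x

omit [Fintype V] [DecidableEq V] in
theorem FcConn.symm {z : V} {i : ℕ} {u v : V} (h : FcConn G z i u v) : FcConn G z i v u := by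
  obtain ⟨w, hw⟩ := h
  refine ⟨w.reverse, fun x hx => hw x ?_⟩
  rw [SimpleGraph.Walk.support_reverse, List.mem_reverse] at hx
  exact hx

omit [Fintype V] [DecidableEq V] in
theorem FcConn.trans {z : V} {i : ℕ} {u v t : V} (h : FcConn G z i u v)
    (h' : FcConn G z i v t) : FcConn G z i u t := by
  obtain ⟨w, hw⟩ := h
  obtain ⟨w', hw'⟩ := h'
  refine ⟨w.append w', fun x hx => ?_⟩
  rw [SimpleGraph.Walk.mem_support_append_iff] at hx
  rcases hx with hx | hx
  · exact hw x hx
  · exact hw' x hx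

omit [Fintype V] [DecidableEq V] in
theorem fcConn_adj {z : V} {i : ℕ} {u v : V} (h : G.Adj u v) (hu : i ≤ G.dist z u)
    (hv : i ≤ G.dist z v) : FcConn G z i u v := by
  refine ⟨SimpleGraph.Walk.cons h SimpleGraph.Walk.nil, fun x hx => ?_⟩
  rw [SimpleGraph.Walk.support_cons, SimpleGraph.Walk.support_nil] at hx
  simp only [List.mem_cons, List.not_mem_nil, or_false] at hx
  rcases hx with rfl | rfl
  · exact hu
  · exact hv

omit [Fintype V] [DecidableEq V] in
theorem fcConn_down (hG : G.Connected) (z : V) (i : ℕ) :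
    ∀ (n : ℕ) (v : V), G.dist z v = i + n → ∃ t, G.dist z t = i ∧ FcConn G z i v t := by
  intro n
  induction n with
  | zero =>
    intro v hv
    refine ⟨v, by omega, ⟨SimpleGraph.Walk.nil, fun x hx => ?_⟩⟩
    rw [SimpleGraph.Walk.support_nil, List.mem_singleton] at hx
    subst hx
    omega
  | succ n ih =>
    intro v hv
    obtain ⟨u, hvu, hu⟩ := fc_closer hG z v (n := i + n) (by omega)
    obtain ⟨t, ht, hc⟩ := ih u hu
    exact ⟨t, ht, (fcConn_adj hvu (by omega) (by omega)).trans hc⟩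

omit [Fintype V] [DecidableEq V] in
theorem fc_pass (S : V → Prop) (p : V) (hS : ∀ a b, G.Adj a b → S a → ¬ S b → a = p) :
    ∀ {v t : V} (w : G.Walk v t), S v → ¬ S t → p ∈ w.support := by
  intro v t w
  induction w with
  | nil => intro h1 h2; exact absurd h1 h2
  | @cons a b c hab q ih =>
    intro h1 h2
    rw [SimpleGraph.Walk.support_cons, List.mem_cons]
    by_cases hb : S b
    · exact Or.inr (ih hb h2)
    · exact Or.inl (hS a b hab h1 hb).symm

omit [Fintype V] in
theorem fc_split (hG : G.Connected) (S : V → Prop) (p : V)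
    (hS : ∀ a b, G.Adj a b → S a → ¬ S b → a = p) {v t : V} (hv : S v) (ht : ¬ S t) :
    G.dist v t = G.dist v p + G.dist p t := by
  obtain ⟨w, hw⟩ := hG.exists_walk_length_eq_dist v t
  have hp := fc_pass S p hS w hv ht
  have h1 : (w.takeUntil p hp).length + (w.dropUntil p hp).length = w.length := by
    rw [← SimpleGraph.Walk.length_append, SimpleGraph.Walk.take_spec]
  have h2 := G.dist_le (w.takeUntil p hp)
  have h3 := G.dist_le (w.dropUntil p hp)
  have h4 : G.dist v t ≤ G.dist v p + G.dist p t := hG.dist_triangle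
  omega

theorem far_of_cut (hG : G.Connected) {z : V} {j i : ℕ} {p q p' q' : V} {side : V → Bool}
    (R : Ring G z j i p q p' q' side) {r s : ℕ}
    (hr : ∀ v, ∃ u, r ≤ G.dist v u) (hecc : ∀ v, G.dist z v ≤ r + s) (hsj : s < j)
    (h4 : 4 * j < r)
    (hout : ¬ ∃ w : G.Walk p' q', ∀ v ∈ w.support, i ≤ G.dist z v) : Far G r := by
  classical
  have hji := R.hji
  -- the colouring
  let c : V → Prop := fun v => if i ≤ G.dist z v then FcConn G z i v p' else side v = true
  have hcq' : ¬ FcConn G z i q' p' := fun h => hout h.symm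
  have hcp' : FcConn G z i p' p' := by
    refine ⟨SimpleGraph.Walk.nil, fun x hx => ?_⟩
    rw [SimpleGraph.Walk.support_nil, List.mem_singleton] at hx
    subst hx
    exact R.lp'.ge
  have hlev_i : ∀ v, G.dist z v = i → (c v ↔ side v = true) := by
    intro v hv
    have h1 : i ≤ G.dist z v := hv.ge
    simp only [c, h1, if_true]
    rcases R.cli v hv with rfl | rfl
    · exact iff_of_true hcp' R.sp'
    · refine iff_of_false hcq' ?_
      rw [R.sq']
      simp
  have hlow : ∀ v, G.dist z v ≤ i → (c v ↔ side v = true) := by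
    intro v hv
    rcases Nat.lt_or_ge (G.dist z v) i with h1 | h1
    · have h2 : ¬ i ≤ G.dist z v := by omega
      simp only [c, h2, if_false]
    · exact hlev_i v (by omega)
  have hedge : ∀ a b, G.Adj a b → j ≤ G.dist z a → j ≤ G.dist z b → (c a ↔ c b) := by
    intro a b hab ha hb
    by_cases hai : i ≤ G.dist z a
    · by_cases hbi : i ≤ G.dist z b
      · simp only [c, hai, hbi, if_true]
        constructor
        · intro h
          exact (fcConn_adj hab.symm hbi hai).trans h
        · intro h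
          exact (fcConn_adj hab hai hbi).trans h
      · have h1 := fc_lip hG z hab.symm
        rw [hlow a (by omega), hlow b (by omega), R.adj a b hab ha (by omega) hb (by omega)]
    · have h1 := fc_lip hG z hab
      rw [hlow a (by omega), hlow b (by omega), R.adj a b hab ha (by omega) hb (by omega)]
  have hcp : c p := (hlow p (by rw [R.lp]; omega)).2 R.sp
  have hcq : ¬ c q := by
    rw [hlow q (by rw [R.lq]; omega), R.sq]
    simp
  have hSP : ∀ a b, G.Adj a b → (j ≤ G.dist z a ∧ c a) → ¬ (j ≤ G.dist z b ∧ c b) → a = p := by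
    rintro a b hab ⟨ha, hca⟩ hb
    have hbj : G.dist z b < j := by
      by_contra hc
      push Not at hc
      exact hb ⟨hc, (hedge a b hab ha hc).1 hca⟩
    have h1 := fc_lip hG z hab.symm
    rcases R.clj a (by omega) with h | h
    · exact h
    · exact absurd (h ▸ hca) hcq
  have hSQ : ∀ a b, G.Adj a b → (j ≤ G.dist z a ∧ ¬ c a) → ¬ (j ≤ G.dist z b ∧ ¬ c b) →
      a = q := by
    rintro a b hab ⟨ha, hca⟩ hb
    have hbj : G.dist z b < j := by
      by_contra hc
      push Not at hc
      exact hb ⟨hc, fun h => hca ((hedge a b hab ha hc).2 h)⟩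
    have h1 := fc_lip hG z hab.symm
    rcases R.clj a (by omega) with h | h
    · exact absurd (h ▸ hcp) hca
    · exact h
  have hz : G.dist z z = 0 := SimpleGraph.dist_self
  have hP1 : ∀ v, (j ≤ G.dist z v ∧ c v) → G.dist p v < r := by
    intro v hv
    have h1 := fc_split hG (fun v => j ≤ G.dist z v ∧ c v) p hSP hv
      (t := z) (by rintro ⟨h, _⟩; omega)
    rw [SimpleGraph.dist_comm (u := v) (v := z), SimpleGraph.dist_comm (u := v) (v := p),
      SimpleGraph.dist_comm (u := p) (v := z), R.lp] at h1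
    have h2 := hecc v
    omega
  have hQ1 : ∀ v, (j ≤ G.dist z v ∧ ¬ c v) → G.dist q v < r := by
    intro v hv
    have h1 := fc_split hG (fun v => j ≤ G.dist z v ∧ ¬ c v) q hSQ hv
      (t := z) (by rintro ⟨h, _⟩; omega)
    rw [SimpleGraph.dist_comm (u := v) (v := z), SimpleGraph.dist_comm (u := v) (v := q),
      SimpleGraph.dist_comm (u := q) (v := z), R.lq] at h1
    have h2 := hecc v
    omega
  -- the maxima
  obtain ⟨uP, huP, hA⟩ := Finset.exists_max_image
    ((univ : Finset V).filter fun v => j ≤ G.dist z v ∧ c v) (fun v => G.dist p v)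
    ⟨p, by rw [Finset.mem_filter]; exact ⟨Finset.mem_univ _, R.lp.ge, hcp⟩⟩
  obtain ⟨uQ, huQ, hB⟩ := Finset.exists_max_image
    ((univ : Finset V).filter fun v => j ≤ G.dist z v ∧ ¬ c v) (fun v => G.dist q v)
    ⟨q, by rw [Finset.mem_filter]; exact ⟨Finset.mem_univ _, R.lq.ge, hcq⟩⟩
  rw [Finset.mem_filter] at huP huQ
  have huP' := huP.2
  have huQ' := huQ.2
  have hAr := hP1 uP huP'
  have hBr := hQ1 uQ huQ'
  have hpq : G.dist p q ≤ 2 * j := by
    have h1 : G.dist p q ≤ G.dist p z + G.dist z q := hG.dist_triangle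
    rw [SimpleGraph.dist_comm (u := p) (v := z), R.lp, R.lq] at h1
    omega
  -- the geodesic from p to q
  obtain ⟨w, hw⟩ := hG.exists_walk_length_eq_dist p q
  have hgeo : ∀ t, t ≤ G.dist p q → r ≤ t + G.dist p uP ∨ r ≤ G.dist p q - t + G.dist q uQ := by
    intro t ht
    set g := w.getVert t with hg
    have hg1 : G.dist p g ≤ t := by
      refine (G.dist_le (w.take t)).trans ?_
      rw [SimpleGraph.Walk.take_length]
      exact min_le_left _ _
    have hg2 : G.dist g q ≤ G.dist p q - t := by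
      refine (G.dist_le (w.drop t)).trans ?_
      rw [SimpleGraph.Walk.drop_length, hw]
    obtain ⟨u, hu⟩ := hr g
    by_cases huj : j ≤ G.dist z u
    · by_cases hcu : c u
      · left
        have h1 : G.dist g u ≤ G.dist g p + G.dist p u := hG.dist_triangle
        have h2 := hA u (by rw [Finset.mem_filter]; exact ⟨Finset.mem_univ _, huj, hcu⟩)
        rw [SimpleGraph.dist_comm (u := g) (v := p)] at h1
        omega
      · right
        have h1 : G.dist g u ≤ G.dist g q + G.dist q u := hG.dist_triangle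
        have h2 := hB u (by rw [Finset.mem_filter]; exact ⟨Finset.mem_univ _, huj, hcu⟩)
        omega
    · exfalso
      have h1 : G.dist g u ≤ G.dist g p + G.dist p u := hG.dist_triangle
      have h2 : G.dist p u ≤ G.dist p z + G.dist z u := hG.dist_triangle
      rw [SimpleGraph.dist_comm (u := g) (v := p)] at h1
      rw [SimpleGraph.dist_comm (u := p) (v := z), R.lp] at h2
      omega
  have h0 := hgeo 0 (Nat.zero_le _)
  have hsum : 2 * r - 1 ≤ G.dist p uP + G.dist p q + G.dist q uQ := by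
    have h1 := hgeo (G.dist p q + G.dist q uQ - r + 1) (by omega)
    omega
  have hd1 := fc_split hG (fun v => j ≤ G.dist z v ∧ c v) p hSP huP'
    (t := uQ) (by rintro ⟨_, h⟩; exact huQ'.2 h)
  have hd2 := fc_split hG (fun v => j ≤ G.dist z v ∧ ¬ c v) q hSQ huQ'
    (t := p) (by rintro ⟨_, h⟩; exact h hcp)
  refine fc_far_of_diam hG (by omega) uP uQ ?_
  rw [SimpleGraph.dist_comm (u := uQ) (v := p), SimpleGraph.dist_comm (u := uQ) (v := q),
    SimpleGraph.dist_comm (u := q) (v := p)] at hd2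
  rw [SimpleGraph.dist_comm (u := uP) (v := p)] at hd1
  omega

end Pool.Agent.BagR

end
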