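import Pool.Agent.Work.MP_bb6995_co.Defs

/-! Bundle of small proof modules (one section per former module). -/

section

/-!
Two geodesic arms from every vertex, and lower bounds for the levels.
-/

namespace Pool.Agent.BagR

open Finset

variable {V : Type*} [Fintype V] [DecidableEq V] {G : SimpleGraph V}

omit [Fintype V] [DecidableEq V] in
/-- Shortest paths as functions. -/
theorem exists_geo (hG : G.Connected) (u v : V) : ∃ P : ℕ → V, P 0 = u ∧ P (G.dist u v) = v ∧
    ∀ a b, a ≤ b → b ≤ G.dist u v → G.dist (P a) (P b) = b - a := by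
  obtain ⟨w, hw⟩ := hG.exists_walk_length_eq_dist u v
  have hle : ∀ a n, a + n ≤ w.length → G.dist (w.getVert a) (w.getVert (a + n)) ≤ n := by
    intro a n
    induction n with
    | zero => intro _; simp
    | succ n ih =>
      intro h
      have h1 := ih (by omega)
      have h2 : G.dist (w.getVert (a + n)) (w.getVert (a + (n + 1))) = 1 :=
        SimpleGraph.dist_eq_one_iff_adj.2 (w.adj_getVert_succ (i := a + n) (by omega))
      have h3 := hG.dist_triangle (u := w.getVert a) (v := w.getVert (a + n))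
        (w := w.getVert (a + (n + 1)))
      omega
  refine ⟨w.getVert, w.getVert_zero, by rw [← hw]; exact w.getVert_length, ?_⟩
  intro a b hab hb
  rw [← hw] at hb
  have h1 := hle a (b - a) (by omega)
  rw [Nat.add_sub_cancel' hab] at h1
  have h2 := hle 0 a (by omega)
  have h3 := hle b (w.length - b) (by omega)
  rw [Nat.add_sub_cancel' hb, w.getVert_length] at h3
  rw [zero_add, w.getVert_zero] at h2
  have h4 := hG.dist_triangle (u := u) (v := w.getVert a) (w := v)
  have h5 := hG.dist_triangle (u := w.getVert a) (v := w.getVert b) (w := v)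
  omega

theorem arms_exist_strong (hG : G.Connected) {r : ℕ} (hr1 : 1 ≤ r)
    (hr : ∀ v, ∃ u, r ≤ G.dist v u) (z : V) :
    ∃ (s m i : ℕ) (P Q : ℕ → V), (∀ v, G.dist z v ≤ r + s) ∧ P 0 = z ∧ Q 0 = z ∧
      (∀ a b, a ≤ b → b ≤ r + s → G.dist (P a) (P b) = b - a) ∧
      (∀ a b, a ≤ b → b ≤ m → G.dist (Q a) (Q b) = b - a) ∧
      (∀ c, i < c → c ≤ m → P c ≠ Q c) ∧ i ≤ s ∧ i ≤ m ∧ r + 2 * i ≤ m + s + 1 ∧ m ≤ r + s := by
  obtain ⟨a, -, ha⟩ := exists_max_image (univ : Finset V) (fun v => G.dist z v) ⟨z, mem_univ z⟩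
  obtain ⟨u0, hu0⟩ := hr z
  have h1 : r ≤ G.dist z a := hu0.trans (ha u0 (mem_univ _))
  obtain ⟨s, hs⟩ := Nat.exists_eq_add_of_le h1
  obtain ⟨P, hP0, hPa, hPgeo⟩ := exists_geo hG z a
  rw [hs] at hPgeo
  obtain ⟨u, hu⟩ := hr (P (s + 1))
  obtain ⟨Q, hQ0, hQu, hQgeo⟩ := exists_geo hG z u
  set m := G.dist z u with hm
  have hmle : m ≤ r + s := by rw [← hs]; exact ha u (mem_univ _)
  have hi0 : P (Nat.findGreatest (fun c => P c = Q c) m) =
      Q (Nat.findGreatest (fun c => P c = Q c) m) :=
    Nat.findGreatest_spec (P := fun c => P c = Q c) (Nat.zero_le m) (by rw [hP0, hQ0])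
  have hi1 : Nat.findGreatest (fun c => P c = Q c) m ≤ m := Nat.findGreatest_le m
  have hi2 : ∀ c, Nat.findGreatest (fun c => P c = Q c) m < c → c ≤ m → P c ≠ Q c :=
    fun c hc hcm => Nat.findGreatest_is_greatest hc hcm
  set i := Nat.findGreatest (fun c => P c = Q c) m with hi
  have hQi := hQgeo i m hi1 le_rfl
  rw [hQu, ← hi0] at hQi
  have htri := hG.dist_triangle (u := P (s + 1)) (v := P i) (w := u)
  have his : i ≤ s := by
    by_contra hcon
    have h2 := hPgeo (s + 1) i (by omega) (by omega)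
    omega
  have h3 := hPgeo i (s + 1) (by omega) (by omega)
  rw [SimpleGraph.dist_comm] at h3
  refine ⟨s, m, i, P, Q, ?_, hP0, hQ0, hPgeo, hQgeo, hi2, his, hi1, by omega, hmle⟩
  intro v
  rw [← hs]
  exact ha v (mem_univ _)

theorem arms_exist (hG : G.Connected) {r : ℕ} (hr1 : 1 ≤ r) (hr : ∀ v, ∃ u, r ≤ G.dist v u)
    (z : V) :
    ∃ (s m : ℕ) (P Q : ℕ → V), (∀ v, G.dist z v ≤ r + s) ∧ P 0 = z ∧ Q 0 = z ∧
      (∀ a b, a ≤ b → b ≤ r + s → G.dist (P a) (P b) = b - a) ∧
      (∀ a b, a ≤ b → b ≤ m → G.dist (Q a) (Q b) = b - a) ∧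
      (∀ c, s < c → c ≤ m → P c ≠ Q c) ∧ r ≤ m + s + 1 ∧ m ≤ r + s := by
  obtain ⟨s, m, i, P, Q, h1, h2, h3, h4, h5, h6, h7, -, h8, h9⟩ := arms_exist_strong hG hr1 hr z
  exact ⟨s, m, P, Q, h1, h2, h3, h4, h5, fun c hc hcm => h6 c (by omega) hcm, by omega, h9⟩

theorem level_bound (hG : G.Connected) {r : ℕ} (hr : ∀ v, ∃ u, r ≤ G.dist v u) (z : V) {k : ℕ}
    (hk : k < r) :
    2 * (r - k) - 1 ≤ ((univ : Finset V).filter fun v => k < G.dist z v).card := by
  obtain ⟨s, m, i, P, Q, h1, hP0, hQ0, hP, hQ, hne, h7, him, h8, h9⟩ :=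
    arms_exist_strong hG (by omega) hr z
  have hPl : ∀ c, c ≤ r + s → G.dist z (P c) = c := by
    intro c hc
    have := hP 0 c (Nat.zero_le _) hc
    rwa [hP0, Nat.sub_zero] at this
  have hQl : ∀ c, c ≤ m → G.dist z (Q c) = c := by
    intro c hc
    have := hQ 0 c (Nat.zero_le _) hc
    rwa [hQ0, Nat.sub_zero] at this
  have hA : ((Ioc k (r + s)).image P).card = r + s - k := by
    rw [card_image_of_injOn, Nat.card_Ioc]
    intro c hc c' hc' heq
    simp only [coe_Ioc, Set.mem_Ioc] at hc hc'
    rw [← hPl c hc.2, ← hPl c' hc'.2, heq]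
  have hB : ((Ioc (max i k) m).image Q).card = m - max i k := by
    rw [card_image_of_injOn, Nat.card_Ioc]
    intro c hc c' hc' heq
    simp only [coe_Ioc, Set.mem_Ioc] at hc hc'
    rw [← hQl c hc.2, ← hQl c' hc'.2, heq]
  have hdisj : Disjoint ((Ioc k (r + s)).image P) ((Ioc (max i k) m).image Q) := by
    rw [disjoint_left]
    intro v hv hv'
    rw [mem_image] at hv hv'
    obtain ⟨c, hc, rfl⟩ := hv
    obtain ⟨c', hc', heq⟩ := hv'
    rw [mem_Ioc] at hc hc'
    have h10 : c' = c := by
      rw [← hPl c hc.2, ← hQl c' hc'.2, heq]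
    subst h10
    exact hne c' (lt_of_le_of_lt (le_max_left _ _) hc'.1) hc'.2 heq.symm
  have hsub : (Ioc k (r + s)).image P ∪ (Ioc (max i k) m).image Q ⊆
      (univ : Finset V).filter fun v => k < G.dist z v := by
    intro v hv
    rw [mem_filter]
    refine ⟨mem_univ _, ?_⟩
    rw [mem_union, mem_image, mem_image] at hv
    rcases hv with ⟨c, hc, rfl⟩ | ⟨c, hc, rfl⟩
    · rw [mem_Ioc] at hc
      rw [hPl c hc.2]
      exact hc.1
    · rw [mem_Ioc] at hc
      rw [hQl c hc.2]
      exact lt_of_le_of_lt (le_max_right _ _) hc.1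
  have hcard := card_le_card hsub
  rw [card_union_of_disjoint hdisj, hA, hB] at hcard
  omega

theorem sum_odd (n : ℕ) : ∑ j ∈ range n, (2 * (n - j) - 1) = n ^ 2 := by
  have h1 : ∀ n : ℕ, ∑ j ∈ range n, (2 * j + 1) = n ^ 2 := by
    intro n
    induction n with
    | zero => simp
    | succ n ih => rw [sum_range_succ, ih]; ring
  rw [← h1 n, ← sum_range_reflect (fun j => 2 * j + 1) n]
  refine sum_congr rfl fun j hj => ?_
  rw [mem_range] at hj
  omega

theorem tau_lower (hG : G.Connected) {r : ℕ} (hr : ∀ v, ∃ u, r ≤ G.dist v u) (z : V) {L : ℕ}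
    (hL : L ≤ r) :
    (r - L) ^ 2 ≤ ∑ v, (G.dist z v - L) := by
  have h1 : ∀ v, ((Ico L r).filter (fun k => k < G.dist z v)).card ≤ G.dist z v - L := by
    intro v
    have : (Ico L r).filter (fun k => k < G.dist z v) ⊆ Ico L (G.dist z v) := by
      intro k hk
      rw [mem_filter, mem_Ico] at hk
      rw [mem_Ico]
      exact ⟨hk.1.1, hk.2⟩
    exact (card_le_card this).trans (by rw [Nat.card_Ico])
  have h2 : ∑ v, ((Ico L r).filter (fun k => k < G.dist z v)).card =
      ∑ k ∈ Ico L r, ((univ : Finset V).filter fun v => k < G.dist z v).card := by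
    simp_rw [card_filter]
    exact sum_comm
  calc (r - L) ^ 2 = ∑ k ∈ Ico L r, (2 * (r - k) - 1) := by
        rw [sum_Ico_eq_sum_range, ← sum_odd]
        refine sum_congr rfl fun j _ => ?_
        congr 2
        omega
    _ ≤ ∑ k ∈ Ico L r, ((univ : Finset V).filter fun v => k < G.dist z v).card :=
        sum_le_sum fun k hk => level_bound hG hr z (mem_Ico.1 hk).2
    _ = ∑ v, ((Ico L r).filter (fun k => k < G.dist z v)).card := h2.symm
    _ ≤ _ := sum_le_sum fun v _ => h1 v

end Pool.Agent.BagR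

end

section

/-!
Definitions for the proof of Q1 of MP_bb6995_co for all orders (note 1190, helper88).
-/

namespace Pool.Agent.BagR

open Finset

variable {V : Type*} [Fintype V] [DecidableEq V]

/-- `∑_{u ∈ S} (d(v,u) - 1)` (truncated subtraction, so `u = v` contributes `0`). -/
noncomputable def eS (G : SimpleGraph V) (S : Finset V) (v : V) : ℕ :=
  ∑ u ∈ S, (G.dist v u - 1)

/-- The vertices at distance more than `k` from `c`. -/
noncomputable def FF (G : SimpleGraph V) (c : V) (k : ℕ) : Finset V :=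
  univ.filter fun v => k < G.dist c v

/-- The vertices at distance exactly `i` from `c`. -/
noncomputable def LL (G : SimpleGraph V) (c : V) (i : ℕ) : Finset V :=
  univ.filter fun v => G.dist c v = i

/-- Number of vertices at distance more than `k` from `c` and at least `j` from `u`. -/
noncomputable def NN (G : SimpleGraph V) (c : V) (k : ℕ) (u : V) (j : ℕ) : ℕ :=
  (univ.filter fun v => k < G.dist c v ∧ j ≤ G.dist u v).card

/-- `S` has width at most `m`: it lies in a ball around a vertex (`a = b`) or around an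
edge (`a ~ b`). -/
def Wid (G : SimpleGraph V) (m : ℕ) (S : Finset V) : Prop :=
  ∃ a b, G.dist a b ≤ 1 ∧ ∀ s ∈ S, G.dist a s + G.dist b s + 1 ≤ m

/-- Number of vertices of `B(c,1)` at distance at least `2` from `w`. -/
noncomputable def gg (G : SimpleGraph V) (c w : V) : ℕ :=
  (univ.filter fun v => G.dist c v ≤ 1 ∧ 2 ≤ G.dist w v).card

end Pool.Agent.BagR

end

section

/-!
MP_bb6995_co, item I2: a surjection onto the cycle `C_{2r}` which moves by at most one
along every edge, or a pair of vertices at distance at least `2r - 1`, gives `r` disjoint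
far pairs.
-/

namespace Pool.Agent.BagR

open Finset

variable {V : Type*} [Fintype V] [DecidableEq V] {G : SimpleGraph V}

omit [Fintype V] [DecidableEq V] in
theorem fm_walk {r : ℕ} (Φ : V → ZMod (2 * r))
    (hΦ : ∀ u v, G.Adj u v → Φ v = Φ u ∨ Φ v = Φ u + 1 ∨ Φ u = Φ v + 1) {u v : V}
    (w : G.Walk u v) : ∃ t : ℤ, |t| ≤ w.length ∧ Φ v = Φ u + (t : ZMod (2 * r)) := by
  induction w with
  | nil => exact ⟨0, by simp, by simp⟩
  | @cons a b c hab q ih =>
    obtain ⟨t, ht, h⟩ := ih
    rw [SimpleGraph.Walk.length_cons]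
    push_cast
    rcases hΦ a b hab with h1 | h1 | h1
    · refine ⟨t, by linarith, ?_⟩
      rw [h, h1]
    · refine ⟨1 + t, ?_, ?_⟩
      · have := abs_add_le 1 t
        rw [abs_one] at this
        linarith
      · rw [h, h1]
        push_cast
        ring
    · refine ⟨-1 + t, ?_, ?_⟩
      · have := abs_add_le (-1) t
        rw [abs_neg, abs_one] at this
        linarith
      · rw [h, h1]
        push_cast
        ring

omit [Fintype V] [DecidableEq V] in
theorem far_of_map (hG : G.Connected) {r : ℕ} (hr1 : 1 ≤ r) (Φ : V → ZMod (2 * r))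
    (hs : Function.Surjective Φ)
    (hΦ : ∀ u v, G.Adj u v → Φ v = Φ u ∨ Φ v = Φ u + 1 ∨ Φ u = Φ v + 1) : Far G r := by
  have : NeZero (2 * r) := ⟨by omega⟩
  choose g hg using hs
  have hval : ∀ a b : ℕ, a < 2 * r → b < 2 * r →
      g ((a : ℕ) : ZMod (2 * r)) = g ((b : ℕ) : ZMod (2 * r)) → a = b := by
    intro a b ha hb hab
    have h1 : ((a : ℕ) : ZMod (2 * r)) = ((b : ℕ) : ZMod (2 * r)) := by
      rw [← hg ((a : ℕ) : ZMod (2 * r)), hab, hg]
    have h2 := congrArg ZMod.val h1
    rwa [ZMod.val_natCast_of_lt ha, ZMod.val_natCast_of_lt hb] at h2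
  refine ⟨fun i => g (((i : ℕ) : ℕ) : ZMod (2 * r)),
    fun i => g ((((i : ℕ) + r : ℕ)) : ZMod (2 * r)), ?_, ?_⟩
  · intro a b hab
    rcases a with a | a <;> rcases b with b | b
    · have h1 := hval a b (by omega) (by omega) hab
      exact congrArg Sum.inl (Fin.ext h1)
    · have h1 := hval a (b + r) (by omega) (by omega) hab
      omega
    · have h1 := hval (a + r) b (by omega) (by omega) hab
      omega
    · have h1 := hval (a + r) (b + r) (by omega) (by omega) hab
      exact congrArg Sum.inr (Fin.ext (by omega))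
  · intro i
    obtain ⟨w, hw⟩ := hG.exists_walk_length_eq_dist (g (((i : ℕ) : ℕ) : ZMod (2 * r)))
      (g ((((i : ℕ) + r : ℕ)) : ZMod (2 * r)))
    obtain ⟨t, ht, h⟩ := fm_walk Φ hΦ w
    rw [hg, hg] at h
    push_cast at h
    have h1 : ((r : ℤ) : ZMod (2 * r)) = ((t : ℤ) : ZMod (2 * r)) := by
      have := add_left_cancel h
      rw [← this]
      simp
    have h2 : ((2 * r : ℕ) : ℤ) ∣ t - r := (ZMod.intCast_eq_intCast_iff_dvd_sub _ _ _).1 h1
    obtain ⟨m, hm⟩ := h2
    push_cast at hm
    rw [hw] at ht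
    have hr0 : (0 : ℤ) < r := by exact_mod_cast hr1
    have h3 : (r : ℤ) ≤ |t| := by
      have h4 : t = r * (2 * m + 1) := by linarith
      rw [h4, abs_mul, abs_of_pos hr0]
      have h5 : 1 ≤ |2 * m + 1| := by
        refine Int.one_le_abs ?_
        omega
      nlinarith
    have h6 : (r : ℤ) ≤ G.dist (g (((i : ℕ) : ℕ) : ZMod (2 * r)))
      (g ((((i : ℕ) + r : ℕ)) : ZMod (2 * r))) := h3.trans ht
    exact_mod_cast h6

omit [Fintype V] [DecidableEq V] in
theorem far_of_diam (hG : G.Connected) {r : ℕ} (hr1 : 1 ≤ r) (x y : V)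
    (h : 2 * r - 1 ≤ G.dist x y) : Far G r := by
  obtain ⟨w, hw⟩ := hG.exists_walk_length_eq_dist x y
  have key : ∀ a b, a ≤ b → b ≤ G.dist x y → b - a ≤ G.dist (w.getVert a) (w.getVert b) := by
    intro a b hab hb
    have h1 : G.dist x (w.getVert a) ≤ a := by
      refine (G.dist_le (w.take a)).trans ?_
      rw [SimpleGraph.Walk.take_length]
      exact min_le_left _ _
    have h2 : G.dist (w.getVert b) y ≤ G.dist x y - b := by
      refine (G.dist_le (w.drop b)).trans ?_
      rw [SimpleGraph.Walk.drop_length, hw]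
    have h3 : G.dist x y ≤ G.dist x (w.getVert a) + G.dist (w.getVert a) y :=
      hG.dist_triangle
    have h4 : G.dist (w.getVert a) y ≤ G.dist (w.getVert a) (w.getVert b) +
        G.dist (w.getVert b) y := hG.dist_triangle
    omega
  have hne : ∀ a b, a ≤ G.dist x y → b ≤ G.dist x y → w.getVert a = w.getVert b → a = b := by
    intro a b ha hb hab
    rcases lt_trichotomy a b with hlt | heq | hgt
    · have := key a b hlt.le hb
      rw [hab, SimpleGraph.dist_self] at this
      omega
    · exact heq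
    · have := key b a hgt.le ha
      rw [hab, SimpleGraph.dist_self] at this
      omega
  refine ⟨fun i => w.getVert i, fun i => w.getVert (i + r), ?_, ?_⟩
  · intro a b hab
    rcases a with a | a <;> rcases b with b | b
    · have h1 := hne a b (by omega) (by omega) hab
      exact congrArg Sum.inl (Fin.ext h1)
    · have h1 := hne a (b + r) (by omega) (by omega) hab
      omega
    · have h1 := hne (a + r) b (by omega) (by omega) hab
      omega
    · have h1 := hne (a + r) (b + r) (by omega) (by omega) hab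
      exact congrArg Sum.inr (Fin.ext (by omega))
  · intro i
    have h1 := key i (i + r) (by omega) (by omega)
    have h2 : (i : ℕ) + r - i = r := by omega
    rw [h2] at h1
    exact h1

end Pool.Agent.BagR

end

section

/-!
Roots, separation of the two arms, length of the ring, existence of the ring
(MP_bb6995_co).
-/

set_option linter.unusedSectionVars false

namespace Pool.Agent.BagR

open Finset

section general

variable {V : Type*} {G : SimpleGraph V}

/-- A vertex at prescribed distance on a geodesic. -/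
theorem exists_between (hG : G.Connected) (u v : V) {k : ℕ} (hk : k ≤ G.dist u v) :
    ∃ x, G.dist u x = k ∧ G.dist x v = G.dist u v - k := by
  obtain ⟨w, hw⟩ := hG.exists_walk_length_eq_dist u v
  refine ⟨w.getVert k, ?_⟩
  have h1 : G.dist u (w.getVert k) ≤ k := by
    have := SimpleGraph.dist_le (w.take k)
    rw [SimpleGraph.Walk.take_length] at this
    omega
  have h2 : G.dist (w.getVert k) v ≤ G.dist u v - k := by
    have := SimpleGraph.dist_le (w.drop k)
    rw [SimpleGraph.Walk.drop_length] at this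
    omega
  have h3 := hG.dist_triangle (u := u) (v := w.getVert k) (w := v)
  omega

end general

variable {V : Type*} [Fintype V] [DecidableEq V] {G : SimpleGraph V}

section arms

variable {z : V} {r s m e : ℕ} {P Q : ℕ → V}

theorem Arms.levP (A : Arms G z r s m e P Q) {c : ℕ} (hc : c ≤ r + s) :
    G.dist z (P c) = c := by
  have := A.Pgeo 0 c (Nat.zero_le _) hc
  rw [A.P0] at this
  omega

theorem Arms.levQ (A : Arms G z r s m e P Q) {c : ℕ} (hc : c ≤ m) :
    G.dist z (Q c) = c := by
  have := A.Qgeo 0 c (Nat.zero_le _) hc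
  rw [A.Q0] at this
  omega

/-- `c` is a root level of `u`. -/
def IsRt (G : SimpleGraph V) (z : V) (r s m : ℕ) (P Q : ℕ → V) (u : V) (c : ℕ) : Prop :=
  (c ≤ r + s ∧ G.dist (P c) u + c = G.dist z u) ∨ (c ≤ m ∧ G.dist (Q c) u + c = G.dist z u)

open Classical in
/-- Highest root level. -/
noncomputable def rt (G : SimpleGraph V) (z : V) (r s m : ℕ) (P Q : ℕ → V) (u : V) : ℕ :=
  Nat.findGreatest (fun c => IsRt G z r s m P Q u c) (G.dist z u)

theorem Arms.rt_spec (A : Arms G z r s m e P Q) (u : V) :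
    IsRt G z r s m P Q u (rt G z r s m P Q u) := by
  classical
  unfold rt
  refine Nat.findGreatest_spec (P := fun c => IsRt G z r s m P Q u c) (m := 0) (Nat.zero_le _) ?_
  left
  exact ⟨Nat.zero_le _, by rw [A.P0]; simp⟩

theorem rt_le (u : V) : rt G z r s m P Q u ≤ G.dist z u := by
  classical
  exact Nat.findGreatest_le _

theorem le_rt {u : V} {c : ℕ} (h : IsRt G z r s m P Q u c) : c ≤ rt G z r s m P Q u := by
  classical
  have hc : c ≤ G.dist z u := by
    rcases h with h | h <;> omega
  exact Nat.le_findGreatest hc h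

/-- The vertices between the root and `u` are extras with the same root. -/
theorem Arms.between (hG : G.Connected) (A : Arms G z r s m e P Q) (u : V) {l : ℕ}
    (h1 : rt G z r s m P Q u < l) (h2 : l ≤ G.dist z u) :
    ∃ x, G.dist z x = l ∧ (∀ c, c ≤ r + s → P c ≠ x) ∧ (∀ c, c ≤ m → Q c ≠ x) ∧
      rt G z r s m P Q x = rt G z r s m P Q u := by
  set k := rt G z r s m P Q u with hk
  have hkl : k ≤ G.dist z u := rt_le u
  obtain ⟨w, hw, hwk, hwt⟩ : ∃ w, G.dist w u + k = G.dist z u ∧ G.dist z w = k ∧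
      (∀ x, G.dist w x + k = G.dist z x → IsRt G z r s m P Q x k) := by
    rcases A.rt_spec u with ⟨ha, hb⟩ | ⟨ha, hb⟩
    · exact ⟨P k, hb, A.levP ha, fun x hx => Or.inl ⟨ha, hx⟩⟩
    · exact ⟨Q k, hb, A.levQ ha, fun x hx => Or.inr ⟨ha, hx⟩⟩
  obtain ⟨x, hx1, hx2⟩ := exists_between hG w u (k := l - k) (by omega)
  have t1 := hG.dist_triangle (u := z) (v := w) (w := x)
  have t2 := hG.dist_triangle (u := z) (v := x) (w := u)
  have hlx : G.dist z x = l := by omega
  have hmax : ∀ c, IsRt G z r s m P Q u c → c ≤ k := fun c hc => le_rt hc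
  refine ⟨x, hlx, ?_, ?_, ?_⟩
  · intro c hc hcx
    have hcl : c = l := by
      have := A.levP hc
      rw [hcx, hlx] at this
      exact this.symm
    have := hmax c (Or.inl ⟨hc, by rw [hcx]; omega⟩)
    omega
  · intro c hc hcx
    have hcl : c = l := by
      have := A.levQ hc
      rw [hcx, hlx] at this
      exact this.symm
    have := hmax c (Or.inr ⟨hc, by rw [hcx]; omega⟩)
    omega
  · apply le_antisymm
    · apply hmax
      rcases A.rt_spec x with ⟨ha, hb⟩ | ⟨ha, hb⟩
      · left
        refine ⟨ha, ?_⟩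
        have t3 := hG.dist_triangle (u := P (rt G z r s m P Q x)) (v := x) (w := u)
        have t4 := hG.dist_triangle (u := z) (v := P (rt G z r s m P Q x)) (w := u)
        have t5 := A.levP ha
        omega
      · right
        refine ⟨ha, ?_⟩
        have t3 := hG.dist_triangle (u := Q (rt G z r s m P Q x)) (v := x) (w := u)
        have t4 := hG.dist_triangle (u := z) (v := Q (rt G z r s m P Q x)) (w := u)
        have t5 := A.levQ ha
        omega
    · apply le_rt
      apply hwt
      omega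

open Classical in
/-- The extras of level at least `e`. -/
noncomputable def xt (G : SimpleGraph V) (z : V) (r s m e : ℕ) (P Q : ℕ → V) : Finset V :=
  (univ : Finset V).filter fun v => e ≤ G.dist z v ∧
    (∀ c, c ≤ r + s → P c ≠ v) ∧ (∀ c, c ≤ m → Q c ≠ v)

theorem Arms.card_xt (A : Arms G z r s m e P Q) : (xt G z r s m e P Q).card ≤ e := by
  have := A.ext
  unfold xt
  convert this

/-- If `l0 ≥ e` is at least the root level then the number of levels above `l0` up to the
level of `u` is at most the number of extras with the same root. -/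
theorem Arms.gap (hG : G.Connected) (A : Arms G z r s m e P Q) (u : V) {l0 : ℕ}
    (h1 : rt G z r s m P Q u ≤ l0) (h2 : e ≤ l0 + 1) :
    G.dist z u - l0 ≤ ((xt G z r s m e P Q).filter
      fun x => rt G z r s m P Q x = rt G z r s m P Q u).card := by
  classical
  have hex : ∀ l : ℕ, l ∈ Finset.Ioc l0 (G.dist z u) →
      ∃ x, G.dist z x = l ∧ (∀ c, c ≤ r + s → P c ≠ x) ∧ (∀ c, c ≤ m → Q c ≠ x) ∧
      rt G z r s m P Q x = rt G z r s m P Q u := by
    intro l hl
    rw [Finset.mem_Ioc] at hl
    exact A.between hG u (by omega) hl.2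
  have : Nonempty V := ⟨z⟩
  choose! f hf using hex
  have hinj : Set.InjOn f (Finset.Ioc l0 (G.dist z u) : Finset ℕ) := by
    intro a ha b hb hab
    have h1 := (hf a ha).1
    have h2 := (hf b hb).1
    rw [hab, h2] at h1
    exact h1.symm
  have hcard := Finset.card_image_of_injOn hinj
  have hsub : (Finset.Ioc l0 (G.dist z u)).image f ⊆ (xt G z r s m e P Q).filter
      (fun x => rt G z r s m P Q x = rt G z r s m P Q u) := by
    intro x hx
    rw [Finset.mem_image] at hx
    obtain ⟨l, hl, rfl⟩ := hx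
    obtain ⟨a1, a2, a3, a4⟩ := hf l hl
    rw [Finset.mem_Ioc] at hl
    rw [Finset.mem_filter]
    refine ⟨?_, a4⟩
    unfold xt
    rw [Finset.mem_filter]
    exact ⟨Finset.mem_univ _, by omega, a2, a3⟩
  have := Finset.card_le_card hsub
  rw [hcard, Nat.card_Ioc] at this
  exact this

theorem Arms.rt_high (hG : G.Connected) (A : Arms G z r s m e P Q) (u : V)
    (hu : 2 * e ≤ G.dist z u) (he1 : 1 ≤ e) :
    e ≤ rt G z r s m P Q u ∧ G.dist z u ≤ rt G z r s m P Q u + e := by
  have hc := A.card_xt
  have hfil : ((xt G z r s m e P Q).filter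
      fun x => rt G z r s m P Q x = rt G z r s m P Q u).card ≤ e :=
    (Finset.card_filter_le _ _).trans hc
  by_cases h : e ≤ rt G z r s m P Q u
  · refine ⟨h, ?_⟩
    have := A.gap hG u (l0 := rt G z r s m P Q u) le_rfl (by omega)
    omega
  · exfalso
    have := A.gap hG u (l0 := e - 1) (by omega) (by omega)
    omega

/-- Separation of the arms. -/
theorem sep (hG : G.Connected) (hr : ∀ v, ∃ u, r ≤ G.dist v u)
    (A : Arms G z r s m e P Q) (he1 : 1 ≤ e) (he : 200 * e ≤ r)
    {c : ℕ} (h1 : 10 * e ≤ c) (h2 : c + 10 * e ≤ r) : 6 * e < G.dist (P c) (Q c) := by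
  by_contra hcon
  push Not at hcon
  have hs := A.hs
  have hm := A.hm
  have hcP : c ≤ r + s := by omega
  have hcQ : c ≤ m := by omega
  obtain ⟨u, hu⟩ := hr (P c)
  have lP := A.levP hcP
  have lQ := A.levQ hcQ
  have hlu : r ≤ G.dist z u + c := by
    have := hG.dist_triangle (u := P c) (v := z) (w := u)
    rw [SimpleGraph.dist_comm (u := P c) (v := z), lP] at this
    omega
  have hecc := A.ecc_le u
  obtain ⟨g1, g2⟩ := A.rt_high hG u (by omega) he1
  set k := rt G z r s m P Q u with hk
  have hkl : k ≤ G.dist z u := rt_le u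
  -- distance from P c to u
  have key : G.dist (P c) u ≤ 6 * e + (c - k) + (k - c) + (G.dist z u - k) := by
    rcases A.rt_spec u with ⟨ha, hb⟩ | ⟨ha, hb⟩
    · rw [← hk] at ha hb
      have t1 := hG.dist_triangle (u := P c) (v := P k) (w := u)
      have t2 : G.dist (P c) (P k) = (c - k) + (k - c) := by
        rcases le_total c k with h | h
        · rw [A.Pgeo c k h ha]; omega
        · rw [SimpleGraph.dist_comm (u := P c), A.Pgeo k c h hcP]; omega
      omega
    · rw [← hk] at ha hb
      have t1 := hG.dist_triangle (u := P c) (v := Q k) (w := u)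
      have t3 := hG.dist_triangle (u := P c) (v := Q c) (w := Q k)
      have t2 : G.dist (Q c) (Q k) = (c - k) + (k - c) := by
        rcases le_total c k with h | h
        · rw [A.Qgeo c k h ha]; omega
        · rw [SimpleGraph.dist_comm (u := Q c), A.Qgeo k c h hcQ]; omega
      omega
  omega

end arms

end Pool.Agent.BagR

end
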