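import Pool.Agent.Work.MP_bb6995_co.Bd.B02
import Pool.Agent.Work.MP_bb6995_co.Defs

/-! Bundle of small proof modules (one section per former module). -/

section

/-!
A near extremal vertex gives arms with few extra vertices.
-/

namespace Pool.Agent.BagR

open Finset

variable {V : Type*} [Fintype V] [DecidableEq V] {G : SimpleGraph V}

theorem two_sum_Ioc (L n : ℕ) : 2 * ∑ c ∈ Ioc L (L + n), (c - L) = n * (n + 1) := by
  induction n with
  | zero => simp
  | succ n ih =>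
    have h1 : Ioc L (L + (n + 1)) = insert (L + (n + 1)) (Ioc L (L + n)) := by
      ext x
      simp only [mem_insert, mem_Ioc]
      omega
    rw [h1, sum_insert (by simp), mul_add, ih]
    have h2 : L + (n + 1) - L = n + 1 := by omega
    rw [h2]
    ring

theorem arms_of_tau (hG : G.Connected) {r : ℕ} (hr : ∀ v, ∃ u, r ≤ G.dist v u) (z : V) {L e : ℕ}
    (he1 : 1 ≤ e) (hLe : 2 * L ≤ e) (he : 200 * e ≤ r)
    (hτ : 2 * ∑ v, (G.dist z v - L) ≤ 2 * (r - L) ^ 2 + e ^ 2) :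
    ∃ (s m : ℕ) (P Q : ℕ → V), Arms G z r s m e P Q := by
  obtain ⟨s, m, P, Q, h1, hP0, hQ0, hP, hQ, hne, h8, h9⟩ := arms_exist hG (by omega) hr z
  have hPl : ∀ c, c ≤ r + s → G.dist z (P c) = c := by
    intro c hc
    have := hP 0 c (Nat.zero_le _) hc
    rwa [hP0, Nat.sub_zero] at this
  have hQl : ∀ c, c ≤ m → G.dist z (Q c) = c := by
    intro c hc
    have := hQ 0 c (Nat.zero_le _) hc
    rwa [hQ0, Nat.sub_zero] at this
  obtain ⟨R, hR⟩ : ∃ R, r = L + R := ⟨r - L, by omega⟩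
  have hRL : r - L = R := by omega
  rw [hRL] at hτ
  have hRe : 199 * e ≤ R := by omega
  -- the two arms
  set A := (Ioc L (r + s)).image P with hA
  have hsumA : ∑ v ∈ A, (G.dist z v - L) = ∑ c ∈ Ioc L (r + s), (c - L) := by
    rw [hA, sum_image]
    · refine sum_congr rfl fun c hc => ?_
      rw [mem_Ioc] at hc
      rw [hPl c hc.2]
    · intro c hc c' hc' heq
      simp only [coe_Ioc, Set.mem_Ioc] at hc hc'
      rw [← hPl c hc.2, ← hPl c' hc'.2, heq]
  have hsumA2 : 2 * ∑ v ∈ A, (G.dist z v - L) = (R + s) * (R + s + 1) := by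
    rw [hsumA, hR, add_assoc, two_sum_Ioc]
  have h2s : 2 * s < R := by
    by_contra hcon
    have h3 : 2 * ∑ v ∈ A, (G.dist z v - L) ≤ 2 * ∑ v, (G.dist z v - L) :=
      Nat.mul_le_mul_left _ (sum_le_sum_of_subset (subset_univ _))
    have h4 : (R + s) * (R + s + 1) ≤ 2 * R ^ 2 + e ^ 2 := by omega
    have h5 : 9 * R ^ 2 ≤ 4 * ((R + s) * (R + s + 1)) := by nlinarith
    nlinarith
  set a := max s L with ha
  have hab : a ≤ r - s - 1 := by omega
  have hbm : r - s - 1 ≤ m := by omega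
  set B := (Ioc a (r - s - 1)).image Q with hB
  have hsumB : ∑ v ∈ B, (G.dist z v - L) = ∑ c ∈ Ioc a (r - s - 1), (c - L) := by
    rw [hB, sum_image]
    · refine sum_congr rfl fun c hc => ?_
      rw [mem_Ioc] at hc
      rw [hQl c (by omega)]
    · intro c hc c' hc' heq
      simp only [coe_Ioc, Set.mem_Ioc] at hc hc'
      rw [← hQl c (by omega), ← hQl c' (by omega), heq]
  have hsplit : ∑ c ∈ Ioc L a, (c - L) + ∑ c ∈ Ioc a (r - s - 1), (c - L) =
      ∑ c ∈ Ioc L (r - s - 1), (c - L) := by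
    rw [← sum_union]
    · congr 1
      ext x
      simp only [mem_union, mem_Ioc]
      omega
    · rw [disjoint_left]
      intro x hx hx'
      rw [mem_Ioc] at hx hx'
      omega
  have hB1 : 2 * ∑ c ∈ Ioc L a, (c - L) ≤ s * (s + 1) := by
    obtain ⟨n, hn⟩ : ∃ n, a = L + n := ⟨a - L, by omega⟩
    rw [hn, two_sum_Ioc]
    have : n ≤ s := by omega
    exact Nat.mul_le_mul this (by omega)
  have hB2 : 2 * ∑ c ∈ Ioc L (r - s - 1), (c - L) = (R - s - 1) * (R - s - 1 + 1) := by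
    have h3 : r - s - 1 = L + (R - s - 1) := by omega
    rw [h3, two_sum_Ioc]
  set X := (univ : Finset V).filter fun v => e ≤ G.dist z v ∧
    (∀ c, c ≤ r + s → P c ≠ v) ∧ (∀ c, c ≤ m → Q c ≠ v) with hX
  have hsumX : X.card * (e - L) ≤ ∑ v ∈ X, (G.dist z v - L) := by
    rw [← smul_eq_mul]
    refine card_nsmul_le_sum _ _ _ fun v hv => ?_
    rw [hX, mem_filter] at hv
    have := hv.2.1
    omega
  have hAB : Disjoint A B := by
    rw [disjoint_left]
    intro v hv hv'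
    rw [hA, mem_image] at hv
    rw [hB, mem_image] at hv'
    obtain ⟨c, hc, rfl⟩ := hv
    obtain ⟨c', hc', heq⟩ := hv'
    rw [mem_Ioc] at hc hc'
    have h10 : c' = c := by
      rw [← hPl c hc.2, ← hQl c' (by omega), heq]
    subst h10
    exact hne c' (by omega) (by omega) heq.symm
  have hABX : Disjoint (A ∪ B) X := by
    rw [disjoint_left]
    intro v hv hv'
    rw [hX, mem_filter] at hv'
    rw [mem_union, hA, hB, mem_image, mem_image] at hv
    rcases hv with ⟨c, hc, rfl⟩ | ⟨c, hc, rfl⟩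
    · rw [mem_Ioc] at hc
      exact hv'.2.2.1 c hc.2 rfl
    · rw [mem_Ioc] at hc
      exact hv'.2.2.2 c (by omega) rfl
  have htot : ∑ v ∈ A, (G.dist z v - L) + ∑ v ∈ B, (G.dist z v - L) +
      ∑ v ∈ X, (G.dist z v - L) ≤ ∑ v, (G.dist z v - L) := by
    rw [← sum_union hAB, ← sum_union hABX]
    exact sum_le_sum_of_subset (subset_univ _)
  obtain ⟨t, ht⟩ : ∃ t, R = s + 1 + t := ⟨R - s - 1, by omega⟩
  have hRt : R - s - 1 = t := by omega
  rw [hRt] at hB2
  have hkey : s * (s + 1) + 2 * ∑ v ∈ X, (G.dist z v - L) ≤ e ^ 2 := by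
    have h11 : (R + s) * (R + s + 1) + t * (t + 1) = 2 * R ^ 2 + 2 * (s * (s + 1)) := by
      rw [ht]; ring
    omega
  have hse : s ≤ e := by
    by_contra hcon
    have : e + 1 ≤ s := by omega
    nlinarith
  have hXe : X.card ≤ e := by
    have h12 : X.card * e ≤ 2 * (X.card * (e - L)) := by
      have : e ≤ 2 * (e - L) := by omega
      calc X.card * e ≤ X.card * (2 * (e - L)) := Nat.mul_le_mul_left _ this
        _ = _ := by ring
    have h13 : X.card * e ≤ e * e := by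
      have : e ^ 2 = e * e := by ring
      omega
    exact Nat.le_of_mul_le_mul_right h13 (by omega)
  exact ⟨s, m, P, Q, h1, hP0, hQ0, hP, hQ, hne, h8, h9, hse, hXe⟩

end Pool.Agent.BagR

end

section

/-!
Statements of the steps of the proof of Q1 of MP_bb6995_co for all orders
(note 1190, helper88).  `ρ = r - 1`, `c` a vertex with minimal `eS G univ c`.
-/

namespace Pool.Agent.BagR

open Finset

/-- Every vertex has eccentricity at least `r`. -/
def RadGe {V : Type} (G : SimpleGraph V) (r : ℕ) : Prop := ∀ v, ∃ u, r ≤ G.dist v u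

/-! W: width -/

def S_wid_univ : Prop := ∀ (V : Type) [Fintype V] [DecidableEq V] (G : SimpleGraph V),
  G.Connected → ∀ r m : ℕ, RadGe G r → Wid G m univ → 2 * r ≤ m

def S_wid_self : Prop := ∀ (V : Type) [Fintype V] [DecidableEq V] (G : SimpleGraph V)
  (c : V) (k : ℕ), Wid G (2 * k + 1) (univ.filter fun v => G.dist c v ≤ k)

def S_wid_ball : Prop := ∀ (V : Type) [Fintype V] [DecidableEq V] (G : SimpleGraph V),
  G.Connected → ∀ (m k : ℕ) (S : Finset V) (c s s' : V), Wid G m S → s ∈ S →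
  G.dist s s' ≤ 1 → G.dist c s' ≤ k →
  Wid G (m + 2 * k + 1) (S ∪ univ.filter fun v => G.dist c v ≤ k)

def S_wid_two : Prop := ∀ (V : Type) [Fintype V] [DecidableEq V] (G : SimpleGraph V),
  G.Connected → ∀ (c u : V) (k j : ℕ), 1 ≤ j → k + 1 ≤ G.dist c u + j →
  j ≤ G.dist c u + k + 1 →
  Wid G (G.dist c u + j + k) (univ.filter fun v => ¬ (k < G.dist c v ∧ j ≤ G.dist u v))

def S_cover_one : Prop := ∀ (V : Type) [Fintype V] [DecidableEq V] (G : SimpleGraph V),
  G.Connected → ∀ r m : ℕ, RadGe G r → ∀ S : Finset V, S.Nonempty → Wid G m S →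
  2 * r ≤ m + (univ \ S).card

def S_cov_a : Prop := ∀ (V : Type) [Fintype V] [DecidableEq V] (G : SimpleGraph V),
  G.Connected → ∀ r : ℕ, RadGe G r → ∀ (c u : V) (k j : ℕ), G.dist c u + k + 1 ≤ j →
  2 * r + 1 ≤ NN G c k u j + 2 * j

def S_cov_b : Prop := ∀ (V : Type) [Fintype V] [DecidableEq V] (G : SimpleGraph V),
  G.Connected → ∀ r : ℕ, RadGe G r → ∀ (c u : V) (k j : ℕ), 1 ≤ j →
  k + 1 ≤ G.dist c u + j → j ≤ G.dist c u + k + 1 →
  2 * r ≤ NN G c k u j + (G.dist c u + j + k)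

def S_cov_c : Prop := ∀ (V : Type) [Fintype V] [DecidableEq V] (G : SimpleGraph V),
  G.Connected → ∀ r : ℕ, RadGe G r → ∀ (c u : V) (k j : ℕ), 1 ≤ j →
  2 * r ≤ NN G c k u j + 2 * j + 2 * k

/-! S: lower bounds for outer sums -/

def S_sum_NN : Prop := ∀ (V : Type) [Fintype V] [DecidableEq V] (G : SimpleGraph V)
  (c : V) (k : ℕ) (u : V) (r : ℕ), ∑ j ∈ Icc 2 r, NN G c k u j ≤ eS G (FF G c k) u

def S_s1_one : Prop := ∀ (V : Type) [Fintype V] [DecidableEq V] (G : SimpleGraph V),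
  G.Connected → ∀ ρ : ℕ, 2 ≤ ρ → RadGe G (ρ + 1) → ∀ c w : V, G.dist c w = 1 →
  ρ ^ 2 ≤ eS G (FF G c 1) w + 1

def S_s1_far : Prop := ∀ (V : Type) [Fintype V] [DecidableEq V] (G : SimpleGraph V),
  G.Connected → ∀ ρ : ℕ, 2 ≤ ρ → RadGe G (ρ + 1) → ∀ c u : V, 2 ≤ G.dist c u →
  ρ ^ 2 ≤ eS G (FF G c 1) u + 3 * (G.dist c u - 1) ∧
  (ρ + 1 ≤ G.dist c u → ρ ^ 2 + 2 ≤ eS G (FF G c 1) u + 3 * (G.dist c u - 1))

def S_s2_one : Prop := ∀ (V : Type) [Fintype V] [DecidableEq V] (G : SimpleGraph V),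
  G.Connected → ∀ ρ : ℕ, 3 ≤ ρ → RadGe G (ρ + 1) → ∀ c w : V, G.dist c w = 1 →
  ρ ^ 2 + (FF G c 2).card ≤ eS G (FF G c 2) w + 2 * ρ

def S_s2_two : Prop := ∀ (V : Type) [Fintype V] [DecidableEq V] (G : SimpleGraph V),
  G.Connected → ∀ ρ : ℕ, 3 ≤ ρ → RadGe G (ρ + 1) → ∀ c w : V, G.dist c w = 2 →
  ρ ^ 2 ≤ eS G (FF G c 2) w + 6

def S_s2_far : Prop := ∀ (V : Type) [Fintype V] [DecidableEq V] (G : SimpleGraph V),
  G.Connected → ∀ ρ : ℕ, 3 ≤ ρ → RadGe G (ρ + 1) → ∀ c u : V, 3 ≤ G.dist c u →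
  ρ ^ 2 ≤ eS G (FF G c 2) u + 5 * (G.dist c u - 1) ∧
  (ρ ≤ G.dist c u → ρ ^ 2 + 2 ≤ eS G (FF G c 2) u + 5 * (G.dist c u - 1)) ∧
  (ρ + 1 ≤ G.dist c u → ρ ^ 2 + 6 ≤ eS G (FF G c 2) u + 5 * (G.dist c u - 1))

/-! P: level sizes -/

def S_card_FF : Prop := ∀ (V : Type) [Fintype V] [DecidableEq V] (G : SimpleGraph V),
  G.Connected → ∀ ρ : ℕ, RadGe G (ρ + 1) → ∀ (c : V) (k : ℕ),
  2 * ρ + 1 ≤ (FF G c k).card + 2 * k

/-- `e(c)` is the sum of the sizes of the outer parts (no hypothesis on `G`). -/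
def S_sum_FF : Prop := ∀ (V : Type) [Fintype V] [DecidableEq V] (G : SimpleGraph V)
  (c : V) (m : ℕ), (∀ v, G.dist c v ≤ m + 1) → eS G univ c = ∑ k ∈ Icc 1 m, (FF G c k).card

def S_A_ge : Prop := ∀ (V : Type) [Fintype V] [DecidableEq V] (G : SimpleGraph V),
  G.Connected → ∀ ρ x z : ℕ, 2 ≤ ρ → RadGe G (ρ + 1) → ∀ c : V,
  (FF G c 1).card + 1 = 2 * ρ + x → (FF G c 2).card + 3 = 2 * ρ + z →
  ρ ^ 2 + x + z ≤ eS G univ c

def S_LL_nonempty : Prop := ∀ (V : Type) [Fintype V] [DecidableEq V] (G : SimpleGraph V),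
  G.Connected → ∀ ρ : ℕ, RadGe G (ρ + 1) → ∀ (c : V) (i : ℕ), i ≤ ρ + 1 →
  (LL G c i).Nonempty

/-- The sizes of the first levels. -/
def S_levels : Prop := ∀ (V : Type) [Fintype V] [DecidableEq V] (G : SimpleGraph V),
  G.Connected → ∀ (ρ x z n : ℕ), 2 ≤ ρ → RadGe G (ρ + 1) → Fintype.card V = n → ∀ c : V,
  (FF G c 1).card + 1 = 2 * ρ + x → (FF G c 2).card + 3 = 2 * ρ + z →
  (LL G c 1).card + 2 * ρ + x = n ∧ (LL G c 2).card + z = x + 2 ∧ z ≤ x + 1 ∧
  x + 2 * ρ + 1 ≤ n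

def S_tight : Prop := ∀ (V : Type) [Fintype V] [DecidableEq V] (G : SimpleGraph V),
  G.Connected → ∀ ρ x : ℕ, 3 ≤ ρ → RadGe G (ρ + 1) → ∀ c : V,
  (FF G c 1).card + 1 = 2 * ρ + x → eS G univ c = ρ ^ 2 + x →
  (LL G c 2).card = x + 2 ∧ (LL G c 3).card = 2 ∧ (∀ u, G.dist c u ≤ ρ + 1) ∧
  (∀ j, 3 ≤ j → j ≤ ρ → (LL G c j).card = 2) ∧ (LL G c (ρ + 1)).card = 1

/-! G, B: the three general bounds -/

def S_exo_split : Prop := ∀ (V : Type) [Fintype V] [DecidableEq V] (G : SimpleGraph V)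
  (U : Finset V),
  exo G = ∑ w ∈ Uᶜ, (eS G univ w + eS G U w) + ∑ u ∈ U, eS G U u

def S_exo_even : Prop := ∀ (V : Type) [Fintype V] [DecidableEq V] (G : SimpleGraph V),
  2 ∣ exo G

def S_B0 : Prop := ∀ (V : Type) [Fintype V] [DecidableEq V] (G : SimpleGraph V)
  (c : V), (∀ v, eS G univ c ≤ eS G univ v) → Fintype.card V * eS G univ c ≤ exo G

def S_B1 : Prop := ∀ (V : Type) [Fintype V] [DecidableEq V] (G : SimpleGraph V),
  G.Connected → ∀ ρ n A x z : ℕ, 2 ≤ ρ → Fintype.card V = n → RadGe G (ρ + 1) → ∀ c : V,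
  (∀ v, eS G univ c ≤ eS G univ v) →
  (FF G c 1).card + 1 = 2 * ρ + x → (FF G c 2).card + 3 = 2 * ρ + z →
  eS G univ c = ρ ^ 2 + A →
  2 * ((n : ℤ) - ρ - 1) * ρ ^ 2 + ((A : ℤ) - 1) * (n - 2 * ρ - 1) - x * (ρ ^ 2 + A - 1) + 1
      ≤ exo G

def S_B2 : Prop := ∀ (V : Type) [Fintype V] [DecidableEq V] (G : SimpleGraph V),
  G.Connected → ∀ ρ n A x z : ℕ, 3 ≤ ρ → Fintype.card V = n → RadGe G (ρ + 1) → ∀ c : V,
  (∀ v, eS G univ c ≤ eS G univ v) →
  (FF G c 1).card + 1 = 2 * ρ + x → (FF G c 2).card + 3 = 2 * ρ + z →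
  eS G univ c = ρ ^ 2 + A →
  2 * ((n : ℤ) - ρ - 1) * ρ ^ 2 + ((A : ℤ) - 3) * (n - 2 * ρ + 2 - z) - z * ρ ^ 2 + 12 - z + x
      - 3 * A + z * (n - 2 * ρ - x) ≤ exo G

/-! T: the tight profile `A = x` -/

def S_bad_eq : Prop := ∀ (V : Type) [Fintype V] [DecidableEq V] (G : SimpleGraph V),
  G.Connected → ∀ ρ x : ℕ, 2 ≤ ρ → RadGe G (ρ + 1) → ∀ c w : V,
  (FF G c 1).card + 1 = 2 * ρ + x → G.dist c w = 1 → eS G (FF G c 1) w + 1 = ρ ^ 2 →
  ((FF G c 1).filter fun v => G.dist w v = 2).card = 1 ∧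
  ((FF G c 1).filter fun v => G.dist w v = 1).card = x + 1

def S_exo_one : Prop := ∀ (V : Type) [Fintype V] [DecidableEq V] (G : SimpleGraph V),
  G.Connected → ∀ c : V,
  exo G = 2 * eS G univ c + ∑ w ∈ LL G c 1, (gg G c w + 2 * eS G (FF G c 1) w)
      + ∑ u ∈ FF G c 1, eS G (FF G c 1) u

def S_gg_eq : Prop := ∀ (V : Type) [Fintype V] [DecidableEq V] (G : SimpleGraph V),
  G.Connected → ∀ c w : V, G.dist c w = 1 → eS G univ w = gg G c w + eS G (FF G c 1) w

def S_sum_far : Prop := ∀ (V : Type) [Fintype V] [DecidableEq V] (G : SimpleGraph V),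
  G.Connected → ∀ ρ A x : ℕ, 2 ≤ ρ → RadGe G (ρ + 1) → ∀ c : V,
  (FF G c 1).card + 1 = 2 * ρ + x → eS G univ c = ρ ^ 2 + A →
  (2 * (ρ : ℤ) - 4 + x) * ρ ^ 2 - 3 * A + 2 ≤ ∑ u ∈ FF G c 1, (eS G (FF G c 1) u : ℤ)

def S_bad_struct : Prop := ∀ (V : Type) [Fintype V] [DecidableEq V] (G : SimpleGraph V),
  G.Connected → ∀ ρ x : ℕ, 3 ≤ ρ → RadGe G (ρ + 1) → ∀ c w : V,
  (FF G c 1).card + 1 = 2 * ρ + x → eS G univ c = ρ ^ 2 + x → G.dist c w = 1 →
  eS G (FF G c 1) w + 1 = ρ ^ 2 →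
  ∃ y₀, G.dist c y₀ = 2 ∧ 3 ≤ G.dist w y₀ ∧
    ∀ y, G.dist c y = 2 → y ≠ y₀ → G.Adj w y

def S_deficit : Prop := ∀ (V : Type) [Fintype V] [DecidableEq V] (G : SimpleGraph V),
  G.Connected → ∀ ρ x : ℕ, 3 ≤ ρ → RadGe G (ρ + 1) → ∀ c : V,
  (∀ v, eS G univ c ≤ eS G univ v) →
  (FF G c 1).card + 1 = 2 * ρ + x → eS G univ c = ρ ^ 2 + x →
  (LL G c 1).card * (x + 2 * ρ ^ 2) ≤
      ∑ w ∈ LL G c 1, (gg G c w + 2 * eS G (FF G c 1) w) + (2 * x + 2)

def S_Cx : Prop := ∀ (V : Type) [Fintype V] [DecidableEq V] (G : SimpleGraph V),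
  G.Connected → ∀ ρ n x z : ℕ, 3 ≤ ρ → Fintype.card V = n → RadGe G (ρ + 1) → ∀ c : V,
  (∀ v, eS G univ c ≤ eS G univ v) →
  (FF G c 1).card + 1 = 2 * ρ + x → (FF G c 2).card + 3 = 2 * ρ + z →
  eS G univ c = ρ ^ 2 + x →
  2 * ((n : ℤ) - ρ - 1) * ρ ^ 2 + x * ((n : ℤ) - 2 * ρ - 3 - x - ρ ^ 2) ≤ exo G

/-! R4: radius 4, tight profiles with `x = 1, 2` -/

def S_four_struct : Prop := ∀ (V : Type) [Fintype V] [DecidableEq V] (G : SimpleGraph V),
  G.Connected → RadGe G 4 → ∀ (c : V) (x : ℕ), (FF G c 1).card = x + 5 →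
  eS G univ c = 9 + x →
  (LL G c 2).card = x + 2 ∧
  ∃ p q s : V, p ≠ q ∧ p ≠ s ∧ q ≠ s ∧ FF G c 2 = {p, q, s} ∧ 2 ≤ G.dist p q ∧
    (∀ y ∈ LL G c 2, 6 ≤ G.dist y p + G.dist y q + G.dist y s) ∧
    (((∃ y ∈ LL G c 2, G.dist y p + G.dist y q + G.dist y s = 6) ∧
        ∀ y ∈ LL G c 2, G.dist y p + G.dist y q + G.dist y s = 6 →
          ∃ y' ∈ LL G c 2, 4 ≤ G.dist y y') ∨
      (4 ≤ G.dist p q ∧ 5 ≤ G.dist q s ∧
        ∃ y₁ ∈ LL G c 2, ∃ y₂ ∈ LL G c 2, 2 ≤ G.dist y₁ y₂ ∧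
          8 ≤ G.dist y₂ p + G.dist y₂ q + G.dist y₂ s))

def S_four_one : Prop := ∀ (V : Type) [Fintype V] [DecidableEq V] (G : SimpleGraph V),
  G.Connected → RadGe G 4 → ∀ c : V, (FF G c 1).card = 6 → eS G univ c = 10 →
  32 ≤ ∑ u ∈ FF G c 1, eS G (FF G c 1) u

def S_four_two : Prop := ∀ (V : Type) [Fintype V] [DecidableEq V] (G : SimpleGraph V),
  G.Connected → RadGe G 4 → ∀ c : V, (FF G c 1).card = 7 → eS G univ c = 11 →
  44 ≤ ∑ u ∈ FF G c 1, eS G (FF G c 1) u

/-! R3: radius 3 -/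

def S_far_avoid : Prop := ∀ (V : Type) [Fintype V] [DecidableEq V] (G : SimpleGraph V),
  G.Connected → RadGe G 3 → ∀ a b : V, a ≠ b →
  ∃ u v, u ≠ a ∧ u ≠ b ∧ v ≠ a ∧ v ≠ b ∧ 3 ≤ G.dist u v

def S_no_tri : Prop := ∀ (V : Type) [Fintype V] [DecidableEq V] (G : SimpleGraph V),
  G.Connected → ∀ a t₁ t₂ t₃ : V, a ≠ t₁ → a ≠ t₂ → a ≠ t₃ →
  3 ≤ G.dist t₁ t₂ → 3 ≤ G.dist t₁ t₃ → 3 ≤ G.dist t₂ t₃ →
  ¬ ∀ v, v ≠ a → v ≠ t₁ → v ≠ t₂ → v ≠ t₃ → 3 ≤ G.dist a v

def S_far_three : Prop := ∀ (V : Type) [Fintype V] [DecidableEq V] (G : SimpleGraph V),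
  G.Connected → RadGe G 3 → Far G 3

/-! N: numbers -/

def nB0 (n ρ A : ℤ) : ℤ := n * A - (n - 2 * ρ - 2) * ρ ^ 2
def nB1 (n ρ x A : ℤ) : ℤ := (A - 1) * (n - 2 * ρ - 1) - x * (ρ ^ 2 + A - 1) + 1
def nB2 (n ρ x z A : ℤ) : ℤ :=
  (A - 3) * (n - 2 * ρ + 2 - z) - z * ρ ^ 2 + 12 - z + x - 3 * A + z * (n - 2 * ρ - x)
def nC (n ρ x : ℤ) : ℤ := x * (n - 2 * ρ - 3 - x - ρ ^ 2)
def nE (n ρ A : ℤ) : ℤ :=
  A * (6 * n - 12 * ρ - 2 * ρ ^ 2 - 3 * A) - 10 * n + 20 * ρ + 27 - 2 * ρ ^ 2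
def nPhi (n h ρ : ℤ) : ℤ := n * (2 * (h + 1) * (ρ + 1) - 1 - n) - 2 * (h + 1) * (ρ + 1) * (ρ + h)

/-- Elimination of `x` and `z`. -/
def S_red : Prop := ∀ ρ n x z A b : ℤ, 3 ≤ ρ → 2 * ρ + 2 ≤ n → 0 ≤ x → 0 ≤ z → z ≤ x + 1 →
  x + z ≤ A → x + 2 * ρ + 1 ≤ n → nB0 n ρ A ≤ b → nB1 n ρ x A ≤ b → nB2 n ρ x z A ≤ b →
  (A = x → nC n ρ x ≤ b) →
  0 ≤ b ∨ (n ≤ ρ ^ 2 + 2 * ρ + 7 ∧ A < ρ ^ 2 ∧
    ((1 ≤ A ∧ A ≤ 2 ∧ -(ρ ^ 2 + 1) ≤ b ∧ A * (n - 2 * ρ - 3 - A - ρ ^ 2) ≤ b) ∨
      (3 ≤ A ∧ nE n ρ A ≤ 4 * b)))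

/-- The three sufficient conditions for the bag with `q = h + 1`. -/
def Key (ρ n h A : ℤ) : Prop :=
  0 ≤ (h + 1) * nB0 n ρ A + (ρ - h) * nPhi n h ρ ∨
  (A ≤ 2 ∧ 0 ≤ -((h + 1) * (ρ ^ 2 + 1)) + (ρ - h) * nPhi n h ρ) ∨
  (3 ≤ A ∧ 0 ≤ (h + 1) * nE n ρ A + 4 * (ρ - h) * nPhi n h ρ)

def S_key_small : Prop := ∀ ρ n h A : ℤ, 5 ≤ ρ → ρ ≤ 12 → 2 * ρ + 2 ≤ n →
  n ≤ ρ ^ 2 + 2 * ρ + 7 → 0 ≤ h → 2 * h ^ 2 ≤ n → n ≤ 2 * h ^ 2 + 4 * h + 1 → 1 ≤ A →
  A < ρ ^ 2 → Key ρ n h A

/-- The six endpoint inequalities. -/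
def GG (h ρ : ℤ) : Prop :=
  0 ≤ (h + 1) * nE (2 * h ^ 2) ρ (ρ ^ 2 - 2 * (ρ - h) ^ 2) +
    4 * (ρ - h) * nPhi (2 * h ^ 2) h ρ ∧
  0 ≤ (h + 1) * nE (2 * h ^ 2 + 4 * h + 1) ρ (ρ ^ 2 - 2 * (ρ - h) ^ 2) +
    4 * (ρ - h) * nPhi (2 * h ^ 2 + 4 * h + 1) h ρ ∧
  0 ≤ (h + 1) * nE (2 * h ^ 2) ρ 3 + 4 * (ρ - h) * nPhi (2 * h ^ 2) h ρ ∧
  0 ≤ (h + 1) * nE (2 * h ^ 2 + 4 * h + 1) ρ 3 +
    4 * (ρ - h) * nPhi (2 * h ^ 2 + 4 * h + 1) h ρ ∧
  0 ≤ -((h + 1) * (ρ ^ 2 + 1)) + (ρ - h) * nPhi (2 * h ^ 2) h ρ ∧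
  0 ≤ -((h + 1) * (ρ ^ 2 + 1)) + (ρ - h) * nPhi (2 * h ^ 2 + 4 * h + 1) h ρ

def S_GG_mid : Prop := ∀ ρ h : ℤ, 13 ≤ ρ → ρ ≤ 19 → 1 ≤ h → h < ρ →
  2 * (ρ - h) ^ 2 < ρ ^ 2 → 2 * h ^ 2 ≤ ρ ^ 2 + 2 * ρ + 7 → GG h ρ

def S_GG_big : Prop := ∀ ρ h : ℤ, 20 ≤ ρ → 3 * h ≤ 10 * (ρ - h) → 12 * (ρ - h) ≤ 29 * h →
  GG h ρ

def S_key_big : Prop := ∀ ρ n h A : ℤ, 13 ≤ ρ → 2 * ρ + 2 ≤ n →
  n ≤ ρ ^ 2 + 2 * ρ + 7 → 0 ≤ h → 2 * h ^ 2 ≤ n → n ≤ 2 * h ^ 2 + 4 * h + 1 → 1 ≤ A →
  A < ρ ^ 2 → Key ρ n h A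

/-- What has to be shown for every graph: the bag with radius `q` is at least as good. -/
def Good (n r E : ℤ) : Prop := ∃ q : ℤ, 2 ≤ q ∧ 2 * q ≤ n ∧
  r * (n * (n - 1) + 2 * (n - q) * (q - 1) ^ 2) ≤ q * (E + n * (n - 1))

def S_num_five : Prop := ∀ ρ n x z A E : ℤ, 5 ≤ ρ → 2 * ρ + 2 ≤ n → 0 ≤ x → 0 ≤ z →
  z ≤ x + 1 → x + z ≤ A → x + 2 * ρ + 1 ≤ n →
  2 * (n - ρ - 1) * ρ ^ 2 + nB0 n ρ A ≤ E → 2 * (n - ρ - 1) * ρ ^ 2 + nB1 n ρ x A ≤ E →
  2 * (n - ρ - 1) * ρ ^ 2 + nB2 n ρ x z A ≤ E →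
  (A = x → 2 * (n - ρ - 1) * ρ ^ 2 + nC n ρ x ≤ E) → Good n (ρ + 1) E

def S_num_four : Prop := ∀ n x z A E : ℤ, 10 ≤ n → 0 ≤ x → 0 ≤ z →
  z ≤ x + 1 → x + z ≤ A → x + 9 ≤ n → 2 ∣ E →
  32 * (n - 5) + nB0 n 4 A ≤ E → 32 * (n - 5) + nB1 n 4 x A ≤ E →
  32 * (n - 5) + nB2 n 4 x z A ≤ E →
  (A = x → 32 * (n - 5) + nC n 4 x ≤ E) → Good n 5 E

def S_num_three : Prop := ∀ n x z A E : ℤ, 8 ≤ n → 0 ≤ x → 0 ≤ z →
  z ≤ x + 1 → x + z ≤ A → x + 7 ≤ n → 2 ∣ E →
  18 * (n - 4) + nB0 n 3 A ≤ E → 18 * (n - 4) + nB1 n 3 x A ≤ E →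
  18 * (n - 4) + nB2 n 3 x z A ≤ E →
  (A = x → 18 * (n - 4) + nC n 3 x ≤ E) →
  (A = 1 → x = 1 → 18 * (n - 4) + (n - 13) ≤ E) →
  (A = 2 → x = 2 → 18 * (n - 4) + (2 * n - 28) ≤ E) → Good n 4 E

def S_num_one : Prop := ∀ n E : ℤ, 4 ≤ n → 2 ∣ E → n ≤ E → Good n 2 E

end Pool.Agent.BagR

end

section

/-!
MP_bb6995_co, item I7: a ring structure maps onto the cycle `C_{2r}`.
-/

namespace Pool.Agent.BagR

open Finset

variable {V : Type*} [Fintype V] [DecidableEq V] {G : SimpleGraph V}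

omit [Fintype V] [DecidableEq V] in
private theorem fr_lip (hG : G.Connected) (x : V) {u v : V} (h : G.Adj u v) :
    G.dist x v ≤ G.dist x u + 1 := by
  have h1 := hG.dist_triangle (u := x) (v := u) (w := v)
  have h2 : G.dist u v = 1 := SimpleGraph.dist_eq_one_iff_adj.2 h
  omega

omit [Fintype V] [DecidableEq V] in
private theorem fr_closer (hG : G.Connected) (z v : V) {n : ℕ} (h : G.dist z v = n + 1) :
    ∃ u, G.Adj u v ∧ G.dist z u = n := by
  obtain ⟨w, hw⟩ := hG.exists_walk_length_eq_dist v z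
  rw [SimpleGraph.dist_comm, h] at hw
  cases w with
  | nil => simp at hw
  | @cons _ u _ hab q =>
    refine ⟨u, hab.symm, ?_⟩
    rw [SimpleGraph.Walk.length_cons] at hw
    have h1 : G.dist u z ≤ n := (SimpleGraph.dist_le q).trans (by omega)
    rw [SimpleGraph.dist_comm] at h1
    have h2 := fr_lip hG z hab.symm
    omega

omit [Fintype V] [DecidableEq V] in
private theorem fr_ivt (f : V → ℕ) (hf : ∀ u v, G.Adj u v → f v ≤ f u + 1) {a b : V}
    (w : G.Walk a b) (t : ℕ) (ha : f a ≤ t) (hb : t ≤ f b) : ∃ v ∈ w.support, f v = t := by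
  induction w with
  | nil => exact ⟨_, by simp, le_antisymm ha hb⟩
  | @cons a c b hac q ih =>
    rcases Nat.eq_or_lt_of_le ha with h | h
    · exact ⟨a, by simp, h⟩
    · have h1 := hf a c hac
      obtain ⟨v, hv, hvt⟩ := ih (by omega) hb
      exact ⟨v, by simp [hv], hvt⟩

omit [Fintype V] in
private theorem fr_walk (hG : G.Connected) (z u : V) :
    ∃ w : G.Walk z u, ∀ v ∈ w.support, G.dist z v ≤ G.dist z u := by
  obtain ⟨w, hw⟩ := hG.exists_walk_length_eq_dist z u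
  refine ⟨w, fun v hv => ?_⟩
  rw [← hw]
  exact (SimpleGraph.dist_le (w.takeUntil v hv)).trans (w.length_takeUntil_le_length hv)

omit [Fintype V] [DecidableEq V] in
/-- vertices of the side `s` on all levels between `j` and `i` -/
private theorem fr_side (hG : G.Connected) {z : V} {j i : ℕ} {p q p' q' : V}
    {side : V → Bool} (R : Ring G z j i p q p' q' side) {x : V} (hx : G.dist z x = i) (d : ℕ)
    (hd : d ≤ i - j) : ∃ v, G.dist z v = i - d ∧ side v = side x := by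
  induction d with
  | zero => exact ⟨x, by simpa using hx, rfl⟩
  | succ d ih =>
    obtain ⟨v, hv, hs⟩ := ih (by omega)
    have hji := R.hji
    obtain ⟨u, hu, hu2⟩ := fr_closer hG z v (n := i - (d + 1)) (by omega)
    refine ⟨u, hu2, ?_⟩
    rw [← hs]
    exact R.adj u v hu (by omega) (by omega) (by omega) (by omega)

theorem far_of_ring (hG : G.Connected) {z : V} {j i : ℕ} {p q p' q' : V} {side : V → Bool}
    (R : Ring G z j i p q p' q' side) {r : ℕ}
    (hout : ∃ w : G.Walk p' q', ∀ v ∈ w.support, i ≤ G.dist z v)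
    (hlen : 2 * r ≤ G.dist p q + G.dist p' q' + 2 * (i - j)) (hh : i - j ≤ r) : Far G r := by
  classical
  have hji := R.hji
  obtain ⟨h, hh1⟩ : ∃ h, h = i - j := ⟨_, rfl⟩
  rw [← hh1] at hlen hh
  have hpos : 1 ≤ h := by omega
  have hij : i = j + h := by omega
  obtain ⟨a', ha', ha2⟩ : ∃ a', a' ≤ G.dist p q ∧ a' = min (G.dist p q) (2 * r - 2 * h) :=
    ⟨_, min_le_left _ _, rfl⟩
  obtain ⟨b', hb', hab⟩ : ∃ b', b' ≤ G.dist p' q' ∧ 2 * h + b' + a' = 2 * r := by
    refine ⟨2 * r - 2 * h - a', ?_, ?_⟩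
    · rcases le_total (G.dist p q) (2 * r - 2 * h) with h1 | h1
      · rw [min_eq_left h1] at ha2
        omega
      · rw [min_eq_right h1] at ha2
        omega
    · have := min_le_right (G.dist p q) (2 * r - 2 * h)
      omega
  clear ha2
  set ψ : V → ℕ := fun v =>
    if G.dist z v ≤ j then 2 * h + b' + min (G.dist q v) a'
    else if i ≤ G.dist z v then h + min (G.dist p' v) b'
    else if side v = true then G.dist z v - j
    else h + b' + (i - G.dist z v) with hψ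
  have ψ1 : ∀ v, G.dist z v ≤ j → ψ v = 2 * h + b' + min (G.dist q v) a' := by
    intro v hv
    simp only [hψ]
    rw [if_pos hv]
  have ψ2 : ∀ v, i ≤ G.dist z v → ψ v = h + min (G.dist p' v) b' := by
    intro v hv
    simp only [hψ]
    rw [if_neg (by omega), if_pos hv]
  have ψ3 : ∀ v, j < G.dist z v → G.dist z v < i → side v = true → ψ v = G.dist z v - j := by
    intro v hv hv' hs
    simp only [hψ]
    rw [if_neg (by omega), if_neg (by omega), if_pos hs]
  have ψ4 : ∀ v, j < G.dist z v → G.dist z v < i → side v = false →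
      ψ v = h + b' + (i - G.dist z v) := by
    intro v hv hv' hs
    simp only [hψ]
    rw [if_neg (by omega), if_neg (by omega), if_neg (by simp [hs])]
  have ψp : ψ p = 2 * r := by
    rw [ψ1 p (by rw [R.lp]), SimpleGraph.dist_comm, min_eq_right ha']
    exact hab
  have ψq : ψ q = 2 * h + b' := by
    rw [ψ1 q (by rw [R.lq]), SimpleGraph.dist_self]
    simp
  have ψp' : ψ p' = h := by
    rw [ψ2 p' (by rw [R.lp']), SimpleGraph.dist_self]
    simp
  have ψq' : ψ q' = h + b' := by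
    rw [ψ2 q' (by rw [R.lq']), min_eq_right hb']
  -- the step relation
  have key : ∀ u v, G.Adj u v → G.dist z u ≤ G.dist z v →
      ψ v = ψ u ∨ ψ v = ψ u + 1 ∨ ψ u = ψ v + 1 ∨ (ψ u = 2 * r ∧ ψ v = 1) := by
    intro u v huv hle
    have hl1 := fr_lip hG z huv
    have hq1 := fr_lip hG q huv
    have hq2 := fr_lip hG q huv.symm
    have hp1 := fr_lip hG p' huv
    have hp2 := fr_lip hG p' huv.symm
    rcases le_or_gt (G.dist z v) j with hvj | hvj
    · rw [ψ1 v hvj, ψ1 u (by omega)]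
      rcases le_total (G.dist q v) a' with c1 | c1 <;> rcases le_total (G.dist q u) a' with c2 | c2
      · rw [min_eq_left c1, min_eq_left c2]; omega
      · rw [min_eq_left c1, min_eq_right c2]; omega
      · rw [min_eq_right c1, min_eq_left c2]; omega
      · rw [min_eq_right c1, min_eq_right c2]; omega
    rcases le_or_gt i (G.dist z u) with hui | hui
    · rw [ψ2 v (by omega), ψ2 u hui]
      rcases le_total (G.dist p' v) b' with c1 | c1 <;>
        rcases le_total (G.dist p' u) b' with c2 | c2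
      · rw [min_eq_left c1, min_eq_left c2]; omega
      · rw [min_eq_left c1, min_eq_right c2]; omega
      · rw [min_eq_right c1, min_eq_left c2]; omega
      · rw [min_eq_right c1, min_eq_right c2]; omega
    rcases le_or_gt (G.dist z u) j with huj | huj
    · have hu : G.dist z u = j := by omega
      have hv : G.dist z v = j + 1 := by omega
      have hside := R.adj u v huv (by omega) (by omega) (by omega) (by omega)
      rcases R.clj u hu with rfl | rfl
      · rw [R.sp] at hside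
        right; right; right
        refine ⟨ψp, ?_⟩
        rcases Nat.lt_or_ge (j + 1) i with hc | hc
        · rw [ψ3 v hvj (by omega) hside.symm, hv]
          omega
        · rcases R.cli v (by omega) with rfl | rfl
          · rw [ψp']
            omega
          · rw [R.sq'] at hside
            exact absurd hside (by simp)
      · rw [R.sq] at hside
        right; right; left
        rw [ψq]
        rcases Nat.lt_or_ge (j + 1) i with hc | hc
        · rw [ψ4 v hvj (by omega) hside.symm, hv]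
          omega
        · rcases R.cli v (by omega) with rfl | rfl
          · rw [R.sp'] at hside
            exact absurd hside (by simp)
          · rw [ψq']
            omega
    have hside := R.adj u v huv (by omega) (by omega) (by omega) (by omega)
    rcases le_or_gt i (G.dist z v) with hvi | hvi
    · have hu : G.dist z u = i - 1 := by omega
      have hv : G.dist z v = i := by omega
      rcases R.cli v hv with rfl | rfl
      · rw [R.sp'] at hside
        rw [ψp', ψ3 u huj hui hside, hu]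
        omega
      · rw [R.sq'] at hside
        rw [ψq', ψ4 u huj hui hside, hu]
        omega
    · rcases Bool.eq_false_or_eq_true (side u) with hs | hs
      · rw [ψ3 u huj hui hs, ψ3 v hvj hvi (hside ▸ hs)]
        omega
      · rw [ψ4 u huj hui hs, ψ4 v hvj hvi (hside ▸ hs)]
        omega
  refine far_of_map hG (by omega) (fun v => (ψ v : ZMod (2 * r))) ?_ ?_
  · -- surjectivity
    have : NeZero (2 * r) := ⟨by omega⟩
    intro c
    have hk : c.val < 2 * r := ZMod.val_lt c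
    have hck : ((c.val : ℕ) : ZMod (2 * r)) = c := ZMod.natCast_zmod_val c
    set k : ℕ := c.val with hkdef
    have hex : ∃ v, ψ v = k ∨ (ψ v = 2 * r ∧ k = 0) := by
      rcases Nat.eq_zero_or_pos k with h0 | h0
      · exact ⟨p, Or.inr ⟨ψp, h0⟩⟩
      rcases Nat.lt_or_ge k h with h1 | h1
      · obtain ⟨v, hv, hs⟩ := fr_side hG R R.lp' (i - j - k) (by omega)
        rw [R.sp'] at hs
        refine ⟨v, Or.inl ?_⟩
        rw [ψ3 v (by omega) (by omega) hs]
        omega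
      rcases Nat.lt_or_ge (h + b') k with h2 | h2
      · rcases Nat.lt_or_ge k (2 * h + b') with h3 | h3
        · obtain ⟨v, hv, hs⟩ := fr_side hG R R.lq' (k - (h + b')) (by omega)
          rw [R.sq'] at hs
          refine ⟨v, Or.inl ?_⟩
          rw [ψ4 v (by omega) (by omega) hs]
          omega
        · obtain ⟨w1, hw1⟩ := fr_walk hG z q
          obtain ⟨w2, hw2⟩ := fr_walk hG z p
          obtain ⟨v, hv, hvt⟩ := fr_ivt (G := G) (fun v => min (G.dist q v) a')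
            (fun u v huv => by
              have := fr_lip hG q huv
              show min (G.dist q v) a' ≤ min (G.dist q u) a' + 1
              omega) (w1.reverse.append w2) (k - (2 * h + b')) (by simp) (by
              show k - (2 * h + b') ≤ min (G.dist q p) a'
              rw [SimpleGraph.dist_comm, min_eq_right ha']
              omega)
          have hlev : G.dist z v ≤ j := by
            rw [SimpleGraph.Walk.mem_support_append_iff] at hv
            rcases hv with hv | hv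
            · rw [SimpleGraph.Walk.support_reverse, List.mem_reverse] at hv
              have := hw1 v hv
              rw [R.lq] at this
              exact this
            · have := hw2 v hv
              rw [R.lp] at this
              exact this
          refine ⟨v, Or.inl ?_⟩
          rw [ψ1 v hlev]
          omega
      · obtain ⟨w, hw⟩ := hout
        obtain ⟨v, hv, hvt⟩ := fr_ivt (G := G) (fun v => min (G.dist p' v) b')
          (fun u v huv => by
            have := fr_lip hG p' huv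
            show min (G.dist p' v) b' ≤ min (G.dist p' u) b' + 1
            omega) w (k - h) (by simp) (by
            show k - h ≤ min (G.dist p' q') b'
            rw [min_eq_right hb']
            omega)
        refine ⟨v, Or.inl ?_⟩
        rw [ψ2 v (hw v hv)]
        omega
    obtain ⟨v, hv | ⟨hv, hk0⟩⟩ := hex
    · refine ⟨v, ?_⟩
      show ((ψ v : ℕ) : ZMod (2 * r)) = c
      rw [hv, hck]
    · refine ⟨v, ?_⟩
      show ((ψ v : ℕ) : ZMod (2 * r)) = c
      rw [← hck, hv, hk0, ZMod.natCast_self, Nat.cast_zero]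
  · intro u v huv
    show ((ψ v : ℕ) : ZMod (2 * r)) = ((ψ u : ℕ) : ZMod (2 * r)) ∨
      ((ψ v : ℕ) : ZMod (2 * r)) = ((ψ u : ℕ) : ZMod (2 * r)) + 1 ∨
      ((ψ u : ℕ) : ZMod (2 * r)) = ((ψ v : ℕ) : ZMod (2 * r)) + 1
    rcases le_total (G.dist z u) (G.dist z v) with hle | hle
    · rcases key u v huv hle with h1 | h1 | h1 | ⟨h1, h2⟩
      · left; rw [h1]
      · right; left; rw [h1]; push_cast; rfl
      · right; right; rw [h1]; push_cast; rfl
      · right; left; rw [h1, h2, ZMod.natCast_self]; simp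
    · rcases key v u huv.symm hle with h1 | h1 | h1 | ⟨h1, h2⟩
      · left; rw [h1]
      · right; right; rw [h1]; push_cast; rfl
      · right; left; rw [h1]; push_cast; rfl
      · right; right; rw [h1, h2, ZMod.natCast_self]; simp

end Pool.Agent.BagR

end

section

/-!
Length of the ring (MP_bb6995_co).
-/

set_option linter.unusedSectionVars false

namespace Pool.Agent.BagR

open Finset

variable {V : Type*} [Fintype V] [DecidableEq V] {G : SimpleGraph V}
variable {z : V} {r s m e : ℕ} {P Q : ℕ → V}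

/-- Distance between two vertices of the arm `P`. -/
theorem Arms.dPP (A : Arms G z r s m e P Q) {a b : ℕ} (ha : a ≤ r + s) (hb : b ≤ r + s) :
    G.dist (P a) (P b) = (a - b) + (b - a) := by
  rcases le_total a b with h | h
  · rw [A.Pgeo a b h hb]; omega
  · rw [SimpleGraph.dist_comm (u := P a), A.Pgeo b a h ha]; omega

theorem Arms.dQQ (A : Arms G z r s m e P Q) {a b : ℕ} (ha : a ≤ m) (hb : b ≤ m) :
    G.dist (Q a) (Q b) = (a - b) + (b - a) := by
  rcases le_total a b with h | h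
  · rw [A.Qgeo a b h hb]; omega
  · rw [SimpleGraph.dist_comm (u := Q a), A.Qgeo b a h ha]; omega

theorem len (hG : G.Connected) (hr : ∀ v, ∃ u, r ≤ G.dist v u)
    (A : Arms G z r s m e P Q) (he1 : 1 ≤ e) (he : 200 * e ≤ r)
    {j i : ℕ} (hj1 : 12 * e ≤ j) (hj2 : j ≤ 13 * e) (hi1 : r ≤ i + 12 * e)
    (hi2 : i + 11 * e ≤ r) (hb : G.dist (P i) (Q i) ≤ 30 * e) :
    2 * r ≤ G.dist (P j) (Q j) + G.dist (P i) (Q i) + 2 * (i - j) := by
  classical
  by_contra hcon
  push Not at hcon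
  have hs := A.hs
  have hm := A.hm
  have hm' := A.hm'
  set a := G.dist (P j) (Q j) with ha
  set b := G.dist (P i) (Q i) with hbdef
  set J : Finset ℕ := Finset.Icc (100 * e) (102 * e) with hJ
  -- choose far vertices
  choose F hF using hr
  let c : ℕ → ℕ := fun x => rt G z r s m P Q (F (P x))
  let R : ℕ → Finset V := fun k => (xt G z r s m e P Q).filter
    fun y => rt G z r s m P Q y = k
  -- main estimate
  have key : ∀ x ∈ J, x + c x + a + (R (c x)).card ≥ r + 2 * j ∧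
      x + c x + a + 1 ≤ r + 2 * j + (R (c x)).card := by
    intro x hx
    rw [hJ, Finset.mem_Icc] at hx
    have hxP : x ≤ r + s := by omega
    have lPx := A.levP hxP
    set u := F (P x) with hu
    have hfar : r ≤ G.dist (P x) u := hF (P x)
    have hecc := A.ecc_le u
    have hlu : r ≤ G.dist z u + x := by
      have := hG.dist_triangle (u := P x) (v := z) (w := u)
      rw [SimpleGraph.dist_comm (u := P x) (v := z), lPx] at this
      omega
    obtain ⟨g1, g2⟩ := A.rt_high hG u (by omega) he1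
    have hgap := A.gap hG u (l0 := rt G z r s m P Q u) le_rfl (by omega)
    change _ ≤ (R (c x)).card at hgap
    set k := rt G z r s m P Q u with hk
    have hck : c x = k := rfl
    have hkl : k ≤ G.dist z u := rt_le u
    rw [hck] at hgap ⊢
    rcases A.rt_spec u with ⟨hka, hkb⟩ | ⟨hka, hkb⟩
    · exfalso
      rw [← hk] at hka hkb
      have t1 := hG.dist_triangle (u := P x) (v := P k) (w := u)
      rw [A.dPP hxP hka] at t1
      omega
    · rw [← hk] at hka hkb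
      have hki : k ≤ i := by
        by_contra hki
        push Not at hki
        have t1 := hG.dist_triangle (u := P x) (v := P i) (w := u)
        have t2 := hG.dist_triangle (u := P i) (v := Q i) (w := u)
        have t3 := hG.dist_triangle (u := Q i) (v := Q k) (w := u)
        rw [A.dPP hxP (by omega : i ≤ r + s)] at t1
        rw [A.dQQ (by omega : i ≤ m) hka] at t3
        omega
      have hjk : j ≤ k := by omega
      constructor
      · have t1 := hG.dist_triangle (u := P x) (v := P j) (w := u)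
        have t2 := hG.dist_triangle (u := P j) (v := Q j) (w := u)
        have t3 := hG.dist_triangle (u := Q j) (v := Q k) (w := u)
        rw [A.dPP hxP (by omega : j ≤ r + s)] at t1
        rw [A.dQQ (by omega : j ≤ m) hka] at t3
        omega
      · have t1 := hG.dist_triangle (u := P x) (v := P i) (w := u)
        have t2 := hG.dist_triangle (u := P i) (v := Q i) (w := u)
        have t3 := hG.dist_triangle (u := Q i) (v := Q k) (w := u)
        rw [A.dPP hxP (by omega : i ≤ r + s)] at t1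
        rw [A.dQQ (by omega : i ≤ m) hka] at t3
        omega
  -- counting
  have hfib : ∀ k ∈ J.image c, (J.filter fun x => c x = k).card ≤ 2 * (R k).card := by
    intro k _
    have hinj : Function.Injective (fun x : ℕ => (x : ℤ)) := fun p q h => by simpa using h
    have hsub : (J.filter fun x => c x = k).image (fun x : ℕ => (x : ℤ)) ⊆
        Finset.Ico ((r : ℤ) + 2 * j - a - k - (R k).card)
          ((r : ℤ) + 2 * j - a - k + (R k).card) := by
      intro t ht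
      rw [Finset.mem_image] at ht
      obtain ⟨x, hx, rfl⟩ := ht
      rw [Finset.mem_filter] at hx
      have h := key x hx.1
      rw [hx.2] at h
      rw [Finset.mem_Ico]
      constructor <;> omega
    have h1 := Finset.card_le_card hsub
    rw [Finset.card_image_of_injective _ hinj, Int.card_Ico] at h1
    omega
  have hJcard : J.card = 2 * e + 1 := by
    rw [hJ, Nat.card_Icc]; omega
  have h1 : J.card = ∑ k ∈ J.image c, (J.filter fun x => c x = k).card :=
    Finset.card_eq_sum_card_image c J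
  have h2 : ∑ k ∈ J.image c, (J.filter fun x => c x = k).card ≤
      ∑ k ∈ J.image c, 2 * (R k).card := Finset.sum_le_sum hfib
  have h3 : ∑ k ∈ J.image c, 2 * (R k).card = 2 * ∑ k ∈ J.image c, (R k).card := by
    rw [Finset.mul_sum]
  have h4 : ∑ k ∈ J.image c, (R k).card ≤ (xt G z r s m e P Q).card := by
    have h5 : ∑ k ∈ J.image c, (R k).card = ((J.image c).biUnion R).card := by
      rw [Finset.card_biUnion]
      intro k _ k' _ hkk'
      rw [Function.onFun, Finset.disjoint_left]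
      intro y hy hy'
      simp only [R, Finset.mem_filter] at hy hy'
      exact hkk' (hy.2.symm.trans hy'.2)
    rw [h5]
    apply Finset.card_le_card
    intro y hy
    rw [Finset.mem_biUnion] at hy
    obtain ⟨k, _, hk⟩ := hy
    exact (Finset.mem_filter.mp hk).1
  have h6 := A.card_xt
  omega

end Pool.Agent.BagR

end

section

/-!
Existence of the ring structure (MP_bb6995_co).
-/

set_option linter.unusedSectionVars false

namespace Pool.Agent.BagR

open Finset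

variable {V : Type*} [Fintype V] [DecidableEq V] {G : SimpleGraph V}
variable {z : V} {r s m e : ℕ} {P Q : ℕ → V}

/-- A level without extras among `e + 1` consecutive levels. -/
theorem Arms.clean (A : Arms G z r s m e P Q) (l0 : ℕ) (h0 : e ≤ l0) :
    ∃ l, l0 ≤ l ∧ l ≤ l0 + e ∧ ∀ v, G.dist z v = l → v = P l ∨ v = Q l := by
  classical
  by_contra hcon
  push Not at hcon
  have hex : ∀ l : ℕ, l ∈ Finset.Icc l0 (l0 + e) → ∃ v, G.dist z v = l ∧ v ≠ P l ∧ v ≠ Q l := by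
    intro l hl
    rw [Finset.mem_Icc] at hl
    obtain ⟨v, h1, h2, h3⟩ := hcon l hl.1 hl.2
    exact ⟨v, h1, h2, h3⟩
  have : Nonempty V := ⟨z⟩
  choose! f hf using hex
  have hinj : Set.InjOn f (Finset.Icc l0 (l0 + e) : Finset ℕ) := by
    intro a ha b hb hab
    have h1 := (hf a ha).1
    have h2 := (hf b hb).1
    rw [hab, h2] at h1
    exact h1.symm
  have hcard := Finset.card_image_of_injOn hinj
  have hsub : (Finset.Icc l0 (l0 + e)).image f ⊆ xt G z r s m e P Q := by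
    intro x hx
    rw [Finset.mem_image] at hx
    obtain ⟨l, hl, rfl⟩ := hx
    obtain ⟨a1, a2, a3⟩ := hf l hl
    rw [Finset.mem_Icc] at hl
    unfold xt
    rw [Finset.mem_filter]
    refine ⟨Finset.mem_univ _, by omega, ?_, ?_⟩
    · intro c hc hcx
      have hcl : c = l := by
        have := A.levP hc
        rw [hcx, a1] at this
        exact this.symm
      exact a2 (by rw [← hcx, hcl])
    · intro c hc hcx
      have hcl : c = l := by
        have := A.levQ hc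
        rw [hcx, a1] at this
        exact this.symm
      exact a3 (by rw [← hcx, hcl])
  have h1 := Finset.card_le_card hsub
  have h2 := A.card_xt
  rw [hcard, Nat.card_Icc] at h1
  omega

/-- Two vertices hanging from different arms with small gaps are far apart. -/
theorem Arms.apart (hG : G.Connected) (hr : ∀ v, ∃ u, r ≤ G.dist v u)
    (A : Arms G z r s m e P Q) (he1 : 1 ≤ e) (he : 200 * e ≤ r) {u v : V} {c c' : ℕ}
    (hc1 : 10 * e ≤ c) (hc2 : c + 10 * e ≤ r) (hc' : c' ≤ m)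
    (h1 : G.dist (P c) u ≤ e) (h2 : G.dist (Q c') v ≤ e) (h3 : c ≤ c' + (e + 1))
    (h4 : c' ≤ c + (e + 1)) : 1 < G.dist u v := by
  by_contra hcon
  push Not at hcon
  have hs := A.hs
  have hm := A.hm
  have hsep := sep hG hr A he1 he hc1 hc2
  have t1 := hG.dist_triangle (u := P c) (v := u) (w := v)
  have t2 := hG.dist_triangle (u := P c) (v := v) (w := Q c')
  have t3 := hG.dist_triangle (u := P c) (v := Q c') (w := Q c)
  have e1 : G.dist v (Q c') = G.dist (Q c') v := SimpleGraph.dist_comm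
  have t4 : G.dist (Q c') (Q c) ≤ e + 1 := by
    rcases le_total c c' with h | h
    · rw [SimpleGraph.dist_comm, A.Qgeo c c' h hc']; omega
    · rw [A.Qgeo c' c h (by omega)]; omega
  omega

theorem ring_of_arms (hG : G.Connected) (hr : ∀ v, ∃ u, r ≤ G.dist v u)
    (A : Arms G z r s m e P Q) (he1 : 1 ≤ e) (he : 200 * e ≤ r) :
    ∃ (j i : ℕ) (side : V → Bool), 12 * e ≤ j ∧ j ≤ 13 * e ∧ r ≤ i + 12 * e ∧
      i + 11 * e ≤ r ∧ Ring G z j i (P j) (Q j) (P i) (Q i) side := by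
  classical
  have hs := A.hs
  have hm := A.hm
  obtain ⟨j, hj1, hj2, hj⟩ := A.clean (12 * e) (by omega)
  obtain ⟨i, hi1, hi2, hi⟩ := A.clean (r - 12 * e) (by omega)
  let S : V → Prop := fun v => ∃ c, c ≤ r + s ∧ G.dist (P c) v + c = G.dist z v ∧
    G.dist z v ≤ c + e
  -- not both types
  have hnot : ∀ u v, j ≤ G.dist z u → G.dist z u ≤ i → j ≤ G.dist z v → G.dist z v ≤ i →
      S u → (∃ c', c' ≤ m ∧ G.dist (Q c') v + c' = G.dist z v ∧ G.dist z v ≤ c' + e) →
      G.dist z u ≤ G.dist z v + 1 → G.dist z v ≤ G.dist z u + 1 → 1 < G.dist u v := by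
    rintro u v hu1 hu2 hv1 hv2 ⟨c, hc1, hc2, hc3⟩ ⟨c', hc1', hc2', hc3'⟩ h1 h2
    exact A.apart hG hr he1 he (c := c) (c' := c') (by omega) (by omega) hc1' (by omega)
      (by omega) (by omega) (by omega)
  have htype : ∀ v, j ≤ G.dist z v → G.dist z v ≤ i → ¬ S v →
      ∃ c', c' ≤ m ∧ G.dist (Q c') v + c' = G.dist z v ∧ G.dist z v ≤ c' + e := by
    intro v hv1 hv2 hv
    have hroot := A.rt_high hG v (by omega) he1
    rcases A.rt_spec v with ⟨ha, hb⟩ | ⟨ha, hb⟩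
    · exact absurd ⟨_, ha, hb, hroot.2⟩ hv
    · exact ⟨_, ha, hb, hroot.2⟩
  have hjm : j ≤ m := by omega
  have him : i ≤ m := by omega
  have SP : ∀ c, j ≤ c → c ≤ i → S (P c) := by
    intro c h1 h2
    refine ⟨c, by omega, ?_, ?_⟩
    · rw [A.levP (by omega : c ≤ r + s)]; simp
    · rw [A.levP (by omega : c ≤ r + s)]; omega
  have SQ : ∀ c, j ≤ c → c ≤ i → ¬ S (Q c) := by
    intro c h1 h2 hS
    have hl := A.levQ (by omega : c ≤ m)
    have := hnot (Q c) (Q c) (by omega) (by omega) (by omega) (by omega) hS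
      ⟨c, by omega, by rw [hl]; simp, by omega⟩ (by omega) (by omega)
    rw [SimpleGraph.dist_self] at this
    omega
  refine ⟨j, i, fun v => decide (S v), by omega, by omega, by omega, by omega, ?_⟩
  refine ⟨by omega, A.levP (by omega), A.levQ (by omega), A.levP (by omega),
    A.levQ (by omega), hj, hi, ?_, ?_, ?_, ?_, ?_⟩
  · exact decide_eq_true (SP j le_rfl (by omega))
  · exact decide_eq_false (SQ j le_rfl (by omega))
  · exact decide_eq_true (SP i (by omega) le_rfl)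
  · exact decide_eq_false (SQ i (by omega) le_rfl)
  · intro u v huv hu1 hu2 hv1 hv2
    have hd : G.dist u v = 1 := SimpleGraph.dist_eq_one_iff_adj.mpr huv
    have t1 := hG.dist_triangle (u := z) (v := u) (w := v)
    have t2 := hG.dist_triangle (u := z) (v := v) (w := u)
    have e1 : G.dist v u = G.dist u v := SimpleGraph.dist_comm
    by_cases hSu : S u
    · by_cases hSv : S v
      · simp [hSu, hSv]
      · have := hnot u v hu1 hu2 hv1 hv2 hSu (htype v hv1 hv2 hSv) (by omega) (by omega)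
        omega
    · by_cases hSv : S v
      · have := hnot v u hv1 hv2 hu1 hu2 hSv (htype u hu1 hu2 hSu) (by omega) (by omega)
        omega
      · simp [hSu, hSv]

theorem b_bound (A : Arms G z r s m e P Q) (he1 : 1 ≤ e) (he : 200 * e ≤ r)
    {i : ℕ} (hi1 : r ≤ i + 12 * e) (hi2 : i + 11 * e ≤ r)
    (hout : ∃ w : G.Walk (P i) (Q i), ∀ v ∈ w.support, i ≤ G.dist z v) :
    G.dist (P i) (Q i) ≤ 30 * e := by
  classical
  have hs := A.hs
  have hm := A.hm
  have hm' := A.hm'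
  obtain ⟨w, hw⟩ := hout
  have hpath : w.bypass.IsPath := w.bypass_isPath
  have hsupp : w.bypass.support.toFinset ⊆
      ((Finset.Icc i (r + s)).image P ∪ (Finset.Icc i m).image Q) ∪ xt G z r s m e P Q := by
    intro v hv
    rw [List.mem_toFinset] at hv
    have hv' := hw v (w.support_bypass_subset_support hv)
    by_cases h1 : ∃ c, c ≤ r + s ∧ P c = v
    · obtain ⟨c, hc, rfl⟩ := h1
      rw [A.levP hc] at hv'
      apply Finset.mem_union_left
      apply Finset.mem_union_left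
      exact Finset.mem_image_of_mem _ (Finset.mem_Icc.mpr ⟨hv', hc⟩)
    · by_cases h2 : ∃ c, c ≤ m ∧ Q c = v
      · obtain ⟨c, hc, rfl⟩ := h2
        rw [A.levQ hc] at hv'
        apply Finset.mem_union_left
        apply Finset.mem_union_right
        exact Finset.mem_image_of_mem _ (Finset.mem_Icc.mpr ⟨hv', hc⟩)
      · push Not at h1 h2
        apply Finset.mem_union_right
        unfold xt
        rw [Finset.mem_filter]
        exact ⟨Finset.mem_univ _, by omega, h1, h2⟩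
  have hcard := Finset.card_le_card hsupp
  rw [List.toFinset_card_of_nodup hpath.support_nodup, SimpleGraph.Walk.length_support] at hcard
  have h1 := SimpleGraph.dist_le w.bypass
  have h2 := Finset.card_union_le ((Finset.Icc i (r + s)).image P ∪ (Finset.Icc i m).image Q)
    (xt G z r s m e P Q)
  have h3 := Finset.card_union_le ((Finset.Icc i (r + s)).image P) ((Finset.Icc i m).image Q)
  have h4 := Finset.card_image_le (s := Finset.Icc i (r + s)) (f := P)
  have h5 := Finset.card_image_le (s := Finset.Icc i m) (f := Q)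
  rw [Nat.card_Icc] at h4 h5
  have h6 := A.card_xt
  omega

end Pool.Agent.BagR

end
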