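import Pool.Agent.Work.MP_bb6995_co.Bd.B03
import Pool.Agent.Work.MP_bb6995_co.Bd.B01
import Pool.Agent.Work.MP_bb6995_co.Bd.B02

/-! Bundle of small proof modules (one section per former module). -/

section

/-!
Assembly (MP_bb6995_co): for all sufficiently large `n` some bag minimises the
ratio of average distance to radius.
-/

set_option linter.unusedSectionVars false

namespace Pool.Agent.BagR

open Finset

section general

variable {V : Type*} [Fintype V] [DecidableEq V] {G : SimpleGraph V}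

/-- Structure theorem: a vertex with nearly minimal outer distance sum forces `r` disjoint
far pairs. -/
theorem far_of_tau (hG : G.Connected) {r : ℕ}
    (hr : ∀ v, ∃ u, r ≤ G.dist v u) (z : V) {L e : ℕ} (he1 : 1 ≤ e) (hLe : 2 * L ≤ e)
    (he : 200 * e ≤ r)
    (hτ : 2 * ∑ v, (G.dist z v - L) ≤ 2 * (r - L) ^ 2 + e ^ 2) : Far G r := by
  obtain ⟨s, m, P, Q, A⟩ := arms_of_tau hG hr z he1 hLe he hτ
  obtain ⟨j, i, side, h1, h2, h3, h4, R⟩ := ring_of_arms hG hr A he1 he
  by_cases hout : ∃ w : G.Walk (P i) (Q i), ∀ v ∈ w.support, i ≤ G.dist z v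
  · exact far_of_ring hG R hout
      (len hG hr A he1 he h1 h2 h3 h4 (b_bound A he1 he h3 h4 hout)) (by omega)
  · exact far_of_cut hG R hr A.ecc_le (by have := A.hs; omega) (by omega) hout

/-- Main inequality in the window `r ^ 2 ≤ 8 n`, `r` large. -/
theorem main_bound (hG : G.Connected) {r n : ℕ} (hn : Fintype.card V = n)
    (hrn : r ^ 2 ≤ 8 * n) (hr0 : 10 ^ 13 ≤ r) (hr : ∀ v, ∃ u, r ≤ G.dist v u) :
    2 * ((n - r) * (r - 1) ^ 2) ≤ exo G := by
  by_contra hX
  push Not at hX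
  obtain ⟨z, hz⟩ := core hG hn hrn hr0 hX
  have := far_bound hG (by omega) hr (far_of_tau hG hr z (L := 25600001) (e := r / 200)
    (by omega) (by omega) (by omega) hz)
  rw [hn] at this
  omega

theorem triv_bound (hG : G.Connected) {r n : ℕ} (hn : Fintype.card V = n) (hr1 : 1 ≤ r)
    (hr : ∀ v, ∃ u, r ≤ G.dist v u) : n * (r - 1) ^ 2 ≤ exo G := by
  unfold exo
  calc n * (r - 1) ^ 2 = ∑ _v : V, (r - 1) ^ 2 := by
        rw [Finset.sum_const, Finset.card_univ, hn, smul_eq_mul]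
    _ ≤ _ := Finset.sum_le_sum fun v _ => tau_lower hG hr v hr1

/-- Sum of all distances. -/
theorem sum_dist (hG : G.Connected) {n : ℕ} (hn : Fintype.card V = n) :
    ∑ u, ∑ v, G.dist u v = exo G + n * (n - 1) := by
  have h1 : ∀ u : V, ∑ v, G.dist u v = (∑ v, (G.dist u v - 1)) + (n - 1) := by
    intro u
    have h2 : ∀ v : V, G.dist u v = (G.dist u v - 1) + if v = u then 0 else 1 := by
      intro v
      by_cases h : v = u
      · subst h; simp
      · have := hG.pos_dist_of_ne (u := u) (v := v) (fun h' => h h'.symm)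
        simp only [h, if_false]
        omega
    calc ∑ v, G.dist u v = ∑ v, ((G.dist u v - 1) + if v = u then 0 else 1) :=
          Finset.sum_congr rfl fun v _ => h2 v
      _ = (∑ v, (G.dist u v - 1)) + ∑ v : V, (if v = u then 0 else 1) :=
          Finset.sum_add_distrib
      _ = _ := by
          congr 1
          rw [← hn]
          have h3 : (∑ v : V, (if v = u then 0 else 1)) + 1 = Fintype.card V := by
            have h4 : ∑ v : V, ((if v = u then 0 else 1) + if v = u then 1 else 0) =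
                Fintype.card V := by
              rw [← Finset.card_univ, Finset.card_eq_sum_ones]
              apply Finset.sum_congr rfl
              intro v _
              by_cases h : v = u <;> simp [h]
            rw [← h4, Finset.sum_add_distrib]
            simp
          omega
  unfold exo
  rw [Finset.sum_congr rfl fun u _ => h1 u, Finset.sum_add_distrib, Finset.sum_const,
    Finset.card_univ, hn, smul_eq_mul]

theorem le_ecc (v u : V) : G.dist v u ≤ ecc G v :=
  Finset.le_sup (f := fun u => G.dist v u) (Finset.mem_univ u)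

theorem rad_le (v : V) : rad G ≤ ecc G v := by
  unfold rad
  exact ciInf_le (OrderBot.bddBelow _) v

theorem rad_far [Nonempty V] (v : V) : ∃ u, rad G ≤ G.dist v u := by
  obtain ⟨u, _, hu⟩ := Finset.exists_mem_eq_sup (univ : Finset V) Finset.univ_nonempty
    (fun u => G.dist v u)
  refine ⟨u, ?_⟩
  have := rad_le (G := G) v
  unfold ecc at this
  omega

theorem le_rad [Nonempty V] {r : ℕ} (h : ∀ v, ∃ u, r ≤ G.dist v u) : r ≤ rad G := by
  unfold rad
  apply le_ciInf
  intro v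
  obtain ⟨u, hu⟩ := h v
  exact hu.trans (le_ecc v u)

theorem avg_eq (hG : G.Connected) {n : ℕ} (hn : Fintype.card V = n) (hn1 : 1 ≤ n) :
    avgDist G = ((exo G : ℝ) + n * (n - 1)) / ((n : ℝ) * (n - 1)) := by
  unfold avgDist
  rw [hn]
  congr 1
  have := sum_dist hG hn
  have h2 : (∑ u, ∑ v, (G.dist u v : ℝ)) = ((∑ u, ∑ v, G.dist u v : ℕ) : ℝ) := by
    push_cast; rfl
  rw [h2, this]
  push_cast [Nat.cast_sub hn1]
  ring

end general

/-- Arithmetic outside the window. -/
theorem arith {n r ρ : ℕ} (hn : 10 ^ 4 ≤ n) (hr1 : 1 ≤ r) (hρ : n < 2 * ρ ^ 2)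
    (hw : 8 * n ≤ r ^ 2 ∨ 8 * r ^ 2 ≤ n) :
    2 * (n : ℝ) * r ≤ ρ * ((n : ℝ) - 1 + (r - 1) ^ 2) := by
  have hnR : (10 : ℝ) ^ 4 ≤ n := by exact_mod_cast hn
  have hrR : (1 : ℝ) ≤ r := by exact_mod_cast hr1
  have hρR : (n : ℝ) < 2 * (ρ : ℝ) ^ 2 := by exact_mod_cast hρ
  have hρ0 : (0 : ℝ) ≤ ρ := Nat.cast_nonneg _
  have hr0 : (0 : ℝ) ≤ r := Nat.cast_nonneg _
  set A : ℝ := (n : ℝ) - 1 + ((r : ℝ) - 1) ^ 2 with hA
  have hA0 : 0 ≤ A := by
    have : 0 ≤ ((r : ℝ) - 1) ^ 2 := sq_nonneg _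
    rw [hA]; linarith
  have hA' : A = (n : ℝ) + (r : ℝ) ^ 2 - 2 * r := by rw [hA]; ring
  have key : 8 * (n : ℝ) * (r : ℝ) ^ 2 ≤ A ^ 2 := by
    rcases hw with h | h
    · have hR : 8 * (n : ℝ) ≤ (r : ℝ) ^ 2 := by exact_mod_cast h
      have hr18 : (100 : ℝ) ≤ r := by
        by_contra hlt
        push Not at hlt
        nlinarith
      -- A^2 - 8 n r^2 = n^2 - 6 n r^2 + r^4 - 4 r (n + r^2) + 4 r^2
      have e1 : A ^ 2 - 8 * (n : ℝ) * (r : ℝ) ^ 2 =
          (n : ℝ) ^ 2 + (r : ℝ) ^ 2 * ((r : ℝ) ^ 2 - 6 * n) - 4 * r * (n + (r : ℝ) ^ 2)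
            + 4 * (r : ℝ) ^ 2 := by
        rw [hA']; ring
      have e2 : (r : ℝ) ^ 2 * ((r : ℝ) ^ 2 - 6 * n) ≥ (r : ℝ) ^ 2 * ((r : ℝ) ^ 2 / 4) := by
        apply mul_le_mul_of_nonneg_left _ (sq_nonneg _)
        linarith
      have e3 : 4 * (r : ℝ) * (n + (r : ℝ) ^ 2) ≤ 4 * (r : ℝ) * ((9 / 8) * (r : ℝ) ^ 2) := by
        apply mul_le_mul_of_nonneg_left _ (by positivity)
        linarith
      have e4 : 4 * (r : ℝ) * ((9 / 8) * (r : ℝ) ^ 2) ≤ (r : ℝ) ^ 2 * ((r : ℝ) ^ 2 / 4) := by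
        have : (r : ℝ) ^ 2 * ((r : ℝ) ^ 2 / 4) - 4 * (r : ℝ) * ((9 / 8) * (r : ℝ) ^ 2)
          = (r : ℝ) ^ 3 * (r / 4 - 9 / 2) := by ring
        have h5 : 0 ≤ (r : ℝ) ^ 3 * (r / 4 - 9 / 2) :=
          mul_nonneg (by positivity) (by linarith)
        linarith
      nlinarith [sq_nonneg (n : ℝ), sq_nonneg (r : ℝ)]
    · have hR : 8 * (r : ℝ) ^ 2 ≤ (n : ℝ) := by exact_mod_cast h
      have e1 : A ^ 2 - 8 * (n : ℝ) * (r : ℝ) ^ 2 =
          (n : ℝ) * ((n : ℝ) - 6 * (r : ℝ) ^ 2) + (r : ℝ) ^ 4 - 4 * r * (n + (r : ℝ) ^ 2)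
            + 4 * (r : ℝ) ^ 2 := by
        rw [hA']; ring
      have e2 : (n : ℝ) * ((n : ℝ) - 6 * (r : ℝ) ^ 2) ≥ (n : ℝ) * ((n : ℝ) / 4) := by
        apply mul_le_mul_of_nonneg_left _ (by positivity)
        linarith
      have e3 : 4 * (r : ℝ) * (n + (r : ℝ) ^ 2) ≤ 4 * (r : ℝ) * ((9 / 8) * (n : ℝ)) := by
        apply mul_le_mul_of_nonneg_left _ (by positivity)
        linarith
      have e5 : 18 * (r : ℝ) ≤ n := by
        by_contra hlt
        push Not at hlt
        -- n < 18 r, 8 r^2 ≤ n so 8 r^2 < 18 r, r < 2.25, n < 41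
        have : (r : ℝ) < 3 := by nlinarith
        linarith
      have e4 : 4 * (r : ℝ) * ((9 / 8) * (n : ℝ)) ≤ (n : ℝ) * ((n : ℝ) / 4) := by
        nlinarith
      nlinarith [sq_nonneg ((r : ℝ) ^ 2), sq_nonneg (r : ℝ)]
  -- square comparison
  have h1 : (2 * (n : ℝ) * r) ^ 2 ≤ (ρ * A) ^ 2 := by
    have h2 : (2 * (n : ℝ) * r) ^ 2 = (n : ℝ) / 2 * (8 * (n : ℝ) * (r : ℝ) ^ 2) := by ring
    have h3 : (ρ * A) ^ 2 = (ρ : ℝ) ^ 2 * A ^ 2 := by ring
    rw [h2, h3]
    calc (n : ℝ) / 2 * (8 * (n : ℝ) * (r : ℝ) ^ 2) ≤ (n : ℝ) / 2 * A ^ 2 :=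
          mul_le_mul_of_nonneg_left key (by positivity)
      _ ≤ (ρ : ℝ) ^ 2 * A ^ 2 :=
          mul_le_mul_of_nonneg_right (by linarith) (sq_nonneg _)
  exact le_of_sq_le_sq h1 (by positivity)

/-- Comparison of the ratios. -/
theorem ratio_le {n : ℕ} (hn : 10 ^ 27 ≤ n) (G : SimpleGraph (Fin n)) (hG : G.Connected) :
    ∃ ρ : ℕ, 2 ≤ ρ ∧ 2 * ρ ≤ n ∧
      avgDist (bag (n + 3 - 2 * ρ) (2 * ρ - 1)) / rad (bag (n + 3 - 2 * ρ) (2 * ρ - 1)) ≤
        avgDist G / rad G := by
  have hnpos : 0 < n := by omega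
  have : Nonempty (Fin n) := ⟨⟨0, hnpos⟩⟩
  have hcard : Fintype.card (Fin n) = n := Fintype.card_fin n
  set r := rad G with hrdef
  have hr : ∀ v, ∃ u, r ≤ G.dist v u := fun v => rad_far v
  have hr1 : 1 ≤ r := by
    apply le_rad
    intro v
    obtain ⟨u, hu⟩ : ∃ u : Fin n, u ≠ v := by
      by_cases h : v = ⟨0, hnpos⟩
      · refine ⟨⟨1, by omega⟩, ?_⟩
        rw [h]
        intro h2
        have := congrArg Fin.val h2
        simp at this
      · exact ⟨⟨0, hnpos⟩, fun h2 => h h2.symm⟩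
    exact ⟨u, hG.pos_dist_of_ne (fun h => hu h.symm)⟩
  have hnR : (10 : ℝ) ^ 27 ≤ n := by exact_mod_cast hn
  have hn1R : (0 : ℝ) < (n : ℝ) - 1 := by linarith
  have hnn : (0 : ℝ) < (n : ℝ) * ((n : ℝ) - 1) := by
    have : (0 : ℝ) < n := by linarith
    positivity
  have hrR : (1 : ℝ) ≤ r := by exact_mod_cast hr1
  -- general comparison
  have comp : ∀ ρ : ℕ, 2 ≤ ρ → 2 * ρ ≤ n →
      ((n : ℝ) * (n - 1) + 2 * ((n - ρ) * (ρ - 1) ^ 2)) * r ≤
        ((exo G : ℝ) + n * (n - 1)) * ρ →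
      avgDist (bag (n + 3 - 2 * ρ) (2 * ρ - 1)) / rad (bag (n + 3 - 2 * ρ) (2 * ρ - 1)) ≤
        avgDist G / r := by
    intro ρ h2 hρn hmain
    have hbc : (bag (n + 3 - 2 * ρ) (2 * ρ - 1)).Connected := bag_conn (by omega) (by omega)
    have hbcard : Fintype.card (Fin (n + 3 - 2 * ρ) ⊕ Fin (2 * ρ - 1 - 2)) = n := by
      rw [Fintype.card_sum, Fintype.card_fin, Fintype.card_fin]; omega
    have : Nonempty (Fin (n + 3 - 2 * ρ) ⊕ Fin (2 * ρ - 1 - 2)) := hbc.nonempty
    have hbr : ρ ≤ rad (bag (n + 3 - 2 * ρ) (2 * ρ - 1)) := le_rad fun v => bag_far h2 hρn v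
    rw [avg_eq hG hcard hnpos, avg_eq hbc hbcard hnpos]
    have hρR : (2 : ℝ) ≤ ρ := by exact_mod_cast h2
    have hbrR : (ρ : ℝ) ≤ rad (bag (n + 3 - 2 * ρ) (2 * ρ - 1)) := by exact_mod_cast hbr
    have hbe : (exo (bag (n + 3 - 2 * ρ) (2 * ρ - 1)) : ℝ) ≤
        2 * ((n - ρ) * (ρ - 1) ^ 2) := by
      have := bag_exo h2 hρn
      have h' : (exo (bag (n + 3 - 2 * ρ) (2 * ρ - 1)) : ℝ) ≤
        ((2 * ((n - ρ) * (ρ - 1) ^ 2) : ℕ) : ℝ) := by exact_mod_cast this
      rw [Nat.cast_mul, Nat.cast_mul, Nat.cast_pow, Nat.cast_sub (by omega : ρ ≤ n),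
        Nat.cast_sub (by omega : 1 ≤ ρ)] at h'
      push_cast at h'
      exact h'
    have hexo0 : (0 : ℝ) ≤ exo (bag (n + 3 - 2 * ρ) (2 * ρ - 1)) := Nat.cast_nonneg _
    calc ((exo (bag (n + 3 - 2 * ρ) (2 * ρ - 1)) : ℝ) + n * (n - 1)) / ((n : ℝ) * (n - 1)) /
          rad (bag (n + 3 - 2 * ρ) (2 * ρ - 1))
        ≤ ((exo (bag (n + 3 - 2 * ρ) (2 * ρ - 1)) : ℝ) + n * (n - 1)) / ((n : ℝ) * (n - 1)) /
          ρ := by
          apply div_le_div_of_nonneg_left _ (by linarith) hbrR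
          apply div_nonneg _ hnn.le
          linarith
      _ ≤ ((n : ℝ) * (n - 1) + 2 * ((n - ρ) * (ρ - 1) ^ 2)) / ((n : ℝ) * (n - 1)) / ρ := by
          apply div_le_div_of_nonneg_right _ (by linarith)
          apply div_le_div_of_nonneg_right _ hnn.le
          linarith
      _ ≤ ((exo G : ℝ) + n * (n - 1)) / ((n : ℝ) * (n - 1)) / r := by
          rw [div_div, div_div, div_le_div_iff₀ (by positivity) (by positivity)]
          calc ((n : ℝ) * (n - 1) + 2 * ((n - ρ) * (ρ - 1) ^ 2)) * ((n : ℝ) * (n - 1) * r)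
              = (((n : ℝ) * (n - 1) + 2 * ((n - ρ) * (ρ - 1) ^ 2)) * r) * ((n : ℝ) * (n - 1)) := by
                ring
            _ ≤ (((exo G : ℝ) + n * (n - 1)) * ρ) * ((n : ℝ) * (n - 1)) :=
                mul_le_mul_of_nonneg_right hmain hnn.le
            _ = _ := by ring
  by_cases hw : 8 * n ≤ r ^ 2 ∨ 8 * r ^ 2 ≤ n
  · -- outside the window
    set ρ := Nat.sqrt (n / 2) + 1 with hρdef
    have h1 : (Nat.sqrt (n / 2)) * (Nat.sqrt (n / 2)) ≤ n / 2 := Nat.sqrt_le _
    have h2 : n / 2 < ρ * ρ := Nat.lt_succ_sqrt (n / 2)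
    set t := Nat.sqrt (n / 2) with ht
    have ht1 : 3 ≤ t := by
      rw [ht, Nat.le_sqrt]
      omega
    have hρ2 : 2 * ρ ≤ n := by
      have : 3 * t ≤ t * t := Nat.mul_le_mul_right t ht1
      omega
    refine ⟨ρ, by omega, hρ2, comp ρ (by omega) hρ2 ?_⟩
    have hρn : n < 2 * ρ ^ 2 := by
      rw [pow_two]; omega
    have ha := arith (n := n) (r := r) (ρ := ρ) (by omega) hr1 hρn hw
    have htriv := triv_bound hG hcard hr1 hr
    have h' : ((n * (r - 1) ^ 2 : ℕ) : ℝ) ≤ (exo G : ℝ) := by exact_mod_cast htriv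
    rw [Nat.cast_mul, Nat.cast_pow, Nat.cast_sub hr1] at h'
    push_cast at h'
    have hρR : (2 : ℝ) ≤ ρ := by
      have : 2 ≤ ρ := by omega
      exact_mod_cast this
    have hρnR : (ρ : ℝ) ≤ n := by
      have : ρ ≤ n := by omega
      exact_mod_cast this
    have hsq : 2 * ((ρ : ℝ) - 1) ^ 2 ≤ n := by
      have h3 : 2 * t ^ 2 ≤ n := by
        rw [pow_two]; omega
      have h4 : ((ρ : ℝ) - 1) = t := by
        rw [hρdef]; push_cast; ring
      rw [h4]
      exact_mod_cast h3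
    have hL : (n : ℝ) * (n - 1) + 2 * ((n - ρ) * (ρ - 1) ^ 2) ≤ 2 * (n : ℝ) ^ 2 := by
      have h5 : 2 * (((n : ℝ) - ρ) * ((ρ : ℝ) - 1) ^ 2) ≤ ((n : ℝ) - ρ) * n := by
        have : 2 * (((n : ℝ) - ρ) * ((ρ : ℝ) - 1) ^ 2) =
          ((n : ℝ) - ρ) * (2 * ((ρ : ℝ) - 1) ^ 2) := by ring
        rw [this]
        exact mul_le_mul_of_nonneg_left hsq (by linarith)
      nlinarith
    have hn0 : (0 : ℝ) ≤ n := by linarith
    calc ((n : ℝ) * (n - 1) + 2 * ((n - ρ) * (ρ - 1) ^ 2)) * r ≤ 2 * (n : ℝ) ^ 2 * r :=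
          mul_le_mul_of_nonneg_right hL (by linarith)
      _ = n * (2 * (n : ℝ) * r) := by ring
      _ ≤ n * (ρ * ((n : ℝ) - 1 + (r - 1) ^ 2)) := mul_le_mul_of_nonneg_left ha hn0
      _ = ((n : ℝ) * (r - 1) ^ 2 + n * (n - 1)) * ρ := by ring
      _ ≤ ((exo G : ℝ) + n * (n - 1)) * ρ := by
          apply mul_le_mul_of_nonneg_right _ (by linarith)
          linarith
  · push Not at hw
    have hrbig : 10 ^ 13 ≤ r := by
      by_contra h
      push Not at h
      have : r ^ 2 < (10 ^ 13) ^ 2 := Nat.pow_lt_pow_left h (by norm_num)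
      omega
    have h2r : 2 * r ≤ n := by
      by_contra h
      push Not at h
      have : r * r ≤ 16 * r := by nlinarith
      have : r ≤ 16 := Nat.le_of_mul_le_mul_right this (by omega)
      omega
    refine ⟨r, by omega, h2r, comp r (by omega) h2r ?_⟩
    have hb := main_bound hG hcard (by omega : r ^ 2 ≤ 8 * n) hrbig hr
    have h' : ((2 * ((n - r) * (r - 1) ^ 2) : ℕ) : ℝ) ≤ (exo G : ℝ) := by exact_mod_cast hb
    rw [Nat.cast_mul, Nat.cast_mul, Nat.cast_pow, Nat.cast_sub (by omega : r ≤ n),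
      Nat.cast_sub hr1] at h'
    push_cast at h'
    apply mul_le_mul_of_nonneg_right _ (by linarith)
    linarith

/-- For every `n ≥ 10 ^ 27` some bag minimises the ratio of average distance to radius. -/
theorem bag_min {n : ℕ} (hn : 10 ^ 27 ≤ n) :
    ∃ p k : ℕ, 2 ≤ p ∧ 2 ≤ k ∧ p + k = n + 2 ∧
      ∀ G : SimpleGraph (Fin n), G.Connected →
        avgDist (bag p k) / rad (bag p k) ≤ avgDist G / rad G := by
  classical
  let S : Finset ℕ := Finset.Icc 2 n
  have hS : S.Nonempty := ⟨2, Finset.mem_Icc.mpr ⟨le_rfl, by omega⟩⟩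
  obtain ⟨p, hp, hmin⟩ := Finset.exists_min_image S
    (fun p => avgDist (bag p (n + 2 - p)) / rad (bag p (n + 2 - p))) hS
  rw [Finset.mem_Icc] at hp
  refine ⟨p, n + 2 - p, hp.1, by omega, by omega, ?_⟩
  intro G hG
  obtain ⟨ρ, h1, h2, h3⟩ := ratio_le hn G hG
  have h4 := hmin (n + 3 - 2 * ρ) (Finset.mem_Icc.mpr ⟨by omega, by omega⟩)
  have h5 : n + 2 - (n + 3 - 2 * ρ) = 2 * ρ - 1 := by omega
  rw [h5] at h4
  exact h4.trans h3

end Pool.Agent.BagR

end

section

/-!
[bb6995F B1] bound B1 and the far sum (helper27)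
-/

namespace Pool.Agent.BagR

open Finset

namespace IB1

variable {V : Type} [Fintype V] [DecidableEq V] {G : SimpleGraph V}

theorem mem_FF {c : V} {k : ℕ} {v : V} : v ∈ FF G c k ↔ k < G.dist c v := by
  simp [FF]

theorem mem_LL {c : V} {k : ℕ} {v : V} : v ∈ LL G c k ↔ G.dist c v = k := by
  simp [LL]

/-- The vertices outside `FF G c 1` do not contribute. -/
theorem eS_FF_one (c : V) : eS G (FF G c 1) c = eS G univ c := by
  unfold eS
  apply Finset.sum_subset (Finset.subset_univ _)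
  intro v _ hv
  rw [mem_FF, not_lt] at hv
  omega

/-- A sum with a lower bound for each term and a better one for one term. -/
theorem sum_bound (U : Finset V) (f : V → ℤ) (hf : ∀ u ∈ U, 0 ≤ f u) {u₀ : V} (h₀ : u₀ ∈ U)
    {b : ℤ} (hb : b ≤ f u₀) : b ≤ ∑ u ∈ U, f u :=
  hb.trans (Finset.single_le_sum hf h₀)

end IB1

open IB1

theorem pr_sum_far (h1 : S_s1_far) : S_sum_far := by
  intro V _ _ G hG ρ A x hρ hR c hU hA
  obtain ⟨u₀, hu₀⟩ := hR c
  have hu₀U : u₀ ∈ FF G c 1 := mem_FF.2 (by omega)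
  have key := sum_bound (FF G c 1)
    (fun u => (eS G (FF G c 1) u : ℤ) + 3 * ((G.dist c u - 1 : ℕ) : ℤ) - (ρ : ℤ) ^ 2)
    (fun u hu => by
      have := (h1 V G hG ρ hρ hR c u (mem_FF.1 hu)).1
      zify at this ⊢
      linarith) hu₀U (b := 2) (by
      have := (h1 V G hG ρ hρ hR c u₀ (mem_FF.1 hu₀U)).2 hu₀
      zify at this ⊢
      linarith)
  rw [Finset.sum_sub_distrib, Finset.sum_add_distrib, ← Finset.mul_sum, Finset.sum_const,
    nsmul_eq_mul] at key
  have e1 : ∑ u ∈ FF G c 1, ((G.dist c u - 1 : ℕ) : ℤ) = (ρ : ℤ) ^ 2 + A := by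
    have h2 := eS_FF_one (G := G) c
    rw [hA] at h2
    unfold eS at h2
    rw [← Nat.cast_sum, h2]
    push_cast; ring
  rw [e1] at key
  have e2 : ((FF G c 1).card : ℤ) = 2 * ρ + x - 1 := by
    have : ((FF G c 1).card : ℤ) + 1 = 2 * ρ + x := by exact_mod_cast hU
    linarith
  rw [e2] at key
  nlinarith [key]

theorem pr_B1 (h1 : S_exo_split) (h2 : S_s1_one) (h3 : S_sum_far) (h4 : S_levels) : S_B1 := by
  intro V _ _ G hG ρ n A x z hρ hn hR c hmin hx hz hA
  have hsplit := h1 V G (FF G c 1)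
  have hlev := (h4 V G hG ρ x z n hρ hR hn c hx hz).1
  have hfar := h3 V G hG ρ A x hρ hR c hx hA
  have hcompl : (FF G c 1)ᶜ = insert c (LL G c 1) := by
    ext v
    rw [Finset.mem_compl, mem_FF, Finset.mem_insert, mem_LL, not_lt]
    constructor
    · intro h
      by_cases hv : v = c
      · exact Or.inl hv
      · right
        have : 0 < G.dist c v := hG.pos_dist_of_ne (fun h => hv h.symm)
        omega
    · rintro (h | h)
      · rw [h]; simp
      · omega
  have hcL : c ∉ LL G c 1 := by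
    rw [mem_LL]; simp
  rw [hcompl, Finset.sum_insert hcL] at hsplit
  have hw : ∑ w ∈ LL G c 1, ((2 * (ρ : ℤ) ^ 2 + A - 1)) ≤
      ∑ w ∈ LL G c 1, ((eS G univ w : ℤ) + eS G (FF G c 1) w) := by
    refine Finset.sum_le_sum fun w hw => ?_
    have e1 := hmin w
    have e2 := h2 V G hG ρ hρ hR c w (mem_LL.1 hw)
    rw [hA] at e1
    zify at e1 e2
    linarith
  rw [Finset.sum_const, nsmul_eq_mul] at hw
  have hL : ((LL G c 1).card : ℤ) = n - 2 * ρ - x := by
    have : ((LL G c 1).card : ℤ) + 2 * ρ + x = n := by exact_mod_cast hlev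
    linarith
  rw [hL] at hw
  rw [eS_FF_one, hA] at hsplit
  have hs : (exo G : ℤ) = 2 * ((ρ : ℤ) ^ 2 + A) +
      ∑ w ∈ LL G c 1, ((eS G univ w : ℤ) + eS G (FF G c 1) w) +
      ∑ u ∈ FF G c 1, (eS G (FF G c 1) u : ℤ) := by
    rw [hsplit]; push_cast; ring
  rw [hs]
  nlinarith [hw, hfar]

end Pool.Agent.BagR

end

section

/-!
Splitting the double sum (item G1 of MP_bb6995_co).
-/

namespace Pool.Agent.BagR

open Finset

theorem pr_exo_split : S_exo_split := by
  intro V _ _ G U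
  have h0 : exo G = ∑ u, eS G univ u := rfl
  have h1 : ∀ u, eS G univ u = eS G Uᶜ u + eS G U u := by
    intro u
    unfold eS
    rw [Finset.sum_compl_add_sum]
  have h2 : ∑ u ∈ U, eS G Uᶜ u = ∑ w ∈ Uᶜ, eS G U w := by
    unfold eS
    rw [Finset.sum_comm]
    refine Finset.sum_congr rfl fun w _ => Finset.sum_congr rfl fun u _ => ?_
    rw [SimpleGraph.dist_comm]
  rw [h0, ← Finset.sum_compl_add_sum U, Finset.sum_add_distrib, add_assoc]
  congr 1
  rw [← h2, ← Finset.sum_add_distrib]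
  exact Finset.sum_congr rfl fun u _ => h1 u

theorem pr_B0 : S_B0 := by
  intro V _ _ G c h
  have h0 : exo G = ∑ u, eS G univ u := rfl
  rw [h0, ← smul_eq_mul, ← Finset.card_univ]
  exact Finset.card_nsmul_le_sum _ _ _ fun v _ => h v

theorem pr_gg_eq : S_gg_eq := by
  intro V _ _ G hG c w hcw
  unfold eS gg FF
  rw [← Finset.sum_filter_add_sum_filter_not univ (fun v => 1 < G.dist c v), add_comm]
  congr 1
  have e1 : (univ.filter fun v => G.dist c v ≤ 1 ∧ 2 ≤ G.dist w v) =
      (univ.filter fun v => ¬ 1 < G.dist c v).filter fun v => 2 ≤ G.dist w v := by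
    ext v
    simp only [Finset.mem_filter, Finset.mem_univ, true_and, not_lt]
  rw [e1, Finset.card_filter]
  refine Finset.sum_congr rfl fun v hv => ?_
  simp only [Finset.mem_filter, Finset.mem_univ, true_and, not_lt] at hv
  have h1 : G.dist w v ≤ G.dist w c + G.dist c v := hG.dist_triangle
  rw [SimpleGraph.dist_comm (u := w) (v := c), hcw] at h1
  split_ifs with h2 <;> omega

theorem pr_exo_one (h1 : S_exo_split) (h2 : S_gg_eq) : S_exo_one := by
  intro V _ _ G hG c
  have hU : (FF G c 1)ᶜ = insert c (LL G c 1) := by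
    ext v
    simp only [FF, LL, Finset.mem_compl, Finset.mem_filter, Finset.mem_univ, true_and,
      Finset.mem_insert, not_lt]
    constructor
    · intro h
      rcases Nat.lt_or_ge (G.dist c v) 1 with h3 | h3
      · left
        have h4 : G.dist c v = 0 := by omega
        exact (hG.dist_eq_zero_iff.1 h4).symm
      · right
        omega
    · rintro (rfl | h)
      · simp
      · omega
  have hc : c ∉ LL G c 1 := by
    simp [LL]
  have hec : eS G (FF G c 1) c = eS G univ c := by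
    unfold eS
    refine Finset.sum_subset (Finset.subset_univ _) fun v _ hv => ?_
    simp only [FF, Finset.mem_filter, Finset.mem_univ, true_and, not_lt] at hv
    omega
  rw [h1 V G (FF G c 1), hU, Finset.sum_insert hc, hec]
  have h3 : ∑ w ∈ LL G c 1, (eS G univ w + eS G (FF G c 1) w) =
      ∑ w ∈ LL G c 1, (gg G c w + 2 * eS G (FF G c 1) w) := by
    refine Finset.sum_congr rfl fun w hw => ?_
    have hw' : G.dist c w = 1 := by
      simpa [LL] using hw
    rw [h2 V G hG c w hw']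
    ring
  rw [h3]
  ring

end Pool.Agent.BagR

end

section

/-!
MP_bb6995_co, item L1: sums of counts.
-/

namespace Pool.Agent.BagR

open Finset

theorem pr_sum_NN : S_sum_NN := by
  intro V _ _ G c k u r
  unfold NN eS FF
  simp only [Finset.card_filter]
  rw [Finset.sum_comm, Finset.sum_filter]
  refine Finset.sum_le_sum fun v _ => ?_
  by_cases hv : k < G.dist c v
  · rw [if_pos hv]
    simp only [hv, true_and]
    rw [← Finset.card_filter]
    have h1 : (Icc 2 r).filter (fun j => j ≤ G.dist u v) ⊆ Icc 2 (G.dist u v) := by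
      intro j hj
      rw [Finset.mem_filter, Finset.mem_Icc] at hj
      rw [Finset.mem_Icc]
      exact ⟨hj.1.1, hj.2⟩
    refine (Finset.card_le_card h1).trans ?_
    rw [Nat.card_Icc]
    omega
  · rw [if_neg hv]
    simp [hv]

theorem pr_sum_FF : S_sum_FF := by
  intro V _ _ G c m hm
  unfold eS FF
  simp only [Finset.card_filter]
  rw [Finset.sum_comm]
  refine Finset.sum_congr rfl fun v _ => ?_
  rw [← Finset.card_filter]
  have h1 : (Icc 1 m).filter (fun k => k < G.dist c v) = Ico 1 (G.dist c v) := by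
    ext j
    rw [Finset.mem_filter, Finset.mem_Icc, Finset.mem_Ico]
    have := hm v
    constructor
    · rintro ⟨⟨h1, _⟩, h2⟩
      exact ⟨h1, h2⟩
    · rintro ⟨h1, h2⟩
      exact ⟨⟨h1, by omega⟩, h2⟩
  rw [h1, Nat.card_Ico]

theorem L1_even {V : Type} [DecidableEq V] (f : V → V → ℕ) (hs : ∀ u v, f u v = f v u)
    (h0 : ∀ u, f u u = 0) (s : Finset V) : 2 ∣ ∑ u ∈ s, ∑ v ∈ s, f u v := by
  induction s using Finset.induction_on with
  | empty => simp
  | insert a s ha ih =>
    have h1 : ∑ u ∈ insert a s, ∑ v ∈ insert a s, f u v =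
        2 * ∑ v ∈ s, f a v + ∑ u ∈ s, ∑ v ∈ s, f u v := by
      rw [Finset.sum_insert ha, Finset.sum_insert ha, h0, zero_add]
      have h2 : ∀ u ∈ s, ∑ v ∈ insert a s, f u v = f a u + ∑ v ∈ s, f u v := by
        intro u _
        rw [Finset.sum_insert ha, hs u a]
      rw [Finset.sum_congr rfl h2, Finset.sum_add_distrib]
      ring
    rw [h1]
    exact Dvd.dvd.add (Dvd.intro _ rfl) ih

theorem pr_exo_even : S_exo_even := by
  intro V _ _ G
  unfold exo
  exact L1_even (fun u v => G.dist u v - 1) (fun u v => by rw [SimpleGraph.dist_comm])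
    (fun u => by simp) univ

end Pool.Agent.BagR

end

section

/-!
# MP_bb6995_co, item N2 (helper85): small rho, all n
-/

set_option autoImplicit false

namespace Pool.Agent.BagR

open Finset

namespace AuxN2

/-- first alternative -/
def f1 (ρ n h A : ℤ) : ℤ := (h + 1) * nB0 n ρ A + (ρ - h) * nPhi n h ρ

/-- second alternative -/
def f2 (ρ n h : ℤ) : ℤ := -((h + 1) * (ρ ^ 2 + 1)) + (ρ - h) * nPhi n h ρ

/-- third alternative -/
def f3 (ρ n h A : ℤ) : ℤ := (h + 1) * nE n ρ A + 4 * (ρ - h) * nPhi n h ρ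

/-- the threshold -/
def A0 (ρ n h : ℤ) : ℤ :=
  ((h + 1) * ((n - 2 * ρ - 2) * ρ ^ 2) - (ρ - h) * nPhi n h ρ + (h + 1) * n - 1) / ((h + 1) * n)

/-- the finite check -/
def chk (ρ n h : ℤ) : Prop :=
  (ρ ^ 2 ≤ A0 ρ n h ∨ 0 ≤ f1 ρ n h (A0 ρ n h)) ∧
  (A0 ρ n h ≤ 3 ∨ (0 ≤ f3 ρ n h 3 ∧ 0 ≤ f3 ρ n h (min (A0 ρ n h - 1) (ρ ^ 2 - 1)))) ∧
  (A0 ρ n h ≤ 1 ∨ 0 ≤ f2 ρ n h)

instance (ρ n h : ℤ) : Decidable (chk ρ n h) := by unfold chk; infer_instance

theorem of_chk (ρ n h A : ℤ) (hn : 0 ≤ n) (hh : 0 ≤ h) (hA : 1 ≤ A) (hA' : A < ρ ^ 2)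
    (hc : chk ρ n h) : Key ρ n h A := by
  obtain ⟨c1, c2, c3⟩ := hc
  set a := A0 ρ n h
  by_cases h1 : a ≤ A
  · left
    rcases c1 with c1 | c1
    · omega
    · unfold f1 nB0 at c1
      unfold nB0
      have h2 : 0 ≤ (h + 1) * n := mul_nonneg (by omega) hn
      have h3 : 0 ≤ ((h + 1) * n) * (A - a) := mul_nonneg h2 (by omega)
      nlinarith
  · by_cases h4 : A ≤ 2
    · right
      left
      refine ⟨h4, ?_⟩
      rcases c3 with c3 | c3
      · omega
      · exact c3
    · right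
      right
      refine ⟨by omega, ?_⟩
      rcases c2 with c2 | ⟨c2, c4⟩
      · omega
      · set B := min (a - 1) (ρ ^ 2 - 1) with hB
        have hAB : A ≤ B := le_min (by omega) (by omega)
        have h3A : 3 ≤ A := by omega
        unfold f3 nE at c2 c4
        unfold nE
        set Φ := nPhi n h ρ
        -- concavity
        have k1 : 0 ≤ (A - 3) * (B - A) := mul_nonneg (by omega) (by omega)
        have k2 : 0 ≤ (h + 1) * ((A - 3) * (B - A)) := mul_nonneg (by omega) k1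
        rcases eq_or_lt_of_le (show 3 ≤ B by omega) with hB3 | hB3
        · have : A = 3 := by omega
          rw [this]
          exact c2
        · have k3 : 0 ≤ (B - A) * ((h + 1) * (3 * (6 * n - 12 * ρ - 2 * ρ ^ 2 - 3 * 3) - 10 * n +
              20 * ρ + 27 - 2 * ρ ^ 2) + 4 * (ρ - h) * Φ) := mul_nonneg (by omega) c2
          have k4 : 0 ≤ (A - 3) * ((h + 1) * (B * (6 * n - 12 * ρ - 2 * ρ ^ 2 - 3 * B) - 10 * n +
              20 * ρ + 27 - 2 * ρ ^ 2) + 4 * (ρ - h) * Φ) := mul_nonneg (by omega) c4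
          have k5 : 0 ≤ (B - 3) * ((h + 1) * (A * (6 * n - 12 * ρ - 2 * ρ ^ 2 - 3 * A) - 10 * n +
              20 * ρ + 27 - 2 * ρ ^ 2) + 4 * (ρ - h) * Φ) := by
            have k6 : (B - 3) * ((h + 1) * (A * (6 * n - 12 * ρ - 2 * ρ ^ 2 - 3 * A) - 10 * n +
                20 * ρ + 27 - 2 * ρ ^ 2) + 4 * (ρ - h) * Φ) =
                (B - A) * ((h + 1) * (3 * (6 * n - 12 * ρ - 2 * ρ ^ 2 - 3 * 3) - 10 * n +
                20 * ρ + 27 - 2 * ρ ^ 2) + 4 * (ρ - h) * Φ) +
                (A - 3) * ((h + 1) * (B * (6 * n - 12 * ρ - 2 * ρ ^ 2 - 3 * B) - 10 * n +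
                20 * ρ + 27 - 2 * ρ ^ 2) + 4 * (ρ - h) * Φ) +
                3 * (B - 3) * ((h + 1) * ((A - 3) * (B - A))) := by ring
            rw [k6]
            have k7 : 0 ≤ 3 * (B - 3) * ((h + 1) * ((A - 3) * (B - A))) :=
              mul_nonneg (by omega) k2
            omega
          exact nonneg_of_mul_nonneg_right k5 (by omega)

theorem all_chk : ∀ r : ℕ, r < 8 → ∀ k : ℕ, k < 10 → ∀ m : ℕ, m < 4 * k + 2 →
    (2 * ((r : ℤ) + 5) + 2 ≤ 2 * (k : ℤ) ^ 2 + m) →
    (2 * (k : ℤ) ^ 2 + m ≤ ((r : ℤ) + 5) ^ 2 + 2 * ((r : ℤ) + 5) + 7) →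
    chk ((r : ℤ) + 5) (2 * (k : ℤ) ^ 2 + m) k := by
  decide +kernel

end AuxN2

open AuxN2

theorem pr_key_small : S_key_small := by
  intro ρ n h A h5 h12 hn1 hn2 hh hn3 hn4 hA1 hA2
  refine of_chk ρ n h A (by omega) hh hA1 hA2 ?_
  obtain ⟨r, hr⟩ := Int.eq_ofNat_of_zero_le (show 0 ≤ ρ - 5 by omega)
  obtain ⟨k, rfl⟩ := Int.eq_ofNat_of_zero_le hh
  obtain ⟨m, hm⟩ := Int.eq_ofNat_of_zero_le (show 0 ≤ n - 2 * (k : ℤ) ^ 2 by omega)
  have e1 : ρ = (r : ℤ) + 5 := by omega
  have e2 : n = 2 * (k : ℤ) ^ 2 + m := by omega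
  subst e1
  have hk : k < 10 := by
    by_contra hc
    have h1 : (10 : ℤ) ≤ k := by omega
    have h2 : n ≤ 175 := by nlinarith
    nlinarith
  rw [e2]
  refine all_chk r (by omega) k hk m (by omega) (by omega) (by omega)

end Pool.Agent.BagR

end

section

namespace Pool.Agent.BagR

theorem pr_GG_mid : S_GG_mid := by
  intro ρ h h1 h2 h3 h4 h5 h6
  interval_cases ρ <;> interval_cases h <;>
    first
    | (exfalso; revert h5; norm_num; done)
    | (exfalso; revert h6; norm_num; done)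
    | (norm_num [GG, nE, nPhi])

end Pool.Agent.BagR

end

section

namespace Pool.Agent.BagR

/-- A quadratic with leading coefficient `-d ≤ 0` that is nonnegative at both ends. -/
theorem quad_between {d n1 n2 n f f1 f2 : ℤ} (hd : 0 ≤ d) (h1 : n1 ≤ n) (h2 : n ≤ n2)
    (hf1 : 0 ≤ f1) (hf2 : 0 ≤ f2)
    (hid : (n2 - n1) * f = (n2 - n) * f1 + (n - n1) * f2 + d * ((n - n1) * (n2 - n)) * (n2 - n1))
    (hne : n1 < n2) : 0 ≤ f := by
  have h3 : 0 ≤ (n2 - n1) * f := by
    rw [hid]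
    have a1 : 0 ≤ n2 - n := by linarith
    have a2 : 0 ≤ n - n1 := by linarith
    have a3 : 0 ≤ n2 - n1 := by linarith
    positivity
  have h4 : 0 < n2 - n1 := by linarith
  by_contra hc
  push Not at hc
  have := mul_neg_of_pos_of_neg h4 hc
  linarith

theorem pr_key_big (h1 : S_GG_mid) (h2 : S_GG_big) : S_key_big := by
  intro ρ n h A hρ hn hn7 hh0 f1 f2 hA1 hAs
  have hh1 : 1 ≤ h := by
    by_contra hc
    have : h = 0 := by omega
    subst this
    norm_num at f2
    linarith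
  have hhρ : h < ρ := by
    by_contra hc
    push Not at hc
    nlinarith
  have hh7 : 2 * h ^ 2 ≤ ρ ^ 2 + 2 * ρ + 7 := by linarith
  obtain ⟨d, hd⟩ : ∃ d, d = ρ - h := ⟨_, rfl⟩
  have hρe : ρ = h + d := by linarith
  have hd1 : 1 ≤ d := by linarith
  have hne : 2 * h ^ 2 < 2 * h ^ 2 + 4 * h + 1 := by linarith
  rcases le_or_gt (ρ ^ 2 - 2 * (ρ - h) ^ 2) A with hA | hA
  · left
    -- value at A = As
    have hR : 0 ≤ (h + 1) * nB0 n ρ (ρ ^ 2 - 2 * (ρ - h) ^ 2) + (ρ - h) * nPhi n h ρ := by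
      have r1 : (h + 1) * nB0 (2 * h ^ 2) ρ (ρ ^ 2 - 2 * (ρ - h) ^ 2)
          + (ρ - h) * nPhi (2 * h ^ 2) h ρ = 2 * h ^ 2 * (5 * ρ * h - 4 * h ^ 2 + 2 * ρ + 1) := by
        unfold nB0 nPhi; ring
      have r2 : (h + 1) * nB0 (2 * h ^ 2 + 4 * h + 1) ρ (ρ ^ 2 - 2 * (ρ - h) ^ 2)
          + (ρ - h) * nPhi (2 * h ^ 2 + 4 * h + 1) h ρ = 2 * (h + 1) * h ^ 2 * (ρ + 1) := by
        unfold nB0 nPhi; ring
      refine quad_between (d := ρ - h) (n1 := 2 * h ^ 2) (n2 := 2 * h ^ 2 + 4 * h + 1) (n := n)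
        (f1 := (h + 1) * nB0 (2 * h ^ 2) ρ (ρ ^ 2 - 2 * (ρ - h) ^ 2)
          + (ρ - h) * nPhi (2 * h ^ 2) h ρ)
        (f2 := (h + 1) * nB0 (2 * h ^ 2 + 4 * h + 1) ρ (ρ ^ 2 - 2 * (ρ - h) ^ 2)
          + (ρ - h) * nPhi (2 * h ^ 2 + 4 * h + 1) h ρ)
        (by linarith) f1 f2 ?_ ?_ ?_ hne
      · rw [r1]
        have : 0 ≤ 5 * ρ * h - 4 * h ^ 2 + 2 * ρ + 1 := by nlinarith
        positivity
      · rw [r2]
        have : 0 ≤ ρ + 1 := by linarith
        positivity
      · unfold nB0 nPhi; ring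
    have hmono : (h + 1) * nB0 n ρ A = (h + 1) * nB0 n ρ (ρ ^ 2 - 2 * (ρ - h) ^ 2)
        + (h + 1) * (n * (A - (ρ ^ 2 - 2 * (ρ - h) ^ 2))) := by
      unfold nB0; ring
    have hpos : 0 ≤ (h + 1) * (n * (A - (ρ ^ 2 - 2 * (ρ - h) ^ 2))) := by
      have a1 : 0 ≤ n := by linarith
      have a2 : 0 ≤ A - (ρ ^ 2 - 2 * (ρ - h) ^ 2) := by linarith
      positivity
    linarith
  · -- A < As
    have h5 : 2 * (ρ - h) ^ 2 < ρ ^ 2 := by linarith
    have hGG : GG h ρ := by
      rcases le_or_gt ρ 19 with h19 | h19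
      · exact h1 ρ h hρ h19 hh1 hhρ h5 hh7
      · apply h2 ρ h (by linarith)
        · by_contra hc
          push Not at hc
          rw [hρe] at hc hh7 h19
          nlinarith
        · by_contra hc
          push Not at hc
          rw [hρe] at hc h5
          nlinarith
    obtain ⟨g1, g2, g3, g4, g5, g6⟩ := hGG
    rcases le_or_gt A 2 with hA2 | hA2
    · right; left
      refine ⟨hA2, ?_⟩
      refine quad_between (d := ρ - h) (n1 := 2 * h ^ 2) (n2 := 2 * h ^ 2 + 4 * h + 1) (n := n)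
        (by linarith) f1 f2 g5 g6 ?_ hne
      unfold nPhi; ring
    · right; right
      refine ⟨by omega, ?_⟩
      have k3 : 0 ≤ (h + 1) * nE n ρ 3 + 4 * (ρ - h) * nPhi n h ρ := by
        refine quad_between (d := 4 * (ρ - h)) (n1 := 2 * h ^ 2) (n2 := 2 * h ^ 2 + 4 * h + 1)
          (n := n) (by linarith) f1 f2 g3 g4 ?_ hne
        unfold nE nPhi; ring
      have ks : 0 ≤ (h + 1) * nE n ρ (ρ ^ 2 - 2 * (ρ - h) ^ 2) + 4 * (ρ - h) * nPhi n h ρ := by
        refine quad_between (d := 4 * (ρ - h)) (n1 := 2 * h ^ 2) (n2 := 2 * h ^ 2 + 4 * h + 1)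
          (n := n) (by linarith) f1 f2 g1 g2 ?_ hne
        unfold nE nPhi; ring
      refine quad_between (d := 3 * (h + 1)) (n1 := 3) (n2 := ρ ^ 2 - 2 * (ρ - h) ^ 2)
        (n := A) (by linarith) (by omega) hA.le k3 ks ?_ (by omega)
      unfold nE nPhi; ring

end Pool.Agent.BagR

end

section

namespace Pool.Agent.BagR

theorem pr_num_five (h1 : S_red) (h2 : S_key_small) (h3 : S_key_big) : S_num_five := by
  intro ρ n x z A E hρ hn hx0 hz0 hzx hxz hxn hB0 hB1 hB2 hC
  obtain ⟨b, hb⟩ : ∃ b, b = E - 2 * (n - ρ - 1) * ρ ^ 2 := ⟨_, rfl⟩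
  have hE : E = b + 2 * (n - ρ - 1) * ρ ^ 2 := by rw [hb]; ring
  have hred := h1 ρ n x z A b (by linarith) hn hx0 hz0 hzx hxz hxn (by linarith) (by linarith)
    (by linarith) (fun h => by have := hC h; linarith)
  have hρ2 : 25 ≤ ρ ^ 2 := by nlinarith
  rcases hred with h0 | ⟨hn7, hAs, hcase⟩
  · refine ⟨ρ + 1, by linarith, by linarith, ?_⟩
    have h5 : 0 ≤ (ρ + 1) * b := mul_nonneg (by linarith) h0
    have h6 : (ρ + 1) * (E + n * (n - 1)) -
        (ρ + 1) * (n * (n - 1) + 2 * (n - (ρ + 1)) * (ρ + 1 - 1) ^ 2) = (ρ + 1) * b := by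
      rw [hE]; ring
    linarith
  · -- h = sqrt (n/2)
    have hA1 : 1 ≤ A := by
      rcases hcase with h | h
      · exact h.1
      · linarith [h.1]
    have hn0 : 0 ≤ n / 2 := by omega
    obtain ⟨m, hm⟩ : ∃ m : ℕ, n / 2 = m := ⟨(n / 2).toNat, by omega⟩
    have hs1 : Nat.sqrt m * Nat.sqrt m ≤ m := Nat.sqrt_le m
    have hs2 : m < (Nat.sqrt m + 1) * (Nat.sqrt m + 1) := Nat.lt_succ_sqrt m
    obtain ⟨h, hh⟩ : ∃ h : ℤ, h = (Nat.sqrt m : ℤ) := ⟨_, rfl⟩
    have hh0 : 0 ≤ h := by rw [hh]; positivity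
    have e1 : h * h ≤ n / 2 := by rw [hh, hm]; exact_mod_cast hs1
    have e2 : n / 2 < (h + 1) * (h + 1) := by rw [hh, hm]; exact_mod_cast hs2
    have f1 : 2 * h ^ 2 ≤ n := by
      have : 2 * (n / 2) ≤ n := by omega
      nlinarith
    have f2 : n ≤ 2 * h ^ 2 + 4 * h + 1 := by
      have h4 : n < 2 * ((h + 1) * (h + 1)) := by omega
      nlinarith
    have f3 : 2 ≤ h := by
      by_contra hc
      have : h ≤ 1 := by omega
      nlinarith
    have f4 : h ≤ ρ - 1 := by
      by_contra hc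
      have : ρ ≤ h := by omega
      nlinarith
    have hkey : Key ρ n h A := by
      rcases le_or_gt ρ 12 with h12 | h12
      · exact h2 ρ n h A hρ h12 hn hn7 hh0 f1 f2 hA1 hAs
      · exact h3 ρ n h A (by linarith) hn hn7 hh0 f1 f2 hA1 hAs
    refine ⟨h + 1, by linarith, by nlinarith, ?_⟩
    have hid : (h + 1) * (E + n * (n - 1)) -
        (ρ + 1) * (n * (n - 1) + 2 * (n - (h + 1)) * (h + 1 - 1) ^ 2) =
        (h + 1) * b + (ρ - h) * nPhi n h ρ := by
      rw [hE]; unfold nPhi; ring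
    have hh1 : 0 ≤ h + 1 := by linarith
    suffices hgoal : 0 ≤ (h + 1) * b + (ρ - h) * nPhi n h ρ by linarith
    rcases hkey with hk | ⟨hk1, hk2⟩ | ⟨hk1, hk2⟩
    · have h7 : (h + 1) * nB0 n ρ A ≤ (h + 1) * b :=
        mul_le_mul_of_nonneg_left (by linarith) hh1
      linarith
    · rcases hcase with hc | hc
      · have h7 : (h + 1) * (-(ρ ^ 2 + 1)) ≤ (h + 1) * b :=
          mul_le_mul_of_nonneg_left hc.2.2.1 hh1
        linarith
      · omega
    · rcases hcase with hc | hc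
      · omega
      · have h7 : (h + 1) * nE n ρ A ≤ (h + 1) * (4 * b) :=
          mul_le_mul_of_nonneg_left hc.2 hh1
        linarith

end Pool.Agent.BagR

end

section

namespace Pool.Agent.BagR

open Finset

theorem pr_num_four (h1 : S_red) : S_num_four := by
  intro n x z A E hn hx hz hzx hxz hxn hE h0 h1' h2 h3
  have hred := h1 4 n x z A (E - 32 * (n - 5)) (by norm_num) (by linarith) hx hz hzx hxz
    (by linarith) (by linarith) (by linarith) (by linarith) (fun h => by linarith [h3 h])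
  rcases hred with hb | ⟨hn2, hA, hcase⟩
  · exact ⟨5, by norm_num, by linarith, by nlinarith⟩
  · by_cases hE0 : 32 * (n - 5) ≤ E
    · exact ⟨5, by norm_num, by linarith, by nlinarith⟩
    obtain ⟨k, hk⟩ := hE
    have hn3 : n ≤ 31 := by linarith
    have hA3 : A ≤ 15 := by linarith
    have hA1 : 1 ≤ A := by rcases hcase with h | h <;> omega
    simp only [nB0, nE] at h0 hcase
    clear h1' h2 h3 h1 hn2 hA hx hz hzx hxz hxn
    interval_cases n <;>
    first
    | (refine ⟨4, by norm_num, by norm_num, ?_⟩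
       interval_cases A <;> omega)
    | (refine ⟨3, by norm_num, by norm_num, ?_⟩
       interval_cases A <;> omega)

end Pool.Agent.BagR

end

section

namespace Pool.Agent.BagR

open Finset

theorem pr_num_three (h1 : S_red) : S_num_three := by
  intro n x z A E hn hx hz hzx hxz hxn hE h0 h1' h2 h3 h4 h5
  have hred := h1 3 n x z A (E - 18 * (n - 4)) (by norm_num) (by linarith) hx hz hzx hxz
    (by linarith) (by linarith) (by linarith) (by linarith) (fun h => by linarith [h3 h])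
  rcases hred with hb | ⟨hn2, hA, hcase⟩
  · exact ⟨4, by norm_num, by linarith, by nlinarith⟩
  · by_cases hE0 : 18 * (n - 4) ≤ E
    · exact ⟨4, by norm_num, by linarith, by nlinarith⟩
    obtain ⟨k, hk⟩ := hE
    have hn3 : n ≤ 22 := by linarith
    have hA3 : A ≤ 8 := by linarith
    have hA1 : 1 ≤ A := by rcases hcase with h | h <;> omega
    have hzA : z ≤ A := by linarith
    have hxA : x ≤ A := by linarith
    simp only [nB0, nB1, nB2, nC, nE] at h0 h1' h2 h3 hcase
    clear h1 hn2 hA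
    interval_cases n <;> (refine ⟨3, by norm_num, by norm_num, ?_⟩) <;>
      interval_cases A <;> first | omega | (interval_cases x <;> omega)

end Pool.Agent.BagR

end

section

namespace Pool.Agent.BagR

open Finset

theorem pr_num_one : S_num_one := by
  intro n E hn hE hnE
  obtain ⟨k, hk⟩ := hE
  by_cases h4 : n = 4
  · subst h4
    exact ⟨2, by norm_num, by norm_num, by omega⟩
  by_cases h5 : n = 5
  · subst h5
    exact ⟨2, by norm_num, by norm_num, by omega⟩
  by_cases h7 : n = 7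
  · subst h7
    exact ⟨3, by norm_num, by norm_num, by omega⟩
  have h6 : 6 ≤ n := by omega
  refine ⟨3, by norm_num, by linarith, ?_⟩
  have key : 0 ≤ (n - 6) * (n - 8) := by
    by_cases h8 : 8 ≤ n
    · exact mul_nonneg (by linarith) (by linarith)
    · have : n = 6 := by omega
      subst this; norm_num
  nlinarith

end Pool.Agent.BagR

end

section

/-!
# MP_bb6995_co: item R3a
-/

namespace Pool.Agent.BagR

open Finset

/-- the first step of a shortest walk -/
lemma r3_step {V : Type} (G : SimpleGraph V) (hG : G.Connected) {u w : V} (h : u ≠ w) :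
    ∃ v, G.Adj u v ∧ G.dist v w + 1 = G.dist u w := by
  obtain ⟨p, hp⟩ := hG.exists_walk_length_eq_dist u w
  cases p with
  | nil => exact absurd rfl h
  | cons hv q =>
    rename_i v
    refine ⟨v, hv, ?_⟩
    have h1 : G.dist v w ≤ q.length := SimpleGraph.dist_le q
    have h2 : G.dist u w ≤ G.dist u v + G.dist v w := hG.dist_triangle
    have h3 : G.dist u v = 1 := SimpleGraph.dist_eq_one_iff_adj.mpr hv
    simp only [SimpleGraph.Walk.length_cons] at hp
    omega

lemma r3_dist_adj {V : Type} {G : SimpleGraph V} {u v : V} (h : G.Adj u v) : G.dist u v = 1 :=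
  SimpleGraph.dist_eq_one_iff_adj.mpr h

lemma r3a_one {V : Type} (G : SimpleGraph V) (hG : G.Connected) (hR : RadGe G 3) {a b : V}
    (hab : a ≠ b) (hst : ∀ u, u ≠ a → u ≠ b → 3 ≤ G.dist u a ∨ 3 ≤ G.dist u b) :
    ∃ u, G.Adj a u ∧ u ≠ b := by
  by_contra hcon
  push Not at hcon
  obtain ⟨w, hw⟩ := hR b
  have hbw : b ≠ w := by rintro rfl; simp at hw
  obtain ⟨u, hu, hd⟩ := r3_step G hG hbw
  have hub : u ≠ b := hu.ne'
  by_cases hua : u = a
  · subst hua
    have haw : u ≠ w := by rintro rfl; simp at hd; omega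
    obtain ⟨u', hu', hd'⟩ := r3_step G hG haw
    have := hcon u' hu'
    subst this
    omega
  · have hab' : G.Adj a b := by
      obtain ⟨v, hv, _⟩ := r3_step G hG hab
      rwa [hcon v hv] at hv
    have h1 : G.dist u b = 1 := r3_dist_adj hu.symm
    have h2 : G.dist u a ≤ G.dist u b + G.dist b a := hG.dist_triangle
    have h3 : G.dist b a = 1 := r3_dist_adj hab'.symm
    rcases hst u hua hub with h | h <;> omega

theorem pr_far_avoid : S_far_avoid := by
  intro V _ _ G hG hR a b hab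
  by_contra hcon
  push Not at hcon
  have hst : ∀ u, u ≠ a → u ≠ b → 3 ≤ G.dist u a ∨ 3 ≤ G.dist u b := by
    intro u hua hub
    obtain ⟨w, hw⟩ := hR u
    by_cases hwa : w = a
    · left; rwa [hwa] at hw
    · by_cases hwb : w = b
      · right; rwa [hwb] at hw
      · exact absurd hw (by have := hcon u w hua hub hwa hwb; omega)
  obtain ⟨u, hau, hub⟩ := r3a_one G hG hR hab hst
  obtain ⟨w, hbw, hwa⟩ := r3a_one G hG hR hab.symm (fun u h1 h2 => (hst u h2 h1).symm)
  have hua1 : G.dist u a = 1 := r3_dist_adj hau.symm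
  have hwb1 : G.dist w b = 1 := r3_dist_adj hbw.symm
  have hub3 : 3 ≤ G.dist u b := by
    rcases hst u hau.ne' hub with h | h
    · omega
    · exact h
  have hwa3 : 3 ≤ G.dist w a := by
    rcases hst w hwa hbw.ne' with h | h
    · exact h
    · omega
  have huw : u ≠ w := by rintro rfl; omega
  obtain ⟨t, hut, htd⟩ := r3_step G hG huw
  have h2 := hcon u w hau.ne' hub hwa hbw.ne'
  have htw : G.dist t w ≤ 1 := by omega
  have hut1 : G.dist u t = 1 := r3_dist_adj hut
  have hta : t ≠ a := by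
    rintro rfl
    rw [G.dist_comm] at htw
    omega
  have htb : t ≠ b := by
    rintro rfl
    omega
  have k1 : G.dist t a ≤ G.dist t u + G.dist u a := hG.dist_triangle
  have k2 : G.dist t b ≤ G.dist t w + G.dist w b := hG.dist_triangle
  rw [SimpleGraph.dist_comm (u := t) (v := u)] at k1
  rcases hst t hta htb with h | h <;> omega

end Pool.Agent.BagR

end

section

/-!
# MP_bb6995_co: item R3b
-/

namespace Pool.Agent.BagR

open Finset

lemma r3b_closed {V : Type} (G : SimpleGraph V) (S : Set V)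
    (hS : ∀ u v, u ∈ S → G.Adj u v → v ∈ S) {u v : V} (p : G.Walk u v) (hu : u ∈ S) : v ∈ S := by
  induction p with
  | nil => exact hu
  | cons h q ih => exact ih (hS _ _ hu h)

lemma r3b_core {V : Type} (G : SimpleGraph V) (hG : G.Connected) {a t t' t'' : V}
    (ha' : a ≠ t') (h1 : 3 ≤ G.dist t t') (h2 : 3 ≤ G.dist t t'')
    (hv : ∀ v, v ≠ a → v ≠ t → v ≠ t' → v ≠ t'' → 3 ≤ G.dist a v) (hat : G.Adj a t) : False := by
  have had : G.dist a t = 1 := SimpleGraph.dist_eq_one_iff_adj.mpr hat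
  have hclosed : ∀ u v, u ∈ ({a, t} : Set V) → G.Adj u v → v ∈ ({a, t} : Set V) := by
    intro u v hu huv
    have huv1 : G.dist u v = 1 := SimpleGraph.dist_eq_one_iff_adj.mpr huv
    simp only [Set.mem_insert_iff, Set.mem_singleton_iff] at hu ⊢
    by_contra hcon
    push Not at hcon
    have hav : G.dist a v ≤ 2 := by
      rcases hu with rfl | rfl
      · omega
      · have : G.dist a v ≤ G.dist a u + G.dist u v := hG.dist_triangle
        omega
    have htv : G.dist t v ≤ 2 := by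
      rcases hu with rfl | rfl
      · have : G.dist t v ≤ G.dist t u + G.dist u v := hG.dist_triangle
        rw [SimpleGraph.dist_comm (u := t) (v := u)] at this
        omega
      · omega
    have hvt' : v ≠ t' := by rintro rfl; omega
    have hvt'' : v ≠ t'' := by rintro rfl; omega
    have := hv v hcon.1 hcon.2 hvt' hvt''
    omega
  obtain ⟨p⟩ := hG.preconnected a t'
  have := r3b_closed G _ hclosed p (by simp)
  simp only [Set.mem_insert_iff, Set.mem_singleton_iff] at this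
  rcases this with h | h
  · exact ha' h.symm
  · subst h; simp at h1

theorem pr_no_tri : S_no_tri := by
  intro V _ _ G hG a t₁ t₂ t₃ h1 h2 h3 h12 h13 h23 hcon
  have hn : ∃ v, G.Adj a v := by
    obtain ⟨p⟩ := hG.preconnected a t₁
    cases p with
    | nil => exact absurd rfl h1
    | cons h q => exact ⟨_, h⟩
  obtain ⟨v, hv⟩ := hn
  have hd : G.dist a v = 1 := SimpleGraph.dist_eq_one_iff_adj.mpr hv
  have h21 : 3 ≤ G.dist t₂ t₁ := by rw [G.dist_comm]; exact h12
  have h31 : 3 ≤ G.dist t₃ t₁ := by rw [G.dist_comm]; exact h13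
  have h32 : 3 ≤ G.dist t₃ t₂ := by rw [G.dist_comm]; exact h23
  by_cases e1 : v = t₁
  · subst e1
    exact r3b_core G hG h2 h12 h13 (fun w a1 a2 a3 a4 => hcon w a1 a2 a3 a4) hv
  by_cases e2 : v = t₂
  · subst e2
    exact r3b_core G hG h1 h21 h23 (fun w a1 a2 a3 a4 => hcon w a1 a3 a2 a4) hv
  by_cases e3 : v = t₃
  · subst e3
    exact r3b_core G hG h1 h31 h32 (fun w a1 a2 a3 a4 => hcon w a1 a3 a4 a2) hv
  have := hcon v hv.ne' e1 e2 e3
  omega

end Pool.Agent.BagR

end

section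

namespace Pool.Agent.BagR

open Finset

theorem S1a_sq (f : ℕ → ℕ) (r : ℕ) : ∀ n, n ≤ r →
    (∀ j ∈ Icc (r + 1 - n) r, 2 * r + 1 ≤ f j + 2 * j) →
    n ^ 2 ≤ ∑ j ∈ Icc (r + 1 - n) r, f j := by
  intro n
  induction n with
  | zero => intro _ _; simp
  | succ n ih =>
    intro hn h
    have hI : Icc (r + 1 - (n + 1)) r = insert (r - n) (Icc (r + 1 - n) r) := by
      ext j
      simp only [mem_Icc, mem_insert]
      omega
    have hnot : r - n ∉ Icc (r + 1 - n) r := by
      simp only [mem_Icc]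
      omega
    rw [hI, sum_insert hnot]
    have h1 := ih (by omega) fun j hj => h j (by rw [hI]; exact mem_insert_of_mem hj)
    have h2 := h (r - n) (by rw [hI]; exact mem_insert_self _ _)
    have h3 : 2 * n + 1 ≤ f (r - n) := by omega
    nlinarith

theorem pr_s1_one (ha : S_cov_a) (hb : S_cov_b) (hs : S_sum_NN) : S_s1_one := by
  intro V _ _ G hG ρ hρ hR c w hw
  have h0 := hs V G c 1 w (ρ + 1)
  have h2 := hb V G hG (ρ + 1) hR c w 1 2 (by omega) (by omega) (by omega)
  have hI : Icc 2 (ρ + 1) = insert 2 (Icc 3 (ρ + 1)) := by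
    ext j
    simp only [mem_Icc, mem_insert]
    omega
  rw [hI, sum_insert (by simp)] at h0
  have h3 := S1a_sq (NN G c 1 w) (ρ + 1) (ρ - 1) (by omega)
  have e : ρ + 1 + 1 - (ρ - 1) = 3 := by omega
  rw [e] at h3
  have h4 := h3 fun j hj => by
    rw [mem_Icc] at hj
    exact ha V G hG (ρ + 1) hR c w 1 j (by omega)
  obtain ⟨m, rfl⟩ : ∃ m, ρ = m + 1 := ⟨ρ - 1, by omega⟩
  rw [Nat.add_sub_cancel] at h4
  rw [hw] at h2
  have h5 : 2 * (m + 1 + 1) ≤ NN G c 1 w 2 + 4 := by omega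
  nlinarith

theorem pr_s2_one (ha : S_cov_a) (hb : S_cov_b) (hs : S_sum_NN) : S_s2_one := by
  intro V _ _ G hG ρ hρ hR c w hw
  have h0 := hs V G c 2 w (ρ + 1)
  have h2 : NN G c 2 w 2 = (FF G c 2).card := by
    unfold NN FF
    congr 1
    ext v
    simp only [mem_filter, mem_univ, true_and, and_iff_left_iff_imp]
    intro hv
    have h := hG.dist_triangle (u := c) (v := w) (w := v)
    omega
  have h3 := hb V G hG (ρ + 1) hR c w 2 3 (by omega) (by omega) (by omega)
  have hI : Icc 2 (ρ + 1) = insert 2 (insert 3 (Icc 4 (ρ + 1))) := by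
    ext j
    simp only [mem_Icc, mem_insert]
    omega
  rw [hI, sum_insert (by simp), sum_insert (by simp), h2] at h0
  have h4 := S1a_sq (NN G c 2 w) (ρ + 1) (ρ - 2) (by omega)
  have e : ρ + 1 + 1 - (ρ - 2) = 4 := by omega
  rw [e] at h4
  have h5 := h4 fun j hj => by
    rw [mem_Icc] at hj
    exact ha V G hG (ρ + 1) hR c w 2 j (by omega)
  obtain ⟨m, rfl⟩ : ∃ m, ρ = m + 2 := ⟨ρ - 2, by omega⟩
  rw [Nat.add_sub_cancel] at h5
  rw [hw] at h3
  have h6 : 2 * (m + 2 + 1) ≤ NN G c 2 w 3 + 6 := by omega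
  nlinarith

end Pool.Agent.BagR

end

section

/-!
MP_bb6995_co, item S1b: outer sum of a far vertex, k = 1.
-/

namespace Pool.Agent.BagR

open Finset

/-- the deficits -/
def S1b_c (i j : ℕ) : ℕ := if j + 1 ≤ i then 3 else if j = i then 2 else if j = i + 1 then 1 else 0

theorem S1b_sum (i : ℕ) (hi : 2 ≤ i) : ∀ n, 1 ≤ n →
    (n + 1 ≤ i → ∑ j ∈ Icc 2 n, S1b_c i j + 3 ≤ 3 * n) ∧
    (n = i → ∑ j ∈ Icc 2 n, S1b_c i j + 4 ≤ 3 * i) ∧
    ∑ j ∈ Icc 2 n, S1b_c i j + 3 ≤ 3 * i := by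
  intro n hn
  induction n, hn using Nat.le_induction with
  | base =>
    simp
    omega
  | succ n hn ih =>
    rw [Finset.sum_Icc_succ_top (by omega)]
    obtain ⟨h1, h2, h3⟩ := ih
    have hc : S1b_c i (n + 1) = if n + 1 + 1 ≤ i then 3 else if n + 1 = i then 2 else
      if n + 1 = i + 1 then 1 else 0 := rfl
    rw [hc]
    refine ⟨?_, ?_, ?_⟩
    · intro h
      have := h1 (by omega)
      rw [if_pos h]
      omega
    · intro h
      have := h1 (by omega)
      rw [if_neg (by omega), if_pos h]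
      omega
    · split_ifs with h4 h5 h6
      · have := h1 (by omega)
        omega
      · have := h1 (by omega)
        omega
      · have := h2 (by omega)
        omega
      · omega

theorem S1b_two (n : ℕ) (hn : 1 ≤ n) : ∑ j ∈ Icc 2 n, 2 * j + 2 = n * (n + 1) := by
  induction n, hn using Nat.le_induction with
  | base => simp
  | succ n hn ih =>
    rw [Finset.sum_Icc_succ_top (by omega)]
    nlinarith

theorem pr_s1_far (ha : S_cov_a) (hb : S_cov_b) (hc : S_cov_c) (hs : S_sum_NN) : S_s1_far := by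
  intro V _ _ G hG ρ hρ hR c u hi
  set i := G.dist c u with hid
  have hS := hs V G c 1 u (ρ + 1)
  have hj : ∀ j ∈ Icc 2 ρ, 2 * ρ + 3 ≤ NN G c 1 u j + 2 * j + S1b_c i j := by
    intro j hj
    rw [Finset.mem_Icc] at hj
    unfold S1b_c
    split_ifs with h1 h2 h3
    · have := hc V G hG (ρ + 1) hR c u 1 j (by omega)
      omega
    · have := hb V G hG (ρ + 1) hR c u 1 j (by omega) (by omega) (by omega)
      omega
    · have := hb V G hG (ρ + 1) hR c u 1 j (by omega) (by omega) (by omega)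
      omega
    · have := ha V G hG (ρ + 1) hR c u 1 j (by omega)
      omega
  have h1 : ∑ j ∈ Icc 2 ρ, (2 * ρ + 3) ≤ ∑ j ∈ Icc 2 ρ, (NN G c 1 u j + 2 * j + S1b_c i j) :=
    Finset.sum_le_sum hj
  rw [Finset.sum_const, Nat.card_Icc, smul_eq_mul, Finset.sum_add_distrib,
    Finset.sum_add_distrib] at h1
  have h2 := S1b_two ρ (by omega)
  rw [Finset.sum_Icc_succ_top (by omega)] at hS
  obtain ⟨e1, e2, e3⟩ := S1b_sum i hi ρ (by omega)
  obtain ⟨k, rfl⟩ : ∃ k, ρ = k + 1 := ⟨ρ - 1, by omega⟩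
  have h3 : k + 1 + 1 - 2 = k := by omega
  rw [h3] at h1
  set A := ∑ j ∈ Icc 2 (k + 1), NN G c 1 u j
  set B := ∑ j ∈ Icc 2 (k + 1), 2 * j
  set C := ∑ j ∈ Icc 2 (k + 1), S1b_c i j
  have h4 : k * (2 * (k + 1) + 3) + 2 ≤ A + C + (k + 1) * (k + 1 + 1) := by omega
  have h5 : k ^ 2 + 2 * k ≤ A + C := by nlinarith
  have h6 : (k + 1) ^ 2 ≤ A + C + 1 := by nlinarith
  refine ⟨?_, ?_⟩
  · by_cases h7 : i + 2 ≤ k + 1 + 1
    · have := ha V G hG (k + 1 + 1) hR c u 1 (k + 1 + 1) (by omega)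
      have h8 : (k + 1) ^ 2 ≤ A + NN G c 1 u (k + 1 + 1) + C := by omega
      omega
    · by_cases h8 : k + 1 = i
      · have := e2 h8
        omega
      · have := e1 (by omega)
        omega
  · intro h7
    have := e1 (by omega)
    omega

end Pool.Agent.BagR

end

section

/-!
Bad neighbours: exact counts, MP_bb6995_co.
-/

set_option autoImplicit false

namespace Pool.Agent.BagR

open Finset

/-- exchange of sums -/
theorem T1_sum_NN {V : Type} [Fintype V] [DecidableEq V] (G : SimpleGraph V)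
    (c : V) (k : ℕ) (u : V) (r : ℕ) : ∑ j ∈ Icc 2 r, NN G c k u j ≤ eS G (FF G c k) u := by
  have h1 : ∀ j, NN G c k u j = ∑ v ∈ FF G c k, if j ≤ G.dist u v then 1 else 0 := by
    intro j
    unfold NN FF
    rw [Finset.sum_ite, Finset.sum_const_zero, add_zero, Finset.sum_const, smul_eq_mul, mul_one,
      Finset.filter_filter]
  simp only [h1]
  rw [Finset.sum_comm]
  unfold eS
  refine Finset.sum_le_sum (fun v _ => ?_)
  rw [← Finset.card_filter]
  have h2 : (Icc 2 r).filter (fun j => j ≤ G.dist u v) ⊆ Icc 2 (G.dist u v) := by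
    intro j hj
    rw [Finset.mem_filter, Finset.mem_Icc] at hj
    rw [Finset.mem_Icc]
    omega
  have h3 := Finset.card_le_card h2
  rw [Nat.card_Icc] at h3
  omega

theorem pr_bad_eq (ha : S_cov_a) (hb : S_cov_b) : S_bad_eq := by
  intro V _ _ G hG ρ x hρ hr c w hx hw he
  have hsum := T1_sum_NN G c 1 w (ρ + 1)
  have h2 : 2 * ρ ≤ NN G c 1 w 2 + 2 := by
    have := hb V G hG (ρ + 1) hr c w 1 2 (by norm_num) (by omega) (by omega)
    rw [hw] at this
    omega
  have h3 : ∀ j, 3 ≤ j → 2 * ρ + 3 ≤ NN G c 1 w j + 2 * j := by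
    intro j hj
    have := ha V G hG (ρ + 1) hr c w 1 j (by omega)
    omega
  -- the lower bounds
  set b : ℕ → ℤ := fun j => if j = 2 then 2 * (ρ : ℤ) - 2 else 2 * ρ + 3 - 2 * j with hb'
  have h4 : ∀ m : ℕ, ∑ j ∈ Icc 2 (m + 2), b j = 2 * (ρ : ℤ) * (m + 1) - (m + 1) ^ 2 - 1 := by
    intro m
    induction m with
    | zero => simp [hb']; ring
    | succ m ih =>
      rw [Finset.sum_Icc_succ_top (by omega), ih]
      have : ¬ (m + 1 + 1 + 1 = 2) := by omega
      simp only [hb', if_neg this]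
      push_cast
      ring
  have h5 : ∑ j ∈ Icc 2 (ρ + 1), b j = (ρ : ℤ) ^ 2 - 1 := by
    obtain ⟨m, rfl⟩ : ∃ m, ρ = m + 1 := ⟨ρ - 1, by omega⟩
    rw [h4 m]
    push_cast
    ring
  have h6 : ∀ j ∈ Icc 2 (ρ + 1), 0 ≤ (NN G c 1 w j : ℤ) - b j := by
    intro j hj
    rw [Finset.mem_Icc] at hj
    simp only [hb']
    split_ifs with h
    · rw [h]; omega
    · have := h3 j (by omega)
      omega
  have h7 : ∑ j ∈ Icc 2 (ρ + 1), ((NN G c 1 w j : ℤ) - b j) = 0 := by
    refine le_antisymm ?_ (Finset.sum_nonneg h6)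
    rw [Finset.sum_sub_distrib, h5]
    have h8 : ((∑ j ∈ Icc 2 (ρ + 1), NN G c 1 w j : ℕ) : ℤ) ≤ (eS G (FF G c 1) w : ℤ) := by
      exact_mod_cast hsum
    push_cast at h8
    have h9 : (eS G (FF G c 1) w : ℤ) + 1 = (ρ : ℤ) ^ 2 := by exact_mod_cast he
    linarith
  have h8 := (Finset.sum_eq_zero_iff_of_nonneg h6).1 h7
  have h9 : NN G c 1 w 2 + 2 = 2 * ρ := by
    have := h8 2 (by rw [Finset.mem_Icc]; omega)
    simp only [hb', if_true] at this
    omega
  have h10 : NN G c 1 w 3 + 3 = 2 * ρ := by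
    have := h8 3 (by rw [Finset.mem_Icc]; omega)
    simp only [hb'] at this
    norm_num at this
    omega
  -- the counts
  have hcard : ∀ j, (((FF G c 1).filter fun v => G.dist w v = j).card + NN G c 1 w (j + 1) =
      NN G c 1 w j) := by
    intro j
    unfold NN FF
    rw [Finset.filter_filter, ← Finset.card_union_of_disjoint]
    · congr 1
      ext v
      simp only [Finset.mem_union, Finset.mem_filter, Finset.mem_univ, true_and]
      omega
    · rw [Finset.disjoint_left]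
      intro v hv hv'
      simp only [Finset.mem_filter, Finset.mem_univ, true_and] at hv hv'
      omega
  have h11 := hcard 2
  have h12 := hcard 1
  have h13 : NN G c 1 w 1 = (FF G c 1).card := by
    unfold NN FF
    congr 1
    ext v
    simp only [Finset.mem_filter, Finset.mem_univ, true_and, and_iff_left_iff_imp]
    intro hv
    have h14 : v ≠ w := by
      rintro rfl
      omega
    exact hG.pos_dist_of_ne h14.symm
  norm_num at h11 h12
  constructor
  · omega
  · omega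

end Pool.Agent.BagR

end

section

/-!
Total deficit of the bad neighbours is at most `2x+2`, MP_bb6995_co.
-/

set_option autoImplicit false

namespace Pool.Agent.BagR

open Finset

theorem T4_arith (a b x P Q : ℤ) (ha : 1 ≤ a) (hb : 1 ≤ b) (hx : 0 ≤ x)
    (hP1 : -a ≤ P) (hP2 : a * (b - x - 2) ≤ P) (hQ1 : -b ≤ Q) (hQ2 : b * (a - x - 2) ≤ Q) :
    -(2 * x + 2) ≤ P + Q := by
  rcases le_or_gt a (x + 1) with h1 | h1 <;> rcases le_or_gt b (x + 1) with h2 | h2
  · linarith
  · nlinarith [mul_nonneg (sub_nonneg.2 ha) (show 0 ≤ b - x - 2 by linarith)]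
  · nlinarith [mul_nonneg (sub_nonneg.2 hb) (show 0 ≤ a - x - 2 by linarith)]
  · nlinarith [mul_nonneg (show 0 ≤ a by linarith) (show 0 ≤ b - x - 2 by linarith),
      mul_nonneg (show 0 ≤ b by linarith) (show 0 ≤ a - x - 2 by linarith)]

theorem pr_deficit (h1 : S_bad_struct) (h2 : S_gg_eq) (h3 : S_s1_one) : S_deficit := by
  classical
  intro V _ _ G hG ρ x hρ hr c hmin hx he
  have tri : ∀ a b d : V, G.dist a d ≤ G.dist a b + G.dist b d := fun a b d => hG.dist_triangle
  have sym : ∀ a b : V, G.dist a b = G.dist b a := fun a b => SimpleGraph.dist_comm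
  set L := LL G c 1 with hL
  have hLm : ∀ w, w ∈ L ↔ G.dist c w = 1 := by
    intro w
    simp [hL, LL]
  set e : V → ℕ := fun w => eS G (FF G c 1) w with he'
  set term : V → ℤ := fun w => (gg G c w : ℤ) + 2 * e w - x - 2 * (ρ : ℤ) ^ 2 with hterm
  have hA : ∀ w ∈ L, (ρ : ℤ) ^ 2 ≤ e w + 1 := by
    intro w hw
    have := h3 V G hG ρ (by omega) hr c w ((hLm w).1 hw)
    exact_mod_cast this
  have hB : ∀ w ∈ L, (ρ : ℤ) ^ 2 + x ≤ gg G c w + e w := by
    intro w hw
    have h4 := h2 V G hG c w ((hLm w).1 hw)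
    have h5 := hmin w
    rw [h4, he] at h5
    exact_mod_cast h5
  suffices hmain : -(2 * (x : ℤ) + 2) ≤ ∑ w ∈ L, term w by
    have h6 : ∑ w ∈ L, term w = ((∑ w ∈ L, (gg G c w + 2 * e w) : ℕ) : ℤ) -
        (L.card : ℤ) * (x + 2 * (ρ : ℤ) ^ 2) := by
      push_cast
      rw [← nsmul_eq_mul, ← Finset.sum_const, ← Finset.sum_sub_distrib]
      refine Finset.sum_congr rfl (fun w _ => ?_)
      simp only [hterm]
      ring
    rw [h6] at hmain
    have h7 : (L.card : ℤ) * (x + 2 * (ρ : ℤ) ^ 2) ≤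
        ((∑ w ∈ L, (gg G c w + 2 * e w) : ℕ) : ℤ) + (2 * x + 2) := by linarith
    exact_mod_cast h7
  set bad := L.filter (fun w => e w + 1 = ρ ^ 2) with hbad
  have hgood : ∀ w ∈ L \ bad, 0 ≤ term w ∧ (gg G c w : ℤ) - x ≤ term w := by
    intro w hw
    rw [Finset.mem_sdiff, hbad, Finset.mem_filter] at hw
    have h4 := hA w hw.1
    have h5 := hB w hw.1
    have h6 : ¬ (e w + 1 = ρ ^ 2) := fun h => hw.2 ⟨hw.1, h⟩
    have h6' : ((e w : ℤ) + 1 ≠ (ρ : ℤ) ^ 2) := by exact_mod_cast h6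
    have h7 : (ρ : ℤ) ^ 2 < e w + 1 := lt_of_le_of_ne h4 h6'.symm
    have h8 : (ρ : ℤ) ^ 2 ≤ e w := by linarith [Int.add_one_le_iff.2 h7]
    simp only [hterm]
    constructor <;> linarith
  have hbt : ∀ w ∈ bad, term w = (gg G c w : ℤ) - 2 - x ∧ -1 ≤ term w := by
    intro w hw
    rw [hbad, Finset.mem_filter] at hw
    have h5 := hB w hw.1
    have h6 : ((e w : ℤ) + 1 = (ρ : ℤ) ^ 2) := by exact_mod_cast hw.2
    simp only [hterm]
    constructor <;> linarith
  have hsplit : ∑ w ∈ L, term w = ∑ w ∈ L \ bad, term w + ∑ w ∈ bad, term w :=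
    (Finset.sum_sdiff (Finset.filter_subset _ _)).symm
  have hgs : 0 ≤ ∑ w ∈ L \ bad, term w := Finset.sum_nonneg (fun w hw => (hgood w hw).1)
  rcases bad.eq_empty_or_nonempty with hbe | ⟨w0, hw0⟩
  · have h0 : ∑ w ∈ bad, term w = 0 := by rw [hbe, Finset.sum_empty]
    have : (0 : ℤ) ≤ x := Int.natCast_nonneg x
    linarith
  have hbd : ∀ w ∈ bad, ∃ y₀, G.dist c y₀ = 2 ∧ 3 ≤ G.dist w y₀ ∧
      ∀ y, G.dist c y = 2 → y ≠ y₀ → G.Adj w y := by
    intro w hw
    rw [hbad, Finset.mem_filter] at hw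
    exact h1 V G hG ρ x hρ hr c w hx he ((hLm w).1 hw.1) hw.2
  obtain ⟨y0, hy1, hy2, _⟩ := hbd w0 hw0
  set B0 := bad.filter (fun w => ¬ G.Adj w y0) with hB0
  set B1 := bad.filter (fun w => G.Adj w y0) with hB1
  have hfar : ∀ w ∈ B0, 3 ≤ G.dist w y0 := by
    intro w hw
    rw [hB0, Finset.mem_filter] at hw
    obtain ⟨y', h4, h5, h6⟩ := hbd w hw.1
    have : y0 = y' := by
      by_contra hne
      exact hw.2 (h6 y0 hy1 hne)
    rw [this]
    exact h5
  have hsep : ∀ w ∈ B0, ∀ w', G.Adj w' y0 → 2 ≤ G.dist w w' := by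
    intro w hw w' hw'
    have h4 := hfar w hw
    have h5 := tri w w' y0
    have h6 := SimpleGraph.dist_eq_one_iff_adj.2 hw'
    omega
  have hw0B : w0 ∈ B0 := by
    rw [hB0, Finset.mem_filter]
    refine ⟨hw0, fun h => ?_⟩
    have := SimpleGraph.dist_eq_one_iff_adj.2 h
    omega
  have hbL : ∀ w ∈ bad, G.dist c w = 1 := fun w hw => (hLm w).1 (Finset.mem_of_mem_filter w hw)
  have hg : ∀ (w : V) (S : Finset V), (∀ v ∈ S, G.dist c v = 1 ∧ 2 ≤ G.dist w v) →
      (S.card : ℤ) ≤ gg G c w := by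
    intro w S hS
    have : S.card ≤ gg G c w := by
      unfold gg
      refine Finset.card_le_card (fun v hv => ?_)
      rw [Finset.mem_filter]
      exact ⟨Finset.mem_univ _, (hS v hv).1.le, (hS v hv).2⟩
    exact_mod_cast this
  have hsplit2 : ∑ w ∈ bad, term w = ∑ w ∈ B1, term w + ∑ w ∈ B0, term w :=
    (Finset.sum_filter_add_sum_filter_not bad _ _).symm
  have ha1 : 1 ≤ (B0.card : ℤ) := by
    have : 0 < B0.card := Finset.card_pos.2 ⟨w0, hw0B⟩
    exact_mod_cast this
  have hS0a : -(B0.card : ℤ) ≤ ∑ w ∈ B0, term w := by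
    have := Finset.card_nsmul_le_sum B0 term (-1)
      (fun w hw => (hbt w (Finset.mem_of_mem_filter w hw)).2)
    simpa using this
  rw [hsplit, hsplit2]
  rcases B1.eq_empty_or_nonempty with hB1e | hB1n
  · -- no bad neighbour of y0
    obtain ⟨ws, hs1, hs2⟩ : ∃ ws, G.dist c ws = 1 ∧ G.Adj ws y0 := by
      obtain ⟨p, hp⟩ := hG.exists_walk_length_eq_dist c y0
      refine ⟨p.getVert 1, ?_⟩
      have h4 : G.dist c (p.getVert 1) ≤ 1 := by
        have := SimpleGraph.dist_le (p.take 1)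
        rw [SimpleGraph.Walk.take_length] at this
        omega
      have h5 : G.dist (p.getVert 1) y0 ≤ 1 := by
        have := SimpleGraph.dist_le (p.drop 1)
        rw [SimpleGraph.Walk.drop_length] at this
        omega
      have h6 := tri c (p.getVert 1) y0
      exact ⟨by omega, SimpleGraph.dist_eq_one_iff_adj.1 (by omega)⟩
    have hws : ws ∈ L \ bad := by
      rw [Finset.mem_sdiff]
      refine ⟨(hLm ws).2 hs1, fun h => ?_⟩
      have : ws ∈ B1 := by rw [hB1, Finset.mem_filter]; exact ⟨h, hs2⟩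
      rw [hB1e] at this
      exact absurd this (Finset.notMem_empty _)
    have hga : (B0.card : ℤ) ≤ gg G c ws := by
      refine hg ws B0 (fun v hv => ⟨hbL v (Finset.mem_of_mem_filter v hv), ?_⟩)
      rw [sym]
      exact hsep v hv ws hs2
    have hge : term ws ≤ ∑ w ∈ L \ bad, term w :=
      Finset.single_le_sum (fun w hw => (hgood w hw).1) hws
    have h4 := hgood ws hws
    rw [hB1e, Finset.sum_empty]
    have : (0 : ℤ) ≤ x := Int.natCast_nonneg x
    linarith [h4.2]
  · have hb1 : 1 ≤ (B1.card : ℤ) := by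
      have : 0 < B1.card := Finset.card_pos.2 hB1n
      exact_mod_cast this
    have hS1a : -(B1.card : ℤ) ≤ ∑ w ∈ B1, term w := by
      have := Finset.card_nsmul_le_sum B1 term (-1)
        (fun w hw => (hbt w (Finset.mem_of_mem_filter w hw)).2)
      simpa using this
    have hS0b : (B0.card : ℤ) * (B1.card - x - 2) ≤ ∑ w ∈ B0, term w := by
      have := Finset.card_nsmul_le_sum B0 term ((B1.card : ℤ) - x - 2) (fun w hw => by
        have h4 := (hbt w (Finset.mem_of_mem_filter w hw)).1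
        have h5 : (B1.card : ℤ) ≤ gg G c w := by
          refine hg w B1 (fun v hv => ⟨hbL v (Finset.mem_of_mem_filter v hv), ?_⟩)
          exact hsep w hw v (Finset.mem_filter.1 hv).2
        linarith)
      simpa using this
    have hS1b : (B1.card : ℤ) * (B0.card - x - 2) ≤ ∑ w ∈ B1, term w := by
      have := Finset.card_nsmul_le_sum B1 term ((B0.card : ℤ) - x - 2) (fun w hw => by
        have h4 := (hbt w (Finset.mem_of_mem_filter w hw)).1
        have h5 : (B0.card : ℤ) ≤ gg G c w := by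
          refine hg w B0 (fun v hv => ⟨hbL v (Finset.mem_of_mem_filter v hv), ?_⟩)
          rw [sym]
          exact hsep v hv w (Finset.mem_filter.1 hw).2
        linarith)
      simpa using this
    have := T4_arith B0.card B1.card x _ _ ha1 hb1 (Int.natCast_nonneg x) hS0a hS0b hS1a hS1b
    linarith

end Pool.Agent.BagR

end

section

/-!
Bound for the tight profile, MP_bb6995_co.
-/

set_option autoImplicit false

namespace Pool.Agent.BagR

open Finset

theorem pr_Cx (h1 : S_exo_one) (h2 : S_deficit) (h3 : S_sum_far) (h4 : S_levels) : S_Cx := by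
  intro V _ _ G hG ρ n x z hρ hn hr c hmin hx hz he
  have e1 := h1 V G hG c
  have e2 := h2 V G hG ρ x hρ hr c hmin hx he
  have e3 := h3 V G hG ρ x x (by omega) hr c hx he
  have e4 := (h4 V G hG ρ x z n (by omega) hr hn c hx hz).1
  rw [he] at e1
  generalize (∑ w ∈ LL G c 1, (gg G c w + 2 * eS G (FF G c 1) w)) = S1 at e1 e2
  have e3' : (2 * (ρ : ℤ) - 4 + x) * ρ ^ 2 - 3 * x + 2 ≤
      ((∑ u ∈ FF G c 1, eS G (FF G c 1) u : ℕ) : ℤ) := by
    push_cast
    exact e3
  generalize (∑ u ∈ FF G c 1, eS G (FF G c 1) u) = S2 at e1 e3'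
  generalize (LL G c 1).card = a at e2 e4
  have e1' : (exo G : ℤ) = 2 * ((ρ : ℤ) ^ 2 + x) + S1 + S2 := by rw [e1]; push_cast; ring
  have e2' : (a : ℤ) * (x + 2 * (ρ : ℤ) ^ 2) ≤ S1 + (2 * x + 2) := by exact_mod_cast e2
  have e4' : (a : ℤ) = n - 2 * ρ - x := by
    have : (a : ℤ) + 2 * ρ + x = n := by exact_mod_cast e4
    linarith
  rw [e4'] at e2'
  rw [e1']
  nlinarith [e2', e3']

end Pool.Agent.BagR

end

section

/-!
MP_bb6995_co, item W1 (helper17): width of the whole vertex set and of a ball.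
-/

set_option autoImplicit false

namespace Pool.Agent.BagR

open Finset

theorem pr_wid_univ : S_wid_univ := by
  rintro V _ _ G hG r m hr ⟨a, b, hab, h⟩
  obtain ⟨u, hu⟩ := hr a
  have h1 := h u (mem_univ u)
  have h2 := hG.dist_triangle (u := a) (v := b) (w := u)
  omega

theorem pr_wid_self : S_wid_self := by
  intro V _ _ G c k
  refine ⟨c, c, by rw [SimpleGraph.dist_self]; omega, fun s hs => ?_⟩
  have h1 := (mem_filter.1 hs).2
  omega

end Pool.Agent.BagR

end

section

/-!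
MP_bb6995_co, item W2 (helper17): width, adding a ball that touches.
-/

set_option autoImplicit false

namespace Pool.Agent.BagR

open Finset

/-- the ball case with even width (centre `a` closer to `s`) -/
theorem wid_ball_even {V : Type} [Fintype V] [DecidableEq V] {G : SimpleGraph V}
    (hG : G.Connected) (j k : ℕ) (S : Finset V) (c s s' a b : V) (hab : G.dist a b ≤ 1)
    (h : ∀ x ∈ S, G.dist a x + G.dist b x + 1 ≤ 2 * j) (hs : s ∈ S) (hss : G.dist s s' ≤ 1)
    (hcs : G.dist c s' ≤ k) (hle : G.dist a s ≤ G.dist b s) :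
    Wid G (2 * j + 2 * k + 1) (S ∪ univ.filter fun v => G.dist c v ≤ k) := by
  obtain ⟨P, hP0, hPc, hP⟩ := exists_geo hG a c
  have e1 := h s hs
  have e2 := hG.dist_triangle (u := a) (v := s) (w := c)
  have e3 := hG.dist_triangle (u := s) (v := s') (w := c)
  rw [G.dist_comm (u := s') (v := c)] at e3
  have t1 : min k (G.dist a c) ≤ G.dist a c := min_le_right _ _
  have e4 := hP 0 (min k (G.dist a c)) (Nat.zero_le _) t1
  have e5 := hP (min k (G.dist a c)) (G.dist a c) t1 le_rfl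
  rw [hP0] at e4
  rw [hPc] at e5
  refine ⟨P (min k (G.dist a c)), P (min k (G.dist a c)), by rw [SimpleGraph.dist_self]; omega,
    fun x hx => ?_⟩
  rcases mem_union.1 hx with hx | hx
  · have f1 := h x hx
    have f2 := hG.dist_triangle (u := P (min k (G.dist a c))) (v := a) (w := x)
    rw [G.dist_comm (u := P (min k (G.dist a c))) (v := a)] at f2
    have f3 := hG.dist_triangle (u := a) (v := b) (w := x)
    omega
  · have f1 := (mem_filter.1 hx).2
    have f2 := hG.dist_triangle (u := P (min k (G.dist a c))) (v := c) (w := x)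
    omega

theorem pr_wid_ball : S_wid_ball := by
  rintro V _ _ G hG m k S c s s' ⟨a, b, hab, h⟩ hs hss hcs
  have hm : 1 ≤ m := by have := h s hs; omega
  obtain ⟨j, hj | hj⟩ := Nat.even_or_odd' m
  · subst hj
    rcases le_total (G.dist a s) (G.dist b s) with hle | hle
    · exact wid_ball_even hG j k S c s s' a b hab h hs hss hcs hle
    · exact wid_ball_even hG j k S c s s' b a (by rw [G.dist_comm]; exact hab)
        (fun x hx => by have := h x hx; omega) hs hss hcs hle
  · subst hj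
    obtain ⟨P, hP0, hPc, hP⟩ := exists_geo hG a c
    have e1 := h s hs
    have e2 := hG.dist_triangle (u := a) (v := s) (w := c)
    have e3 := hG.dist_triangle (u := s) (v := s') (w := c)
    rw [G.dist_comm (u := s') (v := c)] at e3
    have e6 := hG.dist_triangle (u := a) (v := b) (w := s)
    have t1 : min k (G.dist a c) ≤ G.dist a c := min_le_right _ _
    have t2 : min (k + 1) (G.dist a c) ≤ G.dist a c := min_le_right _ _
    have t3 : min k (G.dist a c) ≤ min (k + 1) (G.dist a c) := by omega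
    have e4 := hP 0 (min k (G.dist a c)) (Nat.zero_le _) t1
    have e5 := hP (min k (G.dist a c)) (G.dist a c) t1 le_rfl
    have e4' := hP 0 (min (k + 1) (G.dist a c)) (Nat.zero_le _) t2
    have e5' := hP (min (k + 1) (G.dist a c)) (G.dist a c) t2 le_rfl
    have e7 := hP _ _ t3 t2
    rw [hP0] at e4 e4'
    rw [hPc] at e5 e5'
    refine ⟨P (min k (G.dist a c)), P (min (k + 1) (G.dist a c)), by rw [e7]; omega,
      fun x hx => ?_⟩
    rcases mem_union.1 hx with hx | hx
    · have f1 := h x hx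
      have f2 := hG.dist_triangle (u := P (min k (G.dist a c))) (v := a) (w := x)
      rw [G.dist_comm (u := P (min k (G.dist a c))) (v := a)] at f2
      have f2' := hG.dist_triangle (u := P (min (k + 1) (G.dist a c))) (v := a) (w := x)
      rw [G.dist_comm (u := P (min (k + 1) (G.dist a c))) (v := a)] at f2'
      have f3 := hG.dist_triangle (u := a) (v := b) (w := x)
      omega
    · have f1 := (mem_filter.1 hx).2
      have f2 := hG.dist_triangle (u := P (min k (G.dist a c))) (v := c) (w := x)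
      have f2' := hG.dist_triangle (u := P (min (k + 1) (G.dist a c))) (v := c) (w := x)
      omega

end Pool.Agent.BagR

end

section

/-!
MP_bb6995_co, item W4 (helper17): covering by adding vertices one at a time.
-/

set_option autoImplicit false

namespace Pool.Agent.BagR

open Finset

/-- an edge leaving a set -/
theorem exists_exit {V : Type} {G : SimpleGraph V} (hG : G.Connected) (S : Finset V)
    (hS : S.Nonempty) (y : V) (hy : y ∉ S) : ∃ s ∈ S, ∃ s' ∉ S, G.Adj s s' := by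
  obtain ⟨x, hx⟩ := hS
  obtain ⟨w⟩ := hG.preconnected x y
  obtain ⟨d, _, h1, h2⟩ := w.exists_boundary_dart (S : Set V) hx (by simpa using hy)
  exact ⟨d.fst, by simpa using h1, d.snd, by simpa using h2, d.adj⟩

theorem pr_cover_one (h1 : S_wid_univ) (h2 : S_wid_ball) : S_cover_one := by
  intro V _ _ G hG r m hr S hS hW
  obtain ⟨n, hn⟩ : ∃ n, n = (univ \ S).card := ⟨_, rfl⟩
  induction n using Nat.strong_induction_on generalizing S m with
  | _ n ih =>
    by_cases hfull : univ \ S = ∅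
    · have hSu : S = univ := by
        rw [sdiff_eq_empty_iff_subset] at hfull
        exact eq_univ_of_forall fun x => hfull (mem_univ x)
      subst hSu
      exact (h1 V G hG r m hr hW).trans (Nat.le_add_right _ _)
    obtain ⟨y, hy⟩ := nonempty_iff_ne_empty.2 hfull
    obtain ⟨s, hs, s', hs', hadj⟩ := exists_exit hG S hS y (mem_sdiff.1 hy).2
    have hd : G.dist s s' ≤ 1 := (SimpleGraph.dist_eq_one_iff_adj.2 hadj).le
    have hW' := h2 V G hG m 0 S s' s s' hW hs hd (by rw [SimpleGraph.dist_self])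
    have hmem : s' ∈ S ∪ univ.filter fun v => G.dist s' v ≤ 0 := by
      refine mem_union_right _ (mem_filter.2 ⟨mem_univ _, ?_⟩)
      rw [SimpleGraph.dist_self]
    have hlt : (univ \ (S ∪ univ.filter fun v => G.dist s' v ≤ 0)).card < (univ \ S).card := by
      refine card_lt_card ⟨sdiff_subset_sdiff subset_rfl subset_union_left, fun hsub => ?_⟩
      exact (mem_sdiff.1 (hsub (mem_sdiff.2 ⟨mem_univ s', hs'⟩))).2 hmem
    have := ih _ (by rw [hn]; exact hlt) (m + 2 * 0 + 1) (S ∪ univ.filter fun v => G.dist s' v ≤ 0)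
      (hS.mono subset_union_left) hW' rfl
    omega

end Pool.Agent.BagR

end

section

/-!
Item W6 of MP_bb6995_co (captain helper88): covering number (c), two balls anywhere.
-/

namespace Pool.Agent.BagR

open Finset

theorem w6_claim (h2 : S_wid_ball) (h3 : S_cover_one) (V : Type) [Fintype V] [DecidableEq V]
    (G : SimpleGraph V) (hG : G.Connected) (r : ℕ) (hr : RadGe G r) (u : V) (j : ℕ)
    (hj : 1 ≤ j) : ∀ (n m : ℕ) (S : Finset V), S.Nonempty → Wid G m S →
    (univ \ (S ∪ univ.filter fun v => G.dist u v ≤ j - 1)).card = n →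
    2 * r ≤ m + (2 * j - 1) + n := by
  intro n
  induction n using Nat.strong_induction_on with
  | _ n ih =>
    intro m S hS hW hn
    by_cases hc : ∃ s ∈ S, ∃ s', G.dist s s' ≤ 1 ∧ G.dist u s' ≤ j - 1
    · obtain ⟨s, hs, s', hss, hus⟩ := hc
      have hw := h2 V G hG m (j - 1) S u s s' hW hs hss hus
      have hne : (S ∪ univ.filter fun v => G.dist u v ≤ j - 1).Nonempty :=
        ⟨s, mem_union_left _ hs⟩
      have := h3 V G hG r _ hr _ hne hw
      omega
    · push Not at hc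
      have huS : u ∉ S := by
        intro hu
        have := hc u hu u (by simp)
        simp at this
      obtain ⟨x, hx⟩ := hS
      obtain ⟨p⟩ := hG.preconnected x u
      obtain ⟨d, -, hd1, hd2⟩ := p.exists_boundary_dart (S : Set V) (by exact_mod_cast hx)
        (by exact_mod_cast huS)
      have hd1' : d.fst ∈ S := by exact_mod_cast hd1
      have hd2' : d.snd ∉ S := by
        intro h
        exact hd2 (by exact_mod_cast h)
      have hdist : G.dist d.fst d.snd ≤ 1 := by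
        rw [(SimpleGraph.dist_eq_one_iff_adj).2 d.adj]
      have hfar := hc d.fst hd1' d.snd hdist
      have hw := h2 V G hG m 0 S d.snd d.fst d.snd hW hd1' hdist (by simp)
      have hlt : (univ \ ((S ∪ univ.filter fun v => G.dist d.snd v ≤ 0) ∪
          univ.filter fun v => G.dist u v ≤ j - 1)).card < n := by
        rw [← hn]
        apply card_lt_card
        rw [Finset.ssubset_iff_of_subset]
        · refine ⟨d.snd, ?_, ?_⟩
          · simp only [mem_sdiff, mem_univ, mem_union, mem_filter, true_and, not_or, not_le]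
            exact ⟨hd2', hfar⟩
          · simp
        · intro v hv
          simp only [mem_sdiff, mem_univ, mem_union, mem_filter, true_and, not_or, not_le] at hv ⊢
          exact ⟨hv.1.1, hv.2⟩
      have := ih _ hlt (m + 2 * 0 + 1) (S ∪ univ.filter fun v => G.dist d.snd v ≤ 0)
        ⟨d.fst, mem_union_left _ hd1'⟩ hw rfl
      omega

theorem pr_cov_c (_h0 : S_wid_univ) (h1 : S_wid_self) (h2 : S_wid_ball) (h3 : S_cover_one) :
    S_cov_c := by
  intro V _ _ G hG r hr c u k j hj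
  have hw := h1 V G c k
  have hne : (univ.filter fun v => G.dist c v ≤ k).Nonempty := ⟨c, by simp⟩
  have h := w6_claim h2 h3 V G hG r hr u j hj _ (2 * k + 1) _ hne hw rfl
  have hset : (univ \ ((univ.filter fun v => G.dist c v ≤ k) ∪
      univ.filter fun v => G.dist u v ≤ j - 1)) =
      univ.filter fun v => k < G.dist c v ∧ j ≤ G.dist u v := by
    ext v
    simp only [mem_sdiff, mem_univ, mem_union, mem_filter, true_and, not_or, not_le]
    constructor
    · rintro ⟨ha, hb⟩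
      exact ⟨ha, by omega⟩
    · rintro ⟨ha, hb⟩
      exact ⟨ha, by omega⟩
  rw [hset] at h
  unfold NN
  omega

end Pool.Agent.BagR

end
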