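import Pool.Agent.Work.MP_bb6995_co.Bd.B04
import Pool.Agent.Work.MP_bb6995_co.Bd.B03

/-! Bundle of small proof modules (one section per former module). -/

section

/-!
[bb6995F B2] bound B2 (helper27)
-/

namespace Pool.Agent.BagR

open Finset

open IB1

namespace IB2

variable {V : Type} [Fintype V] [DecidableEq V] {G : SimpleGraph V}

theorem FF_one (c : V) : FF G c 1 = LL G c 2 ∪ FF G c 2 := by
  ext v
  rw [mem_union, mem_FF, mem_FF, mem_LL]
  omega

theorem disj (c : V) : Disjoint (LL G c 2) (FF G c 2) := by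
  rw [Finset.disjoint_left]
  intro v hv hv'
  rw [mem_LL] at hv
  rw [mem_FF] at hv'
  omega

theorem eS_FF_two (c : V) : eS G (FF G c 2) c + (LL G c 2).card = eS G univ c := by
  rw [← eS_FF_one, FF_one]
  unfold eS
  rw [Finset.sum_union (disj c), add_comm]
  congr 1
  rw [Finset.card_eq_sum_ones]
  refine Finset.sum_congr rfl fun v hv => ?_
  rw [mem_LL] at hv
  rw [hv]

end IB2

open IB2

theorem pr_B2 (h1 : S_exo_split) (h2 : S_s2_one) (h3 : S_s2_two) (h4 : S_s2_far)
    (h5 : S_levels) (h6 : S_card_FF) : S_B2 := by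
  intro V _ _ G hG ρ n A x z hρ hn hR c hmin hx hz hA
  have hsplit := h1 V G (FF G c 2)
  obtain ⟨hlev1, hlev2, -, -⟩ := h5 V G hG ρ x z n (by omega) hR hn c hx hz
  have hcompl : (FF G c 2)ᶜ = insert c (LL G c 1 ∪ LL G c 2) := by
    ext v
    rw [Finset.mem_compl, mem_FF, Finset.mem_insert, mem_union, mem_LL, mem_LL, not_lt]
    constructor
    · intro h
      by_cases hv : v = c
      · exact Or.inl hv
      · right
        have : 0 < G.dist c v := hG.pos_dist_of_ne (fun h => hv h.symm)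
        omega
    · rintro (h | h | h)
      · rw [h]; simp
      · omega
      · omega
  have hcL : c ∉ LL G c 1 ∪ LL G c 2 := by
    rw [mem_union, mem_LL, mem_LL]; simp
  have hdis : Disjoint (LL G c 1) (LL G c 2) := by
    rw [Finset.disjoint_left]
    intro v hv hv'
    rw [mem_LL] at hv hv'
    omega
  rw [hcompl, Finset.sum_insert hcL, Finset.sum_union hdis] at hsplit
  have hL1 : ((LL G c 1).card : ℤ) = n - 2 * ρ - x := by
    have : ((LL G c 1).card : ℤ) + 2 * ρ + x = n := by exact_mod_cast hlev1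
    linarith
  have hL2 : ((LL G c 2).card : ℤ) = x + 2 - z := by
    have : ((LL G c 2).card : ℤ) + z = x + 2 := by exact_mod_cast hlev2
    linarith
  have hU : ((FF G c 2).card : ℤ) = 2 * ρ + z - 3 := by
    have : ((FF G c 2).card : ℤ) + 3 = 2 * ρ + z := by exact_mod_cast hz
    linarith
  have hw1 : ∑ w ∈ LL G c 1, ((2 * (ρ : ℤ) ^ 2 + A - 3 + z)) ≤
      ∑ w ∈ LL G c 1, ((eS G univ w : ℤ) + eS G (FF G c 2) w) := by
    refine Finset.sum_le_sum fun w hw => ?_
    have e1 := hmin w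
    have e2 := h2 V G hG ρ hρ hR c w (mem_LL.1 hw)
    rw [hA] at e1
    zify at e1 e2
    rw [hU] at e2
    linarith
  have hw2 : ∑ w ∈ LL G c 2, ((2 * (ρ : ℤ) ^ 2 + A - 6)) ≤
      ∑ w ∈ LL G c 2, ((eS G univ w : ℤ) + eS G (FF G c 2) w) := by
    refine Finset.sum_le_sum fun w hw => ?_
    have e1 := hmin w
    have e2 := h3 V G hG ρ hρ hR c w (mem_LL.1 hw)
    rw [hA] at e1
    zify at e1 e2
    linarith
  rw [Finset.sum_const, nsmul_eq_mul, hL1] at hw1
  rw [Finset.sum_const, nsmul_eq_mul, hL2] at hw2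
  -- the far part
  obtain ⟨u₀, hu₀⟩ := hR c
  set f : V → ℤ := fun u =>
    (eS G (FF G c 2) u : ℤ) + 5 * ((G.dist c u - 1 : ℕ) : ℤ) - (ρ : ℤ) ^ 2 with hf
  have hf0 : ∀ u ∈ FF G c 2, 0 ≤ f u := fun u hu => by
    have := (h4 V G hG ρ hρ hR c u (mem_FF.1 hu)).1
    simp only [hf]
    zify at this ⊢
    linarith
  have hf2 : ∀ u, ρ ≤ G.dist c u → 2 ≤ f u := fun u hu => by
    have := (h4 V G hG ρ hρ hR c u (by omega)).2.1 hu
    simp only [hf]
    zify at this ⊢
    linarith
  have hf6 : 6 ≤ f u₀ := by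
    have := (h4 V G hG ρ hρ hR c u₀ (by omega)).2.2 hu₀
    simp only [hf]
    zify at this ⊢
    linarith
  have hT : 3 ≤ (FF G c (ρ - 1)).card := by
    have := h6 V G hG ρ hR c (ρ - 1)
    omega
  have hTU : FF G c (ρ - 1) ⊆ FF G c 2 := by
    intro v hv
    rw [mem_FF] at hv ⊢
    omega
  have hu₀T : u₀ ∈ FF G c (ρ - 1) := mem_FF.2 (by omega)
  have hsum : 10 ≤ ∑ u ∈ FF G c 2, f u := by
    have e1 : ∑ u ∈ FF G c (ρ - 1), f u ≤ ∑ u ∈ FF G c 2, f u :=
      Finset.sum_le_sum_of_subset_of_nonneg hTU (fun u hu _ => hf0 u hu)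
    rw [← Finset.add_sum_erase _ _ hu₀T] at e1
    have e2 : ∑ u ∈ (FF G c (ρ - 1)).erase u₀, (2 : ℤ) ≤
        ∑ u ∈ (FF G c (ρ - 1)).erase u₀, f u := by
      refine Finset.sum_le_sum fun u hu => hf2 u ?_
      have := mem_FF.1 (Finset.mem_of_mem_erase hu)
      omega
    rw [Finset.sum_const, nsmul_eq_mul, Finset.card_erase_of_mem hu₀T] at e2
    have e3 : (2 : ℤ) ≤ (((FF G c (ρ - 1)).card - 1 : ℕ) : ℤ) := by
      have : 2 ≤ (FF G c (ρ - 1)).card - 1 := by omega
      exact_mod_cast this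
    linarith
  simp only [hf] at hsum
  rw [Finset.sum_sub_distrib, Finset.sum_add_distrib, ← Finset.mul_sum, Finset.sum_const,
    nsmul_eq_mul, hU] at hsum
  have hec := eS_FF_two (G := G) c
  rw [hA] at hec
  have hec' : (eS G (FF G c 2) c : ℤ) = (ρ : ℤ) ^ 2 + A - (x + 2 - z) := by
    have : (eS G (FF G c 2) c : ℤ) + (LL G c 2).card = (ρ : ℤ) ^ 2 + A := by exact_mod_cast hec
    rw [hL2] at this
    linarith
  have hed : ∑ u ∈ FF G c 2, ((G.dist c u - 1 : ℕ) : ℤ) = (ρ : ℤ) ^ 2 + A - (x + 2 - z) := by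
    rw [← hec']
    unfold eS
    push_cast
    rfl
  rw [hed] at hsum
  have hs : (exo G : ℤ) = ((ρ : ℤ) ^ 2 + A) + eS G (FF G c 2) c +
      (∑ w ∈ LL G c 1, ((eS G univ w : ℤ) + eS G (FF G c 2) w) +
      ∑ w ∈ LL G c 2, ((eS G univ w : ℤ) + eS G (FF G c 2) w)) +
      ∑ u ∈ FF G c 2, (eS G (FF G c 2) u : ℤ) := by
    rw [hsplit, hA]; push_cast; ring
  rw [hs, hec']
  nlinarith [hw1, hw2, hsum]

end Pool.Agent.BagR

end

section

/-!
Assembly for all orders (MP_bb6995_co): the steps `S_xxx` of `F/Stmts.lean` imply that for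
every `n ≥ 3` some bag minimises the ratio of average distance to radius.
-/

namespace Pool.Agent.BagR

open Finset

/-- All steps used by the assembly. -/
structure Steps : Prop where
  card_FF : S_card_FF
  A_ge : S_A_ge
  levels : S_levels
  exo_even : S_exo_even
  exo_one : S_exo_one
  B0 : S_B0
  B1 : S_B1
  B2 : S_B2
  deficit : S_deficit
  Cx : S_Cx
  four_one : S_four_one
  four_two : S_four_two
  far_three : S_far_three
  num_five : S_num_five
  num_four : S_num_four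
  num_three : S_num_three
  num_one : S_num_one

theorem good_all (H : Steps) {V : Type} [Fintype V] [DecidableEq V] {G : SimpleGraph V}
    (hG : G.Connected) {n r : ℕ} (hn : Fintype.card V = n) (hr2 : 2 ≤ r) (hr : RadGe G r) :
    Good n r (exo G) := by
  obtain ⟨ρ, rfl⟩ : ∃ ρ, r = ρ + 1 := ⟨r - 1, by omega⟩
  have hV : Nonempty V := hG.nonempty
  have hcF := H.card_FF V G hG ρ hr
  -- a vertex with minimal sum
  obtain ⟨c, -, hc⟩ := Finset.exists_min_image (univ : Finset V) (fun v => eS G univ v)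
    Finset.univ_nonempty
  have hmin : ∀ v, eS G univ c ≤ eS G univ v := fun v => hc v (mem_univ v)
  have hev : (2 : ℤ) ∣ (exo G : ℤ) := by
    have := H.exo_even V G
    exact_mod_cast this
  -- `2 r ≤ n`
  have h2n : 2 * ρ + 2 ≤ n := by
    have h0 := hcF c 0
    have h1 : (FF G c 0).card + 1 ≤ n := by
      have : (FF G c 0) ⊆ univ.erase c := by
        intro v hv
        simp only [FF, mem_filter, mem_univ, true_and] at hv
        rw [mem_erase]
        refine ⟨?_, mem_univ v⟩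
        rintro rfl
        simp at hv
      have := card_le_card this
      rw [card_erase_of_mem (mem_univ c), card_univ, hn] at this
      have hn0 : 0 < n := by rw [← hn]; exact Fintype.card_pos
      omega
    omega
  have h2nZ : 2 * (ρ : ℤ) + 2 ≤ n := by exact_mod_cast h2n
  obtain ⟨x, hx⟩ : ∃ x, (FF G c 1).card + 1 = 2 * ρ + x :=
    ⟨(FF G c 1).card + 1 - 2 * ρ, by have := hcF c 1; omega⟩
  obtain ⟨z, hz⟩ : ∃ z, (FF G c 2).card + 3 = 2 * ρ + z :=
    ⟨(FF G c 2).card + 3 - 2 * ρ, by have := hcF c 2; omega⟩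
  -- radius 2
  rcases Nat.lt_or_ge ρ 2 with h | h
  · have hρ : ρ = 1 := by omega
    subst hρ
    have h1 := triv_bound hG hn (r := 1 + 1) (by norm_num) hr
    have h2 := H.num_one n (exo G) (by omega) hev (by
      have : n * (1 + 1 - 1) ^ 2 = n := by norm_num
      rw [this] at h1
      exact_mod_cast h1)
    exact_mod_cast h2
  -- radius 3
  rcases Nat.lt_or_ge ρ 3 with h' | h'
  · have hρ : ρ = 2 := by omega
    subst hρ
    have hF := H.far_three V G hG hr
    have h1 := far_bound hG (r := 3) (by norm_num) hr hF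
    rw [hn] at h1
    refine ⟨3, by norm_num, by omega, ?_⟩
    have h2 : (2 * (((n : ℤ) - 3) * 4)) ≤ exo G := by
      have : ((2 * ((n - 3) * (3 - 1) ^ 2) : ℕ) : ℤ) ≤ (exo G : ℤ) := by exact_mod_cast h1
      rw [Nat.cast_mul, Nat.cast_mul, Nat.cast_sub (by omega : 3 ≤ n)] at this
      norm_num at this
      linarith
    push_cast
    linarith
  -- radius at least 4
  obtain ⟨A, hA⟩ : ∃ A, eS G univ c = ρ ^ 2 + A :=
    ⟨eS G univ c - ρ ^ 2, by have := H.A_ge V G hG ρ x z h hr c hx hz; omega⟩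
  have hAxz : x + z ≤ A := by
    have := H.A_ge V G hG ρ x z h hr c hx hz
    omega
  obtain ⟨l1, l2, l3, l4⟩ := H.levels V G hG ρ x z n h hr hn c hx hz
  have b0 := H.B0 V G c hmin
  rw [hn, hA] at b0
  have b0' : 2 * ((n : ℤ) - ρ - 1) * ρ ^ 2 + nB0 n ρ A ≤ exo G := by
    have : ((n * (ρ ^ 2 + A) : ℕ) : ℤ) ≤ (exo G : ℤ) := by exact_mod_cast b0
    push_cast at this
    unfold nB0
    linarith
  have b1 : 2 * ((n : ℤ) - ρ - 1) * ρ ^ 2 + nB1 n ρ x A ≤ exo G := by
    have := H.B1 V G hG ρ n A x z h hn hr c hmin hx hz hA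
    unfold nB1
    linarith
  have b2 : 2 * ((n : ℤ) - ρ - 1) * ρ ^ 2 + nB2 n ρ x z A ≤ exo G := by
    have := H.B2 V G hG ρ n A x z h' hn hr c hmin hx hz hA
    unfold nB2
    linarith
  have bC : (A : ℤ) = x → 2 * ((n : ℤ) - ρ - 1) * ρ ^ 2 + nC n ρ x ≤ exo G := by
    intro hAx
    have hAx' : A = x := by exact_mod_cast hAx
    subst hAx'
    have := H.Cx V G hG ρ n A z h' hn hr c hmin hx hz hA
    unfold nC
    linarith
  have hx0 : (0 : ℤ) ≤ x := by positivity
  have hz0 : (0 : ℤ) ≤ z := by positivity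
  have hzx : (z : ℤ) ≤ x + 1 := by exact_mod_cast l3
  have hxzA : (x : ℤ) + z ≤ A := by exact_mod_cast hAxz
  have hxn : (x : ℤ) + 2 * ρ + 1 ≤ n := by exact_mod_cast l4
  rcases Nat.lt_or_ge ρ 5 with h5 | h5
  · have hρ : ρ = 3 ∨ ρ = 4 := by omega
    rcases hρ with rfl | rfl
    · -- radius 4
      have c1 : (A : ℤ) = 1 → (x : ℤ) = 1 → 18 * ((n : ℤ) - 4) + (n - 13) ≤ exo G := by
        intro hA1 hx1
        have hA1' : A = 1 := by exact_mod_cast hA1
        have hx1' : x = 1 := by exact_mod_cast hx1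
        subst hA1' hx1'
        have e1 := H.exo_one V G hG c
        have e2 := H.deficit V G hG 3 1 le_rfl hr c hmin hx hA
        have e3 := H.four_one V G hG hr c (by omega) (by omega)
        have e4 : 2 * eS G univ c = 20 := by omega
        have e5 : (LL G c 1).card * (1 + 2 * 3 ^ 2) = 19 * (LL G c 1).card := by ring
        rw [e5] at e2
        omega
      have c2 : (A : ℤ) = 2 → (x : ℤ) = 2 → 18 * ((n : ℤ) - 4) + (2 * n - 28) ≤ exo G := by
        intro hA1 hx1
        have hA1' : A = 2 := by exact_mod_cast hA1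
        have hx1' : x = 2 := by exact_mod_cast hx1
        subst hA1' hx1'
        have e1 := H.exo_one V G hG c
        have e2 := H.deficit V G hG 3 2 le_rfl hr c hmin hx hA
        have e3 := H.four_two V G hG hr c (by omega) (by omega)
        have e4 : 2 * eS G univ c = 22 := by omega
        have e5 : (LL G c 1).card * (2 + 2 * 3 ^ 2) = 20 * (LL G c 1).card := by ring
        rw [e5] at e2
        omega
      have conv : 2 * ((n : ℤ) - (3 : ℕ) - 1) * (3 : ℕ) ^ 2 = 18 * (n - 4) := by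
        push_cast; ring
      rw [conv] at b0' b1 b2 bC
      push_cast at b0' b1 b2 bC hxn h2nZ ⊢
      exact H.num_three n x z A (exo G) (by linarith) hx0 hz0 hzx hxzA (by linarith) hev b0' b1
        b2 bC c1 c2
    · have conv : 2 * ((n : ℤ) - (4 : ℕ) - 1) * (4 : ℕ) ^ 2 = 32 * (n - 5) := by
        push_cast; ring
      rw [conv] at b0' b1 b2 bC
      push_cast at b0' b1 b2 bC hxn h2nZ ⊢
      exact H.num_four n x z A (exo G) (by linarith) hx0 hz0 hzx hxzA (by linarith) hev b0' b1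
        b2 bC
  · have h5Z : (5 : ℤ) ≤ ρ := by exact_mod_cast h5
    push_cast
    exact H.num_five ρ n x z A (exo G) h5Z h2nZ hx0 hz0 hzx hxzA hxn b0' b1 b2 bC

/-- `Bag_{n,2}` is complete: no two vertices are at distance more than one. -/
theorem exo_bag_two {n : ℕ} (hn : 2 ≤ n) : exo (bag n 2) = 0 := by
  have hadj : ∀ u v : Fin n ⊕ Fin (2 - 2), u ≠ v → (bag n 2).Adj u v := by
    intro u v huv
    rcases u with i | i
    · rcases v with j | j
      · unfold bag
        rw [SimpleGraph.fromRel_adj]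
        exact ⟨huv, Or.inl (Or.inl rfl)⟩
      · exact absurd j.isLt (by omega)
    · exact absurd i.isLt (by omega)
  unfold exo
  apply Finset.sum_eq_zero
  intro u _
  apply Finset.sum_eq_zero
  intro v _
  by_cases h : u = v
  · subst h; simp
  · have := SimpleGraph.dist_eq_one_iff_adj.mpr (hadj u v h)
    omega

/-- Comparison with one bag, for every connected graph on `n ≥ 3` vertices. -/
theorem ratio_all (H : Steps) {n : ℕ} (hn3 : 3 ≤ n) (G : SimpleGraph (Fin n))
    (hG : G.Connected) :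
    ∃ p : ℕ, 2 ≤ p ∧ p ≤ n ∧
      avgDist (bag p (n + 2 - p)) / rad (bag p (n + 2 - p)) ≤ avgDist G / rad G := by
  have hnpos : 0 < n := by omega
  have : Nonempty (Fin n) := ⟨⟨0, hnpos⟩⟩
  have hcard : Fintype.card (Fin n) = n := Fintype.card_fin n
  set r := rad G with hrdef
  have hr : ∀ v, ∃ u, r ≤ G.dist v u := fun v => rad_far v
  have hr1 : 1 ≤ r := by
    apply le_rad
    intro v
    obtain ⟨u, hu⟩ : ∃ u : Fin n, u ≠ v := by
      by_cases h : v = ⟨0, hnpos⟩
      · refine ⟨⟨1, by omega⟩, ?_⟩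
        rw [h]
        intro h2
        have := congrArg Fin.val h2
        simp at this
      · exact ⟨⟨0, hnpos⟩, fun h2 => h h2.symm⟩
    exact ⟨u, hG.pos_dist_of_ne (fun h => hu h.symm)⟩
  have hnR : (3 : ℝ) ≤ n := by exact_mod_cast hn3
  have hn1R : (0 : ℝ) < (n : ℝ) - 1 := by linarith
  have hnn : (0 : ℝ) < (n : ℝ) * ((n : ℝ) - 1) := by
    have : (0 : ℝ) < n := by linarith
    positivity
  rcases Nat.lt_or_ge r 2 with h2 | h2
  · -- radius 1: the complete graph
    have hr1' : r = 1 := by omega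
    refine ⟨n, by omega, le_rfl, ?_⟩
    have e : n + 2 - n = 2 := by omega
    rw [e, hr1']
    have hbc : (bag n 2).Connected := bag_conn (by omega) le_rfl
    have hbcard : Fintype.card (Fin n ⊕ Fin (2 - 2)) = n := by
      rw [Fintype.card_sum, Fintype.card_fin, Fintype.card_fin]; omega
    have : Nonempty (Fin n ⊕ Fin (2 - 2)) := hbc.nonempty
    have hbr : 1 ≤ rad (bag n 2) := by
      apply le_rad
      intro v
      have h1 : ∃ u : Fin n ⊕ Fin (2 - 2), u ≠ v := by
        by_contra hcon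
        push Not at hcon
        have : Fintype.card (Fin n ⊕ Fin (2 - 2)) ≤ 1 :=
          Fintype.card_le_one_iff.mpr fun a b => (hcon a).trans (hcon b).symm
        omega
      obtain ⟨u, hu⟩ := h1
      exact ⟨u, hbc.pos_dist_of_ne (fun h => hu h.symm)⟩
    rw [avg_eq hG hcard hnpos, avg_eq hbc hbcard hnpos, exo_bag_two (by omega)]
    have hbrR : (1 : ℝ) ≤ rad (bag n 2) := by exact_mod_cast hbr
    calc (((0 : ℕ) : ℝ) + n * (n - 1)) / ((n : ℝ) * (n - 1)) / rad (bag n 2)
        ≤ (((0 : ℕ) : ℝ) + n * (n - 1)) / ((n : ℝ) * (n - 1)) / 1 := by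
          apply div_le_div_of_nonneg_left _ (by norm_num) hbrR
          apply div_nonneg _ hnn.le
          push_cast
          linarith
      _ ≤ ((exo G : ℝ) + n * (n - 1)) / ((n : ℝ) * (n - 1)) / ((1 : ℕ) : ℝ) := by
          have hexo0 : (0 : ℝ) ≤ exo G := Nat.cast_nonneg _
          rw [Nat.cast_one]
          apply div_le_div_of_nonneg_right _ (by norm_num)
          apply div_le_div_of_nonneg_right _ hnn.le
          push_cast
          linarith
  · -- radius at least 2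
    obtain ⟨q', hq2, hqn, hq⟩ := good_all H hG hcard h2 hr
    obtain ⟨ρ, rfl⟩ := Int.eq_ofNat_of_zero_le (show 0 ≤ q' by omega)
    have h2' : 2 ≤ ρ := by exact_mod_cast hq2
    have hρn : 2 * ρ ≤ n := by exact_mod_cast hqn
    refine ⟨n + 3 - 2 * ρ, by omega, by omega, ?_⟩
    have e : n + 2 - (n + 3 - 2 * ρ) = 2 * ρ - 1 := by omega
    rw [e]
    have hmain : ((n : ℝ) * (n - 1) + 2 * ((n - ρ) * (ρ - 1) ^ 2)) * r ≤
        ((exo G : ℝ) + n * (n - 1)) * ρ := by
      have hq' : ((r : ℤ) * ((n : ℤ) * (n - 1) + 2 * (n - ρ) * (ρ - 1) ^ 2) : ℤ) ≤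
          (ρ : ℤ) * (exo G + (n : ℤ) * (n - 1)) := by exact_mod_cast hq
      have hq'' : ((r : ℝ) * ((n : ℝ) * (n - 1) + 2 * (n - ρ) * (ρ - 1) ^ 2)) ≤
          (ρ : ℝ) * (exo G + (n : ℝ) * (n - 1)) := by exact_mod_cast hq'
      linarith
    have hbc : (bag (n + 3 - 2 * ρ) (2 * ρ - 1)).Connected := bag_conn (by omega) (by omega)
    have hbcard : Fintype.card (Fin (n + 3 - 2 * ρ) ⊕ Fin (2 * ρ - 1 - 2)) = n := by
      rw [Fintype.card_sum, Fintype.card_fin, Fintype.card_fin]; omega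
    have : Nonempty (Fin (n + 3 - 2 * ρ) ⊕ Fin (2 * ρ - 1 - 2)) := hbc.nonempty
    have hbr : ρ ≤ rad (bag (n + 3 - 2 * ρ) (2 * ρ - 1)) :=
      le_rad fun v => bag_far h2' hρn v
    rw [avg_eq hG hcard hnpos, avg_eq hbc hbcard hnpos]
    have hρR : (2 : ℝ) ≤ ρ := by exact_mod_cast h2'
    have hbrR : (ρ : ℝ) ≤ rad (bag (n + 3 - 2 * ρ) (2 * ρ - 1)) := by exact_mod_cast hbr
    have hbe : (exo (bag (n + 3 - 2 * ρ) (2 * ρ - 1)) : ℝ) ≤
        2 * ((n - ρ) * (ρ - 1) ^ 2) := by
      have := bag_exo h2' hρn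
      have h' : (exo (bag (n + 3 - 2 * ρ) (2 * ρ - 1)) : ℝ) ≤
        ((2 * ((n - ρ) * (ρ - 1) ^ 2) : ℕ) : ℝ) := by exact_mod_cast this
      rw [Nat.cast_mul, Nat.cast_mul, Nat.cast_pow, Nat.cast_sub (by omega : ρ ≤ n),
        Nat.cast_sub (by omega : 1 ≤ ρ)] at h'
      push_cast at h'
      exact h'
    have hexo0 : (0 : ℝ) ≤ exo (bag (n + 3 - 2 * ρ) (2 * ρ - 1)) := Nat.cast_nonneg _
    have hrR : (2 : ℝ) ≤ r := by exact_mod_cast h2
    calc ((exo (bag (n + 3 - 2 * ρ) (2 * ρ - 1)) : ℝ) + n * (n - 1)) / ((n : ℝ) * (n - 1)) /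
          rad (bag (n + 3 - 2 * ρ) (2 * ρ - 1))
        ≤ ((exo (bag (n + 3 - 2 * ρ) (2 * ρ - 1)) : ℝ) + n * (n - 1)) / ((n : ℝ) * (n - 1)) /
          ρ := by
          apply div_le_div_of_nonneg_left _ (by linarith) hbrR
          apply div_nonneg _ hnn.le
          linarith
      _ ≤ ((n : ℝ) * (n - 1) + 2 * ((n - ρ) * (ρ - 1) ^ 2)) / ((n : ℝ) * (n - 1)) / ρ := by
          apply div_le_div_of_nonneg_right _ (by linarith)
          apply div_le_div_of_nonneg_right _ hnn.le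
          linarith
      _ ≤ ((exo G : ℝ) + n * (n - 1)) / ((n : ℝ) * (n - 1)) / r := by
          rw [div_div, div_div, div_le_div_iff₀ (by positivity) (by positivity)]
          calc ((n : ℝ) * (n - 1) + 2 * ((n - ρ) * (ρ - 1) ^ 2)) * ((n : ℝ) * (n - 1) * r)
              = (((n : ℝ) * (n - 1) + 2 * ((n - ρ) * (ρ - 1) ^ 2)) * r) * ((n : ℝ) * (n - 1)) := by
                ring
            _ ≤ (((exo G : ℝ) + n * (n - 1)) * ρ) * ((n : ℝ) * (n - 1)) :=
                mul_le_mul_of_nonneg_right hmain hnn.le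
            _ = _ := by ring

/-- For every `n ≥ 3` some bag minimises the ratio of average distance to radius. -/
theorem bag_min_all (H : Steps) {n : ℕ} (hn : 3 ≤ n) :
    ∃ p k : ℕ, 2 ≤ p ∧ 2 ≤ k ∧ p + k = n + 2 ∧
      ∀ G : SimpleGraph (Fin n), G.Connected →
        avgDist (bag p k) / rad (bag p k) ≤ avgDist G / rad G := by
  classical
  let S : Finset ℕ := Finset.Icc 2 n
  have hS : S.Nonempty := ⟨2, Finset.mem_Icc.mpr ⟨le_rfl, by omega⟩⟩
  obtain ⟨p, hp, hmin⟩ := Finset.exists_min_image S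
    (fun p => avgDist (bag p (n + 2 - p)) / rad (bag p (n + 2 - p))) hS
  rw [Finset.mem_Icc] at hp
  refine ⟨p, n + 2 - p, hp.1, by omega, by omega, ?_⟩
  intro G hG
  obtain ⟨p', h1, h2, h3⟩ := ratio_all H hn G hG
  exact (hmin p' (Finset.mem_Icc.mpr ⟨h1, h2⟩)).trans h3

end Pool.Agent.BagR

end
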