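import Pool.Agent.Work.MP_bb6995_co.Bd.B03
import Pool.Agent.Work.MP_bb6995_co.Bd.B02

/-! Bundle of small proof modules (one section per former module). -/

section

/-!
The endpoint inequalities for `20 ≤ ρ` (Bernstein type certificates), MP_bb6995_co.
-/

namespace Pool.Agent.BagR

set_option linter.style.longLine false

private theorem aux_gb1a (y u w : ℤ) (hy : 0 ≤ y) (hu : 0 ≤ u) (hw : 0 ≤ w) :
    0 ≤ 1651584816 * w ^ 4
    + 911323584 * u * w ^ 3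
    + 66620448 * u ^ 2 * w ^ 2
    + 27725760 * u ^ 3 * w
    + 6305328 * u ^ 4
    + 1173107152 * y * w ^ 4
    + 758631872 * y * u * w ^ 3
    + 134005344 * y * u ^ 2 * w ^ 2
    + 34978496 * y * u ^ 3 * w
    + 5080144 * y * u ^ 4
    + 324267576 * y ^ 2 * w ^ 4
    + 231795744 * y ^ 2 * u * w ^ 3
    + 54319248 * y ^ 2 * u ^ 2 * w ^ 2
    + 12731808 * y ^ 2 * u ^ 3 * w
    + 1526520 * y ^ 2 * u ^ 4
    + 43844288 * y ^ 3 * w ^ 4
    + 33571936 * y ^ 3 * u * w ^ 3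
    + 9099552 * y ^ 3 * u ^ 2 * w ^ 2
    + 2035744 * y ^ 3 * u ^ 3 * w
    + 219296 * y ^ 3 * u ^ 4
    + 2911199 * y ^ 4 * w ^ 4
    + 2343100 * y ^ 4 * u * w ^ 3
    + 694650 * y ^ 4 * u ^ 2 * w ^ 2
    + 151612 * y ^ 4 * u ^ 3 * w
    + 15263 * y ^ 4 * u ^ 4
    + 76159 * y ^ 5 * w ^ 4
    + 63644 * y ^ 5 * u * w ^ 3
    + 20058 * y ^ 5 * u ^ 2 * w ^ 2
    + 4316 * y ^ 5 * u ^ 3 * w
    + 415 * y ^ 5 * u ^ 4 := by
  positivity

theorem gb1a (h ρ : ℤ) (hy : 8 ≤ h) (hu : 0 ≤ 10 * ρ - 13 * h) (hw : 0 ≤ 5 * h - 2 * ρ) :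
    0 ≤ (h + 1) * nE (2 * h ^ 2) ρ (ρ ^ 2 - 2 * (ρ - h) ^ 2) + 4 * (ρ - h) * nPhi (2 * h ^ 2) h ρ := by
  have h1 := aux_gb1a (h - 8) (10 * ρ - 13 * h) (5 * h - 2 * ρ) (by linarith) hu hw
  have h2 : 331776 * h ^ 4 * ((h + 1) * nE (2 * h ^ 2) ρ (ρ ^ 2 - 2 * (ρ - h) ^ 2) + 4 * (ρ - h) * nPhi (2 * h ^ 2) h ρ) =
    1651584816 * (5 * h - 2 * ρ) ^ 4
    + 911323584 * (10 * ρ - 13 * h) * (5 * h - 2 * ρ) ^ 3
    + 66620448 * (10 * ρ - 13 * h) ^ 2 * (5 * h - 2 * ρ) ^ 2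
    + 27725760 * (10 * ρ - 13 * h) ^ 3 * (5 * h - 2 * ρ)
    + 6305328 * (10 * ρ - 13 * h) ^ 4
    + 1173107152 * (h - 8) * (5 * h - 2 * ρ) ^ 4
    + 758631872 * (h - 8) * (10 * ρ - 13 * h) * (5 * h - 2 * ρ) ^ 3
    + 134005344 * (h - 8) * (10 * ρ - 13 * h) ^ 2 * (5 * h - 2 * ρ) ^ 2
    + 34978496 * (h - 8) * (10 * ρ - 13 * h) ^ 3 * (5 * h - 2 * ρ)
    + 5080144 * (h - 8) * (10 * ρ - 13 * h) ^ 4
    + 324267576 * (h - 8) ^ 2 * (5 * h - 2 * ρ) ^ 4
    + 231795744 * (h - 8) ^ 2 * (10 * ρ - 13 * h) * (5 * h - 2 * ρ) ^ 3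
    + 54319248 * (h - 8) ^ 2 * (10 * ρ - 13 * h) ^ 2 * (5 * h - 2 * ρ) ^ 2
    + 12731808 * (h - 8) ^ 2 * (10 * ρ - 13 * h) ^ 3 * (5 * h - 2 * ρ)
    + 1526520 * (h - 8) ^ 2 * (10 * ρ - 13 * h) ^ 4
    + 43844288 * (h - 8) ^ 3 * (5 * h - 2 * ρ) ^ 4
    + 33571936 * (h - 8) ^ 3 * (10 * ρ - 13 * h) * (5 * h - 2 * ρ) ^ 3
    + 9099552 * (h - 8) ^ 3 * (10 * ρ - 13 * h) ^ 2 * (5 * h - 2 * ρ) ^ 2
    + 2035744 * (h - 8) ^ 3 * (10 * ρ - 13 * h) ^ 3 * (5 * h - 2 * ρ)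
    + 219296 * (h - 8) ^ 3 * (10 * ρ - 13 * h) ^ 4
    + 2911199 * (h - 8) ^ 4 * (5 * h - 2 * ρ) ^ 4
    + 2343100 * (h - 8) ^ 4 * (10 * ρ - 13 * h) * (5 * h - 2 * ρ) ^ 3
    + 694650 * (h - 8) ^ 4 * (10 * ρ - 13 * h) ^ 2 * (5 * h - 2 * ρ) ^ 2
    + 151612 * (h - 8) ^ 4 * (10 * ρ - 13 * h) ^ 3 * (5 * h - 2 * ρ)
    + 15263 * (h - 8) ^ 4 * (10 * ρ - 13 * h) ^ 4
    + 76159 * (h - 8) ^ 5 * (5 * h - 2 * ρ) ^ 4
    + 63644 * (h - 8) ^ 5 * (10 * ρ - 13 * h) * (5 * h - 2 * ρ) ^ 3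
    + 20058 * (h - 8) ^ 5 * (10 * ρ - 13 * h) ^ 2 * (5 * h - 2 * ρ) ^ 2
    + 4316 * (h - 8) ^ 5 * (10 * ρ - 13 * h) ^ 3 * (5 * h - 2 * ρ)
    + 415 * (h - 8) ^ 5 * (10 * ρ - 13 * h) ^ 4 := by
    unfold nE nPhi
    ring
  rw [← h2] at h1
  exact nonneg_of_mul_nonneg_right h1 (by positivity)

private theorem aux_gb1b (y u w : ℤ) (hy : 0 ≤ y) (hu : 0 ≤ u) (hw : 0 ≤ w) :
    0 ≤ 18042 * w ^ 4
    + 6590808 * u * w ^ 3
    + 162834972 * u ^ 2 * w ^ 2
    + 1325681688 * u ^ 3 * w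
    + 3437359482 * u ^ 4
    + 361687 * y * w ^ 4
    + 16295348 * y * u * w ^ 3
    + 263283322 * y * u ^ 2 * w ^ 2
    + 1776020948 * y * u ^ 3 * w
    + 4175901287 * y * u ^ 4
    + 265008 * y ^ 2 * w ^ 4
    + 9906152 * y ^ 2 * u * w ^ 3
    + 140220888 * y ^ 2 * u ^ 2 * w ^ 2
    + 865870872 * y ^ 2 * u ^ 3 * w
    + 1923054328 * y ^ 2 * u ^ 4
    + 73490 * y ^ 3 * w ^ 4
    + 2556640 * y ^ 3 * u * w ^ 3
    + 33943628 * y ^ 3 * u ^ 2 * w ^ 2
    + 199237824 * y ^ 3 * u ^ 3 * w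
    + 426494466 * y ^ 3 * u ^ 4
    + 9038 * y ^ 4 * w ^ 4
    + 302976 * y ^ 4 * u * w ^ 3
    + 3876460 * y ^ 4 * u ^ 2 * w ^ 2
    + 22030864 * y ^ 4 * u ^ 3 * w
    + 45981526 * y ^ 4 * u ^ 4
    + 415 * y ^ 5 * w ^ 4
    + 13612 * y ^ 5 * u * w ^ 3
    + 170138 * y ^ 5 * u ^ 2 * w ^ 2
    + 946092 * y ^ 5 * u ^ 3 * w
    + 1939295 * y ^ 5 * u ^ 4 := by
  positivity

theorem gb1b (h ρ : ℤ) (hy : 5 ≤ h) (hu : 0 ≤ 2 * ρ - 5 * h) (hw : 0 ≤ 41 * h - 12 * ρ) :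
    0 ≤ (h + 1) * nE (2 * h ^ 2) ρ (ρ ^ 2 - 2 * (ρ - h) ^ 2) + 4 * (ρ - h) * nPhi (2 * h ^ 2) h ρ := by
  have h1 := aux_gb1b (h - 5) (2 * ρ - 5 * h) (41 * h - 12 * ρ) (by linarith) hu hw
  have h2 : 234256 * h ^ 4 * ((h + 1) * nE (2 * h ^ 2) ρ (ρ ^ 2 - 2 * (ρ - h) ^ 2) + 4 * (ρ - h) * nPhi (2 * h ^ 2) h ρ) =
    18042 * (41 * h - 12 * ρ) ^ 4
    + 6590808 * (2 * ρ - 5 * h) * (41 * h - 12 * ρ) ^ 3
    + 162834972 * (2 * ρ - 5 * h) ^ 2 * (41 * h - 12 * ρ) ^ 2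
    + 1325681688 * (2 * ρ - 5 * h) ^ 3 * (41 * h - 12 * ρ)
    + 3437359482 * (2 * ρ - 5 * h) ^ 4
    + 361687 * (h - 5) * (41 * h - 12 * ρ) ^ 4
    + 16295348 * (h - 5) * (2 * ρ - 5 * h) * (41 * h - 12 * ρ) ^ 3
    + 263283322 * (h - 5) * (2 * ρ - 5 * h) ^ 2 * (41 * h - 12 * ρ) ^ 2
    + 1776020948 * (h - 5) * (2 * ρ - 5 * h) ^ 3 * (41 * h - 12 * ρ)
    + 4175901287 * (h - 5) * (2 * ρ - 5 * h) ^ 4
    + 265008 * (h - 5) ^ 2 * (41 * h - 12 * ρ) ^ 4
    + 9906152 * (h - 5) ^ 2 * (2 * ρ - 5 * h) * (41 * h - 12 * ρ) ^ 3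
    + 140220888 * (h - 5) ^ 2 * (2 * ρ - 5 * h) ^ 2 * (41 * h - 12 * ρ) ^ 2
    + 865870872 * (h - 5) ^ 2 * (2 * ρ - 5 * h) ^ 3 * (41 * h - 12 * ρ)
    + 1923054328 * (h - 5) ^ 2 * (2 * ρ - 5 * h) ^ 4
    + 73490 * (h - 5) ^ 3 * (41 * h - 12 * ρ) ^ 4
    + 2556640 * (h - 5) ^ 3 * (2 * ρ - 5 * h) * (41 * h - 12 * ρ) ^ 3
    + 33943628 * (h - 5) ^ 3 * (2 * ρ - 5 * h) ^ 2 * (41 * h - 12 * ρ) ^ 2
    + 199237824 * (h - 5) ^ 3 * (2 * ρ - 5 * h) ^ 3 * (41 * h - 12 * ρ)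
    + 426494466 * (h - 5) ^ 3 * (2 * ρ - 5 * h) ^ 4
    + 9038 * (h - 5) ^ 4 * (41 * h - 12 * ρ) ^ 4
    + 302976 * (h - 5) ^ 4 * (2 * ρ - 5 * h) * (41 * h - 12 * ρ) ^ 3
    + 3876460 * (h - 5) ^ 4 * (2 * ρ - 5 * h) ^ 2 * (41 * h - 12 * ρ) ^ 2
    + 22030864 * (h - 5) ^ 4 * (2 * ρ - 5 * h) ^ 3 * (41 * h - 12 * ρ)
    + 45981526 * (h - 5) ^ 4 * (2 * ρ - 5 * h) ^ 4
    + 415 * (h - 5) ^ 5 * (41 * h - 12 * ρ) ^ 4
    + 13612 * (h - 5) ^ 5 * (2 * ρ - 5 * h) * (41 * h - 12 * ρ) ^ 3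
    + 170138 * (h - 5) ^ 5 * (2 * ρ - 5 * h) ^ 2 * (41 * h - 12 * ρ) ^ 2
    + 946092 * (h - 5) ^ 5 * (2 * ρ - 5 * h) ^ 3 * (41 * h - 12 * ρ)
    + 1939295 * (h - 5) ^ 5 * (2 * ρ - 5 * h) ^ 4 := by
    unfold nE nPhi
    ring
  rw [← h2] at h1
  exact nonneg_of_mul_nonneg_right h1 (by positivity)

private theorem aux_gb2 (y u w : ℤ) (hy : 0 ≤ y) (hu : 0 ≤ u) (hw : 0 ≤ w) :
    0 ≤ 316646250 * w ^ 4
    + 1218531000 * u * w ^ 3
    + 455729100 * u ^ 2 * w ^ 2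
    + 5146727640 * u ^ 3 * w
    + 5407979322 * u ^ 4
    + 306685375 * y * w ^ 4
    + 1266260900 * y * u * w ^ 3
    + 1020553570 * y * u ^ 2 * w ^ 2
    + 5891328820 * y * u ^ 3 * w
    + 5643314567 * y * u ^ 4
    + 117263600 * y ^ 2 * w ^ 4
    + 515778760 * y ^ 2 * u * w ^ 3
    + 599130392 * y ^ 2 * u ^ 2 * w ^ 2
    + 2606153400 * y ^ 2 * u ^ 3 * w
    + 2330020216 * y ^ 2 * u ^ 4
    + 22133210 * y ^ 3 * w ^ 4
    + 103158896 * y ^ 3 * u * w ^ 3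
    + 151095988 * y ^ 3 * u ^ 2 * w ^ 2
    + 561580608 * y ^ 3 * u ^ 3 * w
    + 476299170 * y ^ 3 * u ^ 4
    + 2064014 * y ^ 4 * w ^ 4
    + 10153952 * y ^ 4 * u * w ^ 3
    + 17583084 * y ^ 4 * u ^ 2 * w ^ 2
    + 59271152 * y ^ 4 * u ^ 3 * w
    + 48249814 * y ^ 4 * u ^ 4
    + 76159 * y ^ 5 * w ^ 4
    + 394316 * y ^ 5 * u * w ^ 3
    + 778298 * y ^ 5 * u ^ 2 * w ^ 2
    + 2460684 * y ^ 5 * u ^ 3 * w
    + 1939295 * y ^ 5 * u ^ 4 := by
  positivity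

theorem gb2 (h ρ : ℤ) (hy : 5 ≤ h) (hu : 0 ≤ 10 * ρ - 13 * h) (hw : 0 ≤ 41 * h - 12 * ρ) :
    0 ≤ (h + 1) * nE (2 * h ^ 2 + 4 * h + 1) ρ (ρ ^ 2 - 2 * (ρ - h) ^ 2) + 4 * (ρ - h) * nPhi (2 * h ^ 2 + 4 * h + 1) h ρ := by
  have h1 := aux_gb2 (h - 5) (10 * ρ - 13 * h) (41 * h - 12 * ρ) (by linarith) hu hw
  have h2 : 4162314256 * h ^ 4 * ((h + 1) * nE (2 * h ^ 2 + 4 * h + 1) ρ (ρ ^ 2 - 2 * (ρ - h) ^ 2) + 4 * (ρ - h) * nPhi (2 * h ^ 2 + 4 * h + 1) h ρ) =
    316646250 * (41 * h - 12 * ρ) ^ 4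
    + 1218531000 * (10 * ρ - 13 * h) * (41 * h - 12 * ρ) ^ 3
    + 455729100 * (10 * ρ - 13 * h) ^ 2 * (41 * h - 12 * ρ) ^ 2
    + 5146727640 * (10 * ρ - 13 * h) ^ 3 * (41 * h - 12 * ρ)
    + 5407979322 * (10 * ρ - 13 * h) ^ 4
    + 306685375 * (h - 5) * (41 * h - 12 * ρ) ^ 4
    + 1266260900 * (h - 5) * (10 * ρ - 13 * h) * (41 * h - 12 * ρ) ^ 3
    + 1020553570 * (h - 5) * (10 * ρ - 13 * h) ^ 2 * (41 * h - 12 * ρ) ^ 2
    + 5891328820 * (h - 5) * (10 * ρ - 13 * h) ^ 3 * (41 * h - 12 * ρ)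
    + 5643314567 * (h - 5) * (10 * ρ - 13 * h) ^ 4
    + 117263600 * (h - 5) ^ 2 * (41 * h - 12 * ρ) ^ 4
    + 515778760 * (h - 5) ^ 2 * (10 * ρ - 13 * h) * (41 * h - 12 * ρ) ^ 3
    + 599130392 * (h - 5) ^ 2 * (10 * ρ - 13 * h) ^ 2 * (41 * h - 12 * ρ) ^ 2
    + 2606153400 * (h - 5) ^ 2 * (10 * ρ - 13 * h) ^ 3 * (41 * h - 12 * ρ)
    + 2330020216 * (h - 5) ^ 2 * (10 * ρ - 13 * h) ^ 4
    + 22133210 * (h - 5) ^ 3 * (41 * h - 12 * ρ) ^ 4
    + 103158896 * (h - 5) ^ 3 * (10 * ρ - 13 * h) * (41 * h - 12 * ρ) ^ 3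
    + 151095988 * (h - 5) ^ 3 * (10 * ρ - 13 * h) ^ 2 * (41 * h - 12 * ρ) ^ 2
    + 561580608 * (h - 5) ^ 3 * (10 * ρ - 13 * h) ^ 3 * (41 * h - 12 * ρ)
    + 476299170 * (h - 5) ^ 3 * (10 * ρ - 13 * h) ^ 4
    + 2064014 * (h - 5) ^ 4 * (41 * h - 12 * ρ) ^ 4
    + 10153952 * (h - 5) ^ 4 * (10 * ρ - 13 * h) * (41 * h - 12 * ρ) ^ 3
    + 17583084 * (h - 5) ^ 4 * (10 * ρ - 13 * h) ^ 2 * (41 * h - 12 * ρ) ^ 2
    + 59271152 * (h - 5) ^ 4 * (10 * ρ - 13 * h) ^ 3 * (41 * h - 12 * ρ)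
    + 48249814 * (h - 5) ^ 4 * (10 * ρ - 13 * h) ^ 4
    + 76159 * (h - 5) ^ 5 * (41 * h - 12 * ρ) ^ 4
    + 394316 * (h - 5) ^ 5 * (10 * ρ - 13 * h) * (41 * h - 12 * ρ) ^ 3
    + 778298 * (h - 5) ^ 5 * (10 * ρ - 13 * h) ^ 2 * (41 * h - 12 * ρ) ^ 2
    + 2460684 * (h - 5) ^ 5 * (10 * ρ - 13 * h) ^ 3 * (41 * h - 12 * ρ)
    + 1939295 * (h - 5) ^ 5 * (10 * ρ - 13 * h) ^ 4 := by
    unfold nE nPhi
    ring
  rw [← h2] at h1
  exact nonneg_of_mul_nonneg_right h1 (by positivity)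

private theorem aux_gb3 (y u w : ℤ) (hy : 0 ≤ y) (hu : 0 ≤ u) (hw : 0 ≤ w) :
    0 ≤ 654750 * w ^ 3
    + 10567650 * u * w ^ 2
    + 50114430 * u ^ 2 * w
    + 33761010 * u ^ 3
    + 698325 * y * w ^ 3
    + 11710675 * y * u * w ^ 2
    + 56298471 * y * u ^ 2 * w
    + 42478937 * y * u ^ 3
    + 279815 * y ^ 2 * w ^ 3
    + 4914489 * y ^ 2 * u * w ^ 2
    + 24292397 * y ^ 2 * u ^ 2 * w
    + 19853667 * y ^ 2 * u ^ 3
    + 53683 * y ^ 3 * w ^ 3
    + 991657 * y ^ 3 * u * w ^ 2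
    + 5090641 * y ^ 3 * u ^ 2 * w
    + 4429419 * y ^ 3 * u ^ 3
    + 4983 * y ^ 4 * w ^ 3
    + 97009 * y ^ 4 * u * w ^ 2
    + 521617 * y ^ 4 * u ^ 2 * w
    + 478471 * y ^ 4 * u ^ 3
    + 180 * y ^ 5 * w ^ 3
    + 3696 * y ^ 5 * u * w ^ 2
    + 20996 * y ^ 5 * u ^ 2 * w
    + 20184 * y ^ 5 * u ^ 3 := by
  positivity

theorem gb3 (h ρ : ℤ) (hy : 5 ≤ h) (hu : 0 ≤ 10 * ρ - 13 * h) (hw : 0 ≤ 41 * h - 12 * ρ) :
    0 ≤ (h + 1) * nE (2 * h ^ 2) ρ 3 + 4 * (ρ - h) * nPhi (2 * h ^ 2) h ρ := by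
  have h1 := aux_gb3 (h - 5) (10 * ρ - 13 * h) (41 * h - 12 * ρ) (by linarith) hu hw
  have h2 : 2048383 * h ^ 3 * ((h + 1) * nE (2 * h ^ 2) ρ 3 + 4 * (ρ - h) * nPhi (2 * h ^ 2) h ρ) =
    654750 * (41 * h - 12 * ρ) ^ 3
    + 10567650 * (10 * ρ - 13 * h) * (41 * h - 12 * ρ) ^ 2
    + 50114430 * (10 * ρ - 13 * h) ^ 2 * (41 * h - 12 * ρ)
    + 33761010 * (10 * ρ - 13 * h) ^ 3
    + 698325 * (h - 5) * (41 * h - 12 * ρ) ^ 3
    + 11710675 * (h - 5) * (10 * ρ - 13 * h) * (41 * h - 12 * ρ) ^ 2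
    + 56298471 * (h - 5) * (10 * ρ - 13 * h) ^ 2 * (41 * h - 12 * ρ)
    + 42478937 * (h - 5) * (10 * ρ - 13 * h) ^ 3
    + 279815 * (h - 5) ^ 2 * (41 * h - 12 * ρ) ^ 3
    + 4914489 * (h - 5) ^ 2 * (10 * ρ - 13 * h) * (41 * h - 12 * ρ) ^ 2
    + 24292397 * (h - 5) ^ 2 * (10 * ρ - 13 * h) ^ 2 * (41 * h - 12 * ρ)
    + 19853667 * (h - 5) ^ 2 * (10 * ρ - 13 * h) ^ 3
    + 53683 * (h - 5) ^ 3 * (41 * h - 12 * ρ) ^ 3
    + 991657 * (h - 5) ^ 3 * (10 * ρ - 13 * h) * (41 * h - 12 * ρ) ^ 2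
    + 5090641 * (h - 5) ^ 3 * (10 * ρ - 13 * h) ^ 2 * (41 * h - 12 * ρ)
    + 4429419 * (h - 5) ^ 3 * (10 * ρ - 13 * h) ^ 3
    + 4983 * (h - 5) ^ 4 * (41 * h - 12 * ρ) ^ 3
    + 97009 * (h - 5) ^ 4 * (10 * ρ - 13 * h) * (41 * h - 12 * ρ) ^ 2
    + 521617 * (h - 5) ^ 4 * (10 * ρ - 13 * h) ^ 2 * (41 * h - 12 * ρ)
    + 478471 * (h - 5) ^ 4 * (10 * ρ - 13 * h) ^ 3
    + 180 * (h - 5) ^ 5 * (41 * h - 12 * ρ) ^ 3
    + 3696 * (h - 5) ^ 5 * (10 * ρ - 13 * h) * (41 * h - 12 * ρ) ^ 2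
    + 20996 * (h - 5) ^ 5 * (10 * ρ - 13 * h) ^ 2 * (41 * h - 12 * ρ)
    + 20184 * (h - 5) ^ 5 * (10 * ρ - 13 * h) ^ 3 := by
    unfold nE nPhi
    ring
  rw [← h2] at h1
  exact nonneg_of_mul_nonneg_right h1 (by positivity)

private theorem aux_gb4 (y u w : ℤ) (hy : 0 ≤ y) (hu : 0 ≤ u) (hw : 0 ≤ w) :
    0 ≤ 276750 * w ^ 3
    + 7339950 * u * w ^ 2
    + 64323450 * u ^ 2 * w
    + 54806538 * u ^ 3
    + 335475 * y * w ^ 3
    + 8768655 * y * u * w ^ 2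
    + 66192201 * y * u ^ 2 * w
    + 57960917 * y * u ^ 3
    + 160155 * y ^ 2 * w ^ 3
    + 3951837 * y ^ 2 * u * w ^ 2
    + 26860245 * y ^ 2 * u ^ 2 * w
    + 24114531 * y ^ 2 * u ^ 3
    + 37033 * y ^ 3 * w ^ 3
    + 855517 * y ^ 3 * u * w ^ 2
    + 5384219 * y ^ 3 * u ^ 2 * w
    + 4948983 * y ^ 3 * u ^ 3
    + 4143 * y ^ 4 * w ^ 3
    + 89921 * y ^ 4 * u * w ^ 2
    + 534041 * y ^ 4 * u ^ 2 * w
    + 502135 * y ^ 4 * u ^ 3
    + 180 * y ^ 5 * w ^ 3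
    + 3696 * y ^ 5 * u * w ^ 2
    + 20996 * y ^ 5 * u ^ 2 * w
    + 20184 * y ^ 5 * u ^ 3 := by
  positivity

theorem gb4 (h ρ : ℤ) (hy : 5 ≤ h) (hu : 0 ≤ 10 * ρ - 13 * h) (hw : 0 ≤ 41 * h - 12 * ρ) :
    0 ≤ (h + 1) * nE (2 * h ^ 2 + 4 * h + 1) ρ 3 + 4 * (ρ - h) * nPhi (2 * h ^ 2 + 4 * h + 1) h ρ := by
  have h1 := aux_gb4 (h - 5) (10 * ρ - 13 * h) (41 * h - 12 * ρ) (by linarith) hu hw
  have h2 : 2048383 * h ^ 3 * ((h + 1) * nE (2 * h ^ 2 + 4 * h + 1) ρ 3 + 4 * (ρ - h) * nPhi (2 * h ^ 2 + 4 * h + 1) h ρ) =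
    276750 * (41 * h - 12 * ρ) ^ 3
    + 7339950 * (10 * ρ - 13 * h) * (41 * h - 12 * ρ) ^ 2
    + 64323450 * (10 * ρ - 13 * h) ^ 2 * (41 * h - 12 * ρ)
    + 54806538 * (10 * ρ - 13 * h) ^ 3
    + 335475 * (h - 5) * (41 * h - 12 * ρ) ^ 3
    + 8768655 * (h - 5) * (10 * ρ - 13 * h) * (41 * h - 12 * ρ) ^ 2
    + 66192201 * (h - 5) * (10 * ρ - 13 * h) ^ 2 * (41 * h - 12 * ρ)
    + 57960917 * (h - 5) * (10 * ρ - 13 * h) ^ 3
    + 160155 * (h - 5) ^ 2 * (41 * h - 12 * ρ) ^ 3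
    + 3951837 * (h - 5) ^ 2 * (10 * ρ - 13 * h) * (41 * h - 12 * ρ) ^ 2
    + 26860245 * (h - 5) ^ 2 * (10 * ρ - 13 * h) ^ 2 * (41 * h - 12 * ρ)
    + 24114531 * (h - 5) ^ 2 * (10 * ρ - 13 * h) ^ 3
    + 37033 * (h - 5) ^ 3 * (41 * h - 12 * ρ) ^ 3
    + 855517 * (h - 5) ^ 3 * (10 * ρ - 13 * h) * (41 * h - 12 * ρ) ^ 2
    + 5384219 * (h - 5) ^ 3 * (10 * ρ - 13 * h) ^ 2 * (41 * h - 12 * ρ)
    + 4948983 * (h - 5) ^ 3 * (10 * ρ - 13 * h) ^ 3
    + 4143 * (h - 5) ^ 4 * (41 * h - 12 * ρ) ^ 3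
    + 89921 * (h - 5) ^ 4 * (10 * ρ - 13 * h) * (41 * h - 12 * ρ) ^ 2
    + 534041 * (h - 5) ^ 4 * (10 * ρ - 13 * h) ^ 2 * (41 * h - 12 * ρ)
    + 502135 * (h - 5) ^ 4 * (10 * ρ - 13 * h) ^ 3
    + 180 * (h - 5) ^ 5 * (41 * h - 12 * ρ) ^ 3
    + 3696 * (h - 5) ^ 5 * (10 * ρ - 13 * h) * (41 * h - 12 * ρ) ^ 2
    + 20996 * (h - 5) ^ 5 * (10 * ρ - 13 * h) ^ 2 * (41 * h - 12 * ρ)
    + 20184 * (h - 5) ^ 5 * (10 * ρ - 13 * h) ^ 3 := by
    unfold nE nPhi
    ring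
  rw [← h2] at h1
  exact nonneg_of_mul_nonneg_right h1 (by positivity)

private theorem aux_gb5 (y u w : ℤ) (hy : 0 ≤ y) (hu : 0 ≤ u) (hw : 0 ≤ w) :
    0 ≤ 556500 * w ^ 3
    + 10861650 * u * w ^ 2
    + 51728340 * u ^ 2 * w
    + 35104566 * u ^ 3
    + 628250 * y * w ^ 3
    + 11794955 * y * u * w ^ 2
    + 57077660 * y * u ^ 2 * w
    + 43171511 * y * u ^ 3
    + 263935 * y ^ 2 * w ^ 3
    + 4915233 * y ^ 2 * u * w ^ 2
    + 24414397 * y ^ 2 * u ^ 2 * w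
    + 19971555 * y ^ 2 * u ^ 3
    + 52528 * y ^ 3 * w ^ 3
    + 990801 * y ^ 3 * u * w ^ 2
    + 5096802 * y ^ 3 * u ^ 2 * w
    + 4436049 * y ^ 3 * u ^ 3
    + 4983 * y ^ 4 * w ^ 3
    + 97009 * y ^ 4 * u * w ^ 2
    + 521617 * y ^ 4 * u ^ 2 * w
    + 478471 * y ^ 4 * u ^ 3
    + 180 * y ^ 5 * w ^ 3
    + 3696 * y ^ 5 * u * w ^ 2
    + 20996 * y ^ 5 * u ^ 2 * w
    + 20184 * y ^ 5 * u ^ 3 := by
  positivity

theorem gb5 (h ρ : ℤ) (hy : 5 ≤ h) (hu : 0 ≤ 10 * ρ - 13 * h) (hw : 0 ≤ 41 * h - 12 * ρ) :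
    0 ≤ -((h + 1) * (ρ ^ 2 + 1)) + (ρ - h) * nPhi (2 * h ^ 2) h ρ := by
  have h1 := aux_gb5 (h - 5) (10 * ρ - 13 * h) (41 * h - 12 * ρ) (by linarith) hu hw
  have h2 : 8193532 * h ^ 3 * (-((h + 1) * (ρ ^ 2 + 1)) + (ρ - h) * nPhi (2 * h ^ 2) h ρ) =
    556500 * (41 * h - 12 * ρ) ^ 3
    + 10861650 * (10 * ρ - 13 * h) * (41 * h - 12 * ρ) ^ 2
    + 51728340 * (10 * ρ - 13 * h) ^ 2 * (41 * h - 12 * ρ)
    + 35104566 * (10 * ρ - 13 * h) ^ 3
    + 628250 * (h - 5) * (41 * h - 12 * ρ) ^ 3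
    + 11794955 * (h - 5) * (10 * ρ - 13 * h) * (41 * h - 12 * ρ) ^ 2
    + 57077660 * (h - 5) * (10 * ρ - 13 * h) ^ 2 * (41 * h - 12 * ρ)
    + 43171511 * (h - 5) * (10 * ρ - 13 * h) ^ 3
    + 263935 * (h - 5) ^ 2 * (41 * h - 12 * ρ) ^ 3
    + 4915233 * (h - 5) ^ 2 * (10 * ρ - 13 * h) * (41 * h - 12 * ρ) ^ 2
    + 24414397 * (h - 5) ^ 2 * (10 * ρ - 13 * h) ^ 2 * (41 * h - 12 * ρ)
    + 19971555 * (h - 5) ^ 2 * (10 * ρ - 13 * h) ^ 3
    + 52528 * (h - 5) ^ 3 * (41 * h - 12 * ρ) ^ 3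
    + 990801 * (h - 5) ^ 3 * (10 * ρ - 13 * h) * (41 * h - 12 * ρ) ^ 2
    + 5096802 * (h - 5) ^ 3 * (10 * ρ - 13 * h) ^ 2 * (41 * h - 12 * ρ)
    + 4436049 * (h - 5) ^ 3 * (10 * ρ - 13 * h) ^ 3
    + 4983 * (h - 5) ^ 4 * (41 * h - 12 * ρ) ^ 3
    + 97009 * (h - 5) ^ 4 * (10 * ρ - 13 * h) * (41 * h - 12 * ρ) ^ 2
    + 521617 * (h - 5) ^ 4 * (10 * ρ - 13 * h) ^ 2 * (41 * h - 12 * ρ)
    + 478471 * (h - 5) ^ 4 * (10 * ρ - 13 * h) ^ 3
    + 180 * (h - 5) ^ 5 * (41 * h - 12 * ρ) ^ 3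
    + 3696 * (h - 5) ^ 5 * (10 * ρ - 13 * h) * (41 * h - 12 * ρ) ^ 2
    + 20996 * (h - 5) ^ 5 * (10 * ρ - 13 * h) ^ 2 * (41 * h - 12 * ρ)
    + 20184 * (h - 5) ^ 5 * (10 * ρ - 13 * h) ^ 3 := by
    unfold nPhi
    ring
  rw [← h2] at h1
  exact nonneg_of_mul_nonneg_right h1 (by positivity)

private theorem aux_gb6 (y u w : ℤ) (hy : 0 ≤ y) (hu : 0 ≤ u) (hw : 0 ≤ w) :
    0 ≤ 52500 * w ^ 3
    + 7180350 * u * w ^ 2
    + 65393040 * u ^ 2 * w
    + 55932366 * u ^ 3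
    + 220400 * y * w ^ 3
    + 8690935 * y * u * w ^ 2
    + 66776990 * y * u ^ 2 * w
    + 58575731 * y * u ^ 3
    + 140275 * y ^ 2 * w ^ 3
    + 3938181 * y ^ 2 * u * w ^ 2
    + 26964965 * y ^ 2 * u ^ 2 * w
    + 24225507 * y ^ 2 * u ^ 3
    + 35878 * y ^ 3 * w ^ 3
    + 854661 * y ^ 3 * u * w ^ 2
    + 5390380 * y ^ 3 * u ^ 2 * w
    + 4955613 * y ^ 3 * u ^ 3
    + 4143 * y ^ 4 * w ^ 3
    + 89921 * y ^ 4 * u * w ^ 2
    + 534041 * y ^ 4 * u ^ 2 * w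
    + 502135 * y ^ 4 * u ^ 3
    + 180 * y ^ 5 * w ^ 3
    + 3696 * y ^ 5 * u * w ^ 2
    + 20996 * y ^ 5 * u ^ 2 * w
    + 20184 * y ^ 5 * u ^ 3 := by
  positivity

theorem gb6 (h ρ : ℤ) (hy : 5 ≤ h) (hu : 0 ≤ 10 * ρ - 13 * h) (hw : 0 ≤ 41 * h - 12 * ρ) :
    0 ≤ -((h + 1) * (ρ ^ 2 + 1)) + (ρ - h) * nPhi (2 * h ^ 2 + 4 * h + 1) h ρ := by
  have h1 := aux_gb6 (h - 5) (10 * ρ - 13 * h) (41 * h - 12 * ρ) (by linarith) hu hw
  have h2 : 8193532 * h ^ 3 * (-((h + 1) * (ρ ^ 2 + 1)) + (ρ - h) * nPhi (2 * h ^ 2 + 4 * h + 1) h ρ) =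
    52500 * (41 * h - 12 * ρ) ^ 3
    + 7180350 * (10 * ρ - 13 * h) * (41 * h - 12 * ρ) ^ 2
    + 65393040 * (10 * ρ - 13 * h) ^ 2 * (41 * h - 12 * ρ)
    + 55932366 * (10 * ρ - 13 * h) ^ 3
    + 220400 * (h - 5) * (41 * h - 12 * ρ) ^ 3
    + 8690935 * (h - 5) * (10 * ρ - 13 * h) * (41 * h - 12 * ρ) ^ 2
    + 66776990 * (h - 5) * (10 * ρ - 13 * h) ^ 2 * (41 * h - 12 * ρ)
    + 58575731 * (h - 5) * (10 * ρ - 13 * h) ^ 3
    + 140275 * (h - 5) ^ 2 * (41 * h - 12 * ρ) ^ 3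
    + 3938181 * (h - 5) ^ 2 * (10 * ρ - 13 * h) * (41 * h - 12 * ρ) ^ 2
    + 26964965 * (h - 5) ^ 2 * (10 * ρ - 13 * h) ^ 2 * (41 * h - 12 * ρ)
    + 24225507 * (h - 5) ^ 2 * (10 * ρ - 13 * h) ^ 3
    + 35878 * (h - 5) ^ 3 * (41 * h - 12 * ρ) ^ 3
    + 854661 * (h - 5) ^ 3 * (10 * ρ - 13 * h) * (41 * h - 12 * ρ) ^ 2
    + 5390380 * (h - 5) ^ 3 * (10 * ρ - 13 * h) ^ 2 * (41 * h - 12 * ρ)
    + 4955613 * (h - 5) ^ 3 * (10 * ρ - 13 * h) ^ 3
    + 4143 * (h - 5) ^ 4 * (41 * h - 12 * ρ) ^ 3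
    + 89921 * (h - 5) ^ 4 * (10 * ρ - 13 * h) * (41 * h - 12 * ρ) ^ 2
    + 534041 * (h - 5) ^ 4 * (10 * ρ - 13 * h) ^ 2 * (41 * h - 12 * ρ)
    + 502135 * (h - 5) ^ 4 * (10 * ρ - 13 * h) ^ 3
    + 180 * (h - 5) ^ 5 * (41 * h - 12 * ρ) ^ 3
    + 3696 * (h - 5) ^ 5 * (10 * ρ - 13 * h) * (41 * h - 12 * ρ) ^ 2
    + 20996 * (h - 5) ^ 5 * (10 * ρ - 13 * h) ^ 2 * (41 * h - 12 * ρ)
    + 20184 * (h - 5) ^ 5 * (10 * ρ - 13 * h) ^ 3 := by
    unfold nPhi
    ring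
  rw [← h2] at h1
  exact nonneg_of_mul_nonneg_right h1 (by positivity)

theorem pr_GG_big : S_GG_big := by
  intro ρ h hρ h1 h2
  have hh : 6 ≤ h := by omega
  refine ⟨?_, ?_, ?_, ?_, ?_, ?_⟩
  · by_cases hc : 2 * ρ ≤ 5 * h
    · exact gb1a h ρ (by omega) (by omega) (by omega)
    · exact gb1b h ρ (by omega) (by omega) (by omega)
  · exact gb2 h ρ (by omega) (by omega) (by omega)
  · exact gb3 h ρ (by omega) (by omega) (by omega)
  · exact gb4 h ρ (by omega) (by omega) (by omega)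
  · exact gb5 h ρ (by omega) (by omega) (by omega)
  · exact gb6 h ρ (by omega) (by omega) (by omega)

end Pool.Agent.BagR

end

section

namespace Pool.Agent.BagR

theorem pr_red : S_red := by
  intro ρ n x z A b hρ hn hx0 hz0 hzx hxz hxn hB0 hB1 hB2 hC
  obtain ⟨t, rfl⟩ : ∃ t, n = t + 2 * ρ := ⟨n - 2 * ρ, by ring⟩
  have ht2 : 2 ≤ t := by linarith
  have htx : x + 1 ≤ t := by linarith
  have e0 : nB0 (t + 2 * ρ) ρ A = (t + 2 * ρ) * A - (t - 2) * ρ ^ 2 := by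
    unfold nB0; ring
  have e1 : nB1 (t + 2 * ρ) ρ x A = (A - 1) * (t - 1 - x) - x * ρ ^ 2 + 1 := by
    unfold nB1; ring
  have e2 : nB2 (t + 2 * ρ) ρ x z A =
      (A - 3) * (t + 2) + 12 + x - 3 * A + z * (t - x) - z * (A + ρ ^ 2 - 2) := by
    unfold nB2; ring
  have eC : nC (t + 2 * ρ) ρ x = x * (t - 3 - x - ρ ^ 2) := by
    unfold nC; ring
  have eE : nE (t + 2 * ρ) ρ A = A * (6 * t - 2 * ρ ^ 2 - 3 * A) - 10 * t + 27 - 2 * ρ ^ 2 := by
    unfold nE; ring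
  rw [e0] at hB0
  rw [e1] at hB1
  rw [e2] at hB2
  rw [eC] at hC
  rw [eE]
  obtain ⟨s, hs⟩ : ∃ s, s = ρ ^ 2 := ⟨_, rfl⟩
  have hs9 : 9 ≤ s := by rw [hs]; nlinarith
  simp only [← hs] at *
  have hA0 : 0 ≤ A := by linarith
  by_cases hb : 0 ≤ b
  · exact Or.inl hb
  right
  push Not at hb
  -- (i)
  have hAs : A < s := by
    by_contra hc
    push Not at hc
    have h1 : (t + 2 * ρ) * s ≤ (t + 2 * ρ) * A :=
      mul_le_mul_of_nonneg_left hc (by linarith)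
    have h2 : 0 ≤ ρ * s := by positivity
    nlinarith
  -- (ii)
  have hx1 : 1 ≤ x := by
    by_contra hc
    have hx : x = 0 := by omega
    subst hx
    rcases lt_or_ge A 1 with h | h
    · have hA : A = 0 := by omega
      subst hA
      have := hC rfl
      simp at this
      omega
    · have h1 : 0 ≤ (A - 1) * (t - 1) := mul_nonneg (by linarith) (by linarith)
      have : (A - 1) * (t - 1 - 0) - 0 * s + 1 = (A - 1) * (t - 1) + 1 := by ring
      rw [this] at hB1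
      linarith
  have hA1 : 1 ≤ A := by linarith
  -- (iii)
  have hz : 3 ≤ A → 1 ≤ z := by
    intro h3
    by_contra hc
    have hz : z = 0 := by omega
    subst hz
    have h1 : (A - 3) * 4 ≤ (A - 3) * (t + 2) :=
      mul_le_mul_of_nonneg_left (by linarith) (by linarith)
    simp only [zero_mul, add_zero, sub_zero] at hB2
    linarith
  -- (iv)
  have hn7 : t ≤ s + 7 := by
    by_contra hc
    push Not at hc
    have ht8 : s + 8 ≤ t := by omega
    rcases eq_or_lt_of_le (show x ≤ A by linarith) with h | h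
    · subst h
      have hz0' : z = 0 := by omega
      have hx2 : x ≤ 2 := by
        by_contra hc2
        have := hz (by omega)
        omega
      have h1 := hC rfl
      have h2 : 0 ≤ x * (t - 3 - x - s) := mul_nonneg (by linarith) (by linarith)
      linarith
    · have hxA : x + 1 ≤ A := by omega
      rcases le_or_gt (s + 1 + x) t with h1 | h1
      · have h2 : x * s ≤ (A - 1) * (t - 1 - x) := by
          apply mul_le_mul (by linarith) (by linarith) (by linarith) (by linarith)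
        linarith
      · have hx8 : 8 ≤ x := by omega
        have hA9 : 9 ≤ A := by linarith
        have hz2 : 2 * z ≤ A + 1 := by linarith
        have h2 : 0 ≤ z * (t - x) := mul_nonneg hz0 (by linarith)
        have h3 : 2 * z * (A + s - 2) ≤ (A + 1) * (A + s - 2) :=
          mul_le_mul_of_nonneg_right hz2 (by linarith)
        have h4 : (A - 3) * (s + 10) ≤ (A - 3) * (t + 2) :=
          mul_le_mul_of_nonneg_left (by linarith) (by linarith)
        have h5 : 0 ≤ (A - 9) * (s - A) := mul_nonneg (by linarith) (by linarith)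
        nlinarith
  refine ⟨by linarith, hAs, ?_⟩
  rcases le_or_gt A 2 with hA2 | hA2
  · left
    refine ⟨hA1, hA2, ?_⟩
    rcases eq_or_lt_of_le hA1 with h | h
    · -- A = 1
      have hA : A = 1 := h.symm
      have hx : x = 1 := by omega
      subst hA
      subst hx
      have h1 := hC rfl
      constructor
      · linarith
      · linarith
    · have hA : A = 2 := by omega
      subst hA
      rcases eq_or_lt_of_le hx1 with h' | h'
      · have hx : x = 1 := h'.symm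
        subst hx
        constructor
        · linarith
        · linarith
      · have hx : x = 2 := by omega
        have hz0' : z = 0 := by omega
        subst hx
        subst hz0'
        have h1 := hC rfl
        constructor
        · linarith
        · linarith
  · right
    have hA3 : 3 ≤ A := by omega
    have hz1 := hz hA3
    refine ⟨hA3, ?_⟩
    rcases le_total (A + s - 1) t with h1 | h1
    · exfalso
      rcases le_or_gt x (A - 2) with h2 | h2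
      · have h3 : (A - 1) * s ≤ (A - 1) * (t - 1 - x) :=
          mul_le_mul_of_nonneg_left (by linarith) (by linarith)
        have h4 : x * s ≤ (A - 2) * s := mul_le_mul_of_nonneg_right h2 (by linarith)
        linarith
      · have hx : x = A - 1 := by omega
        have hz' : z = 1 := by omega
        subst hz'
        subst hx
        have h3 : (A - 3) * (A + s) ≤ (A - 3) * (t + 1) :=
          mul_le_mul_of_nonneg_left (by linarith) (by linarith)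
        have h4 : 0 ≤ (A - 3) * (A + s - 2) := mul_nonneg (by linarith) (by linarith)
        nlinarith
    · have h1' : t ≤ A + s - 1 := h1
      rcases eq_or_lt_of_le h1' with h | h
      · exfalso
        subst h
        rcases le_or_gt x (A - 2) with h2 | h2
        · have h3 : (A - 1) * s ≤ (A - 1) * (A + s - 1 - 1 - x) :=
            mul_le_mul_of_nonneg_left (by linarith) (by linarith)
          have h4 : x * s ≤ (A - 2) * s := mul_le_mul_of_nonneg_right h2 (by linarith)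
          linarith
        · have hx : x = A - 1 := by omega
          have hz' : z = 1 := by omega
          subst hz'
          subst hx
          have h4 : 0 ≤ (A - 3) * (A + s - 2) := mul_nonneg (by linarith) (by linarith)
          nlinarith
      · have h2 : t ≤ A + s - 2 := by omega
        have h3 : 0 ≤ (z - 1) * (A - z - x) := mul_nonneg (by linarith) (by linarith)
        have h4 : 0 ≤ (A + 1 - 2 * z) * (2 * (2 * A + s - t - 1) - 2 * z - (A + 1)) :=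
          mul_nonneg (by linarith) (by linarith)
        nlinarith

end Pool.Agent.BagR

end

section

/-!
Item P1 of MP_bb6995_co (captain helper88): sizes of the outer parts and levels.
-/

namespace Pool.Agent.BagR

open Finset

theorem pr_card_FF (h1 : S_wid_self) (h2 : S_cover_one) : S_card_FF := by
  intro V _ _ G hG ρ hr c k
  have h := h2 V G hG (ρ + 1) (2 * k + 1) hr (univ.filter fun v => G.dist c v ≤ k)
    ⟨c, by simp⟩ (h1 V G c k)
  have hE : univ \ (univ.filter fun v => G.dist c v ≤ k) = FF G c k := by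
    ext v
    simp only [FF, mem_sdiff, mem_univ, mem_filter, true_and, not_le]
  rw [hE] at h
  omega

theorem pr_LL_nonempty : S_LL_nonempty := by
  intro V _ _ G hG ρ hr c i hi
  obtain ⟨u, hu⟩ := hr c
  obtain ⟨p, hp⟩ := hG.exists_walk_length_eq_dist c u
  refine ⟨p.getVert i, ?_⟩
  simp only [LL, mem_filter, mem_univ, true_and]
  have h1 : G.dist c (p.getVert i) ≤ i := by
    have := SimpleGraph.dist_le (p.take i)
    rw [SimpleGraph.Walk.take_length] at this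
    omega
  have h2 : G.dist (p.getVert i) u ≤ G.dist c u - i := by
    have := SimpleGraph.dist_le (p.drop i)
    rw [SimpleGraph.Walk.drop_length, hp] at this
    exact this
  have h3 := hG.dist_triangle (u := c) (v := p.getVert i) (w := u)
  omega

theorem pr_levels (h : S_LL_nonempty) : S_levels := by
  intro V _ _ G hG ρ x z n hρ hr hn c hx hz
  have h1 := (h V G hG ρ hr c 1 (by omega)).card_pos
  have h2 := (h V G hG ρ hr c 2 (by omega)).card_pos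
  have e1 : (univ : Finset V) = {c} ∪ (LL G c 1 ∪ FF G c 1) := by
    ext v
    simp only [LL, FF, mem_univ, mem_union, mem_singleton, mem_filter, true_and, true_iff]
    by_cases hv : v = c
    · exact Or.inl hv
    · right
      have : 0 < G.dist c v := hG.pos_dist_of_ne (Ne.symm hv)
      omega
  have d1 : Disjoint ({c} : Finset V) (LL G c 1 ∪ FF G c 1) := by
    rw [Finset.disjoint_singleton_left]
    simp [LL, FF]
  have d2 : Disjoint (LL G c 1) (FF G c 1) := by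
    rw [Finset.disjoint_left]
    intro v hv hv'
    simp only [LL, FF, mem_filter, mem_univ, true_and] at hv hv'
    omega
  have e2 : FF G c 1 = LL G c 2 ∪ FF G c 2 := by
    ext v
    simp only [LL, FF, mem_union, mem_filter, mem_univ, true_and]
    omega
  have d3 : Disjoint (LL G c 2) (FF G c 2) := by
    rw [Finset.disjoint_left]
    intro v hv hv'
    simp only [LL, FF, mem_filter, mem_univ, true_and] at hv hv'
    omega
  have c1 : n = 1 + ((LL G c 1).card + (FF G c 1).card) := by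
    rw [← hn, ← Finset.card_univ, e1, card_union_of_disjoint d1, card_union_of_disjoint d2,
      card_singleton]
  have c2 : (FF G c 1).card = (LL G c 2).card + (FF G c 2).card := by
    rw [e2, card_union_of_disjoint d3]
  refine ⟨by omega, by omega, by omega, by omega⟩

end Pool.Agent.BagR

end

section

/-!
# MP_bb6995_co, item P2 (helper85): the lower bound for e(c) and the tight profile
-/

set_option autoImplicit false

namespace Pool.Agent.BagR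

open Finset

namespace AuxP2

theorem sum_two (ρ : ℕ) : ∑ k ∈ Icc 1 ρ, 2 * k = ρ * (ρ + 1) := by
  induction ρ with
  | zero => simp
  | succ ρ ih =>
    rw [Finset.sum_Icc_succ_top (by omega), ih]
    ring

theorem lower (f e : ℕ → ℕ) (ρ m : ℕ) (hm : ρ ≤ m)
    (h : ∀ k ∈ Icc 1 ρ, 2 * ρ + 1 + e k ≤ f k + 2 * k) :
    ρ ^ 2 + ∑ k ∈ Icc 1 ρ, e k + ∑ k ∈ Icc (ρ + 1) m, f k ≤ ∑ k ∈ Icc 1 m, f k := by
  have h1 : ∑ k ∈ Icc 1 m, f k = ∑ k ∈ Icc 1 ρ, f k + ∑ k ∈ Icc (ρ + 1) m, f k := by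
    rw [← Finset.sum_union]
    · congr 1
      ext k
      simp only [mem_Icc, mem_union]
      omega
    · rw [Finset.disjoint_left]
      intro k hk hk'
      simp only [mem_Icc] at hk hk'
      omega
  have h2 := Finset.sum_le_sum h
  have h4 : ∑ k ∈ Icc 1 ρ, (2 * ρ + 1 + e k) = ρ * (2 * ρ + 1) + ∑ k ∈ Icc 1 ρ, e k := by
    rw [Finset.sum_add_distrib, Finset.sum_const, Nat.card_Icc, smul_eq_mul]
    simp
  have h5 : ∑ k ∈ Icc 1 ρ, (f k + 2 * k) = ∑ k ∈ Icc 1 ρ, f k + ρ * (ρ + 1) := by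
    rw [Finset.sum_add_distrib, sum_two]
  rw [h4, h5] at h2
  rw [h1]
  nlinarith

theorem FF_succ {V : Type} [Fintype V] [DecidableEq V] (G : SimpleGraph V) (c : V) (j : ℕ) :
    (FF G c j).card = (LL G c (j + 1)).card + (FF G c (j + 1)).card := by
  rw [← Finset.card_union_of_disjoint]
  · congr 1
    ext v
    simp only [FF, LL, mem_filter, mem_univ, true_and, mem_union]
    omega
  · rw [Finset.disjoint_left]
    intro v hv hv'
    simp only [FF, LL, mem_filter, mem_univ, true_and] at hv hv'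
    omega

end AuxP2

open AuxP2

theorem pr_A_ge (h1 : S_card_FF) (h2 : S_sum_FF) : S_A_ge := by
  intro V _ _ G hG ρ x z hρ hR c hx hz
  have hdist : ∀ v, G.dist c v ≤ ρ + ∑ v, G.dist c v + 1 := by
    intro v
    have := Finset.single_le_sum (f := fun v => G.dist c v) (fun _ _ => Nat.zero_le _)
      (Finset.mem_univ v)
    omega
  rw [h2 V G c (ρ + ∑ v, G.dist c v) hdist]
  have h3 := lower (fun k => (FF G c k).card)
    (fun k => (if k = 1 then x else 0) + (if k = 2 then z else 0)) ρ (ρ + ∑ v, G.dist c v)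
    (by omega) (by
      intro k hk
      have h4 := h1 V G hG ρ hR c k
      by_cases hk1 : k = 1
      · subst hk1
        simp only [if_true]
        norm_num
        omega
      · by_cases hk2 : k = 2
        · subst hk2
          norm_num
          omega
        · rw [if_neg hk1, if_neg hk2]
          omega)
  rw [Finset.sum_add_distrib, Finset.sum_ite_eq' , Finset.sum_ite_eq',
    if_pos (mem_Icc.2 ⟨le_refl 1, by omega⟩), if_pos (mem_Icc.2 ⟨by omega, by omega⟩)] at h3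
  omega

theorem pr_tight (h1 : S_card_FF) (h2 : S_sum_FF) : S_tight := by
  intro V _ _ G hG ρ x hρ hR c hx he
  set m := ρ + 1 + ∑ v, G.dist c v with hm
  have hdist : ∀ v, G.dist c v ≤ m + 1 := by
    intro v
    have := Finset.single_le_sum (f := fun v => G.dist c v) (fun _ _ => Nat.zero_le _)
      (Finset.mem_univ v)
    omega
  rw [h2 V G c m hdist] at he
  have h3 := lower (fun k => (FF G c k).card) (fun k => (FF G c k).card + 2 * k - (2 * ρ + 1))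
    ρ m (by omega) (by
      intro k hk
      have h4 := h1 V G hG ρ hR c k
      omega)
  have hfar : (FF G c (ρ + 1)).card ≤ ∑ k ∈ Icc (ρ + 1) m, (FF G c k).card :=
    Finset.single_le_sum (f := fun k => (FF G c k).card) (fun _ _ => Nat.zero_le _)
      (mem_Icc.2 ⟨le_refl _, by omega⟩)
  have hone : (FF G c 1).card + 2 * 1 - (2 * ρ + 1) ≤
      ∑ k ∈ Icc 1 ρ, ((FF G c k).card + 2 * k - (2 * ρ + 1)) :=
    Finset.single_le_sum (f := fun k => (FF G c k).card + 2 * k - (2 * ρ + 1))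
      (fun _ _ => Nat.zero_le _) (mem_Icc.2 ⟨le_refl _, by omega⟩)
  have hex : ∀ k, 2 ≤ k → k ≤ ρ → (FF G c k).card + 2 * k = 2 * ρ + 1 := by
    intro k hk2 hkρ
    have h4 := h1 V G hG ρ hR c k
    have h5 : ∑ j ∈ ({1, k} : Finset ℕ), ((FF G c j).card + 2 * j - (2 * ρ + 1)) ≤
        ∑ k ∈ Icc 1 ρ, ((FF G c k).card + 2 * k - (2 * ρ + 1)) := by
      refine Finset.sum_le_sum_of_subset ?_
      intro j hj
      simp only [mem_insert, mem_singleton] at hj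
      rw [mem_Icc]
      omega
    rw [Finset.sum_pair (by omega)] at h5
    omega
  have h0 : (FF G c (ρ + 1)).card = 0 := by omega
  refine ⟨?_, ?_, ?_, ?_, ?_⟩
  · have h5 := FF_succ G c 1
    have h6 := hex 2 le_rfl (by omega)
    norm_num at h5
    omega
  · have h5 := FF_succ G c 2
    have h6 := hex 2 le_rfl (by omega)
    have h7 := hex 3 (by omega) (by omega)
    norm_num at h5
    omega
  · intro u
    by_contra hc
    rw [Finset.card_eq_zero] at h0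
    have : u ∈ FF G c (ρ + 1) := by
      simp only [FF, mem_filter, mem_univ, true_and]
      omega
    rw [h0] at this
    simp at this
  · intro j hj3 hjρ
    obtain ⟨i, rfl⟩ : ∃ i, j = i + 1 := ⟨j - 1, by omega⟩
    have h5 := FF_succ G c i
    have h6 := hex i (by omega) (by omega)
    have h7 := hex (i + 1) (by omega) (by omega)
    omega
  · have h5 := FF_succ G c ρ
    have h6 := hex ρ (by omega) le_rfl
    omega

end Pool.Agent.BagR

end

section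

/-!
# MP_bb6995_co: item R3c
-/

namespace Pool.Agent.BagR

open Finset

/-- six different vertices -/
def R3six {V : Type} (a b c d e f : V) : Prop :=
  (a ≠ b ∧ a ≠ c ∧ a ≠ d ∧ a ≠ e ∧ a ≠ f) ∧ (b ≠ c ∧ b ≠ d ∧ b ≠ e ∧ b ≠ f) ∧
    (c ≠ d ∧ c ≠ e ∧ c ≠ f) ∧ (d ≠ e ∧ d ≠ f) ∧ e ≠ f

lemma r3c_mk {V : Type} (G : SimpleGraph V) (a b c d e f : V) (h : R3six a b c d e f)
    (h1 : 3 ≤ G.dist a b) (h2 : 3 ≤ G.dist c d) (h3 : 3 ≤ G.dist e f) : Far G 3 := by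
  obtain ⟨⟨n1, n2, n3, n4, n5⟩, ⟨n6, n7, n8, n9⟩, ⟨n10, n11, n12⟩, ⟨n13, n14⟩, n15⟩ := h
  refine ⟨![a, c, e], ![b, d, f], ?_, ?_⟩
  · rintro (i | i) (j | j) hij <;> fin_cases i <;> fin_cases j <;>
      simp_all [eq_comm]
  · intro i
    fin_cases i
    · exact h1
    · exact h2
    · exact h3

/-- context -/
structure R3ctx {V : Type} (G : SimpleGraph V) (u1 v1 u2 v2 : V) : Prop where
  conn : G.Connected
  ne1 : u1 ≠ v1
  ne2 : u1 ≠ u2
  ne3 : u1 ≠ v2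
  ne4 : v1 ≠ u2
  ne5 : v1 ≠ v2
  ne6 : u2 ≠ v2
  H1 : 3 ≤ G.dist u1 v1
  H2 : 3 ≤ G.dist u2 v2
  no : ∀ a b c d e f, R3six a b c d e f → 3 ≤ G.dist a b → 3 ≤ G.dist c d → 3 ≤ G.dist e f →
    False
  nb : ∀ w, w ≠ u1 → w ≠ v1 → w ≠ u2 → w ≠ v2 →
    3 ≤ G.dist w u1 ∨ 3 ≤ G.dist w v1 ∨ 3 ≤ G.dist w u2 ∨ 3 ≤ G.dist w v2
  ind : ∀ w w', w ≠ u1 → w ≠ v1 → w ≠ u2 → w ≠ v2 → w' ≠ u1 → w' ≠ v1 → w' ≠ u2 → w' ≠ v2 →
    ¬ 3 ≤ G.dist w w'
  two : ∃ w w', w ≠ w' ∧ (w ≠ u1 ∧ w ≠ v1 ∧ w ≠ u2 ∧ w ≠ v2) ∧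
    (w' ≠ u1 ∧ w' ≠ v1 ∧ w' ≠ u2 ∧ w' ≠ v2)

lemma r3c_sym {V : Type} {G : SimpleGraph V} {a b : V} (h : 3 ≤ G.dist a b) : 3 ≤ G.dist b a := by
  rw [SimpleGraph.dist_comm]; exact h

lemma R3ctx.swap {V : Type} {G : SimpleGraph V} {u1 v1 u2 v2 : V} (h : R3ctx G u1 v1 u2 v2) :
    R3ctx G u2 v2 u1 v1 where
  conn := h.conn
  ne1 := h.ne6
  ne2 := h.ne2.symm
  ne3 := h.ne4.symm
  ne4 := h.ne3.symm
  ne5 := h.ne5.symm
  ne6 := h.ne1
  H1 := h.H2
  H2 := h.H1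
  no := h.no
  nb := fun w a b c d => by
    rcases h.nb w c d a b with e | e | e | e
    · exact Or.inr (Or.inr (Or.inl e))
    · exact Or.inr (Or.inr (Or.inr e))
    · exact Or.inl e
    · exact Or.inr (Or.inl e)
  ind := fun w w' a b c d a' b' c' d' => h.ind w w' c d a b c' d' a' b'
  two := by
    obtain ⟨w, w', e, ⟨a, b, c, d⟩, ⟨a', b', c', d'⟩⟩ := h.two
    exact ⟨w, w', e, ⟨c, d, a, b⟩, ⟨c', d', a', b'⟩⟩

lemma R3ctx.flip {V : Type} {G : SimpleGraph V} {u1 v1 u2 v2 : V} (h : R3ctx G u1 v1 u2 v2) :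
    R3ctx G v1 u1 u2 v2 where
  conn := h.conn
  ne1 := h.ne1.symm
  ne2 := h.ne4
  ne3 := h.ne5
  ne4 := h.ne2
  ne5 := h.ne3
  ne6 := h.ne6
  H1 := r3c_sym h.H1
  H2 := h.H2
  no := h.no
  nb := fun w a b c d => by
    rcases h.nb w b a c d with e | e | e | e
    · exact Or.inr (Or.inl e)
    · exact Or.inl e
    · exact Or.inr (Or.inr (Or.inl e))
    · exact Or.inr (Or.inr (Or.inr e))
  ind := fun w w' a b c d a' b' c' d' => h.ind w w' b a c d b' a' c' d'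
  two := by
    obtain ⟨w, w', e, ⟨a, b, c, d⟩, ⟨a', b', c', d'⟩⟩ := h.two
    exact ⟨w, w', e, ⟨b, a, c, d⟩, ⟨b', a', c', d'⟩⟩

/-- (A) -/
lemma R3ctx.A {V : Type} {G : SimpleGraph V} {u1 v1 u2 v2 : V} (h : R3ctx G u1 v1 u2 v2)
    {w w' : V} (hw1 : w ≠ u1) (hw2 : w ≠ v1) (hw3 : w ≠ u2) (hw4 : w ≠ v2)
    (hw1' : w' ≠ u1) (hw2' : w' ≠ v1) (hw3' : w' ≠ u2) (hw4' : w' ≠ v2) (hww : w ≠ w')
    (e : 3 ≤ G.dist w u1) (e' : 3 ≤ G.dist w' v1) : False :=
  h.no w u1 w' v1 u2 v2 ⟨⟨hw1, hww, hw2, hw3, hw4⟩, ⟨hw1'.symm, h.ne1, h.ne2, h.ne3⟩,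
    ⟨hw2', hw3', hw4'⟩, ⟨h.ne4, h.ne5⟩, h.ne6⟩ e e' h.H2

/-- case 2 -/
lemma R3ctx.B {V : Type} [Fintype V] [DecidableEq V] {G : SimpleGraph V} {u1 v1 u2 v2 : V}
    (h : R3ctx G u1 v1 u2 v2)
    (hT : S_no_tri) {w0 : V} (hw1 : w0 ≠ u1) (hw2 : w0 ≠ v1) (hw3 : w0 ≠ u2) (hw4 : w0 ≠ v2)
    (e : 3 ≤ G.dist w0 u1) (e' : 3 ≤ G.dist w0 v1) : False := by
  have key : ∀ w, w ≠ w0 → w ≠ u1 → w ≠ v1 → w ≠ u2 → w ≠ v2 →
      3 ≤ G.dist w u2 ∨ 3 ≤ G.dist w v2 := by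
    intro w a0 a1 a2 a3 a4
    rcases h.nb w a1 a2 a3 a4 with c | c | c | c
    · exact (h.A a1 a2 a3 a4 hw1 hw2 hw3 hw4 a0 c e').elim
    · exact (h.A hw1 hw2 hw3 hw4 a1 a2 a3 a4 a0.symm e c).elim
    · exact Or.inl c
    · exact Or.inr c
  by_cases c1 : ∀ w, w ≠ w0 → w ≠ u1 → w ≠ v1 → w ≠ u2 → w ≠ v2 → 3 ≤ G.dist w u2
  · refine hT V G h.conn u2 u1 v1 w0 h.ne2.symm h.ne4.symm hw3.symm h.H1 (r3c_sym e)
      (r3c_sym e') ?_
    intro v a b c d
    by_cases hv : v = v2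
    · subst hv; exact h.H2
    · exact r3c_sym (c1 v d b c a hv)
  by_cases c2 : ∀ w, w ≠ w0 → w ≠ u1 → w ≠ v1 → w ≠ u2 → w ≠ v2 → 3 ≤ G.dist w v2
  · refine hT V G h.conn v2 u1 v1 w0 h.ne3.symm h.ne5.symm hw4.symm h.H1 (r3c_sym e)
      (r3c_sym e') ?_
    intro v a b c d
    by_cases hv : v = u2
    · subst hv; exact r3c_sym h.H2
    · exact r3c_sym (c2 v d b c hv a)
  push Not at c1 c2
  obtain ⟨w', a0, a1, a2, a3, a4, a5⟩ := c1
  obtain ⟨w'', b0, b1, b2, b3, b4, b5⟩ := c2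
  have k1 : 3 ≤ G.dist w' v2 := by
    rcases key w' a0 a1 a2 a3 a4 with c | c
    · omega
    · exact c
  have k2 : 3 ≤ G.dist w'' u2 := by
    rcases key w'' b0 b1 b2 b3 b4 with c | c
    · exact c
    · omega
  have hne : w'' ≠ w' := by
    rintro rfl; omega
  exact h.swap.A b3 b4 b1 b2 a3 a4 a1 a2 hne k2 k1

/-- case 1 -/
lemma R3ctx.C {V : Type} [Fintype V] [DecidableEq V] {G : SimpleGraph V} {u1 v1 u2 v2 : V}
    (h : R3ctx G u1 v1 u2 v2) (hR : RadGe G 3) (hF : S_far_avoid) (hT : S_no_tri)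
    (k1 : ∀ w, w ≠ u1 → w ≠ v1 → w ≠ u2 → w ≠ v2 → ¬ 3 ≤ G.dist w v1)
    (k2 : ∀ w, w ≠ u1 → w ≠ v1 → w ≠ u2 → w ≠ v2 → ¬ 3 ≤ G.dist w v2)
    {w0 : V} (hw1 : w0 ≠ u1) (hw2 : w0 ≠ v1) (hw3 : w0 ≠ u2) (hw4 : w0 ≠ v2)
    (e : 3 ≤ G.dist w0 u1) : False := by
  -- v1 ~H v2
  have hvv : 3 ≤ G.dist v1 v2 := by
    obtain ⟨p, q, a1, a2, b1, b2, hpq⟩ := hF V G h.conn hR u1 u2 h.ne2
    by_cases p1 : p = v1
    · subst p1
      by_cases q2 : q = v2
      · subst q2; exact hpq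
      · by_cases q1 : q = p
        · subst q1; simp at hpq
        · exact absurd (r3c_sym hpq) (k1 q b1 q1 b2 q2)
    · by_cases p2 : p = v2
      · subst p2
        by_cases q1 : q = v1
        · subst q1; exact r3c_sym hpq
        · by_cases q2 : q = p
          · subst q2; simp at hpq
          · exact absurd (r3c_sym hpq) (k2 q b1 q1 b2 q2)
      · by_cases q1 : q = v1
        · subst q1; exact absurd hpq (k1 p a1 p1 a2 p2)
        · by_cases q2 : q = v2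
          · subst q2; exact absurd hpq (k2 p a1 p1 a2 p2)
          · exact absurd hpq (h.ind p q a1 p1 a2 p2 b1 q1 b2 q2)
  have nb' : ∀ w, w ≠ u1 → w ≠ v1 → w ≠ u2 → w ≠ v2 → 3 ≤ G.dist w u1 ∨ 3 ≤ G.dist w u2 := by
    intro w a b c d
    rcases h.nb w a b c d with x | x | x | x
    · exact Or.inl x
    · exact absurd x (k1 w a b c d)
    · exact Or.inr x
    · exact absurd x (k2 w a b c d)
  have hA : ∀ w w', w ≠ w' → w ≠ u1 → w ≠ v1 → w ≠ u2 → w ≠ v2 →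
      w' ≠ u1 → w' ≠ v1 → w' ≠ u2 → w' ≠ v2 → 3 ≤ G.dist w u1 → ¬ 3 ≤ G.dist w' u2 := by
    intro w w' hww a b c d a' b' c' d' x y
    exact h.no w u1 w' u2 v1 v2 ⟨⟨a, hww, c, b, d⟩, ⟨a'.symm, h.ne2, h.ne1, h.ne3⟩,
      ⟨c', b', d'⟩, ⟨h.ne4.symm, h.ne6⟩, h.ne5⟩ x y hvv
  have hall1 : ∀ w, w ≠ u1 → w ≠ v1 → w ≠ u2 → w ≠ v2 → 3 ≤ G.dist w u1 := by
    intro w a b c d
    by_cases hw : w = w0
    · subst hw; exact e
    · rcases nb' w a b c d with x | x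
      · exact x
      · exact absurd x (hA w0 w (Ne.symm hw) hw1 hw2 hw3 hw4 a b c d e)
  have hall2 : ∀ w, w ≠ u1 → w ≠ v1 → w ≠ u2 → w ≠ v2 → ¬ 3 ≤ G.dist w u2 := by
    intro w a b c d
    obtain ⟨p, q, hpq, ⟨a1, a2, a3, a4⟩, ⟨b1, b2, b3, b4⟩⟩ := h.two
    by_cases hw : w = p
    · subst hw
      exact hA q w hpq.symm b1 b2 b3 b4 a b c d (hall1 q b1 b2 b3 b4)
    · exact hA p w (Ne.symm hw) a1 a2 a3 a4 a b c d (hall1 p a1 a2 a3 a4)
  -- u2 ~H v1
  have huv : 3 ≤ G.dist v1 u2 := by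
    obtain ⟨p, q, a1, a2, b1, b2, hpq⟩ := hF V G h.conn hR u1 v2 h.ne3
    by_cases p1 : p = v1
    · subst p1
      by_cases q2 : q = u2
      · subst q2; exact hpq
      · by_cases q1 : q = p
        · subst q1; simp at hpq
        · exact absurd (r3c_sym hpq) (k1 q b1 q1 q2 b2)
    · by_cases p2 : p = u2
      · subst p2
        by_cases q1 : q = v1
        · subst q1; exact r3c_sym hpq
        · by_cases q2 : q = p
          · subst q2; simp at hpq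
          · exact absurd (r3c_sym hpq) (hall2 q b1 q1 q2 b2)
      · by_cases q1 : q = v1
        · subst q1; exact absurd hpq (k1 p a1 p1 p2 a2)
        · by_cases q2 : q = u2
          · subst q2; exact absurd hpq (hall2 p a1 p1 p2 a2)
          · exact absurd hpq (h.ind p q a1 p1 p2 a2 b1 q1 q2 b2)
  refine hT V G h.conn u1 v1 v2 u2 h.ne1 h.ne3 h.ne2 hvv huv (r3c_sym h.H2) ?_
  intro v a b c d
  exact r3c_sym (hall1 v a b d c)

lemma R3ctx.D {V : Type} [Fintype V] [DecidableEq V] {G : SimpleGraph V} {u1 v1 u2 v2 : V}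
    (h : R3ctx G u1 v1 u2 v2) (hR : RadGe G 3) (hF : S_far_avoid) (hT : S_no_tri)
    (k1 : ∀ w, w ≠ u1 → w ≠ v1 → w ≠ u2 → w ≠ v2 → ¬ 3 ≤ G.dist w v1)
    (k2 : ∀ w, w ≠ u1 → w ≠ v1 → w ≠ u2 → w ≠ v2 → ¬ 3 ≤ G.dist w v2) : False := by
  obtain ⟨p, q, hpq, ⟨a1, a2, a3, a4⟩, _⟩ := h.two
  rcases h.nb p a1 a2 a3 a4 with x | x | x | x
  · exact h.C hR hF hT k1 k2 a1 a2 a3 a4 x
  · exact k1 p a1 a2 a3 a4 x
  · exact h.swap.C hR hF hT (fun w a b c d => k2 w c d a b) (fun w a b c d => k1 w c d a b)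
      a3 a4 a1 a2 x
  · exact k2 p a1 a2 a3 a4 x

/-- all -/
lemma R3ctx.E {V : Type} [Fintype V] [DecidableEq V] {G : SimpleGraph V} {u1 v1 u2 v2 : V}
    (h : R3ctx G u1 v1 u2 v2) (hR : RadGe G 3) (hF : S_far_avoid) (hT : S_no_tri) : False := by
  -- for a context, one of the two end points of the first pair has no H-neighbour outside
  have one : ∀ a b c d : V, R3ctx G a b c d →
      (∀ w, w ≠ a → w ≠ b → w ≠ c → w ≠ d → ¬ 3 ≤ G.dist w b) ∨
      (∀ w, w ≠ a → w ≠ b → w ≠ c → w ≠ d → ¬ 3 ≤ G.dist w a) := by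
    intro a b c d hc
    by_contra hcon
    push Not at hcon
    obtain ⟨⟨w, x1, x2, x3, x4, x5⟩, ⟨w', y1, y2, y3, y4, y5⟩⟩ := hcon
    by_cases hw : w' = w
    · subst hw
      exact hc.B hT x1 x2 x3 x4 y5 x5
    · exact hc.A y1 y2 y3 y4 x1 x2 x3 x4 hw y5 x5
  rcases one u1 v1 u2 v2 h with k1 | k1
  · rcases one u2 v2 u1 v1 h.swap with k2 | k2
    · exact h.D hR hF hT k1 (fun w a b c d => k2 w c d a b)
    · exact (h.swap.flip.swap).D hR hF hT (fun w a b c d => k1 w a b d c)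
        (fun w a b c d => k2 w d c a b)
  · rcases one u2 v2 u1 v1 h.swap with k2 | k2
    · exact h.flip.D hR hF hT (fun w a b c d => k1 w b a c d) (fun w a b c d => k2 w c d b a)
    · exact (h.flip.swap.flip.swap).D hR hF hT (fun w a b c d => k1 w b a d c)
        (fun w a b c d => k2 w d c b a)

theorem pr_far_three (h0 : S_cover_one) (h1 : S_far_avoid) (h2 : S_no_tri) : S_far_three := by
  intro V _ _ G hG hR
  by_contra hcon
  have hno : ∀ a b c d e f, R3six a b c d e f → 3 ≤ G.dist a b → 3 ≤ G.dist c d →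
      3 ≤ G.dist e f → False := fun a b c d e f hs x y z => hcon (r3c_mk G a b c d e f hs x y z)
  obtain ⟨v0⟩ := hG.nonempty
  have hcard : 6 ≤ Fintype.card V := by
    have := h0 V G hG 3 1 hR {v0} (Finset.singleton_nonempty v0) ⟨v0, v0, by simp, by simp⟩
    have h3 : (univ \ ({v0} : Finset V)).card + 1 = Fintype.card V := by
      rw [Finset.card_sdiff_of_subset (Finset.subset_univ _), Finset.card_singleton,
        Finset.card_univ]
      have : 0 < Fintype.card V := Fintype.card_pos_iff.mpr ⟨v0⟩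
      omega
    omega
  obtain ⟨y0, hy0⟩ := hR v0
  have hne : v0 ≠ y0 := by rintro rfl; simp at hy0
  obtain ⟨u2, v2, a1, a2, a3, a4, h22⟩ := h1 V G hG hR v0 y0 hne
  have hne2 : u2 ≠ v2 := by rintro rfl; simp at h22
  have hctx : R3ctx G v0 y0 u2 v2 := by
    refine ⟨hG, hne, a1.symm, a3.symm, a2.symm, a4.symm, hne2, hy0, h22, hno, ?_, ?_, ?_⟩
    · intro w b1 b2 b3 b4
      obtain ⟨z, hz⟩ := hR w
      by_cases c1 : z = v0
      · subst c1; exact Or.inl hz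
      by_cases c2 : z = y0
      · subst c2; exact Or.inr (Or.inl hz)
      by_cases c3 : z = u2
      · subst c3; exact Or.inr (Or.inr (Or.inl hz))
      by_cases c4 : z = v2
      · subst c4; exact Or.inr (Or.inr (Or.inr hz))
      have hwz : w ≠ z := by rintro rfl; simp at hz
      exact (hno w z v0 y0 u2 v2 ⟨⟨hwz, b1, b2, b3, b4⟩, ⟨c1, c2, c3, c4⟩,
        ⟨hne, a1.symm, a3.symm⟩, ⟨a2.symm, a4.symm⟩, hne2⟩ hz hy0 h22).elim
    · intro w z b1 b2 b3 b4 c1 c2 c3 c4 hz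
      have hwz : w ≠ z := by rintro rfl; simp at hz
      exact hno w z v0 y0 u2 v2 ⟨⟨hwz, b1, b2, b3, b4⟩, ⟨c1, c2, c3, c4⟩,
        ⟨hne, a1.symm, a3.symm⟩, ⟨a2.symm, a4.symm⟩, hne2⟩ hz hy0 h22
    · have h4 : 1 < (univ \ ({v0, y0, u2, v2} : Finset V)).card := by
        have h5 : ({v0, y0, u2, v2} : Finset V).card ≤ 4 := Finset.card_le_four
        rw [Finset.card_sdiff_of_subset (Finset.subset_univ _), Finset.card_univ]
        omega
      obtain ⟨w, hw, w', hw', hww⟩ := Finset.one_lt_card.mp h4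
      simp only [Finset.mem_sdiff, Finset.mem_univ, true_and, Finset.mem_insert,
        Finset.mem_singleton, not_or] at hw hw'
      exact ⟨w, w', hww, hw, hw'⟩
  exact hctx.E hR h1 h2

end Pool.Agent.BagR

end

section

/-!
Item R4a (helper59): radius 4, tight profile, the outer part.
-/

namespace Pool.Agent.BagR

open Finset

namespace R4a

variable {V : Type} [Fintype V] [DecidableEq V] {G : SimpleGraph V}

theorem prev (hG : G.Connected) {a b : V} (h : a ≠ b) :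
    ∃ u, G.Adj u b ∧ G.dist a b = G.dist a u + 1 := by
  obtain ⟨w, hw⟩ := hG.exists_walk_length_eq_dist b a
  cases w with
  | nil => exact absurd rfl h
  | @cons _ u _ hadj w' =>
    refine ⟨u, hadj.symm, ?_⟩
    have h1 : G.dist u a ≤ w'.length := SimpleGraph.dist_le w'
    rw [SimpleGraph.Walk.length_cons] at hw
    have h2 := hG.dist_triangle (u := a) (v := u) (w := b)
    have h3 : G.dist u b = 1 := SimpleGraph.dist_eq_one_iff_adj.2 hadj.symm
    have h4 : G.dist a u = G.dist u a := SimpleGraph.dist_comm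
    have h5 : G.dist a b = G.dist b a := SimpleGraph.dist_comm
    omega

theorem adj1 {a b : V} (h : G.Adj a b) : G.dist a b = 1 := SimpleGraph.dist_eq_one_iff_adj.2 h

theorem two_le (hG : G.Connected) {a b : V} (h : a ≠ b) (h' : ¬ G.Adj a b) : 2 ≤ G.dist a b := by
  have h1 : G.dist a b ≠ 0 := by
    intro h0
    exact h ((hG.dist_eq_zero_iff).1 h0)
  have h2 : G.dist a b ≠ 1 := fun h1 => h' (SimpleGraph.dist_eq_one_iff_adj.1 h1)
  omega

/-- levels of adjacent vertices -/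
theorem lev (hG : G.Connected) (c : V) {a b : V} (h : G.Adj a b) :
    G.dist c a ≤ G.dist c b + 1 ∧ G.dist c b ≤ G.dist c a + 1 := by
  have h1 := hG.dist_triangle (u := c) (v := a) (w := b)
  have h2 := hG.dist_triangle (u := c) (v := b) (w := a)
  have h3 := adj1 h
  have h4 := adj1 h.symm
  omega

theorem core (hG : G.Connected) (hR : RadGe G 4) (c p q s : V) (hp : G.dist c p = 3)
    (hq : G.dist c q = 3) (hs : G.dist c s = 4) (hpq : p ≠ q) (hle : ∀ u, G.dist c u ≤ 4)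
    (h3 : ∀ v, G.dist c v = 3 → v = p ∨ v = q) (h4 : ∀ v, G.dist c v = 4 → v = s)
    (hstar : ∀ y, G.dist c y = 2 → 6 ≤ G.dist y p + G.dist y q + G.dist y s)
    (hsp : G.Adj s p) :
    2 ≤ G.dist p q ∧
    (((∃ y, G.dist c y = 2 ∧ G.dist y p + G.dist y q + G.dist y s = 6) ∧
        ∀ y, G.dist c y = 2 → G.dist y p + G.dist y q + G.dist y s = 6 →
          ∃ y', G.dist c y' = 2 ∧ 4 ≤ G.dist y y') ∨
      (4 ≤ G.dist p q ∧ 5 ≤ G.dist q s ∧
        ∃ y₁, G.dist c y₁ = 2 ∧ ∃ y₂, G.dist c y₂ = 2 ∧ 2 ≤ G.dist y₁ y₂ ∧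
          8 ≤ G.dist y₂ p + G.dist y₂ q + G.dist y₂ s)) := by
  have tri : ∀ a b v, G.dist a b ≤ G.dist a v + G.dist v b := fun a b v => hG.dist_triangle
  have comm : ∀ a b, G.dist a b = G.dist b a := fun a b => SimpleGraph.dist_comm
  have hcc : G.dist c c = 0 := SimpleGraph.dist_self
  have dps : G.dist p s = 1 := adj1 hsp.symm
  have dsp : G.dist s p = 1 := adj1 hsp
  have hcp : c ≠ p := by rintro rfl; omega
  have hcq : c ≠ q := by rintro rfl; omega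
  -- lower neighbours
  obtain ⟨yp, hyp, hyp'⟩ := prev hG hcp
  obtain ⟨yq, hyq, hyq'⟩ := prev hG hcq
  have lyp : G.dist c yp = 2 := by omega
  have lyq : G.dist c yq = 2 := by omega
  -- (a)
  have ha : ∀ y, G.dist c y = 2 → G.Adj y p → ¬ G.Adj y q := by
    intro y hy h1 h2
    have e1 := adj1 h1
    have e2 := adj1 h2
    have e3 := tri y s p
    have e4 := hstar y hy
    omega
  -- (b)
  have hb : ¬ G.Adj p q := by
    intro h
    have e1 := adj1 hyp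
    have e2 := adj1 h
    have e3 := tri yp q p
    have e4 := tri yp s p
    have e5 := hstar yp lyp
    omega
  -- (c)
  have hc : ∀ y y', G.dist c y = 2 → G.dist c y' = 2 → G.Adj y p → G.Adj y' q →
      ¬ G.Adj y y' := by
    intro y y' hy hy' h1 h2 h
    have e1 := adj1 h1
    have e2 := adj1 h2
    have e3 := adj1 h
    have e4 := tri y q y'
    have e5 := tri y s p
    have e6 := hstar y hy
    omega
  refine ⟨two_le hG hpq hb, ?_⟩
  -- neighbours of s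
  have hsN : ∀ u, G.Adj u s → u = p ∨ u = q := by
    intro u hu
    have e1 := (lev hG c hu).2
    have e2 := hle u
    rcases (show G.dist c u = 3 ∨ G.dist c u = 4 by omega) with h | h
    · exact h3 u h
    · exact absurd (h4 u h) hu.ne
  by_cases hsq : G.Adj s q
  · -- case 1
    left
    have dsq : G.dist s q = 1 := adj1 hsq
    have dqs : G.dist q s = 1 := adj1 hsq.symm
    refine ⟨⟨yp, lyp, ?_⟩, ?_⟩
    · have e1 := adj1 hyp
      have e2 := tri yp s p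
      have e3 := tri yp q s
      have e4 := hstar yp lyp
      omega
    · intro y hy hsum
      have hyp1 : y ≠ p := by rintro rfl; omega
      have hyq1 : y ≠ q := by rintro rfl; omega
      have hys1 : y ≠ s := by rintro rfl; omega
      have hadj : G.Adj y p ∨ G.Adj y q := by
        by_contra hnot
        push Not at hnot
        have e1 := two_le hG hyp1 hnot.1
        have e2 := two_le hG hyq1 hnot.2
        obtain ⟨u, hu1, hu2⟩ := prev hG hys1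
        rcases hsN u hu1 with rfl | rfl <;> omega
      have hbnd : G.dist y p ≤ 3 ∧ G.dist y q ≤ 3 ∧ G.dist y s ≤ 3 := by
        rcases hadj with h | h
        · have e1 := adj1 h
          have e2 := tri y s p
          have e3 := tri y q s
          omega
        · have e1 := adj1 h
          have e2 := tri y s q
          have e3 := tri y p s
          omega
      obtain ⟨u, hu⟩ := hR y
      refine ⟨u, ?_, hu⟩
      have e1 := tri y u c
      rw [comm y c] at e1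
      have e2 := hle u
      rcases (show G.dist c u = 2 ∨ G.dist c u = 3 ∨ G.dist c u = 4 by omega) with h | h | h
      · exact h
      · rcases h3 u h with rfl | rfl <;> omega
      · rw [h4 u h] at hu; omega
  · -- case 2
    right
    have hsN' : ∀ u, G.Adj u s → u = p := by
      intro u hu
      rcases hsN u hu with h | h
      · exact h
      · rw [h] at hu; exact absurd hu.symm hsq
    have hds : ∀ v, v ≠ s → G.dist v s = G.dist v p + 1 := by
      intro v hv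
      obtain ⟨u, hu1, hu2⟩ := prev hG hv
      rw [hsN' u hu1] at hu2
      exact hu2
    have hQ : ∀ y', G.dist c y' = 2 → G.Adj y' q → 3 ≤ G.dist y' p := by
      intro y' hy' h
      have hne : y' ≠ p := by rintro rfl; omega
      have hnadj : ¬ G.Adj y' p := fun h1 => ha y' hy' h1 h
      have e1 := two_le hG hne hnadj
      by_contra hlt
      have e2 : G.dist y' p = 2 := by omega
      obtain ⟨u, hu1, hu2⟩ := prev hG hne
      have e3 : G.dist y' u = 1 := by omega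
      have e4 : G.Adj y' u := SimpleGraph.dist_eq_one_iff_adj.1 e3
      have e5 := lev hG c hu1
      have e6 := lev hG c e4
      have e7 := hle u
      rcases (show G.dist c u = 2 ∨ G.dist c u = 3 ∨ G.dist c u = 4 by omega) with h' | h' | h'
      · exact hc u y' h' hy' hu1 h e4.symm
      · rcases h3 u h' with rfl | rfl
        · exact hu1.ne rfl
        · exact hb hu1.symm
      · omega
    have hqp : 4 ≤ G.dist p q := by
      obtain ⟨u, hu1, hu2⟩ := prev hG hpq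
      have e5 := lev hG c hu1
      have e7 := hle u
      rcases (show G.dist c u = 2 ∨ G.dist c u = 3 ∨ G.dist c u = 4 by omega) with h' | h' | h'
      · have e8 := hQ u h' hu1
        rw [comm u p] at e8
        omega
      · rcases h3 u h' with rfl | rfl
        · exact absurd hu1 hb
        · exact absurd rfl hu1.ne
      · rw [h4 u h'] at hu1
        exact absurd hu1 hsq
    have hqs : q ≠ s := by rintro rfl; omega
    have hyqs : yq ≠ s := by rintro rfl; omega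
    refine ⟨hqp, ?_, yp, lyp, yq, lyq, ?_, ?_⟩
    · rw [hds q hqs, comm q p]; omega
    · refine two_le hG ?_ (hc yp yq lyp lyq hyp hyq)
      rintro rfl
      exact ha yp lyp hyp hyq
    · have e1 := hQ yq lyq hyq
      have e2 := hds yq hyqs
      have e3 := adj1 hyq
      omega

end R4a

open R4a in
theorem pr_four_struct (h1 : S_tight) (h2 : S_s2_two) : S_four_struct := by
  intro V _ _ G hG hR c x hcard hsum
  obtain ⟨t1, t2, t3, _, t5⟩ := h1 V G hG 3 x le_rfl hR c (by omega) (by omega)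
  refine ⟨t1, ?_⟩
  obtain ⟨p, q, hpq, hLL3⟩ := Finset.card_eq_two.1 t2
  obtain ⟨s, hLL4⟩ := Finset.card_eq_one.1 t5
  have hle : ∀ u, G.dist c u ≤ 4 := t3
  have m3 : ∀ v, G.dist c v = 3 ↔ v = p ∨ v = q := by
    intro v
    have : v ∈ LL G c 3 ↔ v ∈ ({p, q} : Finset V) := by rw [hLL3]
    simpa [LL] using this
  have m4 : ∀ v, G.dist c v = 4 ↔ v = s := by
    intro v
    have : v ∈ LL G c (3 + 1) ↔ v ∈ ({s} : Finset V) := by rw [hLL4]
    simpa [LL] using this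
  have hp := (m3 p).2 (Or.inl rfl)
  have hq := (m3 q).2 (Or.inr rfl)
  have hs := (m4 s).2 rfl
  have hps : p ≠ s := by rintro rfl; omega
  have hqs : q ≠ s := by rintro rfl; omega
  have hFF : FF G c 2 = {p, q, s} := by
    ext v
    simp only [FF, mem_filter, mem_univ, true_and, mem_insert, mem_singleton]
    have e1 := hle v
    constructor
    · intro h
      rcases (show G.dist c v = 3 ∨ G.dist c v = 4 by omega) with h' | h'
      · rcases (m3 v).1 h' with h'' | h''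
        · exact Or.inl h''
        · exact Or.inr (Or.inl h'')
      · exact Or.inr (Or.inr ((m4 v).1 h'))
    · rintro (rfl | rfl | rfl) <;> omega
  have hstar : ∀ y, G.dist c y = 2 → 6 ≤ G.dist y p + G.dist y q + G.dist y s := by
    intro y hy
    have e1 := h2 V G hG 3 le_rfl hR c y hy
    have e2 : eS G (FF G c 2) y = (G.dist y p - 1) + ((G.dist y q - 1) + (G.dist y s - 1)) := by
      unfold eS
      rw [hFF, Finset.sum_insert (by simp [hpq, hps]), Finset.sum_insert (by simp [hqs]),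
        Finset.sum_singleton]
    rw [e2] at e1
    have e3 := hG.dist_triangle (u := c) (v := y) (w := p)
    have e4 := hG.dist_triangle (u := c) (v := y) (w := q)
    have e5 := hG.dist_triangle (u := c) (v := y) (w := s)
    omega
  have memLL : ∀ y, y ∈ LL G c 2 ↔ G.dist c y = 2 := by intro y; simp [LL]
  -- s has a lower neighbour
  have hcs : c ≠ s := by
    rintro rfl
    rw [SimpleGraph.dist_self] at hs; omega
  obtain ⟨u, hu1, hu2⟩ := prev hG hcs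
  have hu3 : G.dist c u = 3 := by omega
  rcases (m3 u).1 hu3 with rfl | rfl
  · obtain ⟨k1, k2⟩ := core hG hR c u q s hp hq hs hpq hle (fun v h => (m3 v).1 h)
      (fun v h => (m4 v).1 h) hstar hu1.symm
    refine ⟨u, q, s, hpq, hps, hqs, hFF, k1, fun y hy => hstar y ((memLL y).1 hy), ?_⟩
    rcases k2 with ⟨⟨y, y1, y2⟩, k3⟩ | ⟨k3, k4, y1, y2, y3, y4, y5, y6⟩
    · left
      refine ⟨⟨y, (memLL y).2 y1, y2⟩, fun z hz hz' => ?_⟩
      obtain ⟨w, w1, w2⟩ := k3 z ((memLL z).1 hz) hz'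
      exact ⟨w, (memLL w).2 w1, w2⟩
    · right
      exact ⟨k3, k4, y1, (memLL _).2 y2, y3, (memLL _).2 y4, y5, y6⟩
  · obtain ⟨k1, k2⟩ := core hG hR c u p s hq hp hs hpq.symm hle (fun v h => ((m3 v).1 h).symm)
      (fun v h => (m4 v).1 h) (fun y hy => by have := hstar y hy; omega) hu1.symm
    refine ⟨u, p, s, hpq.symm, hqs, hps, ?_, k1, fun y hy => ?_, ?_⟩
    · rw [hFF, Finset.insert_comm]
    · have := hstar y ((memLL y).1 hy); omega
    · rcases k2 with ⟨⟨y, y1, y2⟩, k3⟩ | ⟨k3, k4, y1, y2, y3, y4, y5, y6⟩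
      · left
        refine ⟨⟨y, (memLL y).2 y1, y2⟩, fun z hz hz' => ?_⟩
        obtain ⟨w, w1, w2⟩ := k3 z ((memLL z).1 hz) hz'
        exact ⟨w, (memLL w).2 w1, w2⟩
      · right
        exact ⟨k3, k4, y1, (memLL _).2 y2, y3, (memLL _).2 y4, y5, y6⟩

end Pool.Agent.BagR

end

section

/-!
Radius 4, `x = 1` and `x = 2`: the outer double sum, MP_bb6995_co.
-/

set_option autoImplicit false

namespace Pool.Agent.BagR

open Finset

theorem R4b_num1 (t1 t2 t3 a b c : ℕ) (h1 : 6 ≤ t1) (h2 : 6 ≤ t2) (h3 : 6 ≤ t3)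
    (ha : 1 ≤ a) (hb : 1 ≤ b) (hc : 1 ≤ c) (ta : a ≤ b + c) (tb : b ≤ a + c) (tc : c ≤ a + b)
    (hex : t1 = 6 ∨ t2 = 6 ∨ t3 = 6) (k1 : t1 = 6 → 4 ≤ a ∨ 4 ≤ b) (k2 : t2 = 6 → 4 ≤ a ∨ 4 ≤ c)
    (k3 : t3 = 6 → 4 ≤ b ∨ 4 ≤ c) : 27 ≤ t1 + t2 + t3 + a + b + c := by
  omega

theorem R4b_num2 (t1 t2 t3 t4 a12 a13 a14 a23 a24 a34 : ℕ) (h1 : 6 ≤ t1) (h2 : 6 ≤ t2)
    (h3 : 6 ≤ t3) (h4 : 6 ≤ t4) (p12 : 1 ≤ a12) (p13 : 1 ≤ a13) (p14 : 1 ≤ a14) (p23 : 1 ≤ a23)
    (p24 : 1 ≤ a24) (p34 : 1 ≤ a34)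
    (t123 : a12 ≤ a13 + a23) (t132 : a13 ≤ a12 + a23) (t231 : a23 ≤ a12 + a13)
    (t124 : a12 ≤ a14 + a24) (t142 : a14 ≤ a12 + a24) (t241 : a24 ≤ a12 + a14)
    (t134 : a13 ≤ a14 + a34) (t143 : a14 ≤ a13 + a34) (t341 : a34 ≤ a13 + a14)
    (t234 : a23 ≤ a24 + a34) (t243 : a24 ≤ a23 + a34) (t342 : a34 ≤ a23 + a24)
    (hex : t1 = 6 ∨ t2 = 6 ∨ t3 = 6 ∨ t4 = 6)
    (k1 : t1 = 6 → 4 ≤ a12 ∨ 4 ≤ a13 ∨ 4 ≤ a14) (k2 : t2 = 6 → 4 ≤ a12 ∨ 4 ≤ a23 ∨ 4 ≤ a24)
    (k3 : t3 = 6 → 4 ≤ a13 ∨ 4 ≤ a23 ∨ 4 ≤ a34) (k4 : t4 = 6 → 4 ≤ a14 ∨ 4 ≤ a24 ∨ 4 ≤ a34) :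
    39 ≤ t1 + t2 + t3 + t4 + a12 + a13 + a14 + a23 + a24 + a34 := by
  by_contra hcon
  rcases Nat.eq_or_lt_of_le h1 with e1 | e1 <;> rcases Nat.eq_or_lt_of_le h2 with e2 | e2 <;>
    rcases Nat.eq_or_lt_of_le h3 with e3 | e3 <;> rcases Nat.eq_or_lt_of_le h4 with e4 | e4
  all_goals omega

theorem R4b_split {V : Type} [Fintype V] [DecidableEq V] (G : SimpleGraph V) (c : V) :
    FF G c 1 = LL G c 2 ∪ FF G c 2 := by
  ext v
  simp only [FF, LL, Finset.mem_union, Finset.mem_filter, Finset.mem_univ, true_and]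
  omega

theorem R4b_disj {V : Type} [Fintype V] [DecidableEq V] (G : SimpleGraph V) (c : V) (y u : V)
    (hy : y ∈ LL G c 2) (hu : u ∈ FF G c 2) : y ≠ u := by
  rintro rfl
  simp only [FF, LL, Finset.mem_filter, Finset.mem_univ, true_and] at hy hu
  omega

theorem pr_four_one (h : S_four_struct) : S_four_one := by
  intro V _ _ G hG hr c hF he
  obtain ⟨hL, p, q, s, hpq, hps, hqs, hF2, dpq, h6, halt⟩ := h V G hG hr c 1 (by omega) (by omega)
  obtain ⟨y1, y2, y3, n12, n13, n23, hLL⟩ := Finset.card_eq_three.1 (show (LL G c 2).card = 3 by omega)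
  have my1 : y1 ∈ LL G c 2 := by rw [hLL]; simp
  have my2 : y2 ∈ LL G c 2 := by rw [hLL]; simp
  have my3 : y3 ∈ LL G c 2 := by rw [hLL]; simp
  have mp : p ∈ FF G c 2 := by rw [hF2]; simp
  have mq : q ∈ FF G c 2 := by rw [hF2]; simp
  have ms : s ∈ FF G c 2 := by rw [hF2]; simp
  have n1p := R4b_disj G c y1 p my1 mp
  have n1q := R4b_disj G c y1 q my1 mq
  have n1s := R4b_disj G c y1 s my1 ms
  have n2p := R4b_disj G c y2 p my2 mp
  have n2q := R4b_disj G c y2 q my2 mq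
  have n2s := R4b_disj G c y2 s my2 ms
  have n3p := R4b_disj G c y3 p my3 mp
  have n3q := R4b_disj G c y3 q my3 mq
  have n3s := R4b_disj G c y3 s my3 ms
  have hU : FF G c 1 = {y1, y2, y3, p, q, s} := by
    rw [R4b_split, hLL, hF2]
    ext v
    simp only [Finset.mem_union, Finset.mem_insert, Finset.mem_singleton]
    tauto
  have key : ∀ f : V → ℕ, ∑ u ∈ FF G c 1, f u = f y1 + f y2 + f y3 + f p + f q + f s := by
    intro f
    rw [hU]
    rw [Finset.sum_insert (by simp [n12, n13, n1p, n1q, n1s])]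
    rw [Finset.sum_insert (by simp [n23, n2p, n2q, n2s])]
    rw [Finset.sum_insert (by simp [n3p, n3q, n3s])]
    rw [Finset.sum_insert (by simp [hpq, hps])]
    rw [Finset.sum_insert (by simp [hqs])]
    rw [Finset.sum_singleton]
    ring
  have tri : ∀ a b d : V, G.dist a d ≤ G.dist a b + G.dist b d := fun a b d => hG.dist_triangle
  have sym : ∀ a b : V, G.dist a b = G.dist b a := fun a b => SimpleGraph.dist_comm
  unfold eS
  simp only [key]
  obtain ⟨f, hf⟩ : ∃ f : V → V → ℕ, ∀ a b, f a b = G.dist a b - 1 := ⟨_, fun _ _ => rfl⟩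
  have f0 : ∀ a, f a a = 0 := fun a => by rw [hf, SimpleGraph.dist_self]
  have fs : ∀ a b, f a b = f b a := fun a b => by rw [hf, hf, sym]
  have fd : ∀ a b, a ≠ b → G.dist a b = f a b + 1 := fun a b hab => by
    have := hG.pos_dist_of_ne hab
    rw [hf]; omega
  simp only [← hf, f0]
  rw [fs y2 y1, fs y3 y1, fs p y1, fs q y1, fs s y1, fs y3 y2, fs p y2, fs q y2, fs s y2, fs p y3, fs q y3, fs s y3, fs q p, fs s p, fs s q]
  have dy1y2 := fd y1 y2 n12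
  have dy1y3 := fd y1 y3 n13
  have dy1p := fd y1 p n1p
  have dy1q := fd y1 q n1q
  have dy1s := fd y1 s n1s
  have dy2y3 := fd y2 y3 n23
  have dy2p := fd y2 p n2p
  have dy2q := fd y2 q n2q
  have dy2s := fd y2 s n2s
  have dy3p := fd y3 p n3p
  have dy3q := fd y3 q n3q
  have dy3s := fd y3 s n3s
  have dpq := fd p q hpq
  have dps := fd p s hps
  have dqs := fd q s hqs
  have sy1 := h6 y1 my1
  have sy2 := h6 y2 my2
  have sy3 := h6 y3 my3
  have T0 : G.dist y1 y2 ≤ G.dist y1 y3 + G.dist y2 y3 := by have := tri y1 y3 y2; rw [sym y3 y2] at this; exact this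
  have T1 : G.dist y1 y3 ≤ G.dist y1 y2 + G.dist y2 y3 := tri y1 y2 y3
  have T2 : G.dist y2 y3 ≤ G.dist y1 y2 + G.dist y1 y3 := by have := tri y2 y1 y3; rw [sym y2 y1] at this; exact this
  rcases halt with ⟨hex, hall⟩ | ⟨g1, g2, w1, hw1, w2, hw2, g3, g4⟩
  · have hmem : ∀ w, w ∈ LL G c 2 ↔ w = y1 ∨ w = y2 ∨ w = y3 := by intro w; rw [hLL]; simp
    have hex2 : G.dist y1 p + G.dist y1 q + G.dist y1 s = 6 ∨ G.dist y2 p + G.dist y2 q + G.dist y2 s = 6 ∨ G.dist y3 p + G.dist y3 q + G.dist y3 s = 6 := by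
      obtain ⟨w, hw, hw6⟩ := hex
      rcases (hmem w).1 hw with rfl | rfl | rfl
      · exact Or.inl hw6
      · exact Or.inr (Or.inl hw6)
      · exact Or.inr (Or.inr (hw6))
    have ky1 : G.dist y1 p + G.dist y1 q + G.dist y1 s = 6 → 4 ≤ G.dist y1 y2 ∨ 4 ≤ G.dist y1 y3 := by
      intro h6y
      obtain ⟨w, hw, hw4⟩ := hall y1 my1 h6y
      rcases (hmem w).1 hw with rfl | rfl | rfl
      · rw [SimpleGraph.dist_self] at hw4; omega
      · exact Or.inl hw4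
      · exact Or.inr (hw4)
    have ky2 : G.dist y2 p + G.dist y2 q + G.dist y2 s = 6 → 4 ≤ G.dist y1 y2 ∨ 4 ≤ G.dist y2 y3 := by
      intro h6y
      obtain ⟨w, hw, hw4⟩ := hall y2 my2 h6y
      rcases (hmem w).1 hw with rfl | rfl | rfl
      · rw [sym] at hw4; exact Or.inl hw4
      · rw [SimpleGraph.dist_self] at hw4; omega
      · exact Or.inr (hw4)
    have ky3 : G.dist y3 p + G.dist y3 q + G.dist y3 s = 6 → 4 ≤ G.dist y1 y3 ∨ 4 ≤ G.dist y2 y3 := by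
      intro h6y
      obtain ⟨w, hw, hw4⟩ := hall y3 my3 h6y
      rcases (hmem w).1 hw with rfl | rfl | rfl
      · rw [sym] at hw4; exact Or.inl hw4
      · rw [sym] at hw4; exact Or.inr (hw4)
      · rw [SimpleGraph.dist_self] at hw4; omega
    have num := R4b_num1 (G.dist y1 p + G.dist y1 q + G.dist y1 s) (G.dist y2 p + G.dist y2 q + G.dist y2 s) (G.dist y3 p + G.dist y3 q + G.dist y3 s) (G.dist y1 y2) (G.dist y1 y3) (G.dist y2 y3) sy1 sy2 sy3 (by omega) (by omega) (by omega) (by omega) (by omega) (by omega) hex2 ky1 ky2 ky3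
    omega
  · have hmem : ∀ w, w ∈ LL G c 2 ↔ w = y1 ∨ w = y2 ∨ w = y3 := by intro w; rw [hLL]; simp
    have hsum : 20 ≤ (G.dist y1 p + G.dist y1 q + G.dist y1 s) + (G.dist y2 p + G.dist y2 q + G.dist y2 s) + (G.dist y3 p + G.dist y3 q + G.dist y3 s) := by
      rcases (hmem w2).1 hw2 with rfl | rfl | rfl <;> omega
    omega

theorem pr_four_two (h : S_four_struct) : S_four_two := by
  intro V _ _ G hG hr c hF he
  obtain ⟨hL, p, q, s, hpq, hps, hqs, hF2, dpq, h6, halt⟩ := h V G hG hr c 2 (by omega) (by omega)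
  obtain ⟨y1, t, hy1, ht, htc⟩ := Finset.card_eq_succ.1 (show (LL G c 2).card = 3 + 1 by omega)
  obtain ⟨y2, y3, y4, n23, n24, n34, rfl⟩ := Finset.card_eq_three.1 htc
  have hLL : LL G c 2 = {y1, y2, y3, y4} := ht.symm
  simp only [Finset.mem_insert, Finset.mem_singleton, not_or] at hy1
  obtain ⟨n12, n13, n14⟩ := hy1
  have my1 : y1 ∈ LL G c 2 := by rw [hLL]; simp
  have my2 : y2 ∈ LL G c 2 := by rw [hLL]; simp
  have my3 : y3 ∈ LL G c 2 := by rw [hLL]; simp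
  have my4 : y4 ∈ LL G c 2 := by rw [hLL]; simp
  have mp : p ∈ FF G c 2 := by rw [hF2]; simp
  have mq : q ∈ FF G c 2 := by rw [hF2]; simp
  have ms : s ∈ FF G c 2 := by rw [hF2]; simp
  have n1p := R4b_disj G c y1 p my1 mp
  have n1q := R4b_disj G c y1 q my1 mq
  have n1s := R4b_disj G c y1 s my1 ms
  have n2p := R4b_disj G c y2 p my2 mp
  have n2q := R4b_disj G c y2 q my2 mq
  have n2s := R4b_disj G c y2 s my2 ms
  have n3p := R4b_disj G c y3 p my3 mp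
  have n3q := R4b_disj G c y3 q my3 mq
  have n3s := R4b_disj G c y3 s my3 ms
  have n4p := R4b_disj G c y4 p my4 mp
  have n4q := R4b_disj G c y4 q my4 mq
  have n4s := R4b_disj G c y4 s my4 ms
  have hU : FF G c 1 = {y1, y2, y3, y4, p, q, s} := by
    rw [R4b_split, hLL, hF2]
    ext v
    simp only [Finset.mem_union, Finset.mem_insert, Finset.mem_singleton]
    tauto
  have key : ∀ f : V → ℕ, ∑ u ∈ FF G c 1, f u = f y1 + f y2 + f y3 + f y4 + f p + f q + f s := by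
    intro f
    rw [hU]
    rw [Finset.sum_insert (by simp [n12, n13, n14, n1p, n1q, n1s])]
    rw [Finset.sum_insert (by simp [n23, n24, n2p, n2q, n2s])]
    rw [Finset.sum_insert (by simp [n34, n3p, n3q, n3s])]
    rw [Finset.sum_insert (by simp [n4p, n4q, n4s])]
    rw [Finset.sum_insert (by simp [hpq, hps])]
    rw [Finset.sum_insert (by simp [hqs])]
    rw [Finset.sum_singleton]
    ring
  have tri : ∀ a b d : V, G.dist a d ≤ G.dist a b + G.dist b d := fun a b d => hG.dist_triangle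
  have sym : ∀ a b : V, G.dist a b = G.dist b a := fun a b => SimpleGraph.dist_comm
  unfold eS
  simp only [key]
  obtain ⟨f, hf⟩ : ∃ f : V → V → ℕ, ∀ a b, f a b = G.dist a b - 1 := ⟨_, fun _ _ => rfl⟩
  have f0 : ∀ a, f a a = 0 := fun a => by rw [hf, SimpleGraph.dist_self]
  have fs : ∀ a b, f a b = f b a := fun a b => by rw [hf, hf, sym]
  have fd : ∀ a b, a ≠ b → G.dist a b = f a b + 1 := fun a b hab => by
    have := hG.pos_dist_of_ne hab
    rw [hf]; omega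
  simp only [← hf, f0]
  rw [fs y2 y1, fs y3 y1, fs y4 y1, fs p y1, fs q y1, fs s y1, fs y3 y2, fs y4 y2, fs p y2, fs q y2, fs s y2, fs y4 y3, fs p y3, fs q y3, fs s y3, fs p y4, fs q y4, fs s y4, fs q p, fs s p, fs s q]
  have dy1y2 := fd y1 y2 n12
  have dy1y3 := fd y1 y3 n13
  have dy1y4 := fd y1 y4 n14
  have dy1p := fd y1 p n1p
  have dy1q := fd y1 q n1q
  have dy1s := fd y1 s n1s
  have dy2y3 := fd y2 y3 n23
  have dy2y4 := fd y2 y4 n24
  have dy2p := fd y2 p n2p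
  have dy2q := fd y2 q n2q
  have dy2s := fd y2 s n2s
  have dy3y4 := fd y3 y4 n34
  have dy3p := fd y3 p n3p
  have dy3q := fd y3 q n3q
  have dy3s := fd y3 s n3s
  have dy4p := fd y4 p n4p
  have dy4q := fd y4 q n4q
  have dy4s := fd y4 s n4s
  have dpq := fd p q hpq
  have dps := fd p s hps
  have dqs := fd q s hqs
  have sy1 := h6 y1 my1
  have sy2 := h6 y2 my2
  have sy3 := h6 y3 my3
  have sy4 := h6 y4 my4
  have T0 : G.dist y1 y2 ≤ G.dist y1 y3 + G.dist y2 y3 := by have := tri y1 y3 y2; rw [sym y3 y2] at this; exact this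
  have T1 : G.dist y1 y3 ≤ G.dist y1 y2 + G.dist y2 y3 := tri y1 y2 y3
  have T2 : G.dist y2 y3 ≤ G.dist y1 y2 + G.dist y1 y3 := by have := tri y2 y1 y3; rw [sym y2 y1] at this; exact this
  have T3 : G.dist y1 y2 ≤ G.dist y1 y4 + G.dist y2 y4 := by have := tri y1 y4 y2; rw [sym y4 y2] at this; exact this
  have T4 : G.dist y1 y4 ≤ G.dist y1 y2 + G.dist y2 y4 := tri y1 y2 y4
  have T5 : G.dist y2 y4 ≤ G.dist y1 y2 + G.dist y1 y4 := by have := tri y2 y1 y4; rw [sym y2 y1] at this; exact this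
  have T6 : G.dist y1 y3 ≤ G.dist y1 y4 + G.dist y3 y4 := by have := tri y1 y4 y3; rw [sym y4 y3] at this; exact this
  have T7 : G.dist y1 y4 ≤ G.dist y1 y3 + G.dist y3 y4 := tri y1 y3 y4
  have T8 : G.dist y3 y4 ≤ G.dist y1 y3 + G.dist y1 y4 := by have := tri y3 y1 y4; rw [sym y3 y1] at this; exact this
  have T9 : G.dist y2 y3 ≤ G.dist y2 y4 + G.dist y3 y4 := by have := tri y2 y4 y3; rw [sym y4 y3] at this; exact this
  have T10 : G.dist y2 y4 ≤ G.dist y2 y3 + G.dist y3 y4 := tri y2 y3 y4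
  have T11 : G.dist y3 y4 ≤ G.dist y2 y3 + G.dist y2 y4 := by have := tri y3 y2 y4; rw [sym y3 y2] at this; exact this
  rcases halt with ⟨hex, hall⟩ | ⟨g1, g2, w1, hw1, w2, hw2, g3, g4⟩
  · have hmem : ∀ w, w ∈ LL G c 2 ↔ w = y1 ∨ w = y2 ∨ w = y3 ∨ w = y4 := by intro w; rw [hLL]; simp
    have hex2 : G.dist y1 p + G.dist y1 q + G.dist y1 s = 6 ∨ G.dist y2 p + G.dist y2 q + G.dist y2 s = 6 ∨ G.dist y3 p + G.dist y3 q + G.dist y3 s = 6 ∨ G.dist y4 p + G.dist y4 q + G.dist y4 s = 6 := by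
      obtain ⟨w, hw, hw6⟩ := hex
      rcases (hmem w).1 hw with rfl | rfl | rfl | rfl
      · exact Or.inl hw6
      · exact Or.inr (Or.inl hw6)
      · exact Or.inr (Or.inr (Or.inl hw6))
      · exact Or.inr (Or.inr (Or.inr (hw6)))
    have ky1 : G.dist y1 p + G.dist y1 q + G.dist y1 s = 6 → 4 ≤ G.dist y1 y2 ∨ 4 ≤ G.dist y1 y3 ∨ 4 ≤ G.dist y1 y4 := by
      intro h6y
      obtain ⟨w, hw, hw4⟩ := hall y1 my1 h6y
      rcases (hmem w).1 hw with rfl | rfl | rfl | rfl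
      · rw [SimpleGraph.dist_self] at hw4; omega
      · exact Or.inl hw4
      · exact Or.inr (Or.inl hw4)
      · exact Or.inr (Or.inr (hw4))
    have ky2 : G.dist y2 p + G.dist y2 q + G.dist y2 s = 6 → 4 ≤ G.dist y1 y2 ∨ 4 ≤ G.dist y2 y3 ∨ 4 ≤ G.dist y2 y4 := by
      intro h6y
      obtain ⟨w, hw, hw4⟩ := hall y2 my2 h6y
      rcases (hmem w).1 hw with rfl | rfl | rfl | rfl
      · rw [sym] at hw4; exact Or.inl hw4
      · rw [SimpleGraph.dist_self] at hw4; omega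
      · exact Or.inr (Or.inl hw4)
      · exact Or.inr (Or.inr (hw4))
    have ky3 : G.dist y3 p + G.dist y3 q + G.dist y3 s = 6 → 4 ≤ G.dist y1 y3 ∨ 4 ≤ G.dist y2 y3 ∨ 4 ≤ G.dist y3 y4 := by
      intro h6y
      obtain ⟨w, hw, hw4⟩ := hall y3 my3 h6y
      rcases (hmem w).1 hw with rfl | rfl | rfl | rfl
      · rw [sym] at hw4; exact Or.inl hw4
      · rw [sym] at hw4; exact Or.inr (Or.inl hw4)
      · rw [SimpleGraph.dist_self] at hw4; omega
      · exact Or.inr (Or.inr (hw4))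
    have ky4 : G.dist y4 p + G.dist y4 q + G.dist y4 s = 6 → 4 ≤ G.dist y1 y4 ∨ 4 ≤ G.dist y2 y4 ∨ 4 ≤ G.dist y3 y4 := by
      intro h6y
      obtain ⟨w, hw, hw4⟩ := hall y4 my4 h6y
      rcases (hmem w).1 hw with rfl | rfl | rfl | rfl
      · rw [sym] at hw4; exact Or.inl hw4
      · rw [sym] at hw4; exact Or.inr (Or.inl hw4)
      · rw [sym] at hw4; exact Or.inr (Or.inr (hw4))
      · rw [SimpleGraph.dist_self] at hw4; omega
    have num := R4b_num2 (G.dist y1 p + G.dist y1 q + G.dist y1 s) (G.dist y2 p + G.dist y2 q + G.dist y2 s) (G.dist y3 p + G.dist y3 q + G.dist y3 s) (G.dist y4 p + G.dist y4 q + G.dist y4 s) (G.dist y1 y2) (G.dist y1 y3) (G.dist y1 y4) (G.dist y2 y3) (G.dist y2 y4) (G.dist y3 y4) sy1 sy2 sy3 sy4 (by omega) (by omega) (by omega) (by omega) (by omega) (by omega) (by omega) (by omega) (by omega) (by omega) (by omega) (by omega) (by omega) (by omega) (by omega) (by omega) (by omega)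 (by omega) hex2 ky1 ky2 ky3 ky4
    omega
  · have hmem : ∀ w, w ∈ LL G c 2 ↔ w = y1 ∨ w = y2 ∨ w = y3 ∨ w = y4 := by intro w; rw [hLL]; simp
    have hsum : 26 ≤ (G.dist y1 p + G.dist y1 q + G.dist y1 s) + (G.dist y2 p + G.dist y2 q + G.dist y2 s) + (G.dist y3 p + G.dist y3 q + G.dist y3 s) + (G.dist y4 p + G.dist y4 q + G.dist y4 s) := by
      rcases (hmem w2).1 hw2 with rfl | rfl | rfl | rfl <;> omega
    have hpair : 7 ≤ G.dist y1 y2 + G.dist y1 y3 + G.dist y1 y4 + G.dist y2 y3 + G.dist y2 y4 + G.dist y3 y4 := by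
      rcases (hmem w1).1 hw1 with rfl | rfl | rfl | rfl <;> rcases (hmem w2).1 hw2 with rfl | rfl | rfl | rfl
      · rw [SimpleGraph.dist_self] at g3; omega
      · omega
      · omega
      · omega
      · rw [sym] at g3; omega
      · rw [SimpleGraph.dist_self] at g3; omega
      · omega
      · omega
      · rw [sym] at g3; omega
      · rw [sym] at g3; omega
      · rw [SimpleGraph.dist_self] at g3; omega
      · omega
      · rw [sym] at g3; omega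
      · rw [sym] at g3; omega
      · rw [sym] at g3; omega
      · rw [SimpleGraph.dist_self] at g3; omega
    omega

end Pool.Agent.BagR

end

section

/-!
Outer sum of a vertex at distance 2, k = 2 (item S2b).
-/

namespace Pool.Agent.BagR

open Finset

/-- Deficits of the counts. -/
def dfc (j : ℕ) : ℕ := if j = 2 then 3 else if j = 3 then 2 else if j = 4 then 1 else 0

theorem sum_dfc (ρ : ℕ) (h : 3 ≤ ρ) : ∑ j ∈ Icc 2 (ρ + 1), dfc j = 6 := by
  induction ρ, h using Nat.le_induction with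
  | base => decide
  | succ n hn ih =>
    rw [sum_Icc_succ_top (by omega), ih]
    have : dfc (n + 1 + 1) = 0 := by
      unfold dfc
      rw [if_neg (by omega), if_neg (by omega), if_neg (by omega)]
    omega

theorem sum_two_mul_Icc (ρ : ℕ) : ∑ j ∈ Icc 2 (ρ + 1), 2 * j = ρ * (ρ + 3) := by
  induction ρ with
  | zero => decide
  | succ n ih =>
    rw [sum_Icc_succ_top (by omega), ih]
    ring

theorem pr_s2_two (ha : S_cov_a) (hb : S_cov_b) (hs : S_sum_NN) : S_s2_two := by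
  intro V _ _ G hG ρ hρ hR c w hcw
  have h0 := hs V G c 2 w (ρ + 1)
  have h1 : ∀ j ∈ Icc 2 (ρ + 1), 2 * (ρ + 1) + 1 ≤ NN G c 2 w j + 2 * j + dfc j := by
    intro j hj
    rw [mem_Icc] at hj
    rcases Nat.lt_or_ge j 5 with h | h
    · have h2 := hb V G hG (ρ + 1) hR c w 2 j (by omega) (by omega) (by omega)
      rw [hcw] at h2
      have h3 : j = 2 ∨ j = 3 ∨ j = 4 := by omega
      rcases h3 with rfl | rfl | rfl <;> simp only [dfc] <;> norm_num <;> omega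
    · have h2 := ha V G hG (ρ + 1) hR c w 2 j (by omega)
      omega
  have h2 := sum_le_sum h1
  rw [sum_const, Nat.card_Icc, smul_eq_mul, sum_add_distrib, sum_add_distrib, sum_dfc ρ hρ,
    sum_two_mul_Icc] at h2
  have h3 : ρ + 1 + 1 - 2 = ρ := by omega
  rw [h3] at h2
  have h4 : ρ * (2 * (ρ + 1) + 1) = ρ ^ 2 + ρ * (ρ + 3) := by ring
  rw [h4] at h2
  omega

end Pool.Agent.BagR

end

section

namespace Pool.Agent.BagR

open Finset

theorem S2c_sq (f : ℕ → ℕ) (r : ℕ) : ∀ n, n ≤ r →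
    (∀ j ∈ Icc (r + 1 - n) r, 2 * r + 1 ≤ f j + 2 * j) →
    n ^ 2 ≤ ∑ j ∈ Icc (r + 1 - n) r, f j := by
  intro n
  induction n with
  | zero => intro _ _; simp
  | succ n ih =>
    intro hn h
    have hI : Icc (r + 1 - (n + 1)) r = insert (r - n) (Icc (r + 1 - n) r) := by
      ext j
      simp only [mem_Icc, mem_insert]
      omega
    have hnot : r - n ∉ Icc (r + 1 - n) r := by
      simp only [mem_Icc]
      omega
    rw [hI, sum_insert hnot]
    have h1 := ih (by omega) fun j hj => h j (by rw [hI]; exact mem_insert_of_mem hj)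
    have h2 := h (r - n) (by rw [hI]; exact mem_insert_self _ _)
    have h3 : 2 * n + 1 ≤ f (r - n) := by omega
    nlinarith

theorem S2c_main (f c : ℕ → ℕ) (ρ : ℕ)
    (h : ∀ j ∈ Icc 2 (ρ + 1), 2 * (ρ + 1) + 1 ≤ f j + c j + 2 * j) :
    ρ ^ 2 ≤ ∑ j ∈ Icc 2 (ρ + 1), f j + ∑ j ∈ Icc 2 (ρ + 1), c j := by
  rw [← sum_add_distrib]
  have h1 := S2c_sq (fun j => f j + c j) (ρ + 1) ρ (by omega)
  have e : ρ + 1 + 1 - ρ = 2 := by omega
  rw [e] at h1
  exact h1 h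

/-- The deficit. -/
def S2c_c (i j : ℕ) : ℕ := if j + 2 ≤ i then 5 else i + 3 - j

theorem S2c_sum (i : ℕ) (hi : 3 ≤ i) (m : ℕ) (hm : 1 ≤ m) :
    (m + 2 ≤ i → ∑ j ∈ Icc 2 m, S2c_c i j + 5 = 5 * m) ∧
    (m + 1 = i → ∑ j ∈ Icc 2 m, S2c_c i j + 11 = 5 * i) ∧
    (m = i → ∑ j ∈ Icc 2 m, S2c_c i j + 8 = 5 * i) ∧
    (m = i + 1 → ∑ j ∈ Icc 2 m, S2c_c i j + 6 = 5 * i) ∧
    (i + 2 ≤ m → ∑ j ∈ Icc 2 m, S2c_c i j + 5 = 5 * i) := by
  induction m, hm using Nat.le_induction with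
  | base =>
    have e : Icc 2 1 = (∅ : Finset ℕ) := by decide
    rw [e, sum_empty]
    omega
  | succ m hm ih =>
    rw [sum_Icc_succ_top (by omega)]
    have e : S2c_c i (m + 1) = if m + 1 + 2 ≤ i then 5 else i + 3 - (m + 1) := rfl
    rw [e]
    obtain ⟨h1, h2, h3, h4, h5⟩ := ih
    split_ifs with hh
    · refine ⟨fun _ => ?_, fun h => ?_, fun h => ?_, fun h => ?_, fun h => ?_⟩
      · have := h1 (by omega)
        omega
      all_goals omega
    · refine ⟨fun h => ?_, fun h => ?_, fun h => ?_, fun h => ?_, fun h => ?_⟩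
      · omega
      · have := h1 (by omega)
        omega
      · have := h2 (by omega)
        omega
      · have := h3 (by omega)
        omega
      · by_cases hq : m = i + 1
        · have := h4 hq
          omega
        · have := h5 (by omega)
          omega

theorem pr_s2_far (ha : S_cov_a) (hb : S_cov_b) (hc : S_cov_c) (hs : S_sum_NN) :
    S_s2_far := by
  intro V _ _ G hG ρ hρ hR c u hu
  have h0 := hs V G c 2 u (ρ + 1)
  have hfa : ∀ j, G.dist c u + 2 + 1 ≤ j → 2 * (ρ + 1) + 1 ≤ NN G c 2 u j + 2 * j :=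
    fun j hj => ha V G hG (ρ + 1) hR c u 2 j hj
  have hfb : ∀ j, 1 ≤ j → j ≤ G.dist c u + 2 + 1 →
      2 * (ρ + 1) ≤ NN G c 2 u j + (G.dist c u + j + 2) :=
    fun j h1 h2 => hb V G hG (ρ + 1) hR c u 2 j h1 (by omega) h2
  have hfc : ∀ j, 1 ≤ j → 2 * (ρ + 1) ≤ NN G c 2 u j + 2 * j + 2 * 2 :=
    fun j h1 => hc V G hG (ρ + 1) hR c u 2 j h1
  set i := G.dist c u with hidef
  have h3 : ρ + 1 ≤ i → ρ ^ 2 + 6 ≤ eS G (FF G c 2) u + 5 * (i - 1) := by
    intro hi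
    have hm := S2c_main (NN G c 2 u)
      (fun j => if j = ρ + 1 then 1 else if j = ρ then 3 else 5) ρ (by
        intro j hj
        rw [mem_Icc] at hj
        have := hfc j (by omega)
        split_ifs <;> omega)
    obtain ⟨m, rfl⟩ : ∃ m, ρ = m + 3 := ⟨ρ - 3, by omega⟩
    have hsum : ∑ j ∈ Icc 2 (m + 3 + 1),
        (if j = m + 3 + 1 then 1 else if j = m + 3 then 3 else 5) = 5 * m + 9 := by
      rw [sum_Icc_succ_top (by omega), sum_Icc_succ_top (by omega)]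
      have e : ∑ j ∈ Icc 2 (m + 2),
        (if j = m + 3 + 1 then 1 else if j = m + 3 then 3 else 5) = ∑ j ∈ Icc 2 (m + 2), 5 := by
        apply sum_congr rfl
        intro j hj
        rw [mem_Icc] at hj
        rw [if_neg (by omega), if_neg (by omega)]
      rw [e, sum_const, Nat.card_Icc, smul_eq_mul, if_pos rfl, if_neg (by omega), if_pos rfl]
      omega
    rw [hsum] at hm
    omega
  have h2 : ρ ≤ i → ρ ^ 2 + 2 ≤ eS G (FF G c 2) u + 5 * (i - 1) := by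
    intro hi
    by_cases hq : ρ + 1 ≤ i
    · have := h3 hq
      omega
    have hi' : i = ρ := by omega
    have hm := S2c_main (NN G c 2 u)
      (fun j => if j = ρ + 1 then 1 else S2c_c i j) ρ (by
        intro j hj
        rw [mem_Icc] at hj
        have g1 := hfc j (by omega)
        have g2 := hfb j (by omega) (by omega)
        unfold S2c_c
        split_ifs <;> omega)
    have hsum : ∑ j ∈ Icc 2 (ρ + 1), (if j = ρ + 1 then 1 else S2c_c i j)
        = ∑ j ∈ Icc 2 ρ, S2c_c i j + 1 := by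
      rw [sum_Icc_succ_top (by omega), if_pos rfl]
      congr 1
      apply sum_congr rfl
      intro j hj
      rw [mem_Icc] at hj
      rw [if_neg (by omega)]
    rw [hsum] at hm
    have hs3 := (S2c_sum i hu ρ (by omega)).2.2.1 hi'.symm
    omega
  have h1 : ρ ^ 2 ≤ eS G (FF G c 2) u + 5 * (i - 1) := by
    by_cases hq : ρ ≤ i
    · have := h2 hq
      omega
    have hm := S2c_main (NN G c 2 u) (S2c_c i) ρ (by
        intro j hj
        rw [mem_Icc] at hj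
        have g1 := hfc j (by omega)
        unfold S2c_c
        by_cases hj3 : i + 2 + 1 ≤ j
        · have g3 := hfa j hj3
          split_ifs <;> omega
        · have g2 := hfb j (by omega) (by omega)
          split_ifs <;> omega)
    have hs4 := (S2c_sum i hu (ρ + 1) (by omega)).2.2.2.1
    have hs5 := (S2c_sum i hu (ρ + 1) (by omega)).2.2.2.2
    by_cases hi1 : ρ + 1 = i + 1
    · have := hs4 hi1
      omega
    · have := hs5 (by omega)
      omega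
  exact ⟨h1, h2, h3⟩

end Pool.Agent.BagR

end

section

/-!
Structure of bad neighbours, MP_bb6995_co.
-/

set_option autoImplicit false

namespace Pool.Agent.BagR

open Finset

/-- A vertex at prescribed distance on a geodesic. -/
theorem T3_between {V : Type} {G : SimpleGraph V} (hG : G.Connected) (u v : V) {k : ℕ}
    (hk : k ≤ G.dist u v) :
    ∃ x, G.dist u x = k ∧ G.dist x v = G.dist u v - k := by
  obtain ⟨w, hw⟩ := hG.exists_walk_length_eq_dist u v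
  refine ⟨w.getVert k, ?_⟩
  have h1 : G.dist u (w.getVert k) ≤ k := by
    have := SimpleGraph.dist_le (w.take k)
    rw [SimpleGraph.Walk.take_length] at this
    omega
  have h2 : G.dist (w.getVert k) v ≤ G.dist u v - k := by
    have := SimpleGraph.dist_le (w.drop k)
    rw [SimpleGraph.Walk.drop_length] at this
    omega
  have h3 := hG.dist_triangle (u := u) (v := w.getVert k) (w := v)
  omega

theorem pr_bad_struct (h1 : S_bad_eq) (h2 : S_tight) : S_bad_struct := by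
  intro V _ _ G hG ρ x hρ hr c w hx he hw hbad
  obtain ⟨hb2, hb1⟩ := h1 V G hG ρ x (by omega) hr c w hx hw hbad
  obtain ⟨hL2, _, hecc, _, _⟩ := h2 V G hG ρ x hρ hr c hx he
  have tri : ∀ a b d : V, G.dist a d ≤ G.dist a b + G.dist b d := fun a b d => hG.dist_triangle
  have sym : ∀ a b : V, G.dist a b = G.dist b a := fun a b => SimpleGraph.dist_comm
  have hsub : ((FF G c 1).filter fun v => G.dist w v = 1) ⊆ LL G c 2 := by
    intro v hv
    simp only [FF, LL, Finset.mem_filter, Finset.mem_univ, true_and] at hv ⊢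
    have := tri c w v
    omega
  have hone : (LL G c 2 \ ((FF G c 1).filter fun v => G.dist w v = 1)).card = 1 := by
    rw [Finset.card_sdiff_of_subset hsub, hb1, hL2]
    omega
  obtain ⟨y₀, hy₀⟩ := Finset.card_eq_one.1 hone
  have hmem : ∀ y, G.dist c y = 2 → (y = y₀ ↔ G.dist w y ≠ 1) := by
    intro y hy
    have : y ∈ LL G c 2 \ ((FF G c 1).filter fun v => G.dist w v = 1) ↔ y = y₀ := by
      rw [hy₀, Finset.mem_singleton]
    rw [← this]
    simp only [FF, LL, Finset.mem_sdiff, Finset.mem_filter, Finset.mem_univ, true_and]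
    constructor
    · rintro ⟨_, h⟩ h'
      exact h ⟨by omega, h'⟩
    · intro h
      exact ⟨hy, fun h' => h h'.2⟩
  have hcy : G.dist c y₀ = 2 := by
    have : y₀ ∈ LL G c 2 \ ((FF G c 1).filter fun v => G.dist w v = 1) := by
      rw [hy₀, Finset.mem_singleton]
    simp only [FF, LL, Finset.mem_sdiff, Finset.mem_filter, Finset.mem_univ, true_and] at this
    exact this.1
  have hd1 : G.dist w y₀ ≠ 1 := (hmem y₀ hcy).1 rfl
  have hd0 : 1 ≤ G.dist w y₀ := by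
    have := tri c w y₀
    omega
  refine ⟨y₀, hcy, ?_, ?_⟩
  · by_contra hcon
    have hd2 : G.dist w y₀ = 2 := by omega
    obtain ⟨v₀, hv₀⟩ := Finset.card_eq_one.1 hb2
    have hu : ∀ v, 1 < G.dist c v → G.dist w v = 2 → v = v₀ := by
      intro v hv hwv
      have : v ∈ (FF G c 1).filter fun v => G.dist w v = 2 := by
        simp only [FF, Finset.mem_filter, Finset.mem_univ, true_and]
        exact ⟨hv, hwv⟩
      rw [hv₀, Finset.mem_singleton] at this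
      exact this
    have hyv : y₀ = v₀ := hu y₀ (by omega) hd2
    -- far vertices
    have hfar : ∀ v, 3 ≤ G.dist c v → G.dist y₀ v + 2 ≤ G.dist c v := by
      intro v hv
      obtain ⟨u3, h31, h32⟩ := T3_between hG c v (k := 3) hv
      obtain ⟨u2, h21, h22⟩ := T3_between hG c u3 (k := 2) (by omega)
      have h23 : G.dist u2 u3 = 1 := by omega
      have hy : u2 = y₀ := by
        by_contra hne
        have h24 : G.dist w u2 = 1 := by
          by_contra h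
          exact hne ((hmem u2 h21).2 h)
        have h25 := tri w u2 u3
        have h26 := tri c w u3
        have h27 : G.dist w u3 = 2 := by omega
        have h28 : u3 = y₀ := (hu u3 (by omega) h27).trans hyv.symm
        rw [h28] at h31
        omega
      have := tri y₀ u3 v
      rw [← hy] at this ⊢
      omega
    obtain ⟨v, hv⟩ := hr y₀
    have hcv := hecc v
    rcases Nat.lt_or_ge (G.dist c v) 3 with h | h
    · rcases Nat.lt_or_ge (G.dist c v) 2 with h' | h'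
      · have := tri y₀ c v
        rw [sym y₀ c] at this
        omega
      · have h2v : G.dist c v = 2 := by omega
        by_cases hvy : v = y₀
        · rw [hvy, SimpleGraph.dist_self] at hv
          omega
        · have h24 : G.dist w v = 1 := by
            by_contra h
            exact hvy ((hmem v h2v).2 h)
          have := tri y₀ w v
          rw [sym y₀ w] at this
          omega
    · have := hfar v h
      omega
  · intro y hy hne
    have h24 : G.dist w y = 1 := by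
      by_contra h
      exact hne ((hmem y hy).2 h)
    exact SimpleGraph.dist_eq_one_iff_adj.1 h24

end Pool.Agent.BagR

end

section

/-!
MP_bb6995_co, item W3 (helper17): width of the union of two balls.
-/

set_option autoImplicit false

namespace Pool.Agent.BagR

open Finset

theorem pr_wid_two : S_wid_two := by
  intro V _ _ G hG c u k j hj h1 h2
  obtain ⟨P, hP0, hPu, hP⟩ := exists_geo hG c u
  obtain ⟨t, ht⟩ : ∃ t, t = (G.dist c u + j - k - 1) / 2 := ⟨_, rfl⟩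
  obtain ⟨t', ht'⟩ : ∃ t', t' = (G.dist c u + j - k - 1) - t := ⟨_, rfl⟩
  have a1 : t ≤ t' := by omega
  have a2 : t' ≤ G.dist c u := by omega
  have a3 : t' ≤ t + 1 := by omega
  have e1 := hP 0 t (Nat.zero_le _) (a1.trans a2)
  have e2 := hP t (G.dist c u) (a1.trans a2) le_rfl
  have e1' := hP 0 t' (Nat.zero_le _) a2
  have e2' := hP t' (G.dist c u) a2 le_rfl
  have e3 := hP t t' a1 a2
  rw [hP0] at e1 e1'
  rw [hPu] at e2 e2'
  refine ⟨P t, P t', by omega, fun x hx => ?_⟩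
  have f1 := (mem_filter.1 hx).2
  have g1 := hG.dist_triangle (u := P t) (v := c) (w := x)
  rw [G.dist_comm (u := P t) (v := c)] at g1
  have g1' := hG.dist_triangle (u := P t') (v := c) (w := x)
  rw [G.dist_comm (u := P t') (v := c)] at g1'
  have g2 := hG.dist_triangle (u := P t) (v := u) (w := x)
  have g2' := hG.dist_triangle (u := P t') (v := u) (w := x)
  omega

end Pool.Agent.BagR

end

section

/-!
MP_bb6995_co, item W5 (helper17): covering numbers (a), (b).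
-/

set_option autoImplicit false

namespace Pool.Agent.BagR

open Finset

theorem pr_cov_a (h1 : S_wid_self) (h2 : S_cover_one) : S_cov_a := by
  intro V _ _ G hG r hr c u k j hj
  obtain ⟨i, rfl⟩ : ∃ i, j = i + 1 := ⟨j - 1, by omega⟩
  have hS : (univ.filter fun v => G.dist u v ≤ i).Nonempty :=
    ⟨u, mem_filter.2 ⟨mem_univ _, by rw [SimpleGraph.dist_self]; omega⟩⟩
  have h3 := h2 V G hG r _ hr _ hS (h1 V G u i)
  have h4 : (univ \ univ.filter fun v => G.dist u v ≤ i).card ≤ NN G c k u (i + 1) := by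
    refine card_le_card fun v hv => ?_
    rw [mem_sdiff] at hv
    have h5 : ¬ G.dist u v ≤ i := fun h => hv.2 (mem_filter.2 ⟨mem_univ _, h⟩)
    refine mem_filter.2 ⟨mem_univ _, ?_, by omega⟩
    have h6 := hG.dist_triangle (u := u) (v := c) (w := v)
    rw [G.dist_comm (u := u) (v := c)] at h6
    omega
  omega

theorem pr_cov_b (h1 : S_wid_two) (h2 : S_cover_one) : S_cov_b := by
  intro V _ _ G hG r hr c u k j hj hk hjk
  have hS : (univ.filter fun v => ¬ (k < G.dist c v ∧ j ≤ G.dist u v)).Nonempty :=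
    ⟨c, mem_filter.2 ⟨mem_univ _, by rw [SimpleGraph.dist_self]; omega⟩⟩
  have h3 := h2 V G hG r _ hr _ hS (h1 V G hG c u k j hj hk hjk)
  have h4 : (univ \ univ.filter fun v => ¬ (k < G.dist c v ∧ j ≤ G.dist u v)).card
      ≤ NN G c k u j := by
    refine card_le_card fun v hv => ?_
    rw [mem_sdiff] at hv
    refine mem_filter.2 ⟨mem_univ _, ?_⟩
    by_contra h
    exact hv.2 (mem_filter.2 ⟨mem_univ _, h⟩)
  omega

end Pool.Agent.BagR

end
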